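import Pool.Agent.Lib.MP_e941ef_an.Defs

namespace Pool.Agent.Lib.MP_e941ef_an

open Complex Metric Set Filter Topology
open scoped ComplexConjugate ContDiff

/-- The derivative of a holomorphic function on a normed space is continuous. -/
theorem holo_fderiv_cont {E : Type} [NormedAddCommGroup E] [NormedSpace ℂ E] {f : E → ℂ}
    {U : Set E} (hU : IsOpen U) (hf : DifferentiableOn ℂ f U) :
    ContinuousOn (fderiv ℂ f) U := by
  intro z0 hz0
  refine ContinuousAt.continuousWithinAt ?_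
  have hU0 : U ∈ 𝓝 z0 := hU.mem_nhds hz0
  have hc : ContinuousAt f z0 := (hf.differentiableAt hU0).continuousAt
  have h1 : ∀ᶠ y in 𝓝 z0, y ∈ U ∧ dist (f y) (f z0) < 1 :=
    (show ∀ᶠ y in 𝓝 z0, y ∈ U from hU0).and (hc.eventually (ball_mem_nhds (f z0) one_pos))
  obtain ⟨δ, hδ, hball⟩ := Metric.eventually_nhds_iff_ball.mp h1
  set R := δ / 3 with hR
  have hR0 : 0 < R := by positivity
  have hδR : δ = 3 * R := by rw [hR]; ring
  have hdiff : ∀ y ∈ ball z0 δ, DifferentiableAt ℂ f y := fun y hy =>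
    hf.differentiableAt (hU.mem_nhds (hball y hy).1)
  have hbd : ∀ y ∈ ball z0 (2 * R), ‖fderiv ℂ f y‖ ≤ 2 / R := by
    intro y hy
    have hsub : ball y R ⊆ ball z0 δ := by
      apply ball_subset_ball'
      rw [mem_ball] at hy
      linarith
    refine norm_fderiv_le_div_of_mapsTo_ball
      (fun x hx => (hdiff x (hsub hx)).differentiableWithinAt) ?_ hR0
    intro x hx
    have a1 := (hball x (hsub hx)).2
    have a2 := (hball y (hsub (mem_ball_self hR0))).2
    rw [mem_closedBall]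
    have a3 := dist_triangle_right (f x) (f y) (f z0)
    linarith
  have hsub2 : ball z0 (2 * R) ⊆ ball z0 δ := ball_subset_ball (by linarith)
  have hlip : ∀ x ∈ ball z0 (2 * R), ∀ y ∈ ball z0 (2 * R), ‖f y - f x‖ ≤ 2 / R * ‖y - x‖ := by
    intro x hx y hy
    exact (convex_ball z0 (2 * R)).norm_image_sub_le_of_norm_fderiv_le
      (fun x hx => hdiff x (hsub2 hx)) hbd hx hy
  have key : ∀ z ∈ ball z0 R, ‖fderiv ℂ f z - fderiv ℂ f z0‖ ≤ 4 / R / R * ‖z - z0‖ := by
    intro z hz
    have m1 : ∀ y ∈ ball (0 : E) R, y + z ∈ ball z0 (2 * R) := by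
      intro y hy
      rw [mem_ball_zero_iff] at hy
      rw [mem_ball_iff_norm] at hz ⊢
      have : y + z - z0 = y + (z - z0) := by abel
      rw [this]
      have := norm_add_le y (z - z0)
      linarith
    have m2 : ∀ y ∈ ball (0 : E) R, y + z0 ∈ ball z0 (2 * R) := by
      intro y hy
      rw [mem_ball_zero_iff] at hy
      rw [mem_ball_iff_norm]
      have : y + z0 - z0 = y := by abel
      rw [this]
      linarith
    have hg : ∀ y ∈ ball (0 : E) R, HasFDerivAt (fun y => f (y + z) - f (y + z0))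
        (fderiv ℂ f (y + z) - fderiv ℂ f (y + z0)) y := by
      intro y hy
      have d1 := (hdiff _ (hsub2 (m1 y hy))).hasFDerivAt
      have d2 := (hdiff _ (hsub2 (m2 y hy))).hasFDerivAt
      exact ((hasFDerivAt_comp_add_right z).2 d1).sub ((hasFDerivAt_comp_add_right z0).2 d2)
    have hn : ∀ y ∈ ball (0 : E) R, ‖f (y + z) - f (y + z0)‖ ≤ 2 / R * ‖z - z0‖ := by
      intro y hy
      have := hlip _ (m2 y hy) _ (m1 y hy)
      have e : y + z - (y + z0) = z - z0 := by abel
      rwa [e] at this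
    have hS := norm_fderiv_le_div_of_mapsTo_ball (f := fun y => f (y + z) - f (y + z0))
      (c := 0) (R₁ := R) (R₂ := 4 / R * ‖z - z0‖)
      (fun y hy => (hg y hy).differentiableAt.differentiableWithinAt) (by
        intro y hy
        rw [mem_closedBall, dist_eq_norm]
        have b1 := hn y hy
        have b2 := hn 0 (mem_ball_self hR0)
        have b3 := norm_sub_le (f (y + z) - f (y + z0)) (f (0 + z) - f (0 + z0))
        have e : 4 / R * ‖z - z0‖ = 2 / R * ‖z - z0‖ + 2 / R * ‖z - z0‖ := by ring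
        linarith) hR0
    rw [(hg 0 (mem_ball_self hR0)).fderiv, zero_add, zero_add] at hS
    refine hS.trans (le_of_eq ?_)
    ring
  rw [ContinuousAt, tendsto_iff_norm_sub_tendsto_zero]
  have hlim : Tendsto (fun z => 4 / R / R * ‖z - z0‖) (𝓝 z0) (𝓝 0) := by
    have : Continuous (fun z : E => 4 / R / R * ‖z - z0‖) := by fun_prop
    simpa using this.tendsto z0
  refine squeeze_zero' (Eventually.of_forall fun _ => norm_nonneg _) ?_ hlim
  filter_upwards [ball_mem_nhds z0 hR0] with z hz using key z hz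

/-- Integrals along a fixed path of holomorphic families are holomorphic (any parameter space). -/
theorem holo_integral_gen {P : Type} [NormedAddCommGroup P] [NormedSpace ℂ P]
    {Φ : P × ℂ → ℂ} {W : Set (P × ℂ)} (hW : IsOpen W) (hΦ : DifferentiableOn ℂ Φ W)
    {γ : ℝ → ℂ} (hγ : Continuous γ) {U : Set P} (hU : IsOpen U) {a b : ℝ}
    (h : ∀ p ∈ U, ∀ t ∈ uIcc a b, (p, γ t) ∈ W) :
    DifferentiableOn ℂ (fun p => ∫ t in a..b, Φ (p, γ t)) U := by
  intro p0 hp0
  refine DifferentiableAt.differentiableWithinAt ?_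
  have hD := holo_fderiv_cont hW hΦ
  have hpath : ∀ p : P, Continuous (fun t : ℝ => (p, γ t)) := fun p => by fun_prop
  have hF : ∀ p ∈ U, ContinuousOn (fun t => Φ (p, γ t)) (uIcc a b) := fun p hp =>
    hΦ.continuousOn.comp (hpath p).continuousOn (fun t ht => h p hp t ht)
  have hD0 : ContinuousOn (fun t => fderiv ℂ Φ (p0, γ t)) (uIcc a b) :=
    hD.comp (hpath p0).continuousOn (fun t ht => h p0 hp0 t ht)
  obtain ⟨C, hC⟩ := isCompact_uIcc.exists_bound_of_continuousOn hD0
  have hev : ∀ᶠ p in 𝓝 p0, ∀ t ∈ uIcc a b,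
      (p, γ t) ∈ W ∧ ‖fderiv ℂ Φ (p, γ t)‖ < C + 1 := by
    refine isCompact_uIcc.eventually_forall_of_forall_eventually
      (P := fun p t => (p, γ t) ∈ W ∧ ‖fderiv ℂ Φ (p, γ t)‖ < C + 1) ?_
    intro t ht
    have hm : Continuous (fun z : P × ℝ => (z.1, γ z.2)) := by fun_prop
    have hW0 : W ∈ 𝓝 (p0, γ t) := hW.mem_nhds (h p0 hp0 t ht)
    have c1 : ContinuousAt (fun x => ‖fderiv ℂ Φ x‖) (p0, γ t) := (hD.continuousAt hW0).norm
    have e1 : ∀ᶠ x in 𝓝 (p0, γ t), x ∈ W ∧ ‖fderiv ℂ Φ x‖ < C + 1 :=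
      (show ∀ᶠ x in 𝓝 (p0, γ t), x ∈ W from hW0).and
        (c1.eventually (gt_mem_nhds (lt_of_le_of_lt (hC t ht) (lt_add_one C))))
    exact (hm.tendsto (p0, t)).eventually e1
  have hI : uIoc a b ⊆ uIcc a b := uIoc_subset_uIcc
  have main := intervalIntegral.hasFDerivAt_integral_of_dominated_of_fderiv_le (𝕜 := ℂ)
    (μ := MeasureTheory.volume) (a := a) (b := b) (bound := fun _ => C + 1)
    (F := fun p t => Φ (p, γ t))
    (F' := fun p t => (fderiv ℂ Φ (p, γ t)).comp (ContinuousLinearMap.inl ℂ P ℂ)) (x₀ := p0)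
    hev ?_ ?_ ?_ ?_ ?_ ?_
  · exact main.differentiableAt
  · filter_upwards [hU.mem_nhds hp0] with p hp
    exact ((hF p hp).mono hI).aestronglyMeasurable measurableSet_uIoc
  · exact (hF p0 hp0).intervalIntegrable
  · refine ContinuousOn.aestronglyMeasurable ?_ measurableSet_uIoc
    exact (hD0.mono hI).clm_comp continuousOn_const
  · refine Eventually.of_forall fun t ht p hp => ?_
    have b1 := (hp t (hI ht)).2
    refine (ContinuousLinearMap.opNorm_comp_le _ _).trans ?_
    have b2 : ‖ContinuousLinearMap.inl ℂ P ℂ‖ ≤ 1 := ContinuousLinearMap.norm_inl_le_one ℂ P ℂ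
    calc ‖fderiv ℂ Φ (p, γ t)‖ * ‖ContinuousLinearMap.inl ℂ P ℂ‖
        ≤ ‖fderiv ℂ Φ (p, γ t)‖ * 1 := mul_le_mul_of_nonneg_left b2 (norm_nonneg _)
      _ ≤ C + 1 := by linarith
  · exact intervalIntegrable_const
  · refine Eventually.of_forall fun t ht p hp => ?_
    have d1 := (hΦ.differentiableAt (hW.mem_nhds (hp t (hI ht)).1)).hasFDerivAt
    exact d1.comp p (hasFDerivAt_prodMk_left p (γ t))

/-- The derivative of a holomorphic function of several variables is holomorphic. -/
theorem holo_fderiv {E : Type} [NormedAddCommGroup E] [NormedSpace ℂ E] {f : E → ℂ} {U : Set E}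
    (hU : IsOpen U) (hf : DifferentiableOn ℂ f U) (w : E) :
    DifferentiableOn ℂ (fun z => fderiv ℂ f z w) U := by
  intro z0 hz0
  refine DifferentiableAt.differentiableWithinAt ?_
  obtain ⟨δ, hδ, hball⟩ := Metric.isOpen_iff.mp hU z0 hz0
  set r : ℝ := δ / 2 / (‖w‖ + 1) with hr
  have hr0 : 0 < r := by positivity
  have hrw : r * ‖w‖ ≤ δ / 2 := by
    have : r * (‖w‖ + 1) = δ / 2 := by rw [hr]; field_simp
    nlinarith [norm_nonneg w]
  have hmem : ∀ z ∈ ball z0 (δ / 2), ∀ t : ℂ, ‖t‖ ≤ r → z + t • w ∈ U := by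
    intro z hz t ht
    apply hball
    rw [mem_ball_iff_norm] at hz ⊢
    have e : z + t • w - z0 = (z - z0) + t • w := by abel
    rw [e]
    have b1 := norm_add_le (z - z0) (t • w)
    have b2 : ‖t • w‖ ≤ r * ‖w‖ := by
      rw [norm_smul]; exact mul_le_mul_of_nonneg_right ht (norm_nonneg _)
    linarith
  have hm : Continuous (fun x : E × ℂ => x.1 + x.2 • w) := by fun_prop
  have hmd : Differentiable ℂ (fun x : E × ℂ => x.1 + x.2 • w) := by fun_prop
  have hW : IsOpen {x : E × ℂ | x.2 ≠ 0 ∧ x.1 + x.2 • w ∈ U} :=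
    (isOpen_ne_fun continuous_snd continuous_const).inter (hU.preimage hm)
  have hΦ : DifferentiableOn ℂ (fun x : E × ℂ => (x.2 * I) • ((x.2 ^ 2)⁻¹ • f (x.1 + x.2 • w)))
      {x : E × ℂ | x.2 ≠ 0 ∧ x.1 + x.2 • w ∈ U} := by
    intro x hx
    refine DifferentiableAt.differentiableWithinAt ?_
    have d1 : DifferentiableAt ℂ (fun x : E × ℂ => f (x.1 + x.2 • w)) x :=
      (hf.differentiableAt (hU.mem_nhds hx.2)).comp x (hmd x)
    have d2 : DifferentiableAt ℂ (fun x : E × ℂ => (x.2 ^ 2)⁻¹) x :=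
      (differentiableAt_snd.pow 2).inv (pow_ne_zero 2 hx.1)
    exact (differentiableAt_snd.mul_const I).smul (d2.smul d1)
  have hI := holo_integral_gen hW hΦ (γ := circleMap 0 r) (continuous_circleMap 0 r)
    (U := ball z0 (δ / 2)) isOpen_ball (a := 0) (b := 2 * Real.pi) (by
      intro z hz t _
      refine ⟨circleMap_ne_center hr0.ne', hmem z hz _ ?_⟩
      simp [abs_of_pos hr0])
  have hI0 := ((hI.differentiableAt (ball_mem_nhds z0 (half_pos hδ))).const_smul
    (2 * Real.pi * I : ℂ)⁻¹)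
  refine hI0.congr_of_eventuallyEq ?_
  filter_upwards [ball_mem_nhds z0 (half_pos hδ)] with z hz
  have hl : Continuous (fun t : ℂ => z + t • w) := by fun_prop
  have hld : Differentiable ℂ (fun t : ℂ => z + t • w) := by fun_prop
  have hg : DifferentiableOn ℂ (fun t : ℂ => f (z + t • w)) {t : ℂ | z + t • w ∈ U} :=
    hf.comp hld.differentiableOn (fun t ht => ht)
  have hc := cderiv_eq_deriv (hU.preimage hl) hg hr0 (z := 0) (by
    intro t ht
    exact hmem z hz t (by simpa using ht))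
  have hzU : z ∈ U := by simpa using hmem z hz 0 (by simpa using hr0.le)
  have hd : HasDerivAt (fun t : ℂ => f (z + t • w)) (fderiv ℂ f z w) 0 := by
    have d1 : HasFDerivAt f (fderiv ℂ f z) (z + (0 : ℂ) • w) := by
      simpa using (hf.differentiableAt (hU.mem_nhds hzU)).hasFDerivAt
    have d2 : HasDerivAt (fun t : ℂ => z + t • w) w 0 := by
      simpa using ((hasDerivAt_id (0 : ℂ)).smul_const w).const_add z
    exact d1.comp_hasDerivAt (0 : ℂ) d2
  rw [← hd.deriv, ← hc, cderiv, circleIntegral]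
  simp only [deriv_circleMap, sub_zero, Pi.smul_apply]

/-- A holomorphic function of finitely many variables is smooth. -/
theorem holo_contDiffOn {E : Type} [NormedAddCommGroup E] [NormedSpace ℂ E] [FiniteDimensional ℂ E]
    {f : E → ℂ} {U : Set E} (hU : IsOpen U) (hf : DifferentiableOn ℂ f U) :
    ContDiffOn ℂ ∞ f U := by
  rw [contDiffOn_infty]
  intro n
  induction n generalizing f with
  | zero => simpa using hf.continuousOn
  | succ n ih =>
    rw [Nat.cast_succ, contDiffOn_succ_iff_fderiv_of_isOpen hU]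
    refine ⟨hf, by simp, ?_⟩
    rw [contDiffOn_clm_apply]
    intro y
    exact ih (holo_fderiv hU hf y)

/-- Integrals along a fixed path of holomorphic families are holomorphic. -/
theorem holo_integral {P : Type} [NormedAddCommGroup P] [NormedSpace ℂ P] [FiniteDimensional ℂ P]
    {Φ : P × ℂ → ℂ} {W : Set (P × ℂ)} (hW : IsOpen W) (hΦ : DifferentiableOn ℂ Φ W)
    {γ : ℝ → ℂ} (hγ : Continuous γ) {U : Set P} (hU : IsOpen U) {a b : ℝ}
    (h : ∀ p ∈ U, ∀ t ∈ uIcc a b, (p, γ t) ∈ W) :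
    DifferentiableOn ℂ (fun p => ∫ t in a..b, Φ (p, γ t)) U :=
  holo_integral_gen hW hΦ hγ hU h

/-- Circle averages of holomorphic families are holomorphic. -/
theorem holo_avg {P : Type} [NormedAddCommGroup P] [NormedSpace ℂ P] [FiniteDimensional ℂ P]
    {Φ : P × ℂ → ℂ} {W : Set (P × ℂ)} (hW : IsOpen W) (hΦ : DifferentiableOn ℂ Φ W)
    {U : Set P} (hU : IsOpen U) {r : ℝ} (hr : 0 < r)
    (h : ∀ p ∈ U, ∀ u : ℂ, ‖u‖ = r → (p, u) ∈ W) :
    DifferentiableOn ℂ (fun p => avg r (fun u => Φ (p, u))) U := by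
  have hI := holo_integral hW hΦ (γ := circleMap 0 r) (continuous_circleMap 0 r) hU
    (a := 0) (b := 2 * Real.pi) (by
      intro p hp t _
      exact h p hp _ (by simp [abs_of_pos hr]))
  have := hI.const_mul (((2 * Real.pi)⁻¹ : ℝ) : ℂ)
  refine this.congr ?_
  intro p _
  simp only [avg, Real.circleAverage, real_smul]

end Pool.Agent.Lib.MP_e941ef_an
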