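import Pool.Agent.Lib.MP_e941ef_an.Defs

namespace Pool.Agent.Lib.MP_e941ef_an

open Complex Metric Set Filter Topology
open scoped ComplexConjugate ContDiff

/-- Fixed points of a small holomorphic family depend holomorphically on the parameter. -/
theorem holo_fix {P : Type} [NormedAddCommGroup P] [NormedSpace ℂ P] {T : P × ℂ → ℂ} {U : Set P}
    (hU : IsOpen U) {ρ : ℝ} (hρ : 0 < ρ) (hT : DifferentiableOn ℂ T (U ×ˢ ball 0 (2 * ρ)))
    (hb : ∀ p ∈ U, ∀ s ∈ ball (0 : ℂ) (2 * ρ), ‖T (p, s)‖ ≤ ρ / 4) :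
    ∃ τ : P → ℂ, DifferentiableOn ℂ τ U ∧ ∀ p ∈ U, T (p, τ p) = τ p ∧ ‖τ p‖ ≤ ρ / 4 ∧
      ∀ s : ℂ, ‖s‖ ≤ ρ → T (p, s) = s → s = τ p := by
  have hW : IsOpen (U ×ˢ ball (0 : ℂ) (2 * ρ)) := hU.prod isOpen_ball
  have hsub : closedBall (0 : ℂ) ρ ⊆ ball 0 (2 * ρ) := closedBall_subset_ball (by linarith)
  have hTd : ∀ p ∈ U, ∀ s ∈ ball (0 : ℂ) (2 * ρ), DifferentiableAt ℂ T (p, s) :=
    fun p hp s hs => hT.differentiableAt (hW.mem_nhds ⟨hp, hs⟩)
  have hTs : ∀ p ∈ U, ∀ s ∈ ball (0 : ℂ) (2 * ρ),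
      DifferentiableAt ℂ (fun s : ℂ => T (p, s)) s := fun p hp s hs =>
    (hTd p hp s hs).comp s ((differentiableAt_const p).prodMk differentiableAt_id)
  have hder : ∀ p ∈ U, ∀ s ∈ closedBall (0 : ℂ) ρ,
      ‖fderiv ℂ (fun s : ℂ => T (p, s)) s‖ ≤ 1 / 2 := by
    intro p hp s hs
    have hs' : ball s ρ ⊆ ball 0 (2 * ρ) := by
      apply ball_subset_ball'
      rw [mem_closedBall] at hs
      linarith
    have := norm_fderiv_le_div_of_mapsTo_ball (f := fun s : ℂ => T (p, s)) (c := s) (R₁ := ρ)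
      (R₂ := ρ / 2) (fun x hx => (hTs p hp x (hs' hx)).differentiableWithinAt) (by
        intro x hx
        rw [mem_closedBall, dist_eq_norm]
        have a1 := hb p hp x (hs' hx)
        have a2 := hb p hp s (hsub hs)
        have a3 := norm_sub_le (T (p, x)) (T (p, s))
        linarith) hρ
    refine this.trans (le_of_eq ?_)
    field_simp
  have hlip : ∀ p ∈ U, ∀ x ∈ closedBall (0 : ℂ) ρ, ∀ y ∈ closedBall (0 : ℂ) ρ,
      ‖T (p, y) - T (p, x)‖ ≤ 1 / 2 * ‖y - x‖ := by
    intro p hp x hx y hy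
    exact (convex_closedBall (0 : ℂ) ρ).norm_image_sub_le_of_norm_fderiv_le
      (f := fun s : ℂ => T (p, s)) (fun x hx => hTs p hp x (hsub hx)) (hder p hp) hx hy
  have hex : ∀ p : P, ∃ t : ℂ, p ∈ U → t ∈ closedBall (0 : ℂ) ρ ∧ T (p, t) = t := by
    intro p
    by_cases hp : p ∈ U
    · have hmaps : MapsTo (fun s : ℂ => T (p, s)) (closedBall 0 ρ) (closedBall 0 ρ) := by
        intro x hx
        rw [mem_closedBall_zero_iff]
        have := hb p hp x (hsub hx)
        linarith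
      have hcon : ContractingWith (1 / 2) (hmaps.restrict _ _ _) := by
        refine ⟨by norm_num, LipschitzWith.of_dist_le_mul ?_⟩
        intro x y
        have := hlip p hp y y.2 x x.2
        simpa [Subtype.dist_eq, dist_eq_norm] using this
      obtain ⟨y, hy, hfix, -⟩ := ContractingWith.exists_fixedPoint'
        isClosed_closedBall.isComplete hmaps hcon (mem_closedBall_self hρ.le) (edist_ne_top _ _)
      exact ⟨y, fun _ => ⟨hy, hfix⟩⟩
    · exact ⟨0, fun h => absurd h hp⟩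
  choose τ hτ using hex
  refine ⟨τ, ?_, ?_⟩
  · intro p0 hp0
    refine DifferentiableAt.differentiableWithinAt ?_
    obtain ⟨m0, f0⟩ := hτ p0 hp0
    have hL := (hTd p0 hp0 (τ p0) (hsub m0)).hasFDerivAt
    set L := fderiv ℂ T (p0, τ p0) with hLdef
    set c : ℂ := L (0, 1) with hc
    have hcn : ‖c‖ ≤ 1 / 2 := by
      have d1 : HasFDerivAt (fun s : ℂ => T (p0, s))
          (L.comp (ContinuousLinearMap.inr ℂ P ℂ)) (τ p0) :=
        hL.comp (τ p0) (hasFDerivAt_prodMk_right p0 (τ p0))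
      have d2 := hder p0 hp0 (τ p0) m0
      rw [d1.fderiv] at d2
      have d3 := (L.comp (ContinuousLinearMap.inr ℂ P ℂ)).le_opNorm 1
      simp only [ContinuousLinearMap.comp_apply, ContinuousLinearMap.inr_apply, norm_one,
        mul_one] at d3
      exact d3.trans d2
    have hc1 : (1 - c) ≠ 0 := by
      intro h
      have : c = 1 := (sub_eq_zero.mp h).symm
      rw [this, norm_one] at hcn
      norm_num at hcn
    have d0 : HasFDerivAt (fun p : P => T (p, τ p0))
        (L.comp (ContinuousLinearMap.inl ℂ P ℂ)) p0 :=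
      hL.comp p0 (hasFDerivAt_prodMk_left p0 (τ p0))
    have hO1 : (fun p => τ p - τ p0) =O[𝓝 p0] (fun p => T (p, τ p0) - T (p0, τ p0)) := by
      refine Asymptotics.IsBigO.of_bound 2 ?_
      filter_upwards [hU.mem_nhds hp0] with p hp
      obtain ⟨m1, f1⟩ := hτ p hp
      have a1 := hlip p hp (τ p0) m0 (τ p) m1
      have e : τ p - τ p0 = (T (p, τ p) - T (p, τ p0)) + (T (p, τ p0) - T (p0, τ p0)) := by
        rw [f1, f0]; ring
      have a2 := norm_add_le (T (p, τ p) - T (p, τ p0)) (T (p, τ p0) - T (p0, τ p0))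
      rw [← e] at a2
      linarith
    have hO2 : (fun p => τ p - τ p0) =O[𝓝 p0] (fun p => p - p0) := hO1.trans d0.isBigO_sub
    have hcont : ContinuousAt τ p0 := by
      have t1 : Tendsto (fun p : P => p - p0) (𝓝 p0) (𝓝 0) := by
        have : Continuous (fun p : P => p - p0) := by fun_prop
        simpa using this.tendsto p0
      have t2 := hO2.trans_tendsto t1
      rw [ContinuousAt, ← tendsto_sub_nhds_zero_iff]
      exact t2
    have hten : Tendsto (fun p : P => (p, τ p)) (𝓝 p0) (𝓝 (p0, τ p0)) :=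
      (continuousAt_id.prodMk hcont)
    have ho1 := (hasFDerivAt_iff_isLittleO.mp hL).comp_tendsto hten
    have hO3 : (fun p : P => ((p, τ p) - (p0, τ p0) : P × ℂ)) =O[𝓝 p0] (fun p => p - p0) :=
      (Asymptotics.isBigO_refl (fun p : P => p - p0) _).prod_left hO2
    have ho2 := (ho1.trans_isBigO hO3).const_mul_left (1 - c)⁻¹
    have hfin : HasFDerivAt τ ((1 - c)⁻¹ • L.comp (ContinuousLinearMap.inl ℂ P ℂ)) p0 := by
      rw [hasFDerivAt_iff_isLittleO]
      refine ho2.congr' ?_ EventuallyEq.rfl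
      filter_upwards [hU.mem_nhds hp0] with p hp
      obtain ⟨m1, f1⟩ := hτ p hp
      have e1 : ((p, τ p) - (p0, τ p0) : P × ℂ) = (p - p0, 0) + (τ p - τ p0) • (0, 1) := by
        ext <;> simp
      simp only [Function.comp_apply, smul_apply,
        ContinuousLinearMap.comp_apply, ContinuousLinearMap.inl_apply, smul_eq_mul]
      rw [f1, f0, e1, map_add, map_smul, ← hc, smul_eq_mul]
      field_simp
      ring
    exact hfin.differentiableAt
  · intro p hp
    obtain ⟨m1, f1⟩ := hτ p hp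
    refine ⟨f1, ?_, ?_⟩
    · rw [← f1]; exact hb p hp _ (hsub m1)
    · intro s hs hfs
      have a1 := hlip p hp (τ p) m1 s (mem_closedBall_zero_iff.mpr hs)
      rw [hfs, f1] at a1
      have : ‖s - τ p‖ = 0 := le_antisymm (by linarith [norm_nonneg (s - τ p)]) (norm_nonneg _)
      exact sub_eq_zero.mp (norm_eq_zero.mp this)

end Pool.Agent.Lib.MP_e941ef_an
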