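import Pool.Agent.Lib.MP_e941ef_an.SCV
import Pool.Agent.Lib.MP_e941ef_an.Fix

namespace Pool.Agent.Lib.MP_e941ef_an

open Complex Metric Set Filter Topology
open scoped ComplexConjugate ContDiff

theorem isOpen_WW : IsOpen WW := by
  have h1 : IsOpen {z : ℂ × ℂ | ‖z.1‖ < 1} := isOpen_lt (by fun_prop) (by fun_prop)
  have h2 : IsOpen {z : ℂ × ℂ | ‖z.2‖ < (1 - ‖z.1‖) ^ 2 / 1000} :=
    isOpen_lt (by fun_prop) (by fun_prop)
  exact h1.inter h2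

theorem tauc_nonneg (k : ℕ) : 0 ≤ tauc k := by
  unfold tauc
  exact Finset.prod_nonneg fun j _ => by positivity

theorem tauc_le (k : ℕ) : tauc k ≤ k + 1 := by
  induction k with
  | zero => simp [tauc]
  | succ k ih =>
    have h0 := tauc_nonneg k
    have e : tauc (k + 1) = tauc k * ((4 * (k : ℝ) + 3) / (4 * (k : ℝ) + 2)) := by
      unfold tauc
      rw [Finset.prod_range_succ]
    have hk : (0 : ℝ) ≤ k := Nat.cast_nonneg k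
    rw [e]
    push_cast
    calc tauc k * ((4 * (k : ℝ) + 3) / (4 * (k : ℝ) + 2))
        ≤ (k + 1) * ((4 * (k : ℝ) + 3) / (4 * (k : ℝ) + 2)) := by gcongr
      _ ≤ k + 1 + 1 := by
        rw [← mul_div_assoc, div_le_iff₀ (by positivity)]
        nlinarith

theorem hasSum_succ_mul_pow {x : ℝ} (hx0 : 0 ≤ x) (hx : x < 1) :
    HasSum (fun k : ℕ => ((k : ℝ) + 1) * x ^ k) (1 / (1 - x) ^ 2) := by
  have hn : ‖x‖ < 1 := by rwa [Real.norm_eq_abs, abs_of_nonneg hx0]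
  have := hasSum_choose_mul_geometric_of_norm_lt_one 1 hn
  simpa using this

theorem psi_term_le (β : ℂ) {x : ℝ} (hx : ‖β‖ ≤ x) (k : ℕ) :
    ‖(tauc k : ℂ) * β ^ k‖ ≤ ((k : ℝ) + 1) * x ^ k := by
  rw [norm_mul, norm_pow, Complex.norm_real, Real.norm_eq_abs, abs_of_nonneg (tauc_nonneg k)]
  have := tauc_le k
  have h0 := tauc_nonneg k
  gcongr

theorem psi_diff : DifferentiableOn ℂ psi (ball 0 1) := by
  intro β hβ
  rw [mem_ball_zero_iff] at hβ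
  obtain ⟨x, hx1, hx2⟩ := exists_between hβ
  have hx0 : 0 ≤ x := (norm_nonneg β).trans hx1.le
  have hd : DifferentiableOn ℂ psi (ball 0 x) := by
    unfold psi
    refine differentiableOn_tsum_of_summable_norm (hasSum_succ_mul_pow hx0 hx2).summable
      (fun k => by fun_prop) isOpen_ball fun k w hw => ?_
    exact psi_term_le w (mem_ball_zero_iff.1 hw).le k
  exact (hd.differentiableAt (isOpen_ball.mem_nhds (mem_ball_zero_iff.2 hx1))).differentiableWithinAt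

theorem psi_le {β : ℂ} (h : ‖β‖ < 1) : ‖psi β‖ ≤ 1 / (1 - ‖β‖) ^ 2 := by
  unfold psi
  exact tsum_of_norm_bounded (hasSum_succ_mul_pow (norm_nonneg β) h) (psi_term_le β le_rfl)

theorem psi_conj (β : ℂ) : psi (conj β) = conj (psi β) := by
  unfold psi
  rw [Complex.conj_tsum]
  refine tsum_congr fun k => ?_
  simp

/-- The quadratic remainder of the equation for `mu`. -/
noncomputable def muG (b y : ℂ) : ℂ := 3 + y - 3 / 5 * b * (10 + 10 * y + 5 * y ^ 2 + y ^ 3)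

/-- The fixed point map of the equation for `mu`. -/
noncomputable def muT (q : (ℂ × ℂ) × ℂ) : ℂ :=
  q.1.2 / (3 * (1 - q.1.1) ^ 2) - q.2 ^ 2 * muG q.1.1 ((1 - q.1.1) * q.2) / 3

theorem one_sub_norm_le (b : ℂ) : 1 - ‖b‖ ≤ ‖1 - b‖ := by
  simpa using norm_sub_norm_le (1 : ℂ) b

theorem one_sub_ne {b : ℂ} (hb : ‖b‖ < 1) : 1 - b ≠ 0 := by
  intro h
  have := one_sub_norm_le b
  rw [h, norm_zero] at this
  linarith

theorem muG_le {b y : ℂ} (hb : ‖b‖ ≤ 1) (hy : ‖y‖ ≤ 1 / 25) : ‖muG b y‖ ≤ 93 / 10 := by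
  unfold muG
  have h1 : ‖(3 : ℂ) + y‖ ≤ 3 + 1 / 25 := by
    calc ‖(3 : ℂ) + y‖ ≤ ‖(3 : ℂ)‖ + ‖y‖ := norm_add_le _ _
      _ ≤ 3 + 1 / 25 := by simpa using hy
  have h2 : ‖(10 : ℂ) + 10 * y + 5 * y ^ 2 + y ^ 3‖ ≤ 10 + 10 * (1 / 25) + 5 * (1 / 25) ^ 2
      + (1 / 25) ^ 3 := by
    calc ‖(10 : ℂ) + 10 * y + 5 * y ^ 2 + y ^ 3‖
        ≤ ‖(10 : ℂ)‖ + ‖10 * y‖ + ‖5 * y ^ 2‖ + ‖y ^ 3‖ := by
          refine (norm_add_le _ _).trans ?_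
          gcongr
          refine (norm_add_le _ _).trans ?_
          gcongr
          exact norm_add_le _ _
      _ = 10 + 10 * ‖y‖ + 5 * ‖y‖ ^ 2 + ‖y‖ ^ 3 := by simp
      _ ≤ _ := by gcongr
  have h3 : ‖3 / 5 * b * (10 + 10 * y + 5 * y ^ 2 + y ^ 3)‖ ≤ 3 / 5 * 1 * (10 + 10 * (1 / 25)
      + 5 * (1 / 25) ^ 2 + (1 / 25) ^ 3) := by
    rw [norm_mul, norm_mul]
    have : ‖(3 / 5 : ℂ)‖ = 3 / 5 := by simp
    rw [this]
    gcongr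
  refine (norm_sub_le _ _).trans ?_
  linarith

theorem muT_first {z : ℂ × ℂ} (hz : z ∈ WW) :
    ‖z.2 / (3 * (1 - z.1) ^ 2)‖ * ‖1 - z.1‖ ≤ (1 - ‖z.1‖) / 3000 := by
  obtain ⟨h1, h2⟩ := hz
  have h3 := one_sub_norm_le z.1
  have h4 : 0 < 1 - ‖z.1‖ := by linarith
  have h5 : 0 < ‖1 - z.1‖ := h4.trans_le h3
  have e : ‖z.2 / (3 * (1 - z.1) ^ 2)‖ * ‖1 - z.1‖ = ‖z.2‖ / (3 * ‖1 - z.1‖) := by
    rw [norm_div, norm_mul, norm_pow]
    simp only [Complex.norm_ofNat]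
    field_simp
  rw [e, div_le_iff₀ (by positivity)]
  nlinarith [mul_le_mul_of_nonneg_left h3 h4.le]

theorem muT_first' {z : ℂ × ℂ} (hz : z ∈ WW) : ‖z.2 / (3 * (1 - z.1) ^ 2)‖ ≤ 1 / 3000 := by
  have h := muT_first hz
  have h3 := one_sub_norm_le z.1
  have h4 : 0 < 1 - ‖z.1‖ := by linarith [hz.1]
  have h5 : 0 < ‖1 - z.1‖ := h4.trans_le h3
  have : ‖z.2 / (3 * (1 - z.1) ^ 2)‖ * ‖1 - z.1‖ ≤ 1 / 3000 * ‖1 - z.1‖ := by linarith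
  exact le_of_mul_le_mul_right this h5

theorem muT_second {b t : ℂ} (hb : ‖b‖ < 1) (ht : ‖t‖ ≤ 1 / 50) :
    ‖t ^ 2 * muG b ((1 - b) * t) / 3‖ ≤ 31 / 10 * ‖t‖ ^ 2 := by
  have h1 : ‖1 - b‖ ≤ 2 := by
    calc ‖1 - b‖ ≤ ‖(1 : ℂ)‖ + ‖b‖ := norm_sub_le _ _
      _ ≤ 2 := by rw [norm_one]; linarith
  have h2 : ‖(1 - b) * t‖ ≤ 1 / 25 := by
    rw [norm_mul]
    calc ‖1 - b‖ * ‖t‖ ≤ 2 * (1 / 50) := by gcongr
      _ = 1 / 25 := by norm_num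
  have h3 := muG_le hb.le h2
  rw [norm_div, norm_mul, norm_pow]
  simp only [Complex.norm_ofNat]
  rw [div_le_iff₀ (by norm_num)]
  nlinarith [sq_nonneg ‖t‖]

theorem muT_diff : DifferentiableOn ℂ muT (WW ×ˢ ball 0 (2 * (1 / 100 : ℝ))) := by
  intro q hq
  have h : 3 * (1 - q.1.1) ^ 2 ≠ 0 :=
    mul_ne_zero (by norm_num) (pow_ne_zero _ (one_sub_ne hq.1.1))
  apply DifferentiableAt.differentiableWithinAt
  unfold muT muG
  fun_prop (disch := exact h)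

theorem muT_le : ∀ p ∈ WW, ∀ s ∈ ball (0 : ℂ) (2 * (1 / 100 : ℝ)),
    ‖muT (p, s)‖ ≤ (1 / 100 : ℝ) / 4 := by
  intro p hp s hs
  rw [mem_ball_zero_iff] at hs
  have hs' : ‖s‖ ≤ 1 / 50 := by linarith
  have h1 := muT_first' hp
  have h2 := muT_second hp.1 hs'
  have h3 : ‖s‖ ^ 2 ≤ (1 / 50) ^ 2 := by gcongr
  unfold muT
  refine (norm_sub_le _ _).trans ?_
  linarith

theorem muT_iff {b c t : ℂ} (hb : 1 - b ≠ 0) :
    muT ((b, c), t) = t ↔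
      (1 + (1 - b) * t) ^ 3 - 3 / 5 * b * (1 + (1 - b) * t) ^ 5 - (1 - 3 / 5 * b) = c := by
  have e : (1 + (1 - b) * t) ^ 3 - 3 / 5 * b * (1 + (1 - b) * t) ^ 5 - (1 - 3 / 5 * b)
      = 3 * (1 - b) ^ 2 * (t + t ^ 2 * muG b ((1 - b) * t) / 3) := by
    unfold muG
    ring
  have h : 3 * (1 - b) ^ 2 ≠ 0 := mul_ne_zero (by norm_num) (pow_ne_zero _ hb)
  rw [e]
  unfold muT
  simp only
  rw [sub_eq_iff_eq_add, div_eq_iff h, mul_comm, eq_comm]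

theorem exists_tau : ∃ τ : ℂ × ℂ → ℂ, DifferentiableOn ℂ τ WW ∧ ∀ z ∈ WW,
    muT (z, τ z) = τ z ∧ ‖τ z‖ ≤ 1 / 400 ∧ mu z = 1 + (1 - z.1) * τ z ∧
      ∀ m : ℂ, ‖m - 1‖ ≤ ‖1 - z.1‖ / 100 →
        m ^ 3 - 3 / 5 * z.1 * m ^ 5 - (1 - 3 / 5 * z.1) = z.2 → m = mu z := by
  obtain ⟨τ, hτ, h⟩ := holo_fix isOpen_WW (ρ := 1 / 100) (by norm_num) muT_diff muT_le
  refine ⟨τ, hτ, fun z hz => ?_⟩
  obtain ⟨h1, h2, h3⟩ := h z hz
  have hb := one_sub_ne hz.1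
  have hpos : 0 < ‖1 - z.1‖ := norm_pos_iff.2 hb
  have uniq : ∀ m : ℂ, ‖m - 1‖ ≤ ‖1 - z.1‖ / 100 →
      m ^ 3 - 3 / 5 * z.1 * m ^ 5 - (1 - 3 / 5 * z.1) = z.2 → m = 1 + (1 - z.1) * τ z := by
    intro m hm1 hm2
    have em : m = 1 + (1 - z.1) * ((m - 1) / (1 - z.1)) := by
      field_simp
      ring
    have hs : ‖(m - 1) / (1 - z.1)‖ ≤ 1 / 100 := by
      rw [norm_div, div_le_iff₀ hpos]
      linarith
    have := h3 _ hs ((muT_iff (c := z.2) hb).2 (by rw [← em]; exact hm2))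
    rw [← this]
    exact em
  have ex : ∃ m : ℂ, ‖m - 1‖ ≤ ‖1 - z.1‖ / 100 ∧
      m ^ 3 - 3 / 5 * z.1 * m ^ 5 - (1 - 3 / 5 * z.1) = z.2 := by
    refine ⟨1 + (1 - z.1) * τ z, ?_, (muT_iff (c := z.2) hb).1 h1⟩
    rw [add_sub_cancel_left, norm_mul]
    nlinarith
  have sp := Classical.epsilon_spec ex
  have e : mu z = 1 + (1 - z.1) * τ z := uniq _ sp.1 sp.2
  exact ⟨h1, by linarith, e, fun m hm1 hm2 => (uniq m hm1 hm2).trans e.symm⟩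

theorem mu_diff : DifferentiableOn ℂ mu WW := by
  obtain ⟨τ, hτ, h⟩ := exists_tau
  have : DifferentiableOn ℂ (fun z : ℂ × ℂ => 1 + (1 - z.1) * τ z) WW := by fun_prop
  exact this.congr fun z hz => (h z hz).2.2.1

theorem mu_eq {z : ℂ × ℂ} (hz : z ∈ WW) :
    mu z ^ 3 - 3 / 5 * z.1 * mu z ^ 5 - (1 - 3 / 5 * z.1) = z.2 := by
  obtain ⟨τ, -, h⟩ := exists_tau
  obtain ⟨h1, -, h3, -⟩ := h z hz
  rw [h3]
  exact (muT_iff (c := z.2) (one_sub_ne hz.1)).1 h1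

theorem mu_close {z : ℂ × ℂ} (hz : z ∈ WW) : ‖mu z - 1‖ ≤ (1 - ‖z.1‖) / 1000 := by
  obtain ⟨τ, -, h⟩ := exists_tau
  obtain ⟨h1, h2, h3, -⟩ := h z hz
  have h4 := muT_first hz
  have h5 := muT_second hz.1 (t := τ z) (by linarith)
  have h6 : ‖τ z‖ ≤ ‖z.2 / (3 * (1 - z.1) ^ 2)‖ + 31 / 10 * ‖τ z‖ ^ 2 := by
    calc ‖τ z‖ = ‖muT (z, τ z)‖ := by rw [h1]
      _ ≤ _ := norm_sub_le _ _
      _ ≤ _ := by gcongr
  have h0 := norm_nonneg (τ z)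
  have h7 : ‖τ z‖ ≤ 3 * ‖z.2 / (3 * (1 - z.1) ^ 2)‖ := by nlinarith
  rw [h3, add_sub_cancel_left, norm_mul]
  have h8 := norm_nonneg (1 - z.1)
  nlinarith [mul_le_mul_of_nonneg_left h7 h8]

theorem mu_unique {z : ℂ × ℂ} (hz : z ∈ WW) {m : ℂ} (h1 : ‖m - 1‖ ≤ ‖1 - z.1‖ / 100)
    (h2 : m ^ 3 - 3 / 5 * z.1 * m ^ 5 - (1 - 3 / 5 * z.1) = z.2) : m = mu z := by
  obtain ⟨τ, -, h⟩ := exists_tau
  exact (h z hz).2.2.2 m h1 h2

theorem mu_zero {b : ℂ} (hb : ‖b‖ < 1) : mu (b, 0) = 1 := by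
  have hz : (b, (0 : ℂ)) ∈ WW := by
    refine ⟨hb, ?_⟩
    have : 0 < 1 - ‖b‖ := by linarith
    simp only [norm_zero]
    positivity
  refine (mu_unique hz ?_ ?_).symm
  · simp only [sub_self, norm_zero]
    positivity
  · simp

theorem cj_mem_WW {z : ℂ × ℂ} (hz : z ∈ WW) : cj z ∈ WW := by
  refine ⟨?_, ?_⟩
  · simpa [cj] using hz.1
  · simpa [cj] using hz.2

theorem mu_conj {z : ℂ × ℂ} (hz : z ∈ WW) : mu (cj z) = conj (mu z) := by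
  refine (mu_unique (cj_mem_WW hz) ?_ ?_).symm
  · have h1 := mu_close hz
    have h2 := one_sub_norm_le z.1
    have h3 : 0 < 1 - ‖z.1‖ := by linarith [hz.1]
    have e1 : conj (mu z) - 1 = conj (mu z - 1) := by simp
    have e2 : 1 - (cj z).1 = conj (1 - z.1) := by simp [cj]
    rw [e1, e2, Complex.norm_conj, Complex.norm_conj]
    linarith
  · have := congrArg conj (mu_eq hz)
    simpa [cj, map_ofNat] using this

theorem mu_norm_ge {z : ℂ × ℂ} (hz : z ∈ WW) : 999 / 1000 ≤ ‖mu z‖ := by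
  have h1 := mu_close hz
  have h2 := norm_nonneg z.1
  have h3 : ‖(1 : ℂ)‖ - ‖mu z‖ ≤ ‖1 - mu z‖ := norm_sub_norm_le _ _
  rw [norm_one, norm_sub_rev] at h3
  linarith

theorem mu_ne {z : ℂ × ℂ} (hz : z ∈ WW) : mu z ≠ 0 := by
  have := mu_norm_ge hz
  intro h
  rw [h, norm_zero] at this
  norm_num at this

theorem bet_lt {z : ℂ × ℂ} (hz : z ∈ WW) : (1 - ‖z.1‖) * (9 / 10) ≤ 1 - ‖bet z‖ := by
  have h1 := mu_close hz
  have h2 := norm_nonneg z.1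
  have h3 := hz.1
  have h4 : ‖mu z‖ ≤ 1 + (1 - ‖z.1‖) / 1000 := by
    have : ‖mu z‖ - ‖(1 : ℂ)‖ ≤ ‖mu z - 1‖ := norm_sub_norm_le _ _
    rw [norm_one] at this
    linarith
  have h5 : ‖mu z‖ ^ 2 ≤ (1 + (1 - ‖z.1‖) / 1000) ^ 2 := by gcongr
  have h6 : ‖mu z‖ ^ 2 ≤ 1 + (1 - ‖z.1‖) / 10 := by nlinarith
  unfold bet
  rw [norm_mul, norm_pow]
  nlinarith [mul_le_mul_of_nonneg_left h6 h2]

theorem bet_norm_lt {z : ℂ × ℂ} (hz : z ∈ WW) : ‖bet z‖ < 1 := by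
  have h1 := bet_lt hz
  have h3 := hz.1
  linarith

theorem mem_WX {z : ℂ × ℂ} (hz : z ∈ WW) : ((mu z)⁻¹, bet z) ∈ WX := by
  refine ⟨bet_norm_lt hz, ?_⟩
  have h1 := bet_lt hz
  have h2 := mu_close hz
  have h3 := mu_norm_ge hz
  have h4 := hz.1
  have h5 := mu_ne hz
  have e : (mu z)⁻¹ - 1 = -(mu z - 1) / mu z := by
    field_simp
    ring
  simp only
  rw [e, norm_div, norm_neg, div_lt_iff₀ (by linarith)]
  nlinarith

theorem PP_ne {z : ℂ × ℂ} (hz : z ∈ WW) : PP z ≠ 0 := by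
  unfold PP
  exact mul_ne_zero (mul_ne_zero (by norm_num) (pow_ne_zero _ (mu_ne hz)))
    (one_sub_ne (bet_norm_lt hz))

end Pool.Agent.Lib.MP_e941ef_an
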