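import Pool.Agent.Lib.MP_e941ef_an.Laurent
import Pool.Agent.Lib.MP_e941ef_an.Mu

/-!
Auxiliary facts for the background computation: averages of monomials, termwise averaging of
series, and the binomial series that appear.
-/

namespace Pool.Agent.Lib.MP_e941ef_an

open Complex Metric Set Filter Topology
open scoped ComplexConjugate ContDiff

namespace BGA

/-- The coefficients `(a)_n / n!`. -/
noncomputable def mc (a : ℂ) (n : ℕ) : ℂ := Ring.choose (a + n - 1) n

theorem mc_eq (a : ℂ) (n : ℕ) :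
    mc a n = (ascPochhammer ℂ n).eval a / (n.factorial : ℂ) := by
  have h := Ring.factorial_nsmul_multichoose_eq_ascPochhammer a n
  rw [Ring.multichoose_eq, Polynomial.ascPochhammer_smeval_eq_eval, nsmul_eq_mul] at h
  have hn : (n.factorial : ℂ) ≠ 0 := by exact_mod_cast n.factorial_ne_zero
  rw [eq_div_iff hn, mc, mul_comm, h]

theorem mc_zero (a : ℂ) : mc a 0 = 1 := by
  simp [mc_eq]

theorem mc_succ (a : ℂ) (n : ℕ) : mc a (n + 1) = mc a n * (a + n) / (n + 1) := by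
  have hn : (n.factorial : ℂ) ≠ 0 := by exact_mod_cast n.factorial_ne_zero
  have hn1 : (n : ℂ) + 1 ≠ 0 := by exact_mod_cast n.succ_ne_zero
  rw [mc_eq, mc_eq, ascPochhammer_succ_eval, Nat.factorial_succ]
  push_cast
  field_simp

theorem hasSum_mc (a : ℂ) {Y : ℂ} (hY : ‖Y‖ < 1) :
    HasSum (fun n => mc a n * Y ^ n) (1 / (1 - Y) ^ a) := by
  have h := (Complex.one_div_one_sub_cpow_hasFPowerSeriesOnBall_zero a).hasSum (y := Y)
    (by
      rw [mem_eball_zero_iff, ← ofReal_norm]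
      exact ENNReal.ofReal_lt_one.mpr hY)
  simpa [FormalMultilinearSeries.ofScalars_apply_eq, mc, mul_comm] using h

theorem tauc_succ (k : ℕ) :
    (tauc (k + 1) : ℂ) = (tauc k : ℂ) * ((4 * k + 3) / (4 * k + 2)) := by
  rw [tauc, Finset.prod_range_succ, ← tauc]
  push_cast
  ring

theorem tauc_central (k : ℕ) :
    (tauc k : ℂ) * ((2 * k).choose k : ℂ) = mc (3 / 4) k * 4 ^ k := by
  induction k with
  | zero => simp [tauc, mc_zero]
  | succ k ih =>
    have h := Nat.succ_mul_centralBinom_succ k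
    rw [Nat.centralBinom_eq_two_mul_choose, Nat.centralBinom_eq_two_mul_choose] at h
    have h' : ((k : ℂ) + 1) * ((2 * (k + 1)).choose (k + 1) : ℂ)
        = 2 * (2 * k + 1) * ((2 * k).choose k : ℂ) := by exact_mod_cast h
    have hn1 : (k : ℂ) + 1 ≠ 0 := by exact_mod_cast k.succ_ne_zero
    have hn2 : 4 * (k : ℂ) + 2 ≠ 0 := by exact_mod_cast (by omega : 4 * k + 2 ≠ 0)
    have h2 : ((2 * (k + 1)).choose (k + 1) : ℂ)
        = 2 * (2 * k + 1) * ((2 * k).choose k : ℂ) / (k + 1) := by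
      rw [eq_div_iff hn1, mul_comm, h']
    rw [tauc_succ, mc_succ, h2]
    have h3 : mc (3 / 4) k = (tauc k : ℂ) * ((2 * k).choose k : ℂ) / 4 ^ k := by
      rw [ih]; field_simp
    rw [h3]
    field_simp
    ring

theorem mc_quarter (k : ℕ) : mc (-1 / 4) (k + 1) = -(mc (3 / 4) k) / (4 * (k + 1)) := by
  induction k with
  | zero => rw [mc_succ, mc_zero, mc_zero]; norm_num
  | succ k ih =>
    have hn1 : (k : ℂ) + 1 ≠ 0 := by exact_mod_cast k.succ_ne_zero
    have hn2 : (k : ℂ) + 1 + 1 ≠ 0 := by exact_mod_cast (k + 1).succ_ne_zero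
    rw [mc_succ, ih, mc_succ]
    push_cast
    field_simp
    ring

theorem tauc_off (k : ℕ) :
    (tauc k : ℂ) * ((2 * k).choose (k + 1) : ℂ)
      = (mc (3 / 4) k / 4 + mc (-1 / 4) (k + 1)) * 4 ^ (k + 1) := by
  have h := Nat.choose_succ_right_eq (2 * k) k
  rw [show 2 * k - k = k by omega] at h
  have h' : ((2 * k).choose (k + 1) : ℂ) * ((k : ℂ) + 1) = ((2 * k).choose k : ℂ) * k := by
    exact_mod_cast h
  have hn1 : (k : ℂ) + 1 ≠ 0 := by exact_mod_cast k.succ_ne_zero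
  have h2 : ((2 * k).choose (k + 1) : ℂ) = ((2 * k).choose k : ℂ) * k / (k + 1) := by
    rw [eq_div_iff hn1, h']
  have h3 : mc (3 / 4) k = (tauc k : ℂ) * ((2 * k).choose k : ℂ) / 4 ^ k := by
    rw [tauc_central]; field_simp
  rw [h2, mc_quarter, h3]
  field_simp
  ring

/-- Powers of `w ^ 4` when both `w` and `w ^ 2` lie in the right half plane. -/
theorem cpow_four {w : ℂ} (h1 : 0 < w.re) (h2 : 0 < (w ^ 2).re) (a : ℂ) :
    ((w ^ 2) ^ 2) ^ a = exp (4 * a * log w) := by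
  have hw : w ≠ 0 := by rintro rfl; simp at h1
  have key : ∀ z : ℂ, 0 < z.re → log (z ^ 2) = 2 * log z := by
    intro z hz
    have hz0 : z ≠ 0 := by rintro rfl; simp at hz
    have ha := (abs_arg_lt_pi_div_two_iff (z := z)).mpr (Or.inl hz)
    rw [abs_lt] at ha
    have := (log_mul_eq_add_log_iff hz0 hz0).mpr (by
      constructor <;> linarith [ha.1, ha.2])
    rw [sq, this]; ring
  rw [cpow_def_of_ne_zero (pow_ne_zero _ (pow_ne_zero _ hw)), key _ h2, key _ h1]
  congr 1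
  ring

theorem hasSum_central {w Y : ℂ} (h1 : 0 < w.re) (h2 : 0 < (w ^ 2).re) (hY : ‖Y‖ < 1)
    (hw : 1 - Y = (w ^ 2) ^ 2) :
    HasSum (fun n => mc (3 / 4) n * Y ^ n) (w ^ 3)⁻¹ := by
  have hw0 : w ≠ 0 := by rintro rfl; simp at h1
  have h := hasSum_mc (3 / 4) hY
  rw [hw, cpow_four h1 h2] at h
  have e : exp (4 * (3 / 4) * log w) = w ^ 3 := by
    rw [show (4 * (3 / 4) * log w) = ((3 : ℕ) : ℂ) * log w by push_cast; ring, exp_nat_mul,
      exp_log hw0]
  rwa [e, one_div] at h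

theorem hasSum_off {w Y : ℂ} (h1 : 0 < w.re) (h2 : 0 < (w ^ 2).re) (hY : ‖Y‖ < 1)
    (hw : 1 - Y = (w ^ 2) ^ 2) :
    HasSum (fun n => (mc (3 / 4) n / 4 + mc (-1 / 4) (n + 1)) * Y ^ (n + 1))
      (Y / 4 * (w ^ 3)⁻¹ - 1 + w) := by
  have hw0 : w ≠ 0 := by rintro rfl; simp at h1
  have h := hasSum_mc (-1 / 4) hY
  rw [hw, cpow_four h1 h2] at h
  have e : 1 / exp (4 * (-1 / 4) * log w) = w := by
    rw [show (4 * (-1 / 4) * log w) = -log w by ring, exp_neg, exp_log hw0]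
    simp
  rw [e] at h
  have h' := (hasSum_nat_add_iff' 1).mpr h
  simp only [Finset.range_one, Finset.sum_singleton, mc_zero, pow_zero, mul_one] at h'
  have h3 := ((hasSum_central h1 h2 hY hw).mul_left (Y / 4)).add h'
  have e1 : (fun n => (mc (3 / 4) n / 4 + mc (-1 / 4) (n + 1)) * Y ^ (n + 1))
      = fun n => Y / 4 * (mc (3 / 4) n * Y ^ n) + mc (-1 / 4) (n + 1) * Y ^ (n + 1) := by
    ext n
    ring
  rw [e1, show Y / 4 * (w ^ 3)⁻¹ - 1 + w = Y / 4 * (w ^ 3)⁻¹ + (w - 1) by ring]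
  exact h3

theorem avg_zpow (r : ℝ) (m : ℤ) :
    avg r (fun u => u ^ m) = if m = 0 then 1 else 0 := by
  split_ifs with hm
  · subst hm
    simp only [zpow_zero, avg]
    exact Real.circleAverage_const 1 0 r
  · rw [avg, Real.circleAverage_def]
    have hI : (m : ℂ) * I ≠ 0 := mul_ne_zero (by exact_mod_cast hm) I_ne_zero
    have e : ∀ θ : ℝ, circleMap 0 r θ ^ m = (r : ℂ) ^ m * exp ((m : ℂ) * I * θ) := by
      intro θ
      rw [circleMap_zero, mul_zpow, ← exp_int_mul]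
      congr 2
      ring
    simp only [e]
    rw [intervalIntegral.integral_const_mul, integral_exp_mul_complex hI]
    have : exp ((m : ℂ) * I * ((2 * Real.pi : ℝ) : ℂ)) = 1 := by
      rw [← exp_int_mul_two_pi_mul_I m]
      congr 1
      push_cast
      ring
    rw [this]
    simp

theorem avg_sum {ι : Type*} (s : Finset ι) {f : ι → ℂ → ℂ} {r : ℝ} (hr : 0 < r)
    (hf : ∀ i ∈ s, ContinuousOn (f i) (sphere 0 r)) :
    avg r (fun u => ∑ i ∈ s, f i u) = ∑ i ∈ s, avg r (f i) := by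
  unfold avg
  exact Real.circleAverage_fun_sum (fun i hi => (hf i hi).circleIntegrable hr.le)

theorem ne_zero_of_mem {r : ℝ} (hr : 0 < r) {u : ℂ} (hu : u ∈ sphere (0 : ℂ) r) : u ≠ 0 := by
  rintro rfl
  simp at hu
  linarith

theorem avg_binom {r : ℝ} (hr : 0 < r) (x y : ℂ) (n j : ℕ) :
    avg r (fun u => (x + y * u) ^ n / u ^ j) = (n.choose j : ℂ) * x ^ (n - j) * y ^ j := by
  have e : avg r (fun u => (x + y * u) ^ n / u ^ j)
      = avg r (fun u => ∑ i ∈ Finset.range (n + 1),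
          ((n.choose i : ℂ) * x ^ (n - i) * y ^ i) * u ^ ((i : ℤ) - j)) := by
    refine avg_congr hr (fun u hu => ?_)
    have hu0 : u ≠ 0 := by rintro rfl; simp at hu; linarith
    rw [add_comm x, add_pow, Finset.sum_div]
    refine Finset.sum_congr rfl (fun i _ => ?_)
    rw [zpow_sub₀ hu0, zpow_natCast, zpow_natCast]
    ring
  rw [e, avg_sum _ hr]
  · simp only [avg_const_mul, avg_zpow r, mul_ite, mul_one, mul_zero, sub_eq_zero, Nat.cast_inj]
    rw [Finset.sum_ite_eq' (Finset.range (n + 1)) j]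
    split_ifs with hj
    · rfl
    · rw [Nat.choose_eq_zero_of_lt (by simpa using hj)]
      simp
  · intro i _
    refine continuousOn_const.mul (continuousOn_id.zpow₀ _ (fun u hu => Or.inl ?_))
    exact ne_zero_of_mem hr hu

theorem avg_id (r : ℝ) : avg r (fun u => u) = 0 := by
  simpa using avg_zpow r 1

/-- Termwise averaging of a normally convergent series. -/
theorem hasSum_avg {r : ℝ} (hr : 0 < r) {F : ℕ → ℂ → ℂ} {f : ℂ → ℂ} {a : ℕ → ℝ}
    (hF : ∀ k, ContinuousOn (F k) (sphere 0 r)) (ha : Summable a)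
    (hb : ∀ k u, ‖u‖ = r → ‖F k u‖ ≤ a k) (hs : ∀ u, ‖u‖ = r → HasSum (fun k => F k u) (f u)) :
    HasSum (fun k => avg r (F k)) (avg r f) := by
  have hn : ∀ θ : ℝ, ‖circleMap 0 r θ‖ = r := fun θ => by
    rw [norm_circleMap_zero, abs_of_pos hr]
  simp only [avg, Real.circleAverage_def]
  refine HasSum.const_smul _ ?_
  refine intervalIntegral.hasSum_integral_of_dominated_convergence (fun k _ => a k)
    (fun k => ?_) (fun k => Eventually.of_forall fun t _ => hb k _ (hn t))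
    (Eventually.of_forall fun t _ => ha) intervalIntegrable_const
    (Eventually.of_forall fun t _ => hs _ (hn t))
  refine Continuous.aestronglyMeasurable ?_
  exact (hF k).comp_continuous (continuous_circleMap 0 r)
    (fun θ => circleMap_mem_sphere 0 hr.le θ)

theorem summable_bound {q : ℝ} (h0 : 0 ≤ q) (h1 : q < 1) :
    Summable (fun k : ℕ => ((k : ℝ) + 1) * q ^ k) := by
  have hq : ‖q‖ < 1 := by rwa [Real.norm_of_nonneg h0]
  have h := (summable_pow_mul_geometric_of_norm_lt_one 1 hq).add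
    (summable_geometric_of_lt_one h0 h1)
  refine h.congr (fun k => ?_)
  ring

theorem norm_term_le {β : ℂ} {q : ℝ} (h : ‖β‖ ≤ q) (k : ℕ) :
    ‖(tauc k : ℂ) * β ^ k‖ ≤ ((k : ℝ) + 1) * q ^ k := by
  rw [norm_mul, norm_pow, Complex.norm_real, Real.norm_of_nonneg (tauc_nonneg k)]
  exact mul_le_mul (tauc_le k) (pow_le_pow_left₀ (norm_nonneg _) h k) (by positivity)
    (by positivity)

theorem hasSum_psi {β : ℂ} (h : ‖β‖ < 1) : HasSum (fun k => (tauc k : ℂ) * β ^ k) (psi β) :=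
  (Summable.of_norm_bounded (summable_bound (norm_nonneg β) h)
    (fun k => norm_term_le le_rfl k)).hasSum

/-- Termwise averaging of `c * psi (b)`. -/
theorem hasSum_avg_psi {r q : ℝ} (hr : 0 < r) (hq : q < 1) {b c : ℂ → ℂ}
    (hb : ContinuousOn b (sphere 0 r)) (hc : ContinuousOn c (sphere 0 r))
    (hbq : ∀ u, ‖u‖ = r → ‖b u‖ ≤ q) {C : ℝ} (hC : ∀ u, ‖u‖ = r → ‖c u‖ ≤ C) :
    HasSum (fun k => (tauc k : ℂ) * avg r (fun u => c u * b u ^ k))
      (avg r (fun u => c u * psi (b u))) := by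
  have h0 : 0 ≤ q := (norm_nonneg _).trans (hbq (r : ℂ) (by simp [hr.le]))
  have h := hasSum_avg hr (F := fun k u => c u * ((tauc k : ℂ) * b u ^ k))
    (f := fun u => c u * psi (b u)) (a := fun k => C * (((k : ℝ) + 1) * q ^ k))
    (fun k => hc.mul (continuousOn_const.mul (hb.pow k))) ((summable_bound h0 hq).mul_left C)
    (fun k u hu => by
      rw [norm_mul]
      exact mul_le_mul (hC u hu) (norm_term_le (hbq u hu) k) (norm_nonneg _)
        ((norm_nonneg _).trans (hC u hu)))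
    (fun u hu => (hasSum_psi ((hbq u hu).trans_lt hq)).mul_left _)
  convert h using 2 with k
  rw [← avg_const_mul]
  congr 1
  ext u
  ring

/-- The product `4 x y` is bounded by the maximum of `x ^ 2 / u + 2 x y + y ^ 2 u` on a circle. -/
theorem norm_four_mul_le {r q : ℝ} (hr : 0 < r) {x y : ℂ}
    (h : ∀ u : ℂ, ‖u‖ = r → ‖x ^ 2 / u + 2 * x * y + y ^ 2 * u‖ ≤ q) : ‖4 * x * y‖ ≤ q := by
  have h0 : 0 ≤ q := (norm_nonneg _).trans (h (r : ℂ) (by simp [hr.le]))
  by_cases hx : x = 0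
  · simpa [hx] using h0
  by_cases hy : y = 0
  · simpa [hy] using h0
  have hxn : 0 < ‖x‖ := norm_pos_iff.mpr hx
  have hyn : 0 < ‖y‖ := norm_pos_iff.mpr hy
  set t : ℝ := r * ‖y‖ / ‖x‖ with ht
  have htp : 0 < t := by positivity
  have htc : (t : ℂ) ≠ 0 := by exact_mod_cast htp.ne'
  have hu : ‖(t : ℂ) * x / y‖ = r := by
    rw [norm_div, norm_mul, Complex.norm_real, Real.norm_of_nonneg htp.le, ht]
    field_simp
  have h1 := h _ hu
  have e : x ^ 2 / ((t : ℂ) * x / y) + 2 * x * y + y ^ 2 * ((t : ℂ) * x / y)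
      = ((t⁻¹ + 2 + t : ℝ) : ℂ) * (x * y) := by
    push_cast
    field_simp
  have h4 : 4 ≤ t⁻¹ + 2 + t := by
    have : t⁻¹ + 2 + t - 4 = (t - 1) ^ 2 / t := by field_simp; ring
    have h5 : 0 ≤ (t - 1) ^ 2 / t := by positivity
    linarith
  rw [e, norm_mul, Complex.norm_real, Real.norm_of_nonneg (by linarith)] at h1
  calc ‖4 * x * y‖ = 4 * ‖x * y‖ := by rw [mul_assoc, norm_mul]; simp
    _ ≤ (t⁻¹ + 2 + t) * ‖x * y‖ := mul_le_mul_of_nonneg_right h4 (norm_nonneg _)
    _ ≤ q := h1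

end BGA

end Pool.Agent.Lib.MP_e941ef_an
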