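import Pool.Agent.Lib.MP_e941ef_an.Defs

namespace Pool.Agent.Lib.MP_e941ef_an

open Complex Metric Set Filter Topology
open scoped ComplexConjugate ContDiff

theorem isOpen_box (ξ : ℂ) : IsOpen (box ξ) := by
  have h1 : IsOpen {p : ℂ × ℂ | ‖p.1 - ξ‖ < dd ξ ^ 2 / 1000} :=
    isOpen_lt (by fun_prop) continuous_const
  have h2 : IsOpen {p : ℂ × ℂ | ‖p.2 - conj ξ‖ < dd ξ ^ 2 / 1000} :=
    isOpen_lt (by fun_prop) continuous_const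
  exact h1.inter h2

theorem isOpen_NB : IsOpen NB := by
  rw [isOpen_iff_mem_nhds]
  rintro p ⟨ξ, hξ, hp⟩
  exact mem_of_superset ((isOpen_box ξ).mem_nhds hp) fun q hq => ⟨ξ, hξ, hq⟩

theorem dd_conj (ξ : ℂ) : dd (conj ξ) = dd ξ := by
  simp [dd]

theorem swap_mem_box {ξ : ℂ} {p : ℂ × ℂ} (hp : p ∈ box ξ) : p.swap ∈ box (conj ξ) := by
  obtain ⟨h1, h2⟩ := hp
  refine ⟨?_, ?_⟩
  · rw [dd_conj]; exact h2
  · rw [dd_conj, conj_conj]; exact h1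

theorem cj_mem_box {ξ : ℂ} {p : ℂ × ℂ} (hp : p ∈ box ξ) : cj p ∈ box (conj ξ) := by
  obtain ⟨h1, h2⟩ := hp
  refine ⟨?_, ?_⟩
  · rw [dd_conj]
    show ‖conj p.1 - conj ξ‖ < _
    rw [← map_sub, norm_conj]; exact h1
  · rw [dd_conj]
    show ‖conj p.2 - conj (conj ξ)‖ < _
    rw [← map_sub, norm_conj]; exact h2

theorem dd_pos' {ξ : ℂ} (hξ : ‖ξ‖ < 1) : 0 < dd ξ ∧ dd ξ ≤ 1 := by
  have h0 := norm_nonneg ξ
  unfold dd
  constructor <;> nlinarith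

theorem self_mem_box {ξ : ℂ} (hξ : ‖ξ‖ < 1) : (ξ, conj ξ) ∈ box ξ := by
  have h := (dd_pos' hξ).1
  refine ⟨?_, ?_⟩ <;> simp only [sub_self, norm_zero] <;> positivity

section

variable {ξ : ℂ} (hξ : ‖ξ‖ < 1) {p : ℂ × ℂ} (hp : p ∈ box ξ)

include hξ in
theorem dd_pos : 0 < dd ξ ∧ dd ξ ≤ 1 := dd_pos' hξ

include hξ hp

theorem box_norm : ‖p.1‖ ≤ ‖ξ‖ + dd ξ ^ 2 / 1000 ∧ ‖p.2‖ ≤ ‖ξ‖ + dd ξ ^ 2 / 1000 := by
  obtain ⟨h1, h2⟩ := hp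
  constructor
  · have := norm_add_le ξ (p.1 - ξ)
    rw [add_sub_cancel] at this
    linarith
  · have := norm_add_le (conj ξ) (p.2 - conj ξ)
    rw [add_sub_cancel, norm_conj] at this
    linarith

theorem box_A : (‖ξ‖ + dd ξ ^ 2 / 1000) ^ 2 ≤ 1 - dd ξ + dd ξ ^ 2 / 400 := by
  obtain ⟨d0, d1⟩ := dd_pos hξ
  have h0 := norm_nonneg ξ
  have hs : ‖ξ‖ ^ 2 = 1 - dd ξ := by unfold dd; ring
  have hd : dd ξ ^ 2 ≤ 1 := by nlinarith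
  have hd0 : 0 ≤ dd ξ ^ 2 := by positivity
  have e1 : ‖ξ‖ * dd ξ ^ 2 ≤ dd ξ ^ 2 := by nlinarith
  have e2 : dd ξ ^ 2 * dd ξ ^ 2 ≤ dd ξ ^ 2 := by nlinarith
  nlinarith

theorem box_sqA : ‖p.1 ^ 2‖ ≤ 1 - dd ξ + dd ξ ^ 2 / 400 ∧ ‖p.2 ^ 2‖ ≤ 1 - dd ξ + dd ξ ^ 2 / 400 ∧
    ‖p.1 * p.2‖ ≤ 1 - dd ξ + dd ξ ^ 2 / 400 := by
  obtain ⟨n1, n2⟩ := box_norm hξ hp
  have hA := box_A hξ hp
  have a1 := norm_nonneg p.1
  have a2 := norm_nonneg p.2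
  refine ⟨?_, ?_, ?_⟩
  · rw [norm_pow]; exact (pow_le_pow_left₀ a1 n1 2).trans hA
  · rw [norm_pow]; exact (pow_le_pow_left₀ a2 n2 2).trans hA
  · rw [norm_mul]
    refine le_trans ?_ hA
    rw [sq]
    exact mul_le_mul n1 n2 a2 (a1.trans n1)

theorem box_sq : ‖p.1 ^ 2‖ ≤ 1 - 99 / 100 * dd ξ ∧ ‖p.2 ^ 2‖ ≤ 1 - 99 / 100 * dd ξ ∧
    ‖p.1 * p.2‖ ≤ 1 - 99 / 100 * dd ξ := by
  obtain ⟨d0, d1⟩ := dd_pos hξ
  obtain ⟨h1, h2, h3⟩ := box_sqA hξ hp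
  have : dd ξ ^ 2 ≤ dd ξ := by nlinarith
  refine ⟨?_, ?_, ?_⟩ <;> linarith

theorem box_le_one : ‖p.1‖ ≤ 1 ∧ ‖p.2‖ ≤ 1 := by
  obtain ⟨d0, d1⟩ := dd_pos hξ
  obtain ⟨h1, h2, -⟩ := box_sq hξ hp
  rw [norm_pow] at h1 h2
  have a1 := norm_nonneg p.1
  have a2 := norm_nonneg p.2
  constructor <;> nlinarith

theorem box_prod : ‖p.1 * p.2 - ((1 - dd ξ : ℝ) : ℂ)‖ ≤ dd ξ ^ 2 / 400 := by
  have hs : ((1 - dd ξ : ℝ) : ℂ) = ξ * conj ξ := by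
    rw [mul_conj, normSq_eq_norm_sq]; unfold dd; push_cast; ring
  obtain ⟨-, n2⟩ := box_le_one hξ hp
  obtain ⟨h1, h2⟩ := hp
  have e : p.1 * p.2 - ((1 - dd ξ : ℝ) : ℂ) = (p.1 - ξ) * p.2 + ξ * (p.2 - conj ξ) := by
    rw [hs]; ring
  rw [e]
  refine (norm_add_le _ _).trans ?_
  rw [norm_mul, norm_mul]
  have b1 : ‖p.1 - ξ‖ * ‖p.2‖ ≤ ‖p.1 - ξ‖ := mul_le_of_le_one_right (norm_nonneg _) n2
  have b2 : ‖ξ‖ * ‖p.2 - conj ξ‖ ≤ ‖p.2 - conj ξ‖ := mul_le_of_le_one_left (norm_nonneg _) hξ.le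
  have : 0 ≤ dd ξ ^ 2 := by positivity
  linarith

theorem box_den_re : 2 - dd ξ - dd ξ ^ 2 / 400 ≤ (den p).re := by
  have h := box_prod hξ hp
  have h2 := (abs_le.mp ((abs_re_le_norm _).trans h)).1
  have e : (den p).re = 1 + (p.1 * p.2).re := by simp [den]
  rw [sub_re, ofReal_re] at h2
  rw [e]
  linarith

theorem box_den : 99 / 100 ≤ ‖den p‖ ∧ 99 / 100 ≤ (den p).re := by
  obtain ⟨d0, d1⟩ := dd_pos hξ
  have h := box_den_re hξ hp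
  have h2 : 99 / 100 ≤ (den p).re := by nlinarith
  exact ⟨h2.trans (re_le_norm _), h2⟩

theorem box_den_ne : den p ≠ 0 := by
  intro h
  have := (box_den hξ hp).1
  rw [h, norm_zero] at this
  norm_num at this

theorem box_rad : 1 - 2 / 3 * dd ξ ≤ rad p ∧ rad p ≤ 1 - 1 / 3 * dd ξ := by
  obtain ⟨d0, d1⟩ := dd_pos hξ
  have h := box_prod hξ hp
  have h3 := (box_sq hξ hp).2.2
  have h4 : ‖((1 - dd ξ : ℝ) : ℂ)‖ = 1 - dd ξ := by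
    rw [norm_real, Real.norm_eq_abs, abs_of_nonneg (by linarith)]
  have h5 := abs_norm_sub_norm_le (p.1 * p.2) ((1 - dd ξ : ℝ) : ℂ)
  rw [h4] at h5
  have h6 := (abs_le.mp (h5.trans h)).1
  have : dd ξ ^ 2 ≤ dd ξ := by nlinarith
  unfold rad
  constructor <;> linarith

theorem box_xx : ‖xx p‖ ≤ 1 := by
  obtain ⟨d0, d1⟩ := dd_pos hξ
  have h1 := (box_norm hξ hp).1
  have h2 := (box_den_re hξ hp).trans (re_le_norm _)
  have h3 := (box_den hξ hp).1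
  have hs : ‖ξ‖ ^ 2 = 1 - dd ξ := by unfold dd; ring
  unfold xx
  rw [norm_div, div_le_one (by linarith)]
  have : dd ξ ^ 2 ≤ 1 := by nlinarith
  nlinarith [sq_nonneg (‖ξ‖ - 1 / 2)]

theorem box_one_sub : dd ξ - dd ξ ^ 2 / 400 ≤ ‖1 - p.1 * p.2‖ ∧
    ‖1 - p.1 * p.2‖ ≤ dd ξ + dd ξ ^ 2 / 400 := by
  obtain ⟨d0, d1⟩ := dd_pos hξ
  have h := box_prod hξ hp
  have e : p.1 * p.2 - ((1 - dd ξ : ℝ) : ℂ) = ((dd ξ : ℝ) : ℂ) - (1 - p.1 * p.2) := by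
    push_cast; ring
  rw [e] at h
  have h4 : ‖((dd ξ : ℝ) : ℂ)‖ = dd ξ := by
    rw [norm_real, Real.norm_eq_abs, abs_of_nonneg d0.le]
  have h5 := abs_norm_sub_norm_le ((dd ξ : ℝ) : ℂ) (1 - p.1 * p.2)
  rw [h4] at h5
  have h6 := abs_le.mp (h5.trans h)
  constructor <;> linarith [h6.1, h6.2]

theorem box_sig : 0 < (sig p).re ∧ dd ξ / 3 ≤ ‖sig p‖ ∧ ‖sig p‖ ≤ 2 * dd ξ := by
  obtain ⟨d0, d1⟩ := dd_pos hξ
  have h3 := (box_sq hξ hp).2.2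
  have hd := (box_den hξ hp).1
  obtain ⟨l1, l2⟩ := box_one_sub hξ hp
  have hdd : dd ξ ^ 2 ≤ dd ξ := by nlinarith
  have hle : ‖den p‖ ≤ 2 := by
    unfold den
    refine (norm_add_le _ _).trans ?_
    rw [norm_one]; linarith
  refine ⟨?_, ?_, ?_⟩
  · unfold sig
    rw [div_re]
    have hn : 0 < normSq (den p) := normSq_pos.mpr (box_den_ne hξ hp)
    rw [← add_div]
    refine div_pos ?_ hn
    have hz : normSq (p.1 * p.2) < 1 := by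
      rw [normSq_eq_norm_sq]
      have := norm_nonneg (p.1 * p.2)
      nlinarith
    rw [normSq_apply] at hz
    unfold den
    generalize p.1 * p.2 = z at hz ⊢
    simp only [sub_re, one_re, add_re, sub_im, one_im, add_im]
    nlinarith
  · unfold sig
    rw [norm_div, le_div_iff₀ (by linarith)]
    nlinarith
  · unfold sig
    rw [norm_div, div_le_iff₀ (by linarith)]
    nlinarith

theorem box_sig_slit : sig p ∈ slitPlane := Or.inl (box_sig hξ hp).1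

theorem box_ww_re : (ww p).re = Real.sqrt ((‖sig p‖ + (sig p).re) / 2) := by
  unfold ww
  rw [one_div, cpow_inv_two_re]

theorem box_ww : ww p ^ 2 = sig p ∧ 0 < (ww p).re := by
  constructor
  · unfold ww
    rw [one_div]
    exact cpow_ofNat_inv_pow _ 2
  · rw [box_ww_re hξ hp]
    have := (box_sig hξ hp).1
    have := norm_nonneg (sig p)
    exact Real.sqrt_pos.mpr (by linarith)

theorem box_ww_ne : ww p ≠ 0 := by
  intro h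
  have := (box_ww hξ hp).2
  rw [h, zero_re] at this
  exact lt_irrefl _ this

theorem box_ee : ‖ee p‖ ≤ 6 / dd ξ ∧ ‖exp (ee p)‖ ≤ fl (dd ξ) := by
  obtain ⟨d0, d1⟩ := dd_pos hξ
  obtain ⟨s0, s1, s2⟩ := box_sig hξ hp
  obtain ⟨w1, w2⟩ := box_ww hξ hp
  have hn : ‖ww p‖ ^ 2 = ‖sig p‖ := by rw [← norm_pow, w1]
  have w0 : 0 < ‖ww p‖ := norm_pos_iff.mpr (box_ww_ne hξ hp)
  constructor
  · unfold ee
    rw [norm_div, norm_neg]
    have : ‖(3 : ℂ)‖ = 3 := by simp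
    rw [this, div_le_div_iff₀ w0 d0]
    by_contra hc
    push Not at hc
    nlinarith
  · rw [norm_exp]
    unfold fl
    rw [Real.exp_le_exp]
    have e : (ee p).re = -(3 * (ww p).re / ‖sig p‖) := by
      unfold ee
      rw [div_re, normSq_eq_norm_sq, hn]
      simp
      ring
    rw [e, neg_le_neg_iff]
    have q0 : 0 < Real.sqrt (dd ξ) := Real.sqrt_pos.mpr d0
    have q1 : Real.sqrt (dd ξ) ^ 2 = dd ξ := Real.sq_sqrt d0.le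
    have r1 : (ww p).re ^ 2 = (‖sig p‖ + (sig p).re) / 2 := by
      rw [box_ww_re hξ hp, Real.sq_sqrt (by linarith [norm_nonneg (sig p)])]
    have s3 : 0 < ‖sig p‖ := by linarith
    rw [div_le_div_iff₀ q0 s3, one_mul]
    have hp2 : 0 < 3 * (ww p).re * Real.sqrt (dd ξ) := by positivity
    refine (abs_le_of_sq_le_sq' ?_ hp2.le).2
    have : (3 * (ww p).re * Real.sqrt (dd ξ)) ^ 2 = 9 * ((‖sig p‖ + (sig p).re) / 2) * dd ξ := by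
      rw [mul_pow, mul_pow, q1, r1]; ring
    rw [this]
    nlinarith

theorem box_one_sub_sq : 99 / 100 * dd ξ ≤ ‖1 - p.1 ^ 2‖ ∧ 99 / 100 * dd ξ ≤ ‖1 - p.2 ^ 2‖ := by
  obtain ⟨h1, h2, -⟩ := box_sq hξ hp
  constructor
  · have := norm_sub_norm_le (1 : ℂ) (p.1 ^ 2)
    rw [norm_one] at this; linarith
  · have := norm_sub_norm_le (1 : ℂ) (p.2 ^ 2)
    rw [norm_one] at this; linarith

theorem box_one_sub_sq_ne : 1 - p.1 ^ 2 ≠ 0 ∧ 1 - p.2 ^ 2 ≠ 0 := by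
  obtain ⟨d0, d1⟩ := dd_pos hξ
  obtain ⟨h1, h2⟩ := box_one_sub_sq hξ hp
  constructor
  · intro h; rw [h, norm_zero] at h1; linarith
  · intro h; rw [h, norm_zero] at h2; linarith

theorem box_kap : ‖kap p‖ ≤ 1 + dd ξ / 100 ∧ kap p * kap p.swap = 1 := by
  obtain ⟨d0, d1⟩ := dd_pos hξ
  obtain ⟨k1, k2⟩ := box_one_sub_sq hξ hp
  obtain ⟨z1, z2⟩ := box_one_sub_sq_ne hξ hp
  obtain ⟨n1, n2⟩ := box_le_one hξ hp
  constructor
  · obtain ⟨h1, h2⟩ := hp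
    have e : 1 - p.2 ^ 2 = conj (1 - p.1 ^ 2) +
        (conj (p.1 - ξ) - (p.2 - conj ξ)) * (conj p.1 + p.2) := by
      simp only [map_sub, map_one, map_pow]; ring
    have b1 : ‖conj (p.1 - ξ) - (p.2 - conj ξ)‖ ≤ dd ξ ^ 2 / 500 := by
      refine (norm_sub_le _ _).trans ?_
      rw [norm_conj]; linarith
    have b2 : ‖conj p.1 + p.2‖ ≤ 2 := by
      refine (norm_add_le _ _).trans ?_
      rw [norm_conj]; linarith
    have b3 : ‖1 - p.2 ^ 2‖ ≤ ‖1 - p.1 ^ 2‖ + dd ξ ^ 2 / 500 * 2 := by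
      rw [e]
      refine (norm_add_le _ _).trans ?_
      rw [norm_conj, norm_mul]
      have := mul_le_mul b1 b2 (norm_nonneg _) (by positivity)
      linarith
    unfold kap
    rw [norm_div, div_le_iff₀ (by linarith)]
    nlinarith
  · unfold kap
    simp only [Prod.fst_swap, Prod.snd_swap]
    field_simp

theorem box_kap_mul {u : ℂ} (hu : ‖u‖ ≤ 1 - 1 / 3 * dd ξ) :
    ‖kap p * u‖ ≤ 1 - 3 / 10 * dd ξ := by
  obtain ⟨d0, d1⟩ := dd_pos hξ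
  have h := (box_kap hξ hp).1
  rw [norm_mul]
  have := mul_le_mul h hu (norm_nonneg _) (by linarith)
  nlinarith

theorem box_p1sq : ‖p.1 ^ 2‖ ≤ 1 - 1 / 3 * dd ξ := by
  obtain ⟨d0, d1⟩ := dd_pos hξ
  have := (box_sq hξ hp).1
  linarith

theorem box_kap_slit {u : ℂ} (hu : ‖u‖ ≤ 1 - 1 / 3 * dd ξ) : 1 + kap p * u ∈ slitPlane := by
  obtain ⟨d0, d1⟩ := dd_pos hξ
  have := box_kap_mul hξ hp hu
  exact mem_slitPlane_of_norm_lt_one (by linarith)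

theorem box_log {u : ℂ} (hu : ‖u‖ ≤ 1 - 1 / 3 * dd ξ) : ‖log (1 + kap p * u)‖ ≤ 4 / dd ξ := by
  obtain ⟨d0, d1⟩ := dd_pos hξ
  have h := box_kap_mul hξ hp hu
  generalize kap p * u = z at h
  have z0 := norm_nonneg z
  have z1 : ‖z‖ < 1 := by linarith
  refine (norm_log_one_add_le z1).trans ?_
  have i1 : (1 - ‖z‖)⁻¹ ≤ (3 / 10 * dd ξ)⁻¹ := inv_anti₀ (by positivity) (by linarith)
  have i0 : 0 ≤ (1 - ‖z‖)⁻¹ := inv_nonneg.mpr (by linarith)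
  have i2 : ‖z‖ ^ 2 ≤ 1 := by nlinarith
  have i3 : ‖z‖ ^ 2 * (1 - ‖z‖)⁻¹ ≤ (3 / 10 * dd ξ)⁻¹ := by nlinarith
  have i4 : (3 / 10 * dd ξ)⁻¹ = 10 / 3 * (dd ξ)⁻¹ := by field_simp
  have i5 : 1 ≤ (dd ξ)⁻¹ := one_le_inv₀ d0 |>.mpr d1
  rw [div_eq_mul_inv 4]
  linarith

theorem box_lr {u : ℂ} (hu : ‖u‖ ≤ 1 - 1 / 3 * dd ξ) : ‖lr p u‖ ≤ 8 / dd ξ := by
  unfold lr
  refine (norm_sub_le _ _).trans ?_
  have h1 := box_log hξ hp hu
  have h2 := box_log hξ hp (box_p1sq hξ hp)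
  have : 8 / dd ξ = 4 / dd ξ + 4 / dd ξ := by ring
  linarith

theorem box_one_sub_z : 99 / 100 * dd ξ ≤ ‖1 - (p.1 * p.2) ^ 2‖ := by
  obtain ⟨d0, d1⟩ := dd_pos hξ
  have h := (box_sq hξ hp).2.2
  have h1 := norm_sub_norm_le (1 : ℂ) ((p.1 * p.2) ^ 2)
  rw [norm_one, norm_pow] at h1
  have := norm_nonneg (p.1 * p.2)
  nlinarith

theorem box_one_sub_z_ne : 1 - (p.1 * p.2) ^ 2 ≠ 0 := by
  obtain ⟨d0, d1⟩ := dd_pos hξ
  have h1 := box_one_sub_z hξ hp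
  intro h; rw [h, norm_zero] at h1; linarith

theorem box_exp_lr (E : ℂ) {u : ℂ} (hu : ‖u‖ ≤ 1 - 1 / 3 * dd ξ) :
    E * exp (lr p u) = ll E p + ll E p.swap * u := by
  have a1 := slitPlane_ne_zero (box_kap_slit hξ hp hu)
  have a2 := slitPlane_ne_zero (box_kap_slit hξ hp (box_p1sq hξ hp))
  obtain ⟨z1, z2⟩ := box_one_sub_sq_ne hξ hp
  have z3 := box_one_sub_z_ne hξ hp
  unfold lr
  rw [exp_sub, exp_log a1, exp_log a2]
  have e : 1 + kap p * p.1 ^ 2 = (1 - (p.1 * p.2) ^ 2) / (1 - p.1 ^ 2) := by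
    unfold kap; field_simp; ring
  rw [e]
  unfold ll kap
  simp only [Prod.fst_swap, Prod.snd_swap]
  rw [mul_comm p.2 p.1]
  field_simp

theorem box_ll (E : ℂ) : ‖ll E p‖ ≤ 3 * ‖E‖ / dd ξ := by
  obtain ⟨d0, d1⟩ := dd_pos hξ
  have h := box_one_sub_z hξ hp
  have h1 := (box_sq hξ hp).1
  have h2 : ‖1 - p.1 ^ 2‖ ≤ 2 := by
    refine (norm_sub_le _ _).trans ?_
    rw [norm_one]; linarith
  unfold ll
  rw [norm_div, norm_mul, div_le_div_iff₀ (by linarith) d0]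
  have e0 := norm_nonneg E
  have b1 : ‖1 - p.1 ^ 2‖ * dd ξ ≤ 3 * ‖1 - (p.1 * p.2) ^ 2‖ := by nlinarith
  nlinarith [mul_le_mul_of_nonneg_left b1 e0]

omit hξ hp in
theorem poly_ineq {d : ℝ} (d0 : 0 < d) (d1 : d ≤ 1) :
    (1 - d + d ^ 2 / 400) * (2 - 2 / 3 * d) ^ 2 ≤
      (1 - d ^ 2 / 20) * (2 - d - d ^ 2 / 400) ^ 2 * (1 - 2 / 3 * d) := by
  have e : (1 - d ^ 2 / 20) * (2 - d - d ^ 2 / 400) ^ 2 * (1 - 2 / 3 * d) -
      (1 - d + d ^ 2 / 400) * (2 - 2 / 3 * d) ^ 2 =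
      d ^ 2 * ((151 / 450 - 269671 / 1440000 * d ^ 2) + 233 / 1800 * d + 7859 / 240000 * d ^ 3
        + 1597 / 9600000 * d ^ 4 + 1 / 4800000 * d ^ 5) := by ring
  have h1 : 0 ≤ 151 / 450 - 269671 / 1440000 * d ^ 2 := by nlinarith
  have h2 : 0 ≤ d ^ 2 * ((151 / 450 - 269671 / 1440000 * d ^ 2) + 233 / 1800 * d
      + 7859 / 240000 * d ^ 3 + 1597 / 9600000 * d ^ 4 + 1 / 4800000 * d ^ 5) := by positivity
  linarith

theorem box_bb {u : ℂ} (h₁ : 1 - 2 / 3 * dd ξ ≤ ‖u‖) (h₂ : ‖u‖ ≤ (1 - 2 / 3 * dd ξ)⁻¹) :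
    ‖bb p u‖ ≤ 1 - dd ξ ^ 2 / 20 := by
  obtain ⟨d0, d1⟩ := dd_pos hξ
  obtain ⟨a1, a2, a3⟩ := box_sqA hξ hp
  have hD := (box_den_re hξ hp).trans (re_le_norm _)
  have hne := box_den_ne hξ hp
  have hP := poly_ineq d0 d1
  set d := dd ξ with hd
  have r0 : 0 < 1 - 2 / 3 * d := by linarith
  have t0 : 0 < ‖u‖ := by linarith
  have u0 : u ≠ 0 := norm_pos_iff.mp t0
  have e : bb p u = (p.1 ^ 2 / u + 2 * (p.1 * p.2) + p.2 ^ 2 * u) / den p ^ 2 := by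
    have hs : den p.swap = den p := by unfold den; simp [mul_comm]
    unfold bb xx
    rw [hs]
    simp only [Prod.fst_swap]
    field_simp
  have A0 : 0 ≤ 1 - d + d ^ 2 / 400 := by nlinarith
  have D0 : 0 < 2 - d - d ^ 2 / 400 := by nlinarith
  have hN : ‖p.1 ^ 2 / u + 2 * (p.1 * p.2) + p.2 ^ 2 * u‖ ≤
      (1 - d + d ^ 2 / 400) * (‖u‖⁻¹ + 2 + ‖u‖) := by
    refine (norm_add₃_le).trans ?_
    rw [norm_div, norm_mul 2, norm_mul (p.2 ^ 2), div_eq_mul_inv]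
    have : ‖(2 : ℂ)‖ = 2 := by simp
    rw [this]
    have c1 := mul_le_mul_of_nonneg_right a1 (inv_nonneg.mpr t0.le)
    have c2 := mul_le_mul_of_nonneg_right a2 t0.le
    linarith
  have ht : (‖u‖⁻¹ + 2 + ‖u‖) * (1 - 2 / 3 * d) ≤ (2 - 2 / 3 * d) ^ 2 := by
    have k1 : ‖u‖ * (1 - 2 / 3 * d) ≤ 1 := by
      rwa [← le_div_iff₀ r0, one_div]
    have k2 : ‖u‖⁻¹ * ‖u‖ = 1 := inv_mul_cancel₀ t0.ne'
    have k3 : 0 < ‖u‖⁻¹ := inv_pos.mpr t0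
    have k4 : 0 ≤ ‖u‖⁻¹ * ((‖u‖ - (1 - 2 / 3 * d)) * (1 - ‖u‖ * (1 - 2 / 3 * d))) :=
      mul_nonneg k3.le (mul_nonneg (by linarith) (by linarith))
    have k5 : ‖u‖⁻¹ * ((‖u‖ - (1 - 2 / 3 * d)) * (1 - ‖u‖ * (1 - 2 / 3 * d))) =
        1 - ‖u‖ * (1 - 2 / 3 * d) - ‖u‖⁻¹ * (1 - 2 / 3 * d) + (1 - 2 / 3 * d) ^ 2 := by
      field_simp
      ring
    nlinarith
  have hD2 : (2 - d - d ^ 2 / 400) ^ 2 ≤ ‖den p‖ ^ 2 := pow_le_pow_left₀ D0.le hD 2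
  have B0 : 0 ≤ 1 - d ^ 2 / 20 := by nlinarith
  rw [e, norm_div, norm_pow, div_le_iff₀ (by positivity)]
  refine hN.trans ?_
  refine le_trans ?_ (mul_le_mul_of_nonneg_left hD2 B0)
  refine le_of_mul_le_mul_right ?_ r0
  refine le_trans ?_ hP
  rw [mul_assoc]
  exact mul_le_mul_of_nonneg_left ht A0

theorem box_cc (E : ℂ) {u : ℂ} (h₁ : 1 - 2 / 3 * dd ξ ≤ ‖u‖) (h₂ : ‖u‖ ≤ (1 - 2 / 3 * dd ξ)⁻¹) :
    ‖cc E p u‖ ≤ 48 * ‖E‖ / dd ξ := by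
  obtain ⟨d0, d1⟩ := dd_pos hξ
  have hξ' : ‖conj ξ‖ < 1 := by rwa [norm_conj]
  have hp' := swap_mem_box hp
  have x1 := box_xx hξ hp
  have x2 := box_xx hξ' hp'
  have l1 := box_ll hξ hp E
  have l2 := box_ll hξ' hp' E
  rw [dd_conj] at l2
  have t1 : 1 / 3 ≤ ‖u‖ := by linarith
  have t2 : ‖u‖ ≤ 3 := by
    refine h₂.trans ?_
    rw [inv_le_comm₀ (by linarith) (by norm_num)]
    linarith
  have b1 : ‖xx p / u + xx p.swap‖ ≤ 4 := by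
    refine (norm_add_le _ _).trans ?_
    have : ‖xx p / u‖ ≤ 3 := by
      rw [norm_div, div_le_iff₀ (by linarith)]; linarith
    linarith
  have L0 : 0 ≤ 3 * ‖E‖ / dd ξ := by positivity
  have b2 : ‖ll E p + ll E p.swap * u‖ ≤ 4 * (3 * ‖E‖ / dd ξ) := by
    refine (norm_add_le _ _).trans ?_
    rw [norm_mul]
    have := mul_le_mul l2 t2 (norm_nonneg _) L0
    linarith
  unfold cc
  rw [norm_mul]
  have := mul_le_mul b1 b2 (norm_nonneg _) (by norm_num)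
  have e : 48 * ‖E‖ / dd ξ = 4 * (4 * (3 * ‖E‖ / dd ξ)) := by ring
  linarith

end

theorem diffAt_div {X : Type*} [NormedAddCommGroup X] [NormedSpace ℂ X] {f g : X → ℂ} {x : X}
    (hf : DifferentiableAt ℂ f x) (hg : DifferentiableAt ℂ g x) (h : g x ≠ 0) :
    DifferentiableAt ℂ (fun y => f y / g y) x := by
  simp only [div_eq_mul_inv]
  exact hf.mul (hg.inv h)

theorem den_diff : Differentiable ℂ den := by
  unfold den; fun_prop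

theorem xx_diff : DifferentiableOn ℂ xx NB := by
  rintro p ⟨ξ, hξ, hp⟩
  refine DifferentiableAt.differentiableWithinAt ?_
  exact diffAt_div differentiableAt_fst (den_diff p) (box_den_ne hξ hp)

theorem sig_diffAt {ξ : ℂ} (hξ : ‖ξ‖ < 1) {p : ℂ × ℂ} (hp : p ∈ box ξ) :
    DifferentiableAt ℂ sig p :=
  diffAt_div (f := fun p : ℂ × ℂ => 1 - p.1 * p.2) (by fun_prop) (den_diff p) (box_den_ne hξ hp)

theorem ww_diffAt {ξ : ℂ} (hξ : ‖ξ‖ < 1) {p : ℂ × ℂ} (hp : p ∈ box ξ) :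
    DifferentiableAt ℂ ww p :=
  (sig_diffAt hξ hp).cpow_const (box_sig_slit hξ hp)

theorem ww_diff : DifferentiableOn ℂ ww NB := by
  rintro p ⟨ξ, hξ, hp⟩
  exact (ww_diffAt hξ hp).differentiableWithinAt

theorem ee_diff : DifferentiableOn ℂ ee NB := by
  rintro p ⟨ξ, hξ, hp⟩
  refine DifferentiableAt.differentiableWithinAt ?_
  exact diffAt_div (differentiableAt_const _) (ww_diffAt hξ hp) (box_ww_ne hξ hp)

theorem sig_swap (p : ℂ × ℂ) : sig p.swap = sig p := by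
  unfold sig den; simp [mul_comm]

theorem ee_swap (p : ℂ × ℂ) : ee p.swap = ee p := by
  unfold ee ww; rw [sig_swap]

theorem sig_cj (p : ℂ × ℂ) : sig (cj p) = conj (sig p) := by
  unfold sig den cj; simp

theorem ee_conj {p : ℂ × ℂ} (hp : p ∈ NB) : ee (cj p) = conj (ee p) := by
  obtain ⟨ξ, hξ, hp⟩ := hp
  have h := slitPlane_arg_ne_pi (box_sig_slit hξ hp)
  unfold ee ww
  have e1 : conj (1 / 2 : ℂ) = 1 / 2 := by
    rw [map_div₀, map_one, map_ofNat]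
  have e2 : conj (3 : ℂ) = 3 := map_ofNat _ 3
  rw [sig_cj, conj_cpow _ _ h, e1, map_div₀, map_neg, e2]

theorem kap_cj (p : ℂ × ℂ) : kap (cj p) = conj (kap p) := by
  unfold kap cj; simp

theorem lr_conj {ξ : ℂ} (hξ : ‖ξ‖ < 1) {p : ℂ × ℂ} (hp : p ∈ box ξ) {u : ℂ}
    (hu : ‖u‖ ≤ 1 - 1 / 3 * dd ξ) : lr (cj p) (conj u) = conj (lr p u) := by
  have a1 := slitPlane_arg_ne_pi (box_kap_slit hξ hp hu)
  have a2 := slitPlane_arg_ne_pi (box_kap_slit hξ hp (box_p1sq hξ hp))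
  unfold lr
  rw [map_sub, ← log_conj _ a1, ← log_conj _ a2, kap_cj]
  simp [cj]

/-- `lr` is holomorphic in both arguments. -/
theorem lr_diffAt {ξ : ℂ} (hξ : ‖ξ‖ < 1) {p : ℂ × ℂ} (hp : p ∈ box ξ) {u : ℂ}
    (hu : ‖u‖ ≤ 1 - 1 / 3 * dd ξ) :
    DifferentiableAt ℂ (fun z : (ℂ × ℂ) × ℂ => lr z.1 z.2) (p, u) := by
  have a1 := box_kap_slit hξ hp hu
  have a2 := box_kap_slit hξ hp (box_p1sq hξ hp)
  have z1 := (box_one_sub_sq_ne hξ hp).1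
  have hk : DifferentiableAt ℂ (fun z : (ℂ × ℂ) × ℂ => kap z.1) (p, u) := by
    unfold kap
    exact diffAt_div (f := fun z : (ℂ × ℂ) × ℂ => 1 - z.1.2 ^ 2)
      (g := fun z : (ℂ × ℂ) × ℂ => 1 - z.1.1 ^ 2) (by fun_prop) (by fun_prop) z1
  unfold lr
  refine DifferentiableAt.sub ?_ ?_
  · exact DifferentiableAt.clog ((differentiableAt_const _).add (hk.mul differentiableAt_snd)) a1
  · exact DifferentiableAt.clog ((differentiableAt_const _).add (hk.mul (by fun_prop))) a2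

theorem fl_le (N : ℕ) : ∃ C : ℝ, 0 < C ∧ ∀ d : ℝ, 0 < d → d ≤ 1 → fl d ≤ C * d ^ N := by
  refine ⟨((2 * N).factorial : ℝ), by positivity, fun d d0 _ => ?_⟩
  have q0 : 0 < Real.sqrt d := Real.sqrt_pos.mpr d0
  have h := Real.pow_div_factorial_le_exp (1 / Real.sqrt d) (by positivity) (2 * N)
  have e : (1 / Real.sqrt d) ^ (2 * N) = (d ^ N)⁻¹ := by
    rw [pow_mul, div_pow, Real.sq_sqrt d0.le, one_pow, one_div, inv_pow]
  rw [e] at h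
  unfold fl
  rw [Real.exp_neg]
  have f0 : (0 : ℝ) < ((2 * N).factorial : ℝ) := by positivity
  have h2 := inv_anti₀ (by positivity) h
  refine h2.trans (le_of_eq ?_)
  field_simp

end Pool.Agent.Lib.MP_e941ef_an
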