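import Pool.Agent.Lib.MP_e941ef_an.Laurent
import Pool.Agent.Lib.MP_e941ef_an.Box
import Pool.Agent.Lib.MP_e941ef_an.Mu
import Pool.Agent.Lib.MP_e941ef_an.BGA

namespace Pool.Agent.Lib.MP_e941ef_an

open Complex Metric Set Filter Topology
open scoped ComplexConjugate ContDiff

namespace BGA

theorem den_swap (p : ℂ × ℂ) : den p.swap = den p := by
  simp [den, mul_comm]

theorem one_sub_bb {p : ℂ × ℂ} (hd : den p ≠ 0) {u : ℂ} (hu : u ≠ 0) :
    1 - bb p u = (u - p.1 ^ 2) * (1 - p.2 ^ 2 * u) / (u * den p ^ 2) := by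
  have h : den p = 1 + p.1 * p.2 := rfl
  simp only [bb, xx, den_swap, Prod.fst_swap]
  field_simp
  rw [h]
  ring

theorem bb_eq (p : ℂ × ℂ) {u : ℂ} (hu : u ≠ 0) :
    bb p u = (xx p + xx p.swap * u) ^ 2 / u := by
  simp only [bb]
  field_simp
  ring

theorem four_xy {p : ℂ × ℂ} (hd : den p ≠ 0) : 1 - 4 * xx p * xx p.swap = sig p ^ 2 := by
  have h : den p = 1 + p.1 * p.2 := rfl
  simp only [sig, xx, den_swap, Prod.fst_swap]
  field_simp
  rw [h]
  ring

theorem lr_self (p : ℂ × ℂ) : lr p (p.1 ^ 2) = 0 := by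
  simp [lr]

theorem bb_cont (p : ℂ × ℂ) {r : ℝ} (hr : 0 < r) : ContinuousOn (bb p) (sphere 0 r) := by
  unfold bb
  refine (ContinuousOn.add (continuousOn_const.div continuousOn_id
    (fun u hu => ne_zero_of_mem hr hu)) continuousOn_const).add
    (continuousOn_const.mul continuousOn_id)

section

variable {ξ : ℂ} (hξ : ‖ξ‖ < 1) {p : ℂ × ℂ} (hp : p ∈ box ξ) {r : ℝ}
  (h₁ : 1 - 2 / 3 * dd ξ ≤ r) (h₂ : r ≤ 1 - 1 / 3 * dd ξ)

include hξ hp in
theorem den_ne : den p ≠ 0 := by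
  have := (box_den hξ hp).1
  intro h
  rw [h, norm_zero] at this
  linarith

include hξ h₁ in
theorem r_pos : 0 < r := by
  have := dd_pos hξ
  linarith [this.2]

include hξ hp h₁ in
theorem sq_lt : ‖p.1 ^ 2‖ < r := by
  have := dd_pos hξ
  linarith [(box_sq hξ hp).1, this.1]

include hξ hp h₂ in
theorem one_sub_ne {u : ℂ} (hu : ‖u‖ ≤ r) : 1 - p.2 ^ 2 * u ≠ 0 := by
  have hd := dd_pos hξ
  have h := (box_sq hξ hp).2.1
  intro h0
  have h1 : ‖p.2 ^ 2 * u‖ = 1 := by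
    rw [← sub_eq_zero.mp h0, norm_one]
  rw [norm_mul] at h1
  have h2 : ‖p.2 ^ 2‖ * ‖u‖ ≤ 1 * r :=
    mul_le_mul (by linarith [hd.1]) hu (norm_nonneg _) zero_le_one
  linarith [hd.1]

include hξ hp h₁ in
theorem sub_ne {u : ℂ} (hu : ‖u‖ = r) : u - p.1 ^ 2 ≠ 0 := by
  intro h0
  have := sq_lt hξ hp h₁
  rw [← sub_eq_zero.mp h0] at this
  linarith

include hξ hp in
theorem one_sub_sq_ne : 1 - (p.1 * p.2) ^ 2 ≠ 0 := by
  have hd := dd_pos hξ
  have h := (box_sq hξ hp).2.2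
  intro h0
  have h1 : ‖(p.1 * p.2) ^ 2‖ = 1 := by
    rw [← sub_eq_zero.mp h0, norm_one]
  rw [norm_pow] at h1
  have h2 : ‖p.1 * p.2‖ ^ 2 < 1 :=
    pow_lt_one₀ (norm_nonneg _) (by linarith [hd.1]) two_ne_zero
  linarith

include hξ hp h₁ h₂ in
theorem bb_le {u : ℂ} (hu : ‖u‖ = r) : ‖bb p u‖ ≤ 1 - dd ξ ^ 2 / 20 := by
  have hd := dd_pos hξ
  refine box_bb hξ hp (hu ▸ h₁) ?_
  have : 1 ≤ (1 - 2 / 3 * dd ξ)⁻¹ :=
    (one_le_inv₀ (by linarith [hd.2])).mpr (by linarith [hd.1])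
  linarith [hd.1]

include hξ in
theorem q_lt : 1 - dd ξ ^ 2 / 20 < 1 := by
  have hd := (dd_pos hξ).1
  have : 0 < dd ξ ^ 2 := by positivity
  linarith

include hξ hp h₂ in
theorem lr_diff {u : ℂ} (hu : ‖u‖ ≤ r) : DifferentiableAt ℂ (lr p) u := by
  have h := lr_diffAt hξ hp (hu.trans h₂)
  exact h.comp u ((differentiableAt_const p).prodMk differentiableAt_id)

include hξ hp h₁ h₂ in
theorem Y_lt : ‖4 * xx p * xx p.swap‖ < 1 :=
  (norm_four_mul_le (r_pos hξ h₁) (fun _ hu => bb_le hξ hp h₁ h₂ hu)).trans_lt (q_lt hξ)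

include hξ hp h₁ h₂ in
theorem psi_cont : ContinuousOn (fun u => psi (bb p u)) (sphere 0 r) := by
  refine psi_diff.continuousOn.comp (bb_cont p (r_pos hξ h₁)) (fun u hu => ?_)
  rw [mem_ball_zero_iff]
  exact (bb_le hξ hp h₁ h₂ (by simpa using hu)).trans_lt (q_lt hξ)

include hξ hp h₁ h₂ in
theorem one_sub_bb_ne {u : ℂ} (hu : ‖u‖ = r) : 3 * (1 - bb p u) ≠ 0 := by
  refine mul_ne_zero three_ne_zero (fun h0 => ?_)
  have := (bb_le hξ hp h₁ h₂ hu).trans_lt (q_lt hξ)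
  rw [← sub_eq_zero.mp h0, norm_one] at this
  exact lt_irrefl _ this

include hξ hp h₁ h₂ in
theorem quot_cont :
    ContinuousOn (fun u => (ee p + lr p u) / (3 * (1 - bb p u))) (sphere 0 r) := by
  refine ContinuousOn.div (continuousOn_const.add (fun u hu => ?_))
    (continuousOn_const.mul (continuousOn_const.sub (bb_cont p (r_pos hξ h₁))))
    (fun u hu => one_sub_bb_ne hξ hp h₁ h₂ (by simpa using hu))
  exact (lr_diff hξ hp h₂ (by simpa using (mem_sphere_zero_iff_norm.mp hu).le)).continuousAt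
    |>.continuousWithinAt

include hξ hp h₁ h₂ in
/-- The Cauchy formula for quotients by `3 (1 - bb)`. -/
theorem avg_quot {g : ℂ → ℂ} (hg : ∀ u : ℂ, ‖u‖ ≤ r → DifferentiableAt ℂ g u) :
    avg r (fun u => g u / (3 * (1 - bb p u)))
      = g (p.1 ^ 2) * den p ^ 2 / (3 * (1 - (p.1 * p.2) ^ 2)) := by
  have hr := r_pos hξ h₁
  have hd := den_ne hξ hp
  have h := avg_cauchy (f := fun u => g u * den p ^ 2 / (3 * (1 - p.2 ^ 2 * u))) (r := r)
    (fun u hu => ((hg u hu).mul_const _).div (d := fun u => 3 * (1 - p.2 ^ 2 * u)) (by fun_prop)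
      (mul_ne_zero three_ne_zero (one_sub_ne hξ hp h₂ hu))) (sq_lt hξ hp h₁)
  rw [show (p.1 * p.2) ^ 2 = p.2 ^ 2 * p.1 ^ 2 by ring, ← h]
  refine avg_congr hr (fun u hu => ?_)
  have hu0 : u ≠ 0 := by rintro rfl; simp at hu; linarith
  have a1 := one_sub_ne hξ hp h₂ hu.le
  have a2 := sub_ne hξ hp h₁ hu
  rw [one_sub_bb hd hu0]
  field_simp

include hξ hp h₁ h₂ in
theorem avg_quot_div {g : ℂ → ℂ} (hg : ∀ u : ℂ, ‖u‖ ≤ r → DifferentiableAt ℂ g u) :
    xx p ^ 2 * avg r (fun u => g u / (3 * (1 - bb p u)) / u)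
      = (g (p.1 ^ 2) / (1 - (p.1 * p.2) ^ 2) - g 0) / 3 := by
  have hr := r_pos hξ h₁
  have hd := den_ne hξ hp
  have hG : ∀ u : ℂ, ‖u‖ ≤ r → DifferentiableAt ℂ (fun u => g u / (3 * (1 - p.2 ^ 2 * u))) u :=
    fun u hu => (hg u hu).div (by fun_prop)
      (mul_ne_zero three_ne_zero (one_sub_ne hξ hp h₂ hu))
  have hc : ∀ s : ℂ, ‖s‖ < r → ContinuousOn
      (fun u => g u / (3 * (1 - p.2 ^ 2 * u)) * (u / (u - s))) (sphere 0 r) := by
    intro s hs u hu
    have hu' := mem_sphere_zero_iff_norm.mp hu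
    refine ((hG u hu'.le).continuousAt.mul (continuousAt_id.div (by fun_prop) ?_)).continuousWithinAt
    intro h0
    rw [← sub_eq_zero.mp h0] at hs
    exact absurd hs (by rw [hu']; exact lt_irrefl r)
  have h := avg_cauchy hG (sq_lt hξ hp h₁)
  have h0 := avg_cauchy hG (s := 0) (by simpa using hr)
  have h3 := avg_sub hr (hc _ (sq_lt hξ hp h₁)) (hc 0 (by simpa using hr))
  rw [h, h0] at h3
  rw [← avg_const_mul]
  have e : (g (p.1 ^ 2) / (1 - (p.1 * p.2) ^ 2) - g 0) / 3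
      = g (p.1 ^ 2) / (3 * (1 - p.2 ^ 2 * p.1 ^ 2)) - g 0 / (3 * (1 - p.2 ^ 2 * 0)) := by
    have a := one_sub_sq_ne hξ hp
    rw [show p.2 ^ 2 * p.1 ^ 2 = (p.1 * p.2) ^ 2 by ring]
    field_simp
    ring
  rw [e, ← h3]
  refine avg_congr hr (fun u hu => ?_)
  have hu0 : u ≠ 0 := by rintro rfl; simp at hu; linarith
  have a1 := one_sub_ne hξ hp h₂ hu.le
  have a2 := sub_ne hξ hp h₁ hu
  rw [one_sub_bb hd hu0, xx]
  field_simp
  ring

end

end BGA

open BGA

section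

variable {ξ : ℂ} (hξ : ‖ξ‖ < 1) {p : ℂ × ℂ} (hp : p ∈ box ξ) {r : ℝ}
  (h₁ : 1 - 2 / 3 * dd ξ ≤ r) (h₂ : r ≤ 1 - 1 / 3 * dd ξ)

include hξ hp h₁ h₂

theorem avg_I0 : avg r (fun u => (3 * (1 - bb p u))⁻¹) = (3 * sig p)⁻¹ := by
  have h := avg_quot hξ hp h₁ h₂ (g := fun _ => 1) (fun _ _ => differentiableAt_const _)
  simp only [one_div] at h
  rw [h, sig]
  have a := one_sub_sq_ne hξ hp
  have hd := den_ne hξ hp
  have e : 1 - (p.1 * p.2) ^ 2 = (1 - p.1 * p.2) * den p := by rw [den]; ring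
  rw [e] at a ⊢
  have a' := left_ne_zero_of_mul a
  field_simp

theorem avg_psi : avg r (fun u => psi (bb p u)) = (ww p ^ 3)⁻¹ := by
  have hr := r_pos hξ h₁
  have hw := box_ww hξ hp
  have h := hasSum_avg_psi hr (q_lt hξ) (bb_cont p hr) (c := fun _ => 1) continuousOn_const
    (fun u hu => bb_le hξ hp h₁ h₂ hu) (C := 1) (fun _ _ => by simp)
  simp only [one_mul] at h
  have h' := hasSum_central hw.2 (by rw [hw.1]; exact (box_sig hξ hp).1) (Y_lt hξ hp h₁ h₂)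
    (by rw [hw.1]; exact four_xy (den_ne hξ hp))
  have e : (fun k => (tauc k : ℂ) * avg r (fun u => bb p u ^ k))
      = fun k => mc (3 / 4) k * (4 * xx p * xx p.swap) ^ k := by
    ext k
    have e1 : avg r (fun u => bb p u ^ k)
        = avg r (fun u => (xx p + xx p.swap * u) ^ (2 * k) / u ^ k) := by
      refine avg_congr hr (fun u hu => ?_)
      have hu0 : u ≠ 0 := by rintro rfl; simp at hu; linarith
      rw [bb_eq p hu0, div_pow, pow_mul]
    rw [e1, avg_binom hr, show 2 * k - k = k by omega, ← mul_assoc, ← mul_assoc, tauc_central]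
    ring
  rw [e] at h
  exact h.unique h'

theorem avg_psi_div : xx p ^ 2 * avg r (fun u => psi (bb p u) / u) =
    (1 - sig p ^ 2) / 4 * (ww p ^ 3)⁻¹ - 1 + ww p := by
  have hr := r_pos hξ h₁
  have hw := box_ww hξ hp
  have h := (hasSum_avg_psi hr (q_lt hξ) (bb_cont p hr) (c := fun u => u⁻¹)
    (continuousOn_id.inv₀ (fun u hu => ne_zero_of_mem hr hu))
    (fun u hu => bb_le hξ hp h₁ h₂ hu) (C := r⁻¹) (fun u hu => by rw [norm_inv, hu])).mul_left
    (xx p ^ 2)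
  have h' := hasSum_off hw.2 (by rw [hw.1]; exact (box_sig hξ hp).1) (Y_lt hξ hp h₁ h₂)
    (by rw [hw.1]; exact four_xy (den_ne hξ hp))
  have e : (fun k => xx p ^ 2 * ((tauc k : ℂ) * avg r (fun u => u⁻¹ * bb p u ^ k)))
      = fun k => (mc (3 / 4) k / 4 + mc (-1 / 4) (k + 1)) * (4 * xx p * xx p.swap) ^ (k + 1) := by
    ext k
    have e1 : avg r (fun u => u⁻¹ * bb p u ^ k)
        = avg r (fun u => (xx p + xx p.swap * u) ^ (2 * k) / u ^ (k + 1)) := by
      refine avg_congr hr (fun u hu => ?_)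
      have hu0 : u ≠ 0 := by rintro rfl; simp at hu; linarith
      rw [bb_eq p hu0, div_pow, pow_mul]
      field_simp
      ring
    rw [e1, avg_binom hr, mul_pow, mul_pow, ← mul_assoc (_ + _), ← mul_assoc (_ + _), ← tauc_off]
    rcases k with _ | k
    · simp
    · rw [show 2 * (k + 1) - (k + 1 + 1) = k by omega]
      ring
  rw [e] at h
  rw [← four_xy (den_ne hξ hp), sub_sub_cancel, ← h.unique h']
  congr 2
  ext u
  rw [div_eq_inv_mul]

theorem avg_psi_mul : xx p ^ 2 * avg r (fun u => u * psi (bb p.swap u)) =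
    (1 - sig p ^ 2) / 4 * (ww p ^ 3)⁻¹ - 1 + ww p := by
  have hr := r_pos hξ h₁
  have hw := box_ww hξ hp
  have hξ' : ‖conj ξ‖ < 1 := by rwa [Complex.norm_conj]
  have h₁' : 1 - 2 / 3 * dd (conj ξ) ≤ r := by rwa [dd_conj]
  have h₂' : r ≤ 1 - 1 / 3 * dd (conj ξ) := by rwa [dd_conj]
  have h := (hasSum_avg_psi hr (q_lt hξ') (bb_cont p.swap hr) (c := fun u => u)
    continuousOn_id
    (fun u hu => bb_le hξ' (swap_mem_box hp) h₁' h₂' hu) (C := r) (fun u hu => hu.le)).mul_left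
    (xx p ^ 2)
  have h' := hasSum_off hw.2 (by rw [hw.1]; exact (box_sig hξ hp).1) (Y_lt hξ hp h₁ h₂)
    (by rw [hw.1]; exact four_xy (den_ne hξ hp))
  have e : (fun k => xx p ^ 2 * ((tauc k : ℂ) * avg r (fun u => u * bb p.swap u ^ k)))
      = fun k => (mc (3 / 4) k / 4 + mc (-1 / 4) (k + 1)) * (4 * xx p * xx p.swap) ^ (k + 1) := by
    ext k
    rw [mul_pow, mul_pow, ← mul_assoc (_ + _), ← mul_assoc (_ + _), ← tauc_off]
    rcases k with _ | k
    · simp [avg_id]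
    · have e1 : avg r (fun u => u * bb p.swap u ^ (k + 1))
          = avg r (fun u => (xx p.swap + xx p * u) ^ (2 * (k + 1)) / u ^ k) := by
        refine avg_congr hr (fun u hu => ?_)
        have hu0 : u ≠ 0 := by rintro rfl; simp at hu; linarith
        rw [bb_eq p.swap hu0, div_pow, pow_mul, Prod.swap_swap]
        field_simp
        ring
      rw [e1, avg_binom hr, show 2 * (k + 1) - k = k + 2 by omega,
        Nat.choose_symm_of_eq_add (show 2 * (k + 1) = k + (k + 1 + 1) by omega)]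
      ring
  rw [e] at h
  rw [← four_xy (den_ne hξ hp), sub_sub_cancel, ← h.unique h']

theorem avg_H0 : avg r (H0 p) = 0 := by
  have hr := r_pos hξ h₁
  have hw := box_ww hξ hp
  have h := avg_add hr (quot_cont hξ hp h₁ h₂) (psi_cont hξ hp h₁ h₂)
  rw [avg_psi hξ hp h₁ h₂, avg_quot hξ hp h₁ h₂ (g := fun u => ee p + lr p u)
    (fun u hu => (lr_diff hξ hp h₂ hu).const_add _), lr_self, add_zero] at h
  refine Eq.trans h ?_
  have a := one_sub_sq_ne hξ hp
  have hd := den_ne hξ hp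
  have e : 1 - (p.1 * p.2) ^ 2 = ww p ^ 2 * den p ^ 2 := by
    rw [hw.1, sig]
    field_simp
    rw [den]
    ring
  have hw0 : ww p ≠ 0 := by
    intro h0
    have := hw.2
    rw [h0] at this
    simp at this
  rw [e, ee]
  field_simp
  ring

end

/-- The background value of the phase at infinity. -/
theorem bg_inf {ξ : ℂ} (hξ : ‖ξ‖ < 1) {p : ℂ × ℂ} (hp : p ∈ box ξ) :
    ee p + lr p 0 - 3 * xx p ^ 2 * m10 p = 3 * ww p - 6 := by
  obtain ⟨h₁, h₂⟩ := box_rad hξ hp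
  set r := rad p with hrdef
  have hr := r_pos hξ h₁
  have hw := box_ww hξ hp
  have hξ' : ‖conj ξ‖ < 1 := by rwa [Complex.norm_conj]
  have h₁' : 1 - 2 / 3 * dd (conj ξ) ≤ r := by rwa [dd_conj]
  have h₂' : r ≤ 1 - 1 / 3 * dd (conj ξ) := by rwa [dd_conj]
  have hp' := swap_mem_box hp
  have hne : ∀ u ∈ sphere (0 : ℂ) r, u ≠ 0 := fun u hu => ne_zero_of_mem hr hu
  have A1 : avg r (fun u => H0 p u / u)
      = avg r (fun u => (ee p + lr p u) / (3 * (1 - bb p u)) / u)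
        + avg r (fun u => psi (bb p u) / u) := by
    have c1 : ContinuousOn (fun u => (ee p + lr p u) / (3 * (1 - bb p u)) / u) (sphere 0 r) :=
      (quot_cont hξ hp h₁ h₂).div continuousOn_id hne
    have c2 : ContinuousOn (fun u => psi (bb p u) / u) (sphere 0 r) :=
      (psi_cont hξ hp h₁ h₂).div continuousOn_id hne
    rw [← avg_add hr c1 c2]
    refine avg_congr hr (fun u _ => ?_)
    simp only [H0, add_div]
  have A2 : avg r (fun u => u * H0 p.swap u)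
      = avg r (fun u => u * (ee p.swap + lr p.swap u) / (3 * (1 - bb p.swap u)))
        + avg r (fun u => u * psi (bb p.swap u)) := by
    have c1 : ContinuousOn
        (fun u => u * (ee p.swap + lr p.swap u) / (3 * (1 - bb p.swap u))) (sphere 0 r) :=
      (continuousOn_id.mul (quot_cont hξ' hp' h₁' h₂')).congr (fun u _ => by
        simp only [Pi.mul_apply, id, mul_div_assoc])
    have c2 : ContinuousOn (fun u => u * psi (bb p.swap u)) (sphere 0 r) :=
      continuousOn_id.mul (psi_cont hξ' hp' h₁' h₂')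
    rw [← avg_add hr c1 c2]
    refine avg_congr hr (fun u _ => ?_)
    simp only [H0, mul_add]
    ring
  have B1 := avg_quot_div hξ hp h₁ h₂ (g := fun u => ee p + lr p u)
    (fun u hu => (lr_diff hξ hp h₂ hu).const_add _)
  have B2 := avg_quot hξ' hp' h₁' h₂' (g := fun u => u * (ee p.swap + lr p.swap u))
    (fun u hu => differentiableAt_id.mul ((lr_diff hξ' hp' h₂' hu).const_add _))
  have B3 := avg_psi_div hξ hp h₁ h₂
  have B4 := avg_psi_mul hξ hp h₁ h₂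
  rw [lr_self, add_zero] at B1 B2
  rw [den_swap, ee_swap, Prod.fst_swap, Prod.snd_swap, mul_comm p.2 p.1] at B2
  have hd := den_ne hξ hp
  have a := one_sub_sq_ne hξ hp
  have hw0 : ww p ≠ 0 := by
    intro h0
    have := hw.2
    rw [h0] at this
    simp at this
  have B2' : xx p ^ 2 * avg r (fun u => u * (ee p + lr p.swap u) / (3 * (1 - bb p.swap u)))
      = (p.1 * p.2) ^ 2 * ee p / (3 * (1 - (p.1 * p.2) ^ 2)) := by
    rw [B2, xx]
    field_simp
  have e1 : 1 - (p.1 * p.2) ^ 2 = ww p ^ 2 * den p ^ 2 := by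
    rw [hw.1, sig]
    field_simp
    rw [den]
    ring
  have e2 : 2 * (1 + (p.1 * p.2) ^ 2) = (1 + (ww p ^ 2) ^ 2) * den p ^ 2 := by
    rw [hw.1, sig]
    field_simp
    rw [den]
    ring
  have e3 : ee p / (1 - (p.1 * p.2) ^ 2) + (p.1 * p.2) ^ 2 * ee p / (1 - (p.1 * p.2) ^ 2)
      = -3 * (1 + (ww p ^ 2) ^ 2) / (2 * ww p ^ 3) := by
    have : ee p / (1 - (p.1 * p.2) ^ 2) + (p.1 * p.2) ^ 2 * ee p / (1 - (p.1 * p.2) ^ 2)
        = ee p * (2 * (1 + (p.1 * p.2) ^ 2)) / (2 * (1 - (p.1 * p.2) ^ 2)) := by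
      field_simp
    rw [this, e1, e2, ee]
    field_simp
  have e4 : 3 * ((p.1 * p.2) ^ 2 * ee p / (3 * (1 - (p.1 * p.2) ^ 2)))
      = (p.1 * p.2) ^ 2 * ee p / (1 - (p.1 * p.2) ^ 2) := by
    field_simp
  have e5 : -3 * (1 + (ww p ^ 2) ^ 2) / (2 * ww p ^ 3)
      + 6 * ((1 - (ww p ^ 2) ^ 2) / 4 * (ww p ^ 3)⁻¹) = -3 * ww p := by
    field_simp
    ring
  rw [m10, ← hrdef, A1, A2, ee_swap]
  rw [← hw.1] at B3 B4
  linear_combination 3 * B1 + 3 * B2' + 3 * B3 + 3 * B4 + e3 + e4 + e5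

end Pool.Agent.Lib.MP_e941ef_an
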