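import Pool.Agent.Lib.MP_e941ef_an.Defs

namespace Pool.Agent.Lib.MP_e941ef_an

open Complex Metric Set Filter Topology
open scoped ComplexConjugate ContDiff

private theorem expandPh (φ : Ph →L[ℝ] ℝ) (u : Ph) :
    φ u = u.1.1 * φ ((1, 0), 0) + u.1.2 * φ ((0, 1), 0) + u.2.1 * φ (0, (1, 0))
      + u.2.2 * φ (0, (0, 1)) := by
  have : u = u.1.1 • (((1, 0), 0) : Ph) + u.1.2 • (((0, 1), 0) : Ph)
      + u.2.1 • ((0, (1, 0)) : Ph) + u.2.2 • ((0, (0, 1)) : Ph) := by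
    ext <;> simp
  conv_lhs => rw [this]
  simp only [map_add, map_smul, smul_eq_mul]

private theorem RR_ne {v : ℝ × ℝ} (hv : v ≠ 0) : RR v ≠ 0 := by
  intro h
  apply hv
  unfold RR at h
  have h1 : v.1 = 0 := by nlinarith [sq_nonneg v.1, sq_nonneg v.2]
  have h2 : v.2 = 0 := by nlinarith [sq_nonneg v.1, sq_nonneg v.2]
  ext <;> simp [h1, h2]

private theorem hx1 (w : Ph) : HasFDerivAt (fun w : Ph => w.1.1)
    ((ContinuousLinearMap.fst ℝ ℝ ℝ).comp (ContinuousLinearMap.fst ℝ (ℝ × ℝ) (ℝ × ℝ))) w :=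
  ((ContinuousLinearMap.fst ℝ ℝ ℝ).comp (ContinuousLinearMap.fst ℝ (ℝ × ℝ) (ℝ × ℝ))).hasFDerivAt

private theorem hx2 (w : Ph) : HasFDerivAt (fun w : Ph => w.1.2)
    ((ContinuousLinearMap.snd ℝ ℝ ℝ).comp (ContinuousLinearMap.fst ℝ (ℝ × ℝ) (ℝ × ℝ))) w :=
  ((ContinuousLinearMap.snd ℝ ℝ ℝ).comp (ContinuousLinearMap.fst ℝ (ℝ × ℝ) (ℝ × ℝ))).hasFDerivAt

private theorem hp1 (w : Ph) : HasFDerivAt (fun w : Ph => w.2.1)
    ((ContinuousLinearMap.fst ℝ ℝ ℝ).comp (ContinuousLinearMap.snd ℝ (ℝ × ℝ) (ℝ × ℝ))) w :=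
  ((ContinuousLinearMap.fst ℝ ℝ ℝ).comp (ContinuousLinearMap.snd ℝ (ℝ × ℝ) (ℝ × ℝ))).hasFDerivAt

private theorem hp2 (w : Ph) : HasFDerivAt (fun w : Ph => w.2.2)
    ((ContinuousLinearMap.snd ℝ ℝ ℝ).comp (ContinuousLinearMap.snd ℝ (ℝ × ℝ) (ℝ × ℝ))) w :=
  ((ContinuousLinearMap.snd ℝ ℝ ℝ).comp (ContinuousLinearMap.snd ℝ (ℝ × ℝ) (ℝ × ℝ))).hasFDerivAt

private theorem exists_tr {w : Ph} (hw : w.1 ≠ 0) :
    ∃ L : Ph →L[ℝ] Ph, HasFDerivAt tr L w ∧ ∀ e : Ph, L e =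
      ((e.1.1 / RR w.1 - w.1.1 * (2 * w.1.1 * e.1.1 + 2 * w.1.2 * e.1.2) / RR w.1 ^ 2,
        e.1.2 / RR w.1 - w.1.2 * (2 * w.1.1 * e.1.1 + 2 * w.1.2 * e.1.2) / RR w.1 ^ 2),
       ((2 * w.1.1 * e.1.1 + 2 * w.1.2 * e.1.2) * w.2.1 + RR w.1 * e.2.1
          - 2 * (e.1.1 * w.2.1 + w.1.1 * e.2.1 + e.1.2 * w.2.2 + w.1.2 * e.2.2) * w.1.1
          - 2 * (w.1.1 * w.2.1 + w.1.2 * w.2.2) * e.1.1,
        (2 * w.1.1 * e.1.1 + 2 * w.1.2 * e.1.2) * w.2.2 + RR w.1 * e.2.2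
          - 2 * (e.1.1 * w.2.1 + w.1.1 * e.2.1 + e.1.2 * w.2.2 + w.1.2 * e.2.2) * w.1.2
          - 2 * (w.1.1 * w.2.1 + w.1.2 * w.2.2) * e.1.2)) := by
  have hR0 := RR_ne hw
  have hR := ((hx1 w).fun_mul (hx1 w)).fun_add ((hx2 w).fun_mul (hx2 w))
  have hRe : (fun w : Ph => w.1.1 * w.1.1 + w.1.2 * w.1.2) = fun w : Ph => RR w.1 := by
    funext w; simp only [RR]; ring
  rw [hRe] at hR
  have hI := (hasDerivAt_inv hR0).comp_hasFDerivAt w hR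
  have hs := (((hx1 w).fun_mul (hp1 w)).fun_add ((hx2 w).fun_mul (hp2 w))).const_mul 2
  have h1 := (hx1 w).fun_mul hI
  have h2 := (hx2 w).fun_mul hI
  have h3 := (hR.fun_mul (hp1 w)).fun_sub (hs.fun_mul (hx1 w))
  have h4 := (hR.fun_mul (hp2 w)).fun_sub (hs.fun_mul (hx2 w))
  have h := (h1.prodMk h2).prodMk (h3.prodMk h4)
  refine ⟨_, h, fun e => ?_⟩
  ext <;> simp <;> field_simp <;> ring

theorem differentiableAt_tr {w : Ph} (hw : w.1 ≠ 0) : DifferentiableAt ℝ tr w := by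
  obtain ⟨L, hL, -⟩ := exists_tr hw
  exact hL.differentiableAt

theorem tr_tr {w : Ph} (hw : w.1 ≠ 0) : tr (tr w) = w := by
  have hR0 := RR_ne hw
  have hR : RR (w.1.1 / RR w.1, w.1.2 / RR w.1) = 1 / RR w.1 := by
    have : RR (w.1.1 / RR w.1, w.1.2 / RR w.1) = (w.1.1 ^ 2 + w.1.2 ^ 2) / RR w.1 ^ 2 := by
      change (w.1.1 / RR w.1) ^ 2 + (w.1.2 / RR w.1) ^ 2 = _
      rw [div_pow, div_pow, add_div]
    rw [this]
    change RR w.1 / _ = _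
    field_simp
  have hd : RR w.1 = w.1.1 ^ 2 + w.1.2 ^ 2 := rfl
  ext <;> simp only [tr, hR] <;> field_simp <;> rw [hd] <;> ring

/-- The lifted inversion preserves the Poisson bracket. -/
theorem bracket_tr {f g : Ph → ℝ} {w : Ph} (hw : w.1 ≠ 0) (hf : DifferentiableAt ℝ f (tr w))
    (hg : DifferentiableAt ℝ g (tr w)) :
    bracket (fun w => f (tr w)) (fun w => g (tr w)) w = bracket f g (tr w) := by
  obtain ⟨L, hL, hLe⟩ := exists_tr hw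
  have hR0 := RR_ne hw
  have e1 : fderiv ℝ (fun w => f (tr w)) w = (fderiv ℝ f (tr w)).comp L :=
    (hf.hasFDerivAt.comp w hL).fderiv
  have e2 : fderiv ℝ (fun w => g (tr w)) w = (fderiv ℝ g (tr w)).comp L :=
    (hg.hasFDerivAt.comp w hL).fderiv
  unfold bracket
  rw [e1, e2]
  simp only [ContinuousLinearMap.comp_apply]
  generalize fderiv ℝ f (tr w) = φ
  generalize fderiv ℝ g (tr w) = ψ
  rw [expandPh φ (L _), expandPh φ (L ((1, 0), 0)), expandPh φ (L (0, (0, 1))),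
    expandPh φ (L ((0, 1), 0)), expandPh ψ (L _), expandPh ψ (L (0, (1, 0))),
    expandPh ψ (L ((0, 1), 0)), expandPh ψ (L (0, (0, 1)))]
  simp only [hLe, Prod.fst_zero, Prod.snd_zero]
  have hd : RR w.1 = w.1.1 ^ 2 + w.1.2 ^ 2 := rfl
  rw [hd] at hR0 ⊢
  field_simp
  ring

private theorem exists_pol (w : Ph) :
    ∃ L : Ph →L[ℝ] Ph, HasFDerivAt pol L w ∧ ∀ e : Ph, L e =
      ((Real.exp w.1.1 * (e.1.1 * Real.cos w.1.2 - e.1.2 * Real.sin w.1.2),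
        Real.exp w.1.1 * (e.1.1 * Real.sin w.1.2 + e.1.2 * Real.cos w.1.2)),
       (Real.exp (-w.1.1) * (-e.1.1 * (w.2.1 * Real.cos w.1.2 - w.2.2 * Real.sin w.1.2)
          + (e.2.1 * Real.cos w.1.2 - e.2.2 * Real.sin w.1.2)
          - e.1.2 * (w.2.1 * Real.sin w.1.2 + w.2.2 * Real.cos w.1.2)),
        Real.exp (-w.1.1) * (-e.1.1 * (w.2.1 * Real.sin w.1.2 + w.2.2 * Real.cos w.1.2)
          + (e.2.1 * Real.sin w.1.2 + e.2.2 * Real.cos w.1.2)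
          + e.1.2 * (w.2.1 * Real.cos w.1.2 - w.2.2 * Real.sin w.1.2)))) := by
  have hE := (hx1 w).exp
  have hE' := (hx1 w).fun_neg.exp
  have hc := (hx2 w).cos
  have hs := (hx2 w).sin
  have h1 := hE.fun_mul hc
  have h2 := hE.fun_mul hs
  have h3 := hE'.fun_mul (((hp1 w).fun_mul hc).fun_sub ((hp2 w).fun_mul hs))
  have h4 := hE'.fun_mul (((hp1 w).fun_mul hs).fun_add ((hp2 w).fun_mul hc))
  have h := (h1.prodMk h2).prodMk (h3.prodMk h4)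
  refine ⟨_, h, fun e => ?_⟩
  ext <;> simp <;> ring

/-- Lifted log-polar coordinates preserve the Poisson bracket. -/
theorem bracket_pol {f g : Ph → ℝ} {w : Ph} (hf : DifferentiableAt ℝ f (pol w))
    (hg : DifferentiableAt ℝ g (pol w)) :
    bracket (fun w => f (pol w)) (fun w => g (pol w)) w = bracket f g (pol w) := by
  obtain ⟨L, hL, hLe⟩ := exists_pol w
  have e1 : fderiv ℝ (fun w => f (pol w)) w = (fderiv ℝ f (pol w)).comp L :=
    (hf.hasFDerivAt.comp w hL).fderiv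
  have e2 : fderiv ℝ (fun w => g (pol w)) w = (fderiv ℝ g (pol w)).comp L :=
    (hg.hasFDerivAt.comp w hL).fderiv
  unfold bracket
  rw [e1, e2]
  simp only [ContinuousLinearMap.comp_apply]
  generalize fderiv ℝ f (pol w) = φ
  generalize fderiv ℝ g (pol w) = ψ
  rw [expandPh φ (L _), expandPh φ (L ((1, 0), 0)), expandPh φ (L (0, (0, 1))),
    expandPh φ (L ((0, 1), 0)), expandPh ψ (L _), expandPh ψ (L (0, (1, 0))),
    expandPh ψ (L ((0, 1), 0)), expandPh ψ (L (0, (0, 1)))]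
  simp only [hLe, Prod.fst_zero, Prod.snd_zero]
  have hE : Real.exp w.1.1 * Real.exp (-w.1.1) = 1 := by
    rw [← Real.exp_add]; simp
  have hT := Real.sin_sq_add_cos_sq w.1.2
  generalize Real.exp w.1.1 = E at *
  generalize Real.exp (-w.1.1) = E' at *
  generalize Real.cos w.1.2 = c at *
  generalize Real.sin w.1.2 = s at *
  generalize φ ((1, 0), 0) = f1
  generalize φ ((0, 1), 0) = f2
  generalize φ (0, (1, 0)) = f3
  generalize φ (0, (0, 1)) = f4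
  generalize ψ ((1, 0), 0) = g1
  generalize ψ ((0, 1), 0) = g2
  generalize ψ (0, (1, 0)) = g3
  generalize ψ (0, (0, 1)) = g4
  have h1 : E * E' * (s ^ 2 + c ^ 2) = 1 := by rw [hE, hT]; ring
  linear_combination (f3 * g1 - f1 * g3 + (f4 * g2 - f2 * g4)) * h1

end Pool.Agent.Lib.MP_e941ef_an
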