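import Pool.Agent.Lib.MP_e941ef_an.Defs

namespace Pool.Agent.Lib.MP_e941ef_an

open Complex Metric Set Filter Topology
open scoped ComplexConjugate ContDiff

/-- An entire function of one variable vanishing on the real line vanishes. -/
theorem entire_real {h : ℂ → ℂ} (hh : Differentiable ℂ h) (h0 : ∀ t : ℝ, h t = 0) :
    ∀ z, h z = 0 := by
  have ha : AnalyticOnNhd ℂ h univ := hh.differentiableOn.analyticOnNhd isOpen_univ
  have hfr : ∃ᶠ z in 𝓝[≠] (0 : ℂ), h z = 0 := by
    have ht : Tendsto (fun t : ℝ => (t : ℂ)) (𝓝[≠] 0) (𝓝[≠] 0) := by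
      refine tendsto_nhdsWithin_iff.2 ⟨?_, ?_⟩
      · have := Complex.continuous_ofReal.tendsto (0 : ℝ)
        simpa using this.mono_left nhdsWithin_le_nhds
      · filter_upwards [self_mem_nhdsWithin] with t ht
        simpa using ht
    exact ht.frequently (Frequently.of_forall h0)
  intro z
  exact ha.eqOn_zero_of_preconnected_of_frequently_eq_zero isPreconnected_univ (mem_univ 0) hfr
    (mem_univ z)

/-- An entire function vanishing on the antidiagonal `z' = conj z` vanishes. -/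
theorem entire_conj {f : ℂ × ℂ → ℂ} (hf : Differentiable ℂ f) (h : ∀ z : ℂ, f (z, conj z) = 0) :
    ∀ p, f p = 0 := by
  have h1 : ∀ (t : ℝ) (s : ℂ), f (s + t * I, s - t * I) = 0 := by
    intro t
    refine entire_real (h := fun s => f (s + t * I, s - t * I)) (hf.comp (by fun_prop)) ?_
    intro s
    have := h (s + t * I)
    simpa [sub_eq_add_neg] using this
  have h2 : ∀ s t : ℂ, f (s + t * I, s - t * I) = 0 := by
    intro s
    exact entire_real (h := fun t => f (s + t * I, s - t * I)) (hf.comp (by fun_prop))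
      fun t => h1 t s
  intro p
  have := h2 ((p.1 + p.2) / 2) (-I * (p.1 - p.2) / 2)
  have e1 : (p.1 + p.2) / 2 + -I * (p.1 - p.2) / 2 * I = p.1 := by
    linear_combination (-(p.1 - p.2) / 2) * I_mul_I
  have e2 : (p.1 + p.2) / 2 - -I * (p.1 - p.2) / 2 * I = p.2 := by
    linear_combination ((p.1 - p.2) / 2) * I_mul_I
  rwa [e1, e2] at this

theorem extract_one {K : Type*} [Field K] [Infinite K] {N : ℕ} {a : ℕ → K}
    (h : ∀ s : K, ∑ j ∈ Finset.range N, a j * s ^ j = 0) {j : ℕ} (hj : j < N) : a j = 0 := by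
  have hP : (∑ j ∈ Finset.range N, Polynomial.monomial j (a j) : Polynomial K) = 0 := by
    apply Polynomial.funext
    intro s
    simpa [Polynomial.eval_finsetSum] using h s
  have := congrArg (fun P : Polynomial K => P.coeff j) hP
  simpa [Polynomial.finsetSum_coeff, Polynomial.coeff_monomial, hj] using this

theorem extract_two {K : Type*} [Field K] [Infinite K] {N : ℕ} {e : ℕ → ℕ → K}
    (h : ∀ s t : K, ∑ j ∈ Finset.range N, ∑ k ∈ Finset.range (N - j), e j k * s ^ j * t ^ k = 0)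
    {j k : ℕ} (hjk : j + k < N) : e j k = 0 := by
  have h1 : ∀ t : K, ∑ k ∈ Finset.range (N - j), e j k * t ^ k = 0 := by
    intro t
    refine extract_one (N := N) (a := fun j => ∑ k ∈ Finset.range (N - j), e j k * t ^ k) ?_
      (by omega)
    intro s
    rw [← h s t]
    refine Finset.sum_congr rfl fun j _ => ?_
    rw [Finset.sum_mul]
    exact Finset.sum_congr rfl fun k _ => by ring
  exact extract_one h1 (by omega)

theorem extract_complex {N : ℕ} {e : ℕ → ℕ → ℂ}
    (h : ∀ z : ℂ, ∑ j ∈ Finset.range N, ∑ k ∈ Finset.range (N - j), e j k * z ^ j * conj z ^ k = 0)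
    {j k : ℕ} (hjk : j + k < N) : e j k = 0 := by
  have := entire_conj (f := fun p : ℂ × ℂ => ∑ j ∈ Finset.range N,
    ∑ k ∈ Finset.range (N - j), e j k * p.1 ^ j * p.2 ^ k) (by fun_prop) h
  exact extract_two (fun s t => this (s, t)) hjk

theorem extract_real {N : ℕ} {e : ℕ → ℕ → ℝ}
    (h : ∀ s t : ℝ, ∑ j ∈ Finset.range N, ∑ k ∈ Finset.range (N - j), e j k * s ^ j * t ^ k = 0)
    {j k : ℕ} (hjk : j + k < N) : e j k = 0 :=
  extract_two h hjk

/-- A binary form of degree `n` with smooth coefficients. -/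
def HomF (n : ℕ) (F : ℝ × ℝ → ℂ → ℂ → ℂ) : Prop :=
  ∃ ψ : ℕ → ℝ × ℝ → ℂ, (∀ m, ContDiff ℝ ∞ (ψ m)) ∧
    ∀ v z z', F v z z' = ∑ m ∈ Finset.range (n + 1), ψ m v * z ^ m * z' ^ (n - m)

theorem HomF.mul_lin {n : ℕ} {F : ℝ × ℝ → ℂ → ℂ → ℂ} (hF : HomF n F) {α β : ℝ × ℝ → ℂ}
    (hα : ContDiff ℝ ∞ α) (hβ : ContDiff ℝ ∞ β) :
    HomF (n + 1) fun v z z' => F v z z' * (z * α v + z' * β v) := by
  obtain ⟨ψ, hψ, hF⟩ := hF
  refine ⟨fun m v => (if m = 0 then 0 else ψ (m - 1) v * α v)
    + (if m = n + 1 then 0 else ψ m v * β v), fun m => ?_, fun v z z' => ?_⟩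
  · refine ContDiff.add ?_ ?_
    · by_cases hm : m = 0
      · simpa [hm] using contDiff_const
      · simpa [hm] using (hψ (m - 1)).mul hα
    · by_cases hm : m = n + 1
      · simpa [hm] using contDiff_const
      · simpa [hm] using (hψ m).mul hβ
  · simp only [add_mul, Finset.sum_add_distrib]
    rw [Finset.sum_range_succ' _ (n + 1), Finset.sum_range_succ _ (n + 1), hF, mul_add,
      Finset.sum_mul, Finset.sum_mul]
    simp only [if_true, zero_mul, add_zero]
    congr 1
    · refine Finset.sum_congr rfl fun m _ => ?_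
      rw [if_neg (by omega), Nat.add_sub_cancel, Nat.add_sub_add_right]
      ring
    · refine Finset.sum_congr rfl fun m hm => ?_
      have hm' : m < n + 1 := Finset.mem_range.1 hm
      rw [if_neg (by omega), show n + 1 - m = n - m + 1 by omega]
      ring

theorem homF_pow {α1 α2 β1 β2 : ℝ × ℝ → ℂ} (h1 : ContDiff ℝ ∞ α1) (h2 : ContDiff ℝ ∞ α2)
    (h3 : ContDiff ℝ ∞ β1) (h4 : ContDiff ℝ ∞ β2) (i j : ℕ) :
    HomF (i + j) fun v z z' => (z * α1 v + z' * β1 v) ^ i * (z * α2 v + z' * β2 v) ^ j := by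
  induction j with
  | zero =>
    induction i with
    | zero => exact ⟨fun _ _ => 1, fun _ => contDiff_const, fun v z z' => by simp⟩
    | succ i ih =>
      have := ih.mul_lin h1 h3
      simpa [pow_succ] using this
  | succ j ih =>
    have := ih.mul_lin h2 h4
    simpa [pow_succ, mul_assoc, ← add_assoc] using this

/-- A linear change of the momenta with smooth complex coefficients. -/
theorem subst_frame {c : ℕ → ℕ → ℝ × ℝ → ℝ} (hc : ∀ i j, ContDiff ℝ ∞ (c i j))
    {α1 α2 β1 β2 : ℝ × ℝ → ℂ} (h1 : ContDiff ℝ ∞ α1) (h2 : ContDiff ℝ ∞ α2)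
    (h3 : ContDiff ℝ ∞ β1) (h4 : ContDiff ℝ ∞ β2) :
    ∃ φ : ℕ → ℕ → ℝ × ℝ → ℂ, (∀ j k, ContDiff ℝ ∞ (φ j k)) ∧
      (∀ j k, 5 < j + k → φ j k = 0) ∧
      ((∀ i j, i + j = 5 → c i j = 0) → ∀ j k, j + k = 5 → φ j k = 0) ∧
      ∀ v (z z' : ℂ), ∑ i ∈ Finset.range 6, ∑ j ∈ Finset.range (6 - i),
          (c i j v : ℂ) * (z * α1 v + z' * β1 v) ^ i * (z * α2 v + z' * β2 v) ^ j =
        ∑ j ∈ Finset.range 6, ∑ k ∈ Finset.range (6 - j), φ j k v * z ^ j * z' ^ k := by
  choose ψ hψ hF using homF_pow h1 h2 h3 h4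
  refine ⟨fun j k v => if j + k ≤ 5 then ∑ i ∈ Finset.range (j + k + 1),
    (c i (j + k - i) v : ℂ) * ψ i (j + k - i) j v else 0, fun j k => ?_, fun j k hjk => ?_,
    fun h0 j k hjk => ?_, fun v z z' => ?_⟩
  · by_cases hjk : j + k ≤ 5
    · simp only [if_pos hjk]
      refine ContDiff.sum fun i _ => ContDiff.mul ?_ (hψ _ _ _)
      exact Complex.ofRealCLM.contDiff.comp (hc _ _)
    · simp only [if_neg hjk]
      exact contDiff_const
  · funext v
    simp only [if_neg (show ¬ j + k ≤ 5 by omega)]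
    rfl
  · funext v
    simp only [if_pos hjk.le]
    refine Finset.sum_eq_zero fun i hi => ?_
    have hi' : i < j + k + 1 := Finset.mem_range.1 hi
    rw [h0 i (j + k - i) (by omega)]
    simp
  · simp only [mul_assoc, hF]
    simp only [Finset.sum_range_succ, Finset.range_zero, Finset.sum_empty]
    norm_num
    ring

/-- Padding a polynomial of degree at most `4` to degree `5`. -/
theorem poly_pad {d : ℕ} (hd : d ≤ 4) {c : ℕ → ℕ → ℝ × ℝ → ℝ} (hc : ∀ i j, ContDiff ℝ ∞ (c i j)) :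
    ∃ c' : ℕ → ℕ → ℝ × ℝ → ℝ, (∀ i j, ContDiff ℝ ∞ (c' i j)) ∧ (∀ i j, i + j = 5 → c' i j = 0) ∧
      poly d c = poly 5 c' := by
  refine ⟨fun i j => if i + j ≤ d then c i j else 0, fun i j => ?_, fun i j hij => ?_, ?_⟩
  · by_cases h : i + j ≤ d
    · simpa only [if_pos h] using hc i j
    · simp only [if_neg h]
      exact contDiff_const
  · simp only [if_neg (show ¬ i + j ≤ d by omega)]
  · funext w
    interval_cases d <;> simp [poly, Finset.sum_range_succ]

end Pool.Agent.Lib.MP_e941ef_an
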