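import Pool.Agent.Lib.MP_e941ef_an.Frame
import Pool.Agent.Lib.MP_e941ef_an.Canon
import Pool.Agent.Lib.MP_e941ef_an.Extract

namespace Pool.Agent.Lib.MP_e941ef_an

open Complex Metric Set Filter Topology
open scoped ComplexConjugate ContDiff

namespace BandAux

lemma RR_pol (w : Ph) : RR (pol w).1 = Real.exp w.1.1 ^ 2 := by
  simp only [RR, pol]
  linear_combination Real.exp w.1.1 ^ 2 * Real.cos_sq_add_sin_sq w.1.2

lemma differentiable_pol : Differentiable ℝ pol := by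
  unfold pol
  fun_prop

lemma pot_band {R : ℝ} (h2 : 2 < R) (h3 : R < 3) : pot R = 0 := by
  apply expNegInvGlue.zero_of_nonpos
  have h : -tt R ≤ 2 / 3 := by
    rw [tt, ← neg_div, div_le_iff₀ (by linarith)]
    linarith
  linarith

lemma cov_band (D : Data) {v : ℝ × ℝ} (hv : 2 < RR v ∧ RR v < 3) (z : ℂ) :
    cov D.a1 D.a2 v z = (-z.im / (2 * √(RR v)), -z.re / (2 * √(RR v))) := by
  obtain ⟨h1, h2, -, -⟩ := D.band v hv.1 hv.2
  have hr : 0 < √(RR v) := Real.sqrt_pos.2 (by linarith [hv.1])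
  have e1 : z * D.a1 v = ((1 / (4 * √(RR v)) : ℝ) : ℂ) * (z * I) := by
    rw [h1]; push_cast; ring
  have e2 : z * D.a2 v = ((1 / (4 * √(RR v)) : ℝ) : ℂ) * (-z) := by
    rw [h2]; push_cast; ring
  rw [cov, e1, e2, re_ofReal_mul, re_ofReal_mul]
  refine Prod.ext ?_ ?_
  · simp only [mul_re, I_re, I_im]
    field_simp
    ring
  · simp only [neg_re]
    field_simp
    ring

lemma ham_band (D : Data) {w : Ph} (hw : 2 < RR w.1 ∧ RR w.1 < 3) :
    ham D.a1 D.a2 (fun v => pot (RR v)) w = 2 * RR w.1 * (w.2.1 ^ 2 + w.2.2 ^ 2) := by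
  have hr : 0 < √(RR w.1) := Real.sqrt_pos.2 (by linarith [hw.1])
  have hs : √(RR w.1) ^ 2 = RR w.1 := Real.sq_sqrt (by linarith [hw.1])
  have h := cov_piC (a1 := D.a1) (a2 := D.a2) (w := w) (D.nondeg _)
  rw [cov_band D hw] at h
  have h1 : w.2.1 = -(piC D.a1 D.a2 w).im / (2 * √(RR w.1)) := (congrArg Prod.fst h).symm
  have h2 : w.2.2 = -(piC D.a1 D.a2 w).re / (2 * √(RR w.1)) := (congrArg Prod.snd h).symm
  rw [ham, pot_band hw.1 hw.2, normSq_apply, h1, h2]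
  generalize piC D.a1 D.a2 w = z
  generalize √(RR w.1) = r at *
  rw [← hs]
  field_simp
  ring

/-- The strip in logarithmic coordinates. -/
def strip : Set ℝ := {s | 2 < Real.exp s ^ 2 ∧ Real.exp s ^ 2 < 3}

lemma strip_seg {s₀ s₁ : ℝ} (h₀ : s₀ ∈ strip) (h₁ : s₁ ∈ strip) {τ : ℝ} (h : τ ∈ Icc (0 : ℝ) 1) :
    s₀ + τ * (s₁ - s₀) ∈ strip := by
  have mono : ∀ a b : ℝ, a ≤ b → Real.exp a ^ 2 ≤ Real.exp b ^ 2 := fun a b hab =>
    pow_le_pow_left₀ (Real.exp_pos a).le (Real.exp_le_exp.2 hab) 2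
  rcases le_total s₀ s₁ with hs | hs
  · exact ⟨h₀.1.trans_le (mono _ _ (by nlinarith [h.1, h.2])),
      (mono _ _ (by nlinarith [h.1, h.2])).trans_lt h₁.2⟩
  · exact ⟨h₁.1.trans_le (mono _ _ (by nlinarith [h.1, h.2])),
      (mono _ _ (by nlinarith [h.1, h.2])).trans_lt h₀.2⟩

lemma isOpen_strip : IsOpen strip := by
  have h : Continuous fun s : ℝ => Real.exp s ^ 2 := by fun_prop
  exact (isOpen_lt continuous_const h).inter (isOpen_lt h continuous_const)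

lemma transport (D : Data) {G : Ph → ℝ} (hG : Differentiable ℝ G)
    (hh : Differentiable ℝ (ham D.a1 D.a2 (fun v => pot (RR v))))
    (hint : ∀ w, bracket (ham D.a1 D.a2 (fun v => pot (RR v))) G w = 0) {w : Ph}
    (hw : w.1.1 ∈ strip) : fderiv ℝ (fun w => G (pol w)) w (w.2, 0) = 0 := by
  have h := bracket_pol (w := w) (hh (pol w)) (hG (pol w))
  rw [hint] at h
  have hev : (fun w => ham D.a1 D.a2 (fun v => pot (RR v)) (pol w)) =ᶠ[𝓝 w]
      fun w : Ph => 2 * (w.2.1 ^ 2 + w.2.2 ^ 2) := by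
    have hc : Continuous fun w : Ph => w.1.1 := by fun_prop
    filter_upwards [hc.continuousAt.eventually (isOpen_strip.mem_nhds hw)] with u hu
    rw [ham_band D (by rw [RR_pol]; exact hu), RR_pol]
    simp only [pol]
    have e : Real.exp u.1.1 * Real.exp (-u.1.1) = 1 := by rw [← Real.exp_add]; simp
    linear_combination (2 * (u.2.1 ^ 2 + u.2.2 ^ 2) * (Real.exp u.1.1 * Real.exp (-u.1.1)) ^ 2) *
      Real.cos_sq_add_sin_sq u.1.2
      + 2 * (u.2.1 ^ 2 + u.2.2 ^ 2) * (Real.exp u.1.1 * Real.exp (-u.1.1) + 1) * e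
  rw [bracket_congr hev EventuallyEq.rfl] at h
  have hs : HasFDerivAt (fun w : Ph => w.2) (ContinuousLinearMap.snd ℝ (ℝ × ℝ) (ℝ × ℝ)) w :=
    hasFDerivAt_snd
  have hd : HasFDerivAt (fun w : Ph => 2 * (w.2.1 ^ 2 + w.2.2 ^ 2)) _ w :=
    ((hs.fst.pow 2).add (hs.snd.pow 2)).const_mul 2
  rw [bracket, hd.fderiv] at h
  have e : ((w.2, 0) : Ph) = w.2.1 • (((1, 0), 0) : Ph) + w.2.2 • (((0, 1), 0) : Ph) := by
    simp
  rw [e, map_add, map_smul, map_smul]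
  simp at h
  simp only [smul_eq_mul]
  linarith

lemma flow {G : Ph → ℝ} (hG : Differentiable ℝ G)
    (h : ∀ w : Ph, w.1.1 ∈ strip → fderiv ℝ G w (w.2, 0) = 0) {s₀ s₁ : ℝ} (h₀ : s₀ ∈ strip)
    (h₁ : s₁ ∈ strip) (θ : ℝ) {P : ℝ} (hP : P ≠ 0) (L : ℝ) :
    G ((s₁, θ + (s₁ - s₀) / P * L), (P, L)) = G ((s₀, θ), (P, L)) := by
  set t := (s₁ - s₀) / P with ht
  let γ : ℝ → Ph := fun τ => ((s₀, θ), (P, L)) + τ • (t • (((P, L), 0) : Ph))
  have hγ : ∀ τ, HasDerivAt γ (t • (((P, L), 0) : Ph)) τ := fun τ => by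
    have := ((hasDerivAt_id τ).smul_const (t • (((P, L), 0) : Ph))).const_add
      (((s₀, θ), (P, L)) : Ph)
    rwa [one_smul] at this
  have htP : t * P = s₁ - s₀ := div_mul_cancel₀ _ hP
  have hd : ∀ τ ∈ Icc (0 : ℝ) 1, HasDerivAt (fun τ => G (γ τ)) 0 τ := fun τ hτ => by
    have h1 := (hG (γ τ)).hasFDerivAt.comp_hasDerivAt τ (hγ τ)
    have h2 := h (γ τ) (by
      have : (γ τ).1.1 = s₀ + τ * (s₁ - s₀) := by simp [γ, htP]
      rw [this]; exact strip_seg h₀ h₁ hτ)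
    have h3 : (γ τ).2 = (P, L) := by simp [γ]
    rw [h3] at h2
    rw [map_smul, h2, smul_zero] at h1
    exact h1
  have := constant_of_has_deriv_right_zero (f := fun τ => G (γ τ)) (a := 0) (b := 1)
    (fun τ hτ => (hd τ hτ).continuousAt.continuousWithinAt)
    (fun τ hτ => (hd τ (Ico_subset_Icc_self hτ)).hasDerivWithinAt) 1 ⟨zero_le_one, le_rfl⟩
  have e1 : γ 1 = ((s₁, θ + t * L), (P, L)) := by simp [γ, htP]
  have e0 : γ 0 = ((s₀, θ), (P, L)) := by simp [γ]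
  simpa only [e1, e0] using this

lemma poly_in_L (c : ℕ → ℕ → ℝ × ℝ → ℝ) (s θ P : ℝ) :
    ∃ q : Polynomial ℝ, ∀ L, poly 5 c (pol ((s, θ), (P, L))) = q.eval L := by
  refine ⟨∑ i ∈ Finset.range 6, ∑ j ∈ Finset.range (6 - i),
    Polynomial.C (c i j (Real.exp s * Real.cos θ, Real.exp s * Real.sin θ)) *
      (Polynomial.C (Real.exp (-s)) * (Polynomial.C (P * Real.cos θ)
        - Polynomial.X * Polynomial.C (Real.sin θ))) ^ i *
      (Polynomial.C (Real.exp (-s)) * (Polynomial.C (P * Real.sin θ)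
        + Polynomial.X * Polynomial.C (Real.cos θ))) ^ j, fun L => ?_⟩
  simp only [poly, pol, Polynomial.eval_finsetSum, Polynomial.eval_mul, Polynomial.eval_pow,
    Polynomial.eval_C, Polynomial.eval_X, Polynomial.eval_add, Polynomial.eval_sub]

lemma pol_per (s θ P L : ℝ) (m : ℕ) :
    pol ((s, θ + m * (2 * Real.pi)), (P, L)) = pol ((s, θ), (P, L)) := by
  simp only [pol, Real.cos_add_nat_mul_two_pi, Real.sin_add_nat_mul_two_pi]

lemma const_ne {c : ℕ → ℕ → ℝ × ℝ → ℝ}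
    (hG : Differentiable ℝ fun w => poly 5 c (pol w))
    (h : ∀ w : Ph, w.1.1 ∈ strip → fderiv ℝ (fun w => poly 5 c (pol w)) w (w.2, 0) = 0)
    {s₀ s₁ : ℝ} (h₀ : s₀ ∈ strip) (h₁ : s₁ ∈ strip) (hs : s₁ ≠ s₀) (θ₀ θ₁ : ℝ) {P : ℝ}
    (hP : P ≠ 0) (L : ℝ) :
    poly 5 c (pol ((s₁, θ₁), (P, L))) = poly 5 c (pol ((s₀, θ₀), (P, L))) := by
  obtain ⟨q₀, hq₀⟩ := poly_in_L c s₀ θ₀ P
  obtain ⟨q₁, hq₁⟩ := poly_in_L c s₁ θ₁ P
  have ht : (s₁ - s₀) / P ≠ 0 := div_ne_zero (sub_ne_zero.2 hs) hP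
  set t := (s₁ - s₀) / P with ht'
  have hq : q₁ = q₀ := by
    refine Polynomial.eq_of_infinite_eval_eq q₁ q₀ (Set.infinite_of_injective_forall_mem
      (f := fun m : ℕ => (θ₁ - θ₀ + m * (2 * Real.pi)) / t) ?_ fun m => ?_)
    · intro m n hmn
      have h1 := (div_left_inj' ht).1 hmn
      have h2 : (m : ℝ) = n := mul_right_cancel₀ Real.two_pi_pos.ne' (add_left_cancel h1)
      exact_mod_cast h2
    · have h1 := flow hG h h₀ h₁ θ₀ hP ((θ₁ - θ₀ + m * (2 * Real.pi)) / t)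
      rw [← ht', mul_div_cancel₀ _ ht] at h1
      have e : θ₀ + (θ₁ - θ₀ + m * (2 * Real.pi)) = θ₁ + m * (2 * Real.pi) := by ring
      simp only [e, pol_per] at h1
      rw [hq₀, hq₁] at h1
      exact h1
  rw [hq₀, hq₁, hq]

lemma const_all {c : ℕ → ℕ → ℝ × ℝ → ℝ}
    (hG : Differentiable ℝ fun w => poly 5 c (pol w))
    (h : ∀ w : Ph, w.1.1 ∈ strip → fderiv ℝ (fun w => poly 5 c (pol w)) w (w.2, 0) = 0)
    {s₀ s₁ : ℝ} (h₀ : s₀ ∈ strip) (h₁ : s₁ ∈ strip) (θ₀ θ₁ P L : ℝ) :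
    poly 5 c (pol ((s₁, θ₁), (P, L))) = poly 5 c (pol ((s₀, θ₀), (P, L))) := by
  obtain ⟨s, hs, hn⟩ := (infinite_of_mem_nhds s₀ (isOpen_strip.mem_nhds h₀)).exists_notMem_finset
    {s₀, s₁}
  simp only [Finset.mem_insert, Finset.mem_singleton, not_or] at hn
  have key : ∀ P ∈ ({0}ᶜ : Set ℝ),
      poly 5 c (pol ((s₁, θ₁), (P, L))) = poly 5 c (pol ((s₀, θ₀), (P, L))) := fun P hP =>
    (const_ne hG h hs h₁ (Ne.symm hn.2) 0 θ₁ hP L).trans
      (const_ne hG h hs h₀ (Ne.symm hn.1) 0 θ₀ hP L).symm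
  have c1 : Continuous fun P : ℝ => poly 5 c (pol ((s₁, θ₁), (P, L))) :=
    hG.continuous.comp (by fun_prop : Continuous fun P : ℝ => (((s₁, θ₁), (P, L)) : Ph))
  have c0 : Continuous fun P : ℝ => poly 5 c (pol ((s₀, θ₀), (P, L))) :=
    hG.continuous.comp (by fun_prop : Continuous fun P : ℝ => (((s₀, θ₀), (P, L)) : Ph))
  exact congrFun (Continuous.ext_on (dense_compl_singleton 0) c1 c0 key) P

lemma eq_pol (D : Data) {v : ℝ × ℝ} (hv : 2 < RR v ∧ RR v < 3) :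
    ∃ s ∈ strip, ∃ θ : ℝ, ∀ z : ℂ, (v, cov D.a1 D.a2 v z) =
      pol ((s, θ), (-(z * (VV v / (√(RR v) : ℂ))).im / 2, -(z * (VV v / (√(RR v) : ℂ))).re / 2)) := by
  have hr : 0 < √(RR v) := Real.sqrt_pos.2 (by linarith [hv.1])
  have hs : √(RR v) ^ 2 = RR v := Real.sq_sqrt (by linarith [hv.1])
  have hn : ‖VV v‖ = √(RR v) := by rw [VV, norm_add_mul_I]; rfl
  have h0 : VV v ≠ 0 := by rw [← norm_pos_iff, hn]; exact hr
  have hc : Real.cos (arg (VV v)) = v.1 / √(RR v) := by rw [cos_arg h0, hn]; simp [VV]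
  have hsin : Real.sin (arg (VV v)) = v.2 / √(RR v) := by rw [sin_arg, hn]; simp [VV]
  refine ⟨Real.log √(RR v), ?_, arg (VV v), fun z => ?_⟩
  · change 2 < _ ∧ _ < _
    rw [Real.exp_log hr, hs]; exact hv
  · rw [cov_band D hv]
    simp only [pol, Real.exp_neg, Real.exp_log hr, hc, hsin, ← mul_div_assoc, div_ofReal_im,
      div_ofReal_re]
    have hs' : √(RR v) ^ 2 = v.1 ^ 2 + v.2 ^ 2 := hs
    generalize √(RR v) = r at *
    refine Prod.ext (Prod.ext ?_ ?_) (Prod.ext ?_ ?_)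
    · field_simp
    · field_simp
    · simp [VV]
      field_simp
      linear_combination (-z.im) * hs'
    · simp [VV]
      field_simp
      linear_combination (-z.re) * hs'

lemma unit_mul {v : ℝ × ℝ} (hv : 0 < RR v) :
    conj (VV v / (√(RR v) : ℂ)) * (VV v / (√(RR v) : ℂ)) = 1 := by
  have hr : 0 < √(RR v) := Real.sqrt_pos.2 hv
  have hn : ‖VV v‖ = √(RR v) := by rw [VV, norm_add_mul_I]; rfl
  rw [conj_mul', norm_div, hn, norm_real, Real.norm_of_nonneg hr.le, div_self hr.ne']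
  simp

end BandAux

open BandAux in
/-- On the flat band every polynomial integral has constant coefficients in the rotating frame. -/
theorem band_const (D : Data) {c : ℕ → ℕ → ℝ × ℝ → ℝ} (hc : ∀ i j, ContDiff ℝ ∞ (c i j))
    (hint : ∀ w, bracket (ham D.a1 D.a2 (fun v => pot (RR v))) (poly 5 c) w = 0)
    {v v₀ : ℝ × ℝ} (hv : 2 < RR v ∧ RR v < 3) (hv₀ : 2 < RR v₀ ∧ RR v₀ < 3) (z : ℂ) :
    poly 5 c (v, cov D.a1 D.a2 v z) = poly 5 c (v₀, cov D.a1 D.a2 v₀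
      (z * (VV v / (Real.sqrt (RR v) : ℂ)) * conj (VV v₀ / (Real.sqrt (RR v₀) : ℂ)))) := by
  have hpot : ContDiff ℝ ∞ (fun v : ℝ × ℝ => pot (RR v)) := by
    refine expNegInvGlue.contDiff.comp (f := fun v : ℝ × ℝ => -tt (RR v) - 2 / 3) ?_
    unfold tt RR
    refine (ContDiff.div (by fun_prop) (by fun_prop) fun v => ?_).neg.sub contDiff_const
    positivity
  have hG : Differentiable ℝ (poly 5 c) := (contDiff_poly hc).differentiable (by simp)
  have hh := (contDiff_ham D.sa1 D.sa2 D.nondeg hpot).differentiable (by simp)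
  obtain ⟨s, hs, θ, h⟩ := eq_pol D hv
  obtain ⟨s₀, hs₀, θ₀, h₀⟩ := eq_pol D hv₀
  rw [h, h₀, mul_assoc (z * _), unit_mul (by linarith [hv₀.1]), mul_one]
  exact const_all (hG.comp differentiable_pol) (fun w hw => transport D hG hh hint hw) hs₀ hs
    θ₀ θ _ _

end Pool.Agent.Lib.MP_e941ef_an
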