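import Pool.Agent.Lib.MP_e941ef_an.Flat
import Pool.Agent.Lib.MP_e941ef_an.Box

namespace Pool.Agent.Lib.MP_e941ef_an

open Complex Metric Set Filter Topology
open scoped ComplexConjugate ContDiff

noncomputable section

/-- A family of holomorphic functions near the real disc with a weighted bound. -/
def Cls (a₀ : ℝ) (g : ℝ → ℝ × ℝ → ℝ) (F : ℝ → ℂ × ℂ → ℂ) : Prop :=
  ∃ (η C : ℝ) (N : ℕ), 0 < η ∧ 0 ≤ C ∧ ∀ a, 0 < a → a ≤ a₀ → ∀ v, RR v < 1 →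
    DifferentiableOn ℂ (F a) (ball (cx v) (η * (1 - RR v) ^ 4)) ∧
      ∀ p ∈ ball (cx v) (η * (1 - RR v) ^ 4), ‖F a p‖ ≤ C * g a v / (1 - RR v) ^ N

/-- The trivial weight. -/
def gO : ℝ → ℝ × ℝ → ℝ := fun _ _ => 1

/-- The small flat weight. -/
def gS : ℝ → ℝ × ℝ → ℝ := fun a v => a * fl (tt (RR v) ^ 2)

/-- The point of the disc that corresponds to `v`. -/
def xiv (v : ℝ × ℝ) : ℂ := 2 * VV v / (1 + (RR v : ℂ))

end

variable {a₀ : ℝ} {g : ℝ → ℝ × ℝ → ℝ} {F G : ℝ → ℂ × ℂ → ℂ}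

theorem capA_RR_nonneg (v : ℝ × ℝ) : 0 ≤ RR v := by
  unfold RR; positivity

theorem capA_ball_mono {v : ℝ × ℝ} {η η' : ℝ} (h : η ≤ η') :
    ball (cx v) (η * (1 - RR v) ^ 4) ⊆ ball (cx v) (η' * (1 - RR v) ^ 4) :=
  ball_subset_ball (mul_le_mul_of_nonneg_right h (by positivity))

theorem capA_div_mono {v : ℝ × ℝ} (hv : RR v < 1) {c : ℝ} (hc : 0 ≤ c) {N M : ℕ} (h : N ≤ M) :
    c / (1 - RR v) ^ N ≤ c / (1 - RR v) ^ M := by
  have hδ : 0 < 1 - RR v := by linarith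
  have h1 : 1 - RR v ≤ 1 := by linarith [capA_RR_nonneg v]
  exact div_le_div_of_nonneg_left hc (by positivity) (pow_le_pow_of_le_one hδ.le h1 h)

theorem capA_norm_den (v : ℝ × ℝ) : ‖1 + (RR v : ℂ)‖ = 1 + RR v := by
  have e : 1 + (RR v : ℂ) = ((1 + RR v : ℝ) : ℂ) := by push_cast; ring
  rw [e, norm_real, Real.norm_eq_abs, abs_of_nonneg (by linarith [capA_RR_nonneg v])]

theorem capA_normSq_xiv (v : ℝ × ℝ) : ‖xiv v‖ ^ 2 = 4 * RR v / (1 + RR v) ^ 2 := by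
  have e : ‖VV v‖ ^ 2 = RR v := by
    rw [← normSq_eq_norm_sq]
    unfold VV RR
    exact normSq_add_mul_I _ _
  have e2 : ‖(2 : ℂ)‖ = 2 := by simp
  unfold xiv
  rw [norm_div, norm_mul, capA_norm_den, div_pow, mul_pow, e, e2]
  ring

theorem capA_dd_xiv (v : ℝ × ℝ) : dd (xiv v) = tt (RR v) ^ 2 := by
  have h0 := capA_RR_nonneg v
  unfold dd tt
  rw [capA_normSq_xiv]
  field_simp
  ring

theorem capA_mul_conj (v : ℝ × ℝ) : xiv v * conj (xiv v) = 1 - (tt (RR v) : ℂ) ^ 2 := by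
  have h := capA_dd_xiv v
  unfold dd at h
  rw [mul_conj, normSq_eq_norm_sq, show ‖xiv v‖ ^ 2 = 1 - tt (RR v) ^ 2 by linarith]
  push_cast
  ring

theorem capA_sq_sub {p c : ℂ} {h : ℝ} (hc : ‖c‖ ≤ 1) (hp : ‖p - c‖ ≤ h) (hh : h ≤ 1 / 2) :
    ‖p ^ 2 - c ^ 2‖ ≤ 5 / 2 * h := by
  have e : p ^ 2 - c ^ 2 = (p - c) * ((p - c) + 2 * c) := by ring
  have h1 := norm_add_le (p - c) (2 * c)
  have e2 : ‖(2 : ℂ)‖ = 2 := by simp
  rw [norm_mul, e2] at h1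
  have h0 := norm_nonneg (p - c)
  rw [e, norm_mul]
  calc ‖p - c‖ * ‖p - c + 2 * c‖ ≤ h * (5 / 2) :=
        mul_le_mul hp (by linarith) (norm_nonneg _) (by linarith)
    _ = 5 / 2 * h := by ring

theorem capA_quot {n n₀ d d₀ ξ : ℂ} {h : ℝ} (e : ξ * d₀ = n₀) (hξ : ‖ξ‖ ≤ 1)
    (hn : ‖n - n₀‖ ≤ 4 * h) (hd : ‖d - d₀‖ ≤ 5 * h) (hd1 : 1 / 2 ≤ ‖d‖) :
    ‖n / d - ξ‖ ≤ 18 * h := by
  have hpos : 0 < ‖d‖ := by linarith
  have hne : d ≠ 0 := norm_pos_iff.1 hpos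
  have e1 : n / d - ξ = ((n - n₀) - ξ * (d - d₀)) / d := by
    rw [← e]; field_simp; ring
  have h1 := norm_sub_le (n - n₀) (ξ * (d - d₀))
  rw [norm_mul] at h1
  have h2 : ‖ξ‖ * ‖d - d₀‖ ≤ 1 * ‖d - d₀‖ := mul_le_mul_of_nonneg_right hξ (norm_nonneg _)
  have h3 : 0 ≤ h := by linarith [norm_nonneg (n - n₀)]
  rw [e1, norm_div, div_le_iff₀ hpos]
  nlinarith

theorem gO_nonneg : ∀ a v, 0 < a → 0 ≤ gO a v := by
  intro a v _
  exact zero_le_one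

theorem gS_nonneg : ∀ a v, 0 < a → 0 ≤ gS a v := by
  intro a v ha
  exact mul_nonneg ha.le (Real.exp_pos _).le

theorem tt_bounds {v : ℝ × ℝ} (hv : RR v < 1) :
    (1 - RR v) / 2 ≤ tt (RR v) ∧ tt (RR v) ≤ 1 - RR v := by
  have h0 := capA_RR_nonneg v
  unfold tt
  constructor
  · exact div_le_div_of_nonneg_left (by linarith) (by linarith) (by linarith)
  · exact div_le_self (by linarith) (by linarith)

theorem Cls.const (c : ℂ) : Cls a₀ gO (fun _ _ => c) := by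
  refine ⟨1, ‖c‖, 0, one_pos, norm_nonneg _, fun a _ _ v _ => ⟨differentiableOn_const _, ?_⟩⟩
  intro p _
  simp [gO]

theorem Cls.add (hg : ∀ a v, 0 < a → 0 ≤ g a v) (h1 : Cls a₀ g F) (h2 : Cls a₀ g G) :
    Cls a₀ g (fun a p => F a p + G a p) := by
  obtain ⟨η₁, C₁, N₁, hη₁, hC₁, H₁⟩ := h1
  obtain ⟨η₂, C₂, N₂, hη₂, hC₂, H₂⟩ := h2
  refine ⟨min η₁ η₂, C₁ + C₂, N₁ + N₂, lt_min hη₁ hη₂, add_nonneg hC₁ hC₂, fun a ha ha₀ v hv => ?_⟩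
  have s₁ := capA_ball_mono (v := v) (min_le_left η₁ η₂)
  have s₂ := capA_ball_mono (v := v) (min_le_right η₁ η₂)
  obtain ⟨d₁, b₁⟩ := H₁ a ha ha₀ v hv
  obtain ⟨d₂, b₂⟩ := H₂ a ha ha₀ v hv
  refine ⟨(d₁.mono s₁).add (d₂.mono s₂), fun p hp => ?_⟩
  have e₁ := (b₁ p (s₁ hp)).trans
    (capA_div_mono hv (mul_nonneg hC₁ (hg a v ha)) (Nat.le_add_right N₁ N₂))
  have e₂ := (b₂ p (s₂ hp)).trans
    (capA_div_mono hv (mul_nonneg hC₂ (hg a v ha)) (Nat.le_add_left N₂ N₁))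
  refine (norm_add_le _ _).trans ?_
  rw [add_mul, add_div]
  exact add_le_add e₁ e₂

theorem Cls.mul (hg : ∀ a v, 0 < a → 0 ≤ g a v) (h1 : Cls a₀ gO F) (h2 : Cls a₀ g G) :
    Cls a₀ g (fun a p => F a p * G a p) := by
  obtain ⟨η₁, C₁, N₁, hη₁, hC₁, H₁⟩ := h1
  obtain ⟨η₂, C₂, N₂, hη₂, hC₂, H₂⟩ := h2
  refine ⟨min η₁ η₂, C₁ * C₂, N₁ + N₂, lt_min hη₁ hη₂, mul_nonneg hC₁ hC₂, fun a ha ha₀ v hv => ?_⟩
  have s₁ := capA_ball_mono (v := v) (min_le_left η₁ η₂)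
  have s₂ := capA_ball_mono (v := v) (min_le_right η₁ η₂)
  obtain ⟨d₁, b₁⟩ := H₁ a ha ha₀ v hv
  obtain ⟨d₂, b₂⟩ := H₂ a ha ha₀ v hv
  refine ⟨(d₁.mono s₁).mul (d₂.mono s₂), fun p hp => ?_⟩
  have e₁ := b₁ p (s₁ hp)
  have e₂ := b₂ p (s₂ hp)
  have hδ : 0 < 1 - RR v := by linarith
  have hga := hg a v ha
  rw [norm_mul]
  refine (mul_le_mul e₁ e₂ (norm_nonneg _) ((norm_nonneg _).trans e₁)).trans (le_of_eq ?_)
  rw [pow_add]
  unfold gO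
  field_simp

theorem Cls.fderiv (hg : ∀ a v, 0 < a → 0 ≤ g a v) (h : Cls a₀ g F) (w : ℂ × ℂ) :
    Cls a₀ g (fun a p => fderiv ℂ (F a) p w) := by
  obtain ⟨η, C, N, hη, hC, H⟩ := h
  refine ⟨η / 2, 4 * C / η * ‖w‖, N + 4, half_pos hη, by positivity, fun a ha ha₀ v hv => ?_⟩
  obtain ⟨hd, hb⟩ := H a ha ha₀ v hv
  have hδ : 0 < 1 - RR v := by linarith
  have hr : 0 < η / 2 * (1 - RR v) ^ 4 := by positivity
  have hga := hg a v ha
  refine ⟨(holo_fderiv isOpen_ball hd w).mono (capA_ball_mono (by linarith)), fun p hp => ?_⟩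
  have hsub : ball p (η / 2 * (1 - RR v) ^ 4) ⊆ ball (cx v) (η * (1 - RR v) ^ 4) := by
    intro q hq
    rw [mem_ball] at hp hq ⊢
    linarith [dist_triangle q p (cx v)]
  have h1 := norm_fderiv_le_div_of_mapsTo_ball (f := F a) (c := p)
    (R₂ := 2 * (C * g a v / (1 - RR v) ^ N)) (hd.mono hsub) (fun q hq => by
      rw [mem_closedBall, dist_eq_norm]
      have e1 := hb q (hsub hq)
      have e2 := hb p (hsub (mem_ball_self hr))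
      linarith [norm_sub_le (F a q) (F a p)]) hr
  calc ‖_root_.fderiv ℂ (F a) p w‖ ≤ ‖_root_.fderiv ℂ (F a) p‖ * ‖w‖ :=
        ContinuousLinearMap.le_opNorm _ _
    _ ≤ 2 * (C * g a v / (1 - RR v) ^ N) / (η / 2 * (1 - RR v) ^ 4) * ‖w‖ := by gcongr
    _ = 4 * C / η * ‖w‖ * g a v / (1 - RR v) ^ (N + 4) := by rw [pow_add]; field_simp; ring

theorem capA_gS_le (N M : ℕ) : ∃ C : ℝ, 0 < C ∧ ∀ a, 0 < a → ∀ v, RR v < 1 →
    gS a v / (1 - RR v) ^ N ≤ C * a * (1 - RR v) ^ M := by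
  obtain ⟨C, hC, hb⟩ := fl_le (M + N)
  refine ⟨C, hC, fun a ha v hv => ?_⟩
  have hR := capA_RR_nonneg v
  have hδ : 0 < 1 - RR v := by linarith
  obtain ⟨t1, t2⟩ := tt_bounds hv
  have t0 : 0 < tt (RR v) := by linarith
  have t3 : tt (RR v) ^ 2 ≤ 1 - RR v := by nlinarith
  have h1 := hb (tt (RR v) ^ 2) (by positivity) (by linarith)
  have h2 : (tt (RR v) ^ 2) ^ (M + N) ≤ (1 - RR v) ^ (M + N) :=
    pow_le_pow_left₀ (by positivity) t3 _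
  have h3 : fl (tt (RR v) ^ 2) ≤ C * (1 - RR v) ^ (M + N) :=
    h1.trans (mul_le_mul_of_nonneg_left h2 hC.le)
  rw [div_le_iff₀ (by positivity)]
  unfold gS
  calc a * fl (tt (RR v) ^ 2) ≤ a * (C * (1 - RR v) ^ (M + N)) :=
        mul_le_mul_of_nonneg_left h3 ha.le
    _ = _ := by rw [pow_add]; ring

theorem Cls.flatHol (h : Cls a₀ gS F) {a : ℝ} (ha : 0 < a) (ha₀ : a ≤ a₀) : FlatHol (F a) := by
  obtain ⟨η, C, N, hη, hC, H⟩ := h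
  refine ⟨η, 4, hη, fun v hv => (H a ha ha₀ v hv).1, fun M => ?_⟩
  obtain ⟨C', hC', hb⟩ := capA_gS_le N M
  refine ⟨C * (C' * a), fun v hv p hp => ((H a ha ha₀ v hv).2 p hp).trans ?_⟩
  rw [mul_div_assoc, mul_assoc]
  exact mul_le_mul_of_nonneg_left (hb a ha v hv) hC

theorem Cls.small (h : Cls a₀ gS F) :
    ∃ C : ℝ, 0 < C ∧ ∀ a, 0 < a → a ≤ a₀ → ∀ v, ‖ext0 (F a) v‖ ≤ C * a := by
  obtain ⟨η, C, N, hη, hC, H⟩ := h
  obtain ⟨C', hC', hb⟩ := capA_gS_le N 0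
  refine ⟨C * C' + 1, by positivity, fun a ha ha₀ v => ?_⟩
  unfold ext0
  split_ifs with hv
  · have hδ : 0 < 1 - RR v := by linarith
    have h1 := (H a ha ha₀ v hv).2 (cx v) (mem_ball_self (by positivity))
    have h2 := mul_le_mul_of_nonneg_left (hb a ha v hv) hC
    rw [mul_div_assoc] at h1
    rw [pow_zero, mul_one] at h2
    nlinarith
  · rw [norm_zero]; positivity

theorem xiv_lt {v : ℝ × ℝ} (hv : RR v < 1) : ‖xiv v‖ < 1 := by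
  have h1 := capA_dd_xiv v
  have h2 := (tt_bounds hv).1
  have h3 : 0 < tt (RR v) := by linarith
  have h4 : 0 < tt (RR v) ^ 2 := by positivity
  unfold dd at h1
  have h5 := norm_nonneg (xiv v)
  nlinarith

theorem xiv_ne {v : ℝ × ℝ} (hv : 0 < RR v) : xiv v ≠ 0 := by
  intro h
  have h1 := capA_normSq_xiv v
  rw [h, norm_zero] at h1
  have h2 : 0 < 4 * RR v / (1 + RR v) ^ 2 := by positivity
  linarith

theorem dd_xiv (v : ℝ × ℝ) : dd (xiv v) = tt (RR v) ^ 2 := by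
  exact capA_dd_xiv v

theorem par_cx (v : ℝ × ℝ) : par (cx v) = (xiv v, conj (xiv v)) := by
  unfold par cx xiv VV RR
  refine Prod.ext ?_ ?_
  · simp only [ofReal_add, ofReal_pow, add_assoc]
  · simp only [map_div₀, map_mul, map_add, map_one, conj_ofReal, conj_I, map_ofNat]
    simp only [ofReal_add, ofReal_pow, add_assoc, mul_neg, sub_eq_add_neg]

theorem par_mem {v : ℝ × ℝ} (hv : RR v < 1) {p : ℂ × ℂ}
    (hp : p ∈ ball (cx v) (1 / 10 ^ 6 * (1 - RR v) ^ 4)) :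
    par p ∈ box (xiv v) ∧ DifferentiableAt ℂ par p := by
  have hR := capA_RR_nonneg v
  have hδ : 0 < 1 - RR v := by linarith
  set h : ℝ := 1 / 10 ^ 6 * (1 - RR v) ^ 4 with hh
  have h0 : 0 < h := by positivity
  have hδ4 : (1 - RR v) ^ 4 ≤ 1 := pow_le_one₀ hδ.le (by linarith)
  have h1 : h ≤ 1 / 10 ^ 6 := by rw [hh]; linarith
  rw [mem_ball, dist_eq_norm, Prod.norm_def, max_lt_iff] at hp
  obtain ⟨e1, e2⟩ := hp
  change ‖p.1 - (v.1 : ℂ)‖ < h at e1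
  change ‖p.2 - (v.2 : ℂ)‖ < h at e2
  have hv1 : ‖(v.1 : ℂ)‖ ≤ 1 := by
    rw [norm_real, Real.norm_eq_abs]
    exact abs_le_one_iff_mul_self_le_one.2 (by unfold RR at hv; nlinarith)
  have hv2 : ‖(v.2 : ℂ)‖ ≤ 1 := by
    rw [norm_real, Real.norm_eq_abs]
    exact abs_le_one_iff_mul_self_le_one.2 (by unfold RR at hv; nlinarith)
  have q1 := capA_sq_sub hv1 e1.le (by linarith)
  have q2 := capA_sq_sub hv2 e2.le (by linarith)
  have hD : ‖(1 + p.1 ^ 2 + p.2 ^ 2) - (1 + (RR v : ℂ))‖ ≤ 5 * h := by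
    have e : (1 + p.1 ^ 2 + p.2 ^ 2) - (1 + (RR v : ℂ)) =
        (p.1 ^ 2 - (v.1 : ℂ) ^ 2) + (p.2 ^ 2 - (v.2 : ℂ) ^ 2) := by
      unfold RR; push_cast; ring
    rw [e]
    linarith [norm_add_le (p.1 ^ 2 - (v.1 : ℂ) ^ 2) (p.2 ^ 2 - (v.2 : ℂ) ^ 2)]
  have hD0 : ‖1 + (RR v : ℂ)‖ = 1 + RR v := capA_norm_den v
  have hD1 : 1 / 2 ≤ ‖1 + p.1 ^ 2 + p.2 ^ 2‖ := by
    have := norm_sub_norm_le (1 + (RR v : ℂ)) (1 + p.1 ^ 2 + p.2 ^ 2)
    rw [norm_sub_rev, hD0] at this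
    linarith
  have hDne : 1 + p.1 ^ 2 + p.2 ^ 2 ≠ 0 := by
    intro e; rw [e, norm_zero] at hD1; linarith
  have hD0ne : 1 + (RR v : ℂ) ≠ 0 := by
    intro e; rw [e, norm_zero] at hD0; linarith
  have hξ := xiv_lt hv
  have hlt : 18 * h < dd (xiv v) ^ 2 / 1000 := by
    rw [dd_xiv]
    have t1 := (tt_bounds hv).1
    have t2 : ((1 - RR v) / 2) ^ 4 ≤ tt (RR v) ^ 4 := pow_le_pow_left₀ (by positivity) t1 4
    have t3 : 0 < (1 - RR v) ^ 4 := by positivity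
    have t4 : (tt (RR v) ^ 2) ^ 2 = tt (RR v) ^ 4 := by ring
    have t5 : ((1 - RR v) / 2) ^ 4 = (1 - RR v) ^ 4 / 16 := by ring
    rw [hh, t4]
    rw [t5] at t2
    linarith
  have hN : ∀ s : ℂ, ‖s‖ = 1 →
      ‖2 * (p.1 + p.2 * s) - 2 * ((v.1 : ℂ) + (v.2 : ℂ) * s)‖ ≤ 4 * h := by
    intro s hs
    have e : 2 * (p.1 + p.2 * s) - 2 * ((v.1 : ℂ) + (v.2 : ℂ) * s) =
        2 * ((p.1 - v.1) + (p.2 - v.2) * s) := by ring
    rw [e, norm_mul]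
    have := norm_add_le (p.1 - v.1) ((p.2 - v.2) * s)
    rw [norm_mul, hs, mul_one] at this
    have e2' : ‖(2 : ℂ)‖ = 2 := by simp
    rw [e2']
    linarith
  refine ⟨⟨?_, ?_⟩, ?_⟩
  · refine lt_of_le_of_lt ?_ hlt
    refine capA_quot (n₀ := 2 * ((v.1 : ℂ) + (v.2 : ℂ) * I)) (d₀ := 1 + (RR v : ℂ)) ?_ hξ.le
      (hN I norm_I) hD hD1
    unfold xiv VV
    exact div_mul_cancel₀ _ hD0ne
  · refine lt_of_le_of_lt ?_ hlt
    have e : (par p).2 = 2 * (p.1 + p.2 * (-I)) / (1 + p.1 ^ 2 + p.2 ^ 2) := by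
      unfold par; simp only [mul_neg, sub_eq_add_neg]
    rw [e]
    refine capA_quot (n₀ := 2 * ((v.1 : ℂ) + (v.2 : ℂ) * (-I))) (d₀ := 1 + (RR v : ℂ)) ?_
      (by rw [norm_conj]; exact hξ.le) (hN (-I) (by rw [norm_neg, norm_I])) hD hD1
    unfold xiv VV
    simp only [map_div₀, map_mul, map_add, map_one, conj_ofReal, conj_I, map_ofNat]
    exact div_mul_cancel₀ _ hD0ne
  · unfold par
    refine DifferentiableAt.prodMk ?_ ?_
    · exact diffAt_div (f := fun p : ℂ × ℂ => 2 * (p.1 + p.2 * I))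
        (g := fun p : ℂ × ℂ => 1 + p.1 ^ 2 + p.2 ^ 2) (by fun_prop) (by fun_prop) hDne
    · exact diffAt_div (f := fun p : ℂ × ℂ => 2 * (p.1 - p.2 * I))
        (g := fun p : ℂ × ℂ => 1 + p.1 ^ 2 + p.2 ^ 2) (by fun_prop) (by fun_prop) hDne

theorem xx_par (v : ℝ × ℝ) : xx (par (cx v)) = xS v := by
  rw [par_cx]
  unfold xx den
  simp only
  rw [capA_mul_conj]
  unfold xiv xS kapS
  push_cast
  rw [show (1 : ℂ) + (1 - (tt (RR v) : ℂ) ^ 2) = 2 - (tt (RR v) : ℂ) ^ 2 by ring, div_div]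
  ring

theorem ww_par {v : ℝ × ℝ} (hv : RR v < 1) : 3 * ww (par (cx v)) = cSC v := by
  have hR := capA_RR_nonneg v
  obtain ⟨t1, t2⟩ := tt_bounds hv
  have t0 : 0 < tt (RR v) := by linarith
  have t3 : 0 < 2 - tt (RR v) ^ 2 := by nlinarith
  have e : sig (par (cx v)) = ((tt (RR v) ^ 2 / (2 - tt (RR v) ^ 2) : ℝ) : ℂ) := by
    rw [par_cx]
    unfold sig den
    simp only
    rw [capA_mul_conj]
    push_cast
    congr 1 <;> ring
  have e2 : ((1 / 2 : ℝ) : ℂ) = 1 / 2 := by push_cast; ring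
  unfold ww cSC cS
  rw [e, ← e2, ← ofReal_cpow (by positivity), ← Real.sqrt_eq_rpow, Real.sqrt_div (by positivity),
    Real.sqrt_sq t0.le]
  push_cast
  ring

theorem capA_diff_par {f : ℂ × ℂ → ℂ} (hf : DifferentiableOn ℂ f NB) {v : ℝ × ℝ}
    (hv : RR v < 1) :
    DifferentiableOn ℂ (fun p => f (par p)) (ball (cx v) (1 / 10 ^ 6 * (1 - RR v) ^ 4)) := by
  intro p hp
  obtain ⟨hm, hd⟩ := par_mem hv hp
  have h3 : DifferentiableAt ℂ f (par p) :=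
    hf.differentiableAt (isOpen_NB.mem_nhds ⟨_, xiv_lt hv, hm⟩)
  exact (h3.comp p hd).differentiableWithinAt

theorem capA_dd_pow {v : ℝ × ℝ} (hv : RR v < 1) (C : ℝ) {b : ℝ} (hb : 0 ≤ b) (N : ℕ) :
    C * b / dd (xiv v) ^ N ≤ |C| * 4 ^ N * b / (1 - RR v) ^ (2 * N) := by
  have hδ : 0 < 1 - RR v := by linarith
  have t1 := (tt_bounds hv).1
  have t0 : 0 < tt (RR v) := by linarith
  have t2 : (1 - RR v) ^ 2 / 4 ≤ tt (RR v) ^ 2 := by nlinarith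
  have t3 : ((1 - RR v) ^ 2 / 4) ^ N ≤ (tt (RR v) ^ 2) ^ N := pow_le_pow_left₀ (by positivity) t2 N
  rw [dd_xiv]
  calc C * b / (tt (RR v) ^ 2) ^ N ≤ |C| * b / (tt (RR v) ^ 2) ^ N := by
        gcongr; exact le_abs_self C
    _ ≤ |C| * b / ((1 - RR v) ^ 2 / 4) ^ N :=
        div_le_div_of_nonneg_left (by positivity) (by positivity) t3
    _ = _ := by rw [div_pow, pow_mul]; field_simp

theorem Cls.comp_par {C : ℝ} {N : ℕ} (hd : ∀ a, 0 < a → a ≤ a₀ → DifferentiableOn ℂ (F a) NB)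
    (hb : ∀ a, 0 < a → a ≤ a₀ → ∀ ξ : ℂ, ‖ξ‖ < 1 → ∀ p ∈ box ξ, ‖F a p‖ ≤ C / dd ξ ^ N) :
    Cls a₀ gO (fun a p => F a (par p)) := by
  refine ⟨1 / 10 ^ 6, |C| * 4 ^ N, 2 * N, by norm_num, by positivity, fun a ha ha₀ v hv =>
    ⟨capA_diff_par (hd a ha ha₀) hv, fun p hp => ?_⟩⟩
  refine (hb a ha ha₀ _ (xiv_lt hv) _ (par_mem hv hp).1).trans ?_
  have := capA_dd_pow hv C zero_le_one N
  rw [mul_one] at this
  exact this

theorem Cls.comp_par' {C : ℝ} {N : ℕ} (hd : ∀ a, 0 < a → a ≤ a₀ → DifferentiableOn ℂ (F a) NB)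
    (hb : ∀ a, 0 < a → a ≤ a₀ → ∀ ξ : ℂ, ‖ξ‖ < 1 → ∀ p ∈ box ξ,
      ‖F a p‖ ≤ C * a * fl (dd ξ) / dd ξ ^ N) :
    Cls a₀ gS (fun a p => F a (par p)) := by
  refine ⟨1 / 10 ^ 6, |C| * 4 ^ N, 2 * N, by norm_num, by positivity, fun a ha ha₀ v hv =>
    ⟨capA_diff_par (hd a ha ha₀) hv, fun p hp => ?_⟩⟩
  refine (hb a ha ha₀ _ (xiv_lt hv) _ (par_mem hv hp).1).trans ?_
  have := capA_dd_pow hv C (gS_nonneg a v ha) N
  rw [mul_assoc C a, dd_xiv]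
  rw [dd_xiv] at this
  exact this

/-- The chain rule on the real disc. -/
theorem pd_par {f : ℂ × ℂ → ℂ} (hf : DifferentiableOn ℂ f NB) {v : ℝ × ℝ} (hv : RR v < 1) :
    ContDiffAt ℝ 2 (fun v => f (par (cx v))) v ∧ ∀ e : ℝ × ℝ,
      fderiv ℝ (fun v => f (par (cx v))) v e = fderiv ℂ (fun p => f (par p)) (cx v) (cx e) ∧
      fderiv ℝ (fun v => f (par (cx v))) v e =
        fderiv ℂ f (par (cx v)) (fderiv ℂ par (cx v) (cx e)) := by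
  have hδ : 0 < 1 - RR v := by linarith
  have hr : (0 : ℝ) < 1 / 10 ^ 6 * (1 - RR v) ^ 4 := by positivity
  have hd := capA_diff_par hf hv
  have hn := ball_mem_nhds (cx v) hr
  have hc : ContDiffAt ℂ ∞ (fun p => f (par p)) (cx v) :=
    (holo_contDiffOn isOpen_ball hd).contDiffAt hn
  have hc2 : ContDiffAt ℝ 2 (fun p => f (par p)) (cxL v) :=
    (hc.restrict_scalars ℝ).of_le (WithTop.coe_le_coe.2 (le_top : (2 : ℕ∞) ≤ ⊤))
  have h1 : DifferentiableAt ℂ (fun p => f (par p)) (cx v) := hd.differentiableAt hn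
  have h2 : HasFDerivAt (fun u => f (par (cxL u)))
      (((_root_.fderiv ℂ (fun p => f (par p)) (cx v)).restrictScalars ℝ).comp cxL) v :=
    (h1.hasFDerivAt.restrictScalars ℝ).comp v cxL.hasFDerivAt
  obtain ⟨hm, hp⟩ := par_mem hv (mem_ball_self hr)
  have h3 : DifferentiableAt ℂ f (par (cx v)) :=
    hf.differentiableAt (isOpen_NB.mem_nhds ⟨_, xiv_lt hv, hm⟩)
  have h4 : _root_.fderiv ℂ (fun p => f (par p)) (cx v) =
      (_root_.fderiv ℂ f (par (cx v))).comp (_root_.fderiv ℂ par (cx v)) :=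
    fderiv_comp (cx v) h3 hp
  refine ⟨hc2.comp v cxL.contDiff.contDiffAt, fun e => ?_⟩
  have h5 : _root_.fderiv ℝ (fun v => f (par (cx v))) v e =
      _root_.fderiv ℂ (fun p => f (par p)) (cx v) (cx e) := by
    have := h2.fderiv
    simp only [cxL_apply] at this
    rw [this]
    rfl
  refine ⟨h5, ?_⟩
  rw [h5, h4]
  rfl

end Pool.Agent.Lib.MP_e941ef_an
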