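import Pool.Agent.Lib.MP_e941ef_an.Defs

namespace Pool.Agent.Lib.MP_e941ef_an

open Complex Metric Set Filter Topology
open scoped ComplexConjugate ContDiff

theorem capC_fderiv_Aform {x l m p q r : ℝ × ℝ → ℂ} {v : ℝ × ℝ} (hx : DifferentiableAt ℝ x v)
    (hl : DifferentiableAt ℝ l v) (hm : DifferentiableAt ℝ m v) (hp : DifferentiableAt ℝ p v)
    (hq : DifferentiableAt ℝ q v) (hr : DifferentiableAt ℝ r v) (hl0 : l v ≠ 0) (e : ℝ × ℝ) :
    fderiv ℝ (fun v => -I * Aform (x v) (l v) (m v) (p v) (q v) (r v)) v e =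
      -I * ((fderiv ℝ x v e * q v + x v * fderiv ℝ q v e) / l v
        - x v * q v * fderiv ℝ l v e / l v ^ 2 - fderiv ℝ p v e
        + 5 * (2 * x v * fderiv ℝ x v e * (l v - 3 / 5 * x v) * r v
          + x v ^ 2 * (fderiv ℝ l v e - 3 / 5 * fderiv ℝ x v e) * r v
          + x v ^ 2 * (l v - 3 / 5 * x v) * fderiv ℝ r v e)
        + 4 * (fderiv ℝ m v e * x v ^ 2 * (q v - 3 / 5 * p v)
          + m v * (2 * x v * fderiv ℝ x v e) * (q v - 3 / 5 * p v)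
          + m v * x v ^ 2 * (fderiv ℝ q v e - 3 / 5 * fderiv ℝ p v e))
        + 6 * (fderiv ℝ x v e * (l v - 3 / 5 * x v) * m v * p v
          + x v * (fderiv ℝ l v e - 3 / 5 * fderiv ℝ x v e) * m v * p v
          + x v * (l v - 3 / 5 * x v) * fderiv ℝ m v e * p v
          + x v * (l v - 3 / 5 * x v) * m v * fderiv ℝ p v e)) := by
  have hd : DifferentiableAt ℝ (fun v => -I * Aform (x v) (l v) (m v) (p v) (q v) (r v)) v := by
    unfold Aform
    simp only [div_eq_mul_inv]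
    have := hl.inv hl0
    fun_prop (disch := exact hl0)
  have key : ∀ {f : ℝ × ℝ → ℂ}, DifferentiableAt ℝ f v →
      HasDerivAt (fun t : ℝ => f (v + t • e)) (fderiv ℝ f v e) 0 :=
    fun hf => hf.hasFDerivAt.hasLineDerivAt e
  have h0 : l (v + (0 : ℝ) • e) ≠ 0 := by simpa using hl0
  have h1 := key hd
  have hx' := key hx
  have hl' := key hl
  have hm' := key hm
  have hp' := key hp
  have hq' := key hq
  have hr' := key hr
  have hs := hl'.fun_sub (hx'.const_mul (3 / 5 : ℂ))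
  have h2 := ((((((hx'.fun_mul hq').fun_div hl' h0).fun_sub hp').fun_add
    ((((hx'.fun_pow 2).const_mul (5 : ℂ)).fun_mul hs).fun_mul hr')).fun_add
    (((hm'.const_mul (4 : ℂ)).fun_mul (hx'.fun_pow 2)).fun_mul
      (hq'.fun_sub (hp'.const_mul (3 / 5 : ℂ))))).fun_add
    ((((hx'.const_mul (6 : ℂ)).fun_mul hs).fun_mul hm').fun_mul hp')).const_mul (-I)
  rw [h1.unique h2]
  simp only [zero_smul, add_zero]
  field_simp
  ring

theorem capC_diff_pd {f : ℝ × ℝ → ℂ} {v : ℝ × ℝ} (hf : ContDiffAt ℝ 2 f v) (e : ℝ × ℝ) :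
    DifferentiableAt ℝ (fun w => fderiv ℝ f w e) v :=
  ((hf.fderiv_right (m := 1) (by norm_num)).differentiableAt (by norm_num)).clm_apply
    (differentiableAt_const e)

theorem capC_symm {f : ℝ × ℝ → ℂ} {v : ℝ × ℝ} (hf : ContDiffAt ℝ 2 f v) :
    fderiv ℝ (pd2 f) v (1, 0) = fderiv ℝ (pd1 f) v (0, 1) := by
  have hd : DifferentiableAt ℝ (fderiv ℝ f) v :=
    (hf.fderiv_right (m := 1) (by norm_num)).differentiableAt (by norm_num)
  have h : ∀ e e' : ℝ × ℝ, fderiv ℝ (fun w => fderiv ℝ f w e) v e' =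
      fderiv ℝ (fderiv ℝ f) v e' e := by
    intro e e'
    rw [fderiv_clm_apply hd (differentiableAt_const e)]
    simp
  exact (h _ _).trans (((hf.isSymmSndFDerivAt (by simp)).eq _ _).trans (h _ _).symm)

/-- The exterior derivative of the form `Aform`. -/
theorem curl_Aform {x l m : ℝ × ℝ → ℂ} {v : ℝ × ℝ} (hx : ContDiffAt ℝ 2 x v)
    (hl : ContDiffAt ℝ 2 l v) (hm : ContDiffAt ℝ 2 m v) (hl0 : l v ≠ 0) :
    curl (fun v => -I * Aform (x v) (l v) (m v) (pd1 x v) (pd1 l v) (pd1 m v))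
      (fun v => -I * Aform (x v) (l v) (m v) (pd2 x v) (pd2 l v) (pd2 m v)) v =
      -I * Bform (x v) (l v) (m v) (pd1 x v) (pd1 l v) (pd1 m v) (pd2 x v) (pd2 l v) (pd2 m v) := by
  have dx := hx.differentiableAt (by norm_num)
  have dl := hl.differentiableAt (by norm_num)
  have dm := hm.differentiableAt (by norm_num)
  have h1 := capC_fderiv_Aform (p := pd2 x) (q := pd2 l) (r := pd2 m) dx dl dm
    (capC_diff_pd hx _) (capC_diff_pd hl _) (capC_diff_pd hm _) hl0 (1, 0)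
  have h2 := capC_fderiv_Aform (p := pd1 x) (q := pd1 l) (r := pd1 m) dx dl dm
    (capC_diff_pd hx _) (capC_diff_pd hl _) (capC_diff_pd hm _) hl0 (0, 1)
  rw [capC_symm hx, capC_symm hl, capC_symm hm] at h1
  change fderiv ℝ _ v (1, 0) - fderiv ℝ _ v (0, 1) = _
  rw [h1, h2]
  simp only [pd1, pd2, Bform]
  field_simp
  ring

theorem capC_conj_Aform (x l m dx dl dm : ℂ) :
    Aform (conj x) (conj l) (conj m) (conj dx) (conj dl) (conj dm) =
      conj (Aform x l m dx dl dm) := by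
  simp [Aform, map_ofNat]

theorem capC_conj_Bform (x l m dx dl dm dx' dl' dm' : ℂ) :
    Bform (conj x) (conj l) (conj m) (conj dx) (conj dl) (conj dm) (conj dx') (conj dl')
      (conj dm') = conj (Bform x l m dx dl dm dx' dl' dm') := by
  simp [Bform, map_ofNat]

theorem capC_re (w : ℂ) : ((w.re : ℝ) : ℂ) = (w + conj w) / 2 := by
  rw [Complex.add_conj]; push_cast; ring

theorem capC_im (w : ℂ) : ((w.im : ℝ) : ℂ) = -I * (w - conj w) / 2 := by
  rw [Complex.sub_conj]; push_cast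
  linear_combination (w.im : ℂ) * I_mul_I

/-- The structure identity on the real slice. -/
theorem lam_of_ST {x l m a1 a2 x' l' : ℝ × ℝ → ℂ} {v : ℝ × ℝ} (hx : ContDiffAt ℝ 2 x v)
    (hl : ContDiffAt ℝ 2 l v) (hm : ContDiffAt ℝ 2 m v) (hl0 : l v ≠ 0)
    (h1 : a1 =ᶠ[𝓝 v] fun v => -I * Aform (x v) (l v) (m v) (pd1 x v) (pd1 l v) (pd1 m v))
    (h2 : a2 =ᶠ[𝓝 v] fun v => -I * Aform (x v) (l v) (m v) (pd2 x v) (pd2 l v) (pd2 m v))
    (hx' : x' =ᶠ[𝓝 v] x) (hl' : l' =ᶠ[𝓝 v] l)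
    {X Y L1 L2 M Ms : ℂ × ℂ → ℂ} {P w1 w2 : ℂ × ℂ} {z : ℂ} (hz : ‖z‖ = 1)
    (e0 : X P = x v ∧ Y P = conj (x v) ∧ L1 P = l v ∧ L2 P = conj (l v) ∧ M P = m v ∧
      Ms P = conj (m v))
    (e1 : fderiv ℂ X P w1 = pd1 x v ∧ fderiv ℂ Y P w1 = conj (pd1 x v) ∧
      fderiv ℂ L1 P w1 = pd1 l v ∧ fderiv ℂ L2 P w1 = conj (pd1 l v) ∧
      fderiv ℂ M P w1 = pd1 m v ∧ fderiv ℂ Ms P w1 = conj (pd1 m v))
    (e2 : fderiv ℂ X P w2 = pd2 x v ∧ fderiv ℂ Y P w2 = conj (pd2 x v) ∧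
      fderiv ℂ L1 P w2 = pd2 l v ∧ fderiv ℂ L2 P w2 = conj (pd2 l v) ∧
      fderiv ℂ M P w2 = pd2 m v ∧ fderiv ℂ Ms P w2 = conj (pd2 m v))
    (h : STid X Y L1 L2 M Ms P w1 w2 z) :
    (3 * (2 * (x' v * z).re) ^ 2 - 3 * (2 * (x' v * z).re) ^ 4
        + 4 * (2 * (x' v * z).re) ^ 3 * (2 * (l' v * z).re)) * Lam a1 a2 x' v z
      + (2 * (x' v * z).re) ^ 4 * Lam a1 a2 l' v z = 0 := by
  have hc : curl a1 a2 v =
      -I * Bform (x v) (l v) (m v) (pd1 x v) (pd1 l v) (pd1 m v) (pd2 x v) (pd2 l v) (pd2 m v) := by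
    rw [← curl_Aform hx hl hm hl0]
    change fderiv ℝ a2 v (1, 0) - fderiv ℝ a1 v (0, 1) = _
    rw [h1.fderiv_eq, h2.fderiv_eq]
    rfl
  have px1 : pd1 x' v = pd1 x v := by simp only [pd1]; rw [hx'.fderiv_eq]
  have px2 : pd2 x' v = pd2 x v := by simp only [pd2]; rw [hx'.fderiv_eq]
  have pl1 : pd1 l' v = pd1 l v := by simp only [pd1]; rw [hl'.fderiv_eq]
  have pl2 : pd2 l' v = pd2 l v := by simp only [pd2]; rw [hl'.fderiv_eq]
  have hzi : z⁻¹ = conj z := by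
    rw [Complex.inv_def, Complex.normSq_eq_norm_sq, hz]; simp
  obtain ⟨a1', a2', a3', a4', a5', a6'⟩ := e0
  obtain ⟨b1, b2, b3, b4, b5, b6⟩ := e1
  obtain ⟨c1, c2, c3, c4, c5, c6⟩ := e2
  simp only [STid, a1', a2', a3', a4', a5', a6', b1, b2, b3, b4, b5, b6, c1, c2, c3, c4, c5, c6,
    capC_conj_Aform, capC_conj_Bform, div_eq_mul_inv _ z, hzi] at h
  simp only [Lam, hc, px1, px2, pl1, pl2, h1.eq_of_nhds, h2.eq_of_nhds, hx'.eq_of_nhds,
    hl'.eq_of_nhds]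
  generalize Aform (x v) (l v) (m v) (pd1 x v) (pd1 l v) (pd1 m v) = A1 at h ⊢
  generalize Aform (x v) (l v) (m v) (pd2 x v) (pd2 l v) (pd2 m v) = A2 at h ⊢
  generalize Bform (x v) (l v) (m v) (pd1 x v) (pd1 l v) (pd1 m v) (pd2 x v) (pd2 l v)
    (pd2 m v) = B at h ⊢
  have f1 : ∀ A : ℂ, (z * (-I * A)).im = -(z * A).re := fun A => by simp; ring
  have f2 : ∀ A : ℂ, (z * (-I * A)).re = (z * A).im := fun A => by simp; ring
  have f3 : ∀ u w : ℂ, ((2 * u.im * (2 * w.im) : ℝ) : ℂ) = -((u - conj u) * (w - conj w)) := by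
    intro u w
    push_cast
    rw [capC_im, capC_im]
    linear_combination ((u - conj u) * (w - conj w)) * I_mul_I
  simp only [f1, f2]
  apply Complex.ofReal_injective
  simp only [ofReal_add, ofReal_mul _ (_ + _), f3]
  push_cast
  simp only [capC_re, map_mul]
  linear_combination -h

end Pool.Agent.Lib.MP_e941ef_an
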