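import Pool.Agent.Lib.MP_e941ef_an.Local
import Pool.Agent.Lib.MP_e941ef_an.CapA
import Pool.Agent.Lib.MP_e941ef_an.CapC

namespace Pool.Agent.Lib.MP_e941ef_an

open Complex Metric Set Filter Topology
open scoped ComplexConjugate ContDiff

lemma par_box {v : ℝ × ℝ} (hv : RR v < 1) : par (cx v) ∈ box (xiv v) := by
  rw [par_cx]
  exact self_mem_box (xiv_lt hv)

lemma par_NB {v : ℝ × ℝ} (hv : RR v < 1) : par (cx v) ∈ NB := box_subset (xiv_lt hv) (par_box hv)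

lemma ev_disc {v : ℝ × ℝ} (hv : RR v < 1) : ∀ᶠ w in 𝓝 v, RR w < 1 :=
  (isOpen_lt differentiable_RR.continuous continuous_const).mem_nhds hv

lemma par_swap (v : ℝ × ℝ) : (par (cx v)).swap = cj (par (cx v)) := by
  simp [par_cx, cj]

lemma slice_conj {f g : ℂ × ℂ → ℂ} (hf : DifferentiableOn ℂ f NB)
    (hc : ∀ P ∈ NB, f (cj P) = conj (f P)) (hg : ∀ P ∈ NB, g P = f P.swap) {v : ℝ × ℝ}
    (hv : RR v < 1) : g (par (cx v)) = conj (f (par (cx v))) ∧ ∀ e : ℝ × ℝ,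
      fderiv ℂ g (par (cx v)) (fderiv ℂ par (cx v) (cx e)) =
        conj (fderiv ℝ (fun v => f (par (cx v))) v e) := by
  have h0 : ∀ v, RR v < 1 → g (par (cx v)) = conj (f (par (cx v))) := fun v hv => by
    rw [hg _ (par_NB hv), par_swap, hc _ (par_NB hv)]
  have hd : DifferentiableOn ℂ g NB :=
    (hf.comp (f := fun P : ℂ × ℂ => P.swap) (differentiableOn_snd.prodMk differentiableOn_fst)
      fun P hP => swap_mem_NB hP).congr hg
  refine ⟨h0 v hv, fun e => ?_⟩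
  have h1 : (fun v => g (par (cx v))) =ᶠ[𝓝 v] fun v => conjCLE (f (par (cx v))) := by
    filter_upwards [ev_disc hv] with w hw using h0 w hw
  rw [← ((pd_par hd hv).2 e).2, h1.fderiv_eq]
  have h2 := (conjCLE.hasFDerivAt.comp v
    ((pd_par hf hv).1.differentiableAt (by norm_num)).hasFDerivAt).fderiv
  erw [h2]
  rfl

lemma dlog_real {x c γ m l : ℝ × ℝ → ℂ} {v : ℝ × ℝ} {a : ℂ} (hx : DifferentiableAt ℝ x v)
    (hc : DifferentiableAt ℝ c v) (hγ : DifferentiableAt ℝ γ v) (hm : DifferentiableAt ℝ m v)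
    (hl : l =ᶠ[𝓝 v] fun v => a * exp (c v - 6 + γ v + 3 * (x v * x v * m v))) (e : ℝ × ℝ) :
    fderiv ℝ l v e = l v * (fderiv ℝ c v e + fderiv ℝ γ v e
      + 6 * x v * m v * fderiv ℝ x v e + 3 * x v ^ 2 * fderiv ℝ m v e) := by
  have h := ((((hc.hasFDerivAt.sub_const 6).add hγ.hasFDerivAt).add
    (((hx.hasFDerivAt.mul hx.hasFDerivAt).mul hm.hasFDerivAt).const_mul 3)).cexp.const_mul a).fderiv
  rw [hl.fderiv_eq, hl.eq_of_nhds]
  erw [h]
  simp
  ring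

/-- The perturbation of the frame. -/
noncomputable def dA (x γ l m : ℂ × ℂ → ℂ) (e : ℝ × ℝ) (p : ℂ × ℂ) : ℂ :=
  -I * x p * fderiv ℂ γ p (cx e) + -5 * I * x p * x p * fderiv ℂ m p (cx e) * l p
    + -4 * I * m p * x p * x p * fderiv ℂ l p (cx e)
    + -6 * I * x p * m p * fderiv ℂ x p (cx e) * l p

lemma Cls.dA {a₀ : ℝ} {x γ l m : ℝ → ℂ × ℂ → ℂ} (hx : Cls a₀ gO x) (hγ : Cls a₀ gS γ)
    (hl : Cls a₀ gS l) (hm : Cls a₀ gO m) (e : ℝ × ℝ) :
    Cls a₀ gS (fun a => dA (x a) (γ a) (l a) (m a) e) := by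
  have o := gO_nonneg
  have s := gS_nonneg
  exact (((((Cls.const (-I)).mul o hx).mul s (hγ.fderiv s (cx e))).add s
    (((((Cls.const (-5 * I)).mul o hx).mul o hx).mul o (hm.fderiv o (cx e))).mul s hl)).add s
    (((((Cls.const (-4 * I)).mul o hm).mul o hx).mul o hx).mul s (hl.fderiv s (cx e)))).add s
    (((((Cls.const (-6 * I)).mul o hx).mul o hm).mul o (hx.fderiv o (cx e))).mul s hl)

lemma frame_eq {γ l m : ℂ × ℂ → ℂ} (hγ : DifferentiableOn ℂ γ NB) (hl : DifferentiableOn ℂ l NB)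
    (hm : DifferentiableOn ℂ m NB) {a : ℂ} (ha : a ≠ 0)
    (h : ∀ P ∈ NB, l P = a * exp (3 * ww P - 6 + γ P + 3 * (xx P * xx P * m P)))
    {v : ℝ × ℝ} (hv : RR v < 1) (e : ℝ × ℝ) :
    I * (fderiv ℝ xS v e - xS v * fderiv ℝ cSC v e) + ext0 (dA (fun p => xx (par p))
      (fun p => γ (par p)) (fun p => l (par p)) (fun p => m (par p)) e) v =
      -I * Aform (xx (par (cx v))) (l (par (cx v))) (m (par (cx v)))
        (fderiv ℝ (fun v => xx (par (cx v))) v e) (fderiv ℝ (fun v => l (par (cx v))) v e)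
        (fderiv ℝ (fun v => m (par (cx v))) v e) := by
  have ex : xS = fun v => xx (par (cx v)) := funext fun v => (xx_par v).symm
  have ec : cSC =ᶠ[𝓝 v] fun v => 3 * ww (par (cx v)) := by
    filter_upwards [ev_disc hv] with w hw using (ww_par hw).symm
  have two : (2 : WithTop ℕ∞) ≠ 0 := by norm_num
  have dx := (pd_par xx_diff hv).1.differentiableAt two
  have dγ := (pd_par hγ hv).1.differentiableAt two
  have dm := (pd_par hm hv).1.differentiableAt two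
  have dc : DifferentiableAt ℝ cSC v :=
    (((pd_par ww_diff hv).1.differentiableAt two).const_mul 3).congr_of_eventuallyEq ec
  have el := dlog_real (l := fun v => l (par (cx v))) (a := a) dx dc dγ dm (by
    filter_upwards [ev_disc hv] with w hw
    rw [h _ (par_NB hw), ww_par hw]) e
  have l0 : l (par (cx v)) ≠ 0 := by
    rw [h _ (par_NB hv)]
    exact mul_ne_zero ha (exp_ne_zero _)
  rw [ext0, if_pos hv, dA, ← ((pd_par xx_diff hv).2 e).1, ← ((pd_par hγ hv).2 e).1,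
    ← ((pd_par hl hv).2 e).1, ← ((pd_par hm hv).2 e).1, Aform, mul_div_assoc, el,
    mul_div_cancel_left₀ _ l0, ex]
  ring

/-- The non-rotational cap. -/
theorem cap_exists {ε : ℝ} (hε : 0 < ε) : ∃ da1 da2 l : ℝ × ℝ → ℂ,
    ContDiff ℝ ∞ da1 ∧ ContDiff ℝ ∞ da2 ∧ ContDiff ℝ ∞ l ∧
    (∀ v, 1 ≤ RR v → da1 v = 0 ∧ da2 v = 0 ∧ l v = 0) ∧
    (∀ v, ‖da1 v‖ ≤ ε ∧ ‖da2 v‖ ≤ ε ∧ ‖l v‖ ≤ ε ∧ ‖pd1 l v‖ ≤ ε ∧ ‖pd2 l v‖ ≤ ε) ∧ l 0 ≠ 0 ∧
    ∀ v, 0 < RR v → RR v < 1 → ∀ z : ℂ, ‖z‖ = 1 →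
      (3 * (2 * (xS v * z).re) ^ 2 - 3 * (2 * (xS v * z).re) ^ 4
          + 4 * (2 * (xS v * z).re) ^ 3 * (2 * (l v * z).re))
        * Lam (fun v => aS1 v + da1 v) (fun v => aS2 v + da2 v) xS v z
      + (2 * (xS v * z).re) ^ 4 * Lam (fun v => aS1 v + da1 v) (fun v => aS2 v + da2 v) l v z
        = 0 := by
  obtain ⟨a₀, K, ha₀, hK, H⟩ := core_tau
  choose! hW T hT hM hM0 hsym hb using H
  set L : ℝ → ℂ × ℂ → ℂ := fun a P => ll (EE a P (T a P)) P with hL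
  set M : ℝ → ℂ × ℂ → ℂ := fun a P => m1 a P (T a P) with hMd
  set Γ : ℝ → ℂ × ℂ → ℂ := fun a P => T a P - 3 * xx P ^ 2 * (M a P - m10 P) with hΓ
  have hlt : ∀ a, 0 < a → a ≤ a₀ → ∀ ξ : ℂ, ‖ξ‖ < 1 → ∀ p ∈ box ξ, ‖T a p‖ < 2 :=
    fun a h1 h2 ξ hξ p hp => by linarith [(hb a h1 h2 ξ hξ p hp).2.1]
  have dL : ∀ a, 0 < a → a ≤ a₀ → DifferentiableOn ℂ (L a) NB := by
    rintro a h1 h2 p ⟨ξ, hξ, hp⟩
    exact (ll_at hξ hp (f := fun p => p) differentiableAt_id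
      (EE_at hξ hp a (f := fun p => p) differentiableAt_id ((hT a h1 h2).differentiableAt
        (isOpen_NB.mem_nhds (box_subset hξ hp))) rfl) rfl).1.differentiableWithinAt
  have dΓ : ∀ a, 0 < a → a ≤ a₀ → DifferentiableOn ℂ (Γ a) NB := fun a h1 h2 =>
    (hT a h1 h2).sub (((xx_diff.pow 2).const_mul 3).mul ((hM a h1 h2).sub (hM0 a h1 h2)))
  have cx' : Cls a₀ gO (fun _ p => xx (par p)) :=
    Cls.comp_par (F := fun _ => xx) (C := 1) (N := 0) (fun _ _ _ => xx_diff)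
      fun a _ _ ξ hξ p hp => by simpa using box_xx hξ hp
  have cm : Cls a₀ gO (fun a p => M a (par p)) :=
    Cls.comp_par (C := K) (N := 12) hM fun a h1 h2 ξ hξ p hp => (hb a h1 h2 ξ hξ p hp).2.2.2.1
  have cl : Cls a₀ gS (fun a p => L a (par p)) :=
    Cls.comp_par' (C := 27) (N := 1) dL fun a h1 h2 ξ hξ p hp => by
      refine (box_ll hξ hp _).trans ?_
      have := norm_EE h1 hξ hp (hlt a h1 h2 ξ hξ p hp)
      rw [pow_one]
      exact div_le_div_of_nonneg_right (by linarith) (dd_pos hξ).1.le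
  have cγ : Cls a₀ gS (fun a p => Γ a (par p)) :=
    Cls.comp_par' (C := 4 * K) (N := 12) dΓ fun a h1 h2 ξ hξ p hp => by
      obtain ⟨-, -, b1, -, b2⟩ := hb a h1 h2 ξ hξ p hp
      have b3 : ‖3 * xx p ^ 2 * (M a p - m10 p)‖ ≤ 3 * 1 ^ 2 * (K * a * fl (dd ξ) / dd ξ ^ 12) := by
        rw [norm_mul, norm_mul, norm_pow, Complex.norm_ofNat]
        have := box_xx hξ hp
        gcongr
      have b4 : 4 * K * a * fl (dd ξ) / dd ξ ^ 12 = 4 * (K * a * fl (dd ξ) / dd ξ ^ 12) := by ring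
      refine (norm_sub_le _ _).trans ?_
      linarith
  have c1 := Cls.dA cx' cγ cl cm (1, 0)
  have c2 := Cls.dA cx' cγ cl cm (0, 1)
  obtain ⟨C1, p1, s1⟩ := c1.small
  obtain ⟨C2, p2, s2⟩ := c2.small
  obtain ⟨C3, p3, s3⟩ := cl.small
  obtain ⟨C4, p4, s4⟩ := (cl.fderiv gS_nonneg (cx (1, 0))).small
  obtain ⟨C5, p5, s5⟩ := (cl.fderiv gS_nonneg (cx (0, 1))).small
  obtain ⟨a, h1, h2, h3⟩ : ∃ a, 0 < a ∧ a ≤ a₀ ∧ (C1 + C2 + C3 + C4 + C5) * a ≤ ε := by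
    refine ⟨min a₀ (ε / (C1 + C2 + C3 + C4 + C5)), lt_min ha₀ (by positivity), min_le_left _ _, ?_⟩
    rw [← le_div_iff₀' (by positivity)]
    exact min_le_right _ _
  have eL : ∀ P ∈ NB, L a P = a * exp (3 * ww P - 6 + Γ a P + 3 * (xx P * xx P * M a P)) := by
    rintro P ⟨ξ, hξ, hP⟩
    have e1 := box_exp_lr hξ hP (EE a P (T a P)) (u := 0)
      (by rw [norm_zero]; linarith [(dd_pos hξ).2])
    have e2 := bg_inf hξ hP
    rw [mul_zero, add_zero] at e1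
    simp only [hL, hΓ]
    rw [← e1, EE, mul_assoc, ← exp_add]
    congr 2
    linear_combination e2
  have ha : (a : ℂ) ≠ 0 := ofReal_ne_zero.2 h1.ne'
  have fl := cl.flatHol h1 h2
  refine ⟨ext0 _, ext0 _, ext0 _, (c1.flatHol h1 h2).contDiff, (c2.flatHol h1 h2).contDiff,
    fl.contDiff, fun v hv => ?_, fun v => ?_, ?_, fun v hv0 hv z hz => ?_⟩
  · simp [ext0, not_lt.2 hv]
  · have q1 := mul_pos p1 h1
    have q2 := mul_pos p2 h1
    have q3 := mul_pos p3 h1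
    have q4 := mul_pos p4 h1
    have q5 := mul_pos p5 h1
    refine ⟨(s1 a h1 h2 v).trans (by linarith), (s2 a h1 h2 v).trans (by linarith),
      (s3 a h1 h2 v).trans (by linarith), ?_, ?_⟩
    · rw [pd1, fl.fderiv_ext0]
      exact (s4 a h1 h2 v).trans (by linarith)
    · rw [pd2, fl.fderiv_ext0]
      exact (s5 a h1 h2 v).trans (by linarith)
  · have h0 : RR 0 < 1 := by simp [RR]
    rw [ext0, if_pos h0, eL _ (par_NB h0)]
    exact mul_ne_zero ha (exp_ne_zero _)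
  · have st := core_ST h1 (hW a h1 h2) (hT a h1 h2)
      (fun ξ hξ p hp => ⟨(hb a h1 h2 ξ hξ p hp).1, (hb a h1 h2 ξ hξ p hp).2.1⟩)
      (xiv_lt hv) (xiv_ne hv0) (fderiv ℂ par (cx v) (cx (1, 0))) (fderiv ℂ par (cx v) (cx (0, 1)))
      hz
    rw [← par_cx] at st
    have kx := slice_conj (g := fun p => xx p.swap) xx_diff (fun P _ => xx_cj P) (fun _ _ => rfl) hv
    have kl := slice_conj (g := fun p => ll (EE a p (T a p)) p.swap) (dL a h1 h2)
      (fun P hP => by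
        simp only [hL]
        rw [(hsym a h1 h2 P hP).2.1, EE_cj a hP, ll_cj])
      (fun P hP => by
        simp only [hL]
        rw [(hsym a h1 h2 P hP).1, EE_swap]) hv
    have km := slice_conj (g := fun p => m1 a p.swap (T a p)) (hM a h1 h2)
      (fun P hP => (hsym a h1 h2 P hP).2.2) (fun P hP => by rw [(hsym a h1 h2 P hP).1]) hv
    have px := pd_par xx_diff hv
    have pl := pd_par (dL a h1 h2) hv
    have pm := pd_par (hM a h1 h2) hv
    refine lam_of_ST px.1 pl.1 pm.1 ?_ ?_ ?_ ?_ ?_ hz ⟨rfl, kx.1, rfl, kl.1, rfl, km.1⟩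
      ⟨(px.2 _).2.symm, kx.2 _, (pl.2 _).2.symm, kl.2 _, (pm.2 _).2.symm, km.2 _⟩
      ⟨(px.2 _).2.symm, kx.2 _, (pl.2 _).2.symm, kl.2 _, (pm.2 _).2.symm, km.2 _⟩ st
    · rw [eL _ (par_NB hv)]
      exact mul_ne_zero ha (exp_ne_zero _)
    · filter_upwards [ev_disc hv] with w hw
      exact frame_eq (dΓ a h1 h2) (dL a h1 h2) (hM a h1 h2) ha eL hw (1, 0)
    · filter_upwards [ev_disc hv] with w hw
      exact frame_eq (dΓ a h1 h2) (dL a h1 h2) (hM a h1 h2) ha eL hw (0, 1)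
    · exact Eventually.of_forall fun w => (xx_par w).symm
    · filter_upwards [ev_disc hv] with w hw
      rw [ext0, if_pos hw]

end Pool.Agent.Lib.MP_e941ef_an
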