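import Pool.Agent.Lib.MP_e941ef_an.CoreA

namespace Pool.Agent.Lib.MP_e941ef_an

open Complex Metric Set Filter Topology
open scoped ComplexConjugate ContDiff

noncomputable section

/-- The nonlinear remainder. -/
def SS (a : ℝ) (p : ℂ × ℂ) (τ : ℂ) (u : ℂ) : ℂ :=
  HH a p τ u - H0 p u - τ * (3 * (1 - bb p u))⁻¹

/-- The map whose fixed point solves the constraint. -/
def TT (a : ℝ) (z : (ℂ × ℂ) × ℂ) : ℂ :=
  -(3 * sig z.1 / 2) * (avg (rad z.1) (SS a z.1 z.2) + avg (rad z.1) (SS a z.1.swap z.2))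

end

section bounds

variable {a : ℝ} (ha : 0 < a) (hW : GoodA a) {ξ : ℂ} (hξ : ‖ξ‖ < 1) {p : ℂ × ℂ} (hp : p ∈ box ξ)
  {τ : ℂ} (hτ : ‖τ‖ < 2) {u : ℂ} (h₁ : 1 - 2 / 3 * dd ξ ≤ ‖u‖) (h₂ : ‖u‖ ≤ 1 - 1 / 3 * dd ξ)

include hξ hp h₁ h₂ in
lemma inv_gap : 0 < 1 - ‖bb p u‖ ∧ 1 / (1 - ‖bb p u‖) ≤ 20 / dd ξ ^ 2 := by
  have hb := box_bb hξ hp h₁ (le_inv_of_le hξ h₂)
  have h0 := (dd_pos hξ).1
  have h3 : 0 < dd ξ ^ 2 := by positivity
  refine ⟨by linarith, ?_⟩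
  rw [div_le_div_iff₀ (by linarith) h3]
  linarith

include hξ hp hτ h₂ in
lemma norm_phase : ‖ee p + τ + lr p u‖ ≤ 16 / dd ξ := by
  obtain ⟨h0, h1⟩ := dd_pos hξ
  have h3 := (box_ee hξ hp).1
  have h4 := box_lr hξ hp h₂
  have h5 : 2 ≤ 2 / dd ξ := by
    rw [le_div_iff₀ h0]
    linarith
  have h6 : 16 / dd ξ = 6 / dd ξ + 2 / dd ξ + 8 / dd ξ := by ring
  have := norm_add₃_le (a := ee p) (b := τ) (c := lr p u)
  linarith

include hξ hp h₁ h₂ in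
lemma norm_I0 : ‖(3 * (1 - bb p u))⁻¹‖ ≤ 7 / dd ξ ^ 2 := by
  obtain ⟨g0, g1⟩ := inv_gap hξ hp h₁ h₂
  have h0 := (dd_pos hξ).1
  have h3 : 1 - ‖bb p u‖ ≤ ‖1 - bb p u‖ := by
    have := norm_sub_norm_le (1 : ℂ) (bb p u)
    rwa [norm_one] at this
  have h4 : ‖(3 * (1 - bb p u))⁻¹‖ ≤ 1 / 3 * (1 / (1 - ‖bb p u‖)) := by
    rw [norm_inv, norm_mul, Complex.norm_ofNat, mul_inv, one_div, one_div]
    gcongr
  have h5 : 7 / dd ξ ^ 2 = 1 / 3 * (20 / dd ξ ^ 2) + 1 / 3 * (1 / dd ξ ^ 2) := by ring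
  have h6 : 0 < 1 / dd ξ ^ 2 := by positivity
  linarith

include hW hξ hp hτ h₁ h₂ in
lemma norm_HH : ‖HH a p τ u‖ ≤ 1520 / dd ξ ^ 4 := by
  obtain ⟨g0, g1⟩ := inv_gap hξ hp h₁ h₂
  obtain ⟨h0, h1⟩ := dd_pos hξ
  have hm := hW ξ hξ p hp τ hτ u h₁ (le_inv_of_le hξ h₂)
  have hI := (II_le hm).trans g1
  have hJ : ‖JJ (bb p u, cc (EE a p τ) p u)‖ ≤ 3 * (20 / dd ξ ^ 2) ^ 2 := by
    refine (JJ_le hm).trans ?_
    have : 3 / (1 - ‖bb p u‖) ^ 2 = 3 * (1 / (1 - ‖bb p u‖)) ^ 2 := by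
      field_simp
    simp only
    rw [this]
    gcongr
  have hP := norm_phase hξ hp hτ h₂
  have h3 : ‖(ee p + τ + lr p u) * II (bb p u, cc (EE a p τ) p u)‖ ≤ 16 / dd ξ * (20 / dd ξ ^ 2) := by
    rw [norm_mul]
    gcongr
  have h4 : 16 / dd ξ * (20 / dd ξ ^ 2) ≤ 320 / dd ξ ^ 4 := by
    have : 16 / dd ξ * (20 / dd ξ ^ 2) = 320 * dd ξ / dd ξ ^ 4 := by
      field_simp
      norm_num
    rw [this]
    gcongr
    linarith
  have h5 : 3 * (20 / dd ξ ^ 2) ^ 2 = 1200 / dd ξ ^ 4 := by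
    field_simp
    norm_num
  have h6 : 1520 / dd ξ ^ 4 = 320 / dd ξ ^ 4 + 1200 / dd ξ ^ 4 := by ring
  unfold HH
  refine (norm_sub_le _ _).trans ?_
  linarith

include ha hW hξ hp hτ h₁ h₂ in
lemma norm_SS : ‖SS a p τ u‖ ≤ 6 * 10 ^ 11 * (a * fl (dd ξ)) / dd ξ ^ 9 := by
  obtain ⟨g0, g1⟩ := inv_gap hξ hp h₁ h₂
  obtain ⟨h0, h1⟩ := dd_pos hξ
  have hm := hW ξ hξ p hp τ hτ u h₁ (le_inv_of_le hξ h₂)
  have hc := norm_cc ha hξ hp hτ h₁ (le_inv_of_le hξ h₂)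
  have hf : 0 ≤ a * fl (dd ξ) := mul_nonneg ha.le (Real.exp_pos _).le
  set A := a * fl (dd ξ)
  have hI : ‖II (bb p u, cc (EE a p τ) p u) - (3 * (1 - bb p u))⁻¹‖ ≤
      2000 * (432 * A / dd ξ) * (20 / dd ξ ^ 2) ^ 3 := by
    refine (II_sub_le hm).trans ?_
    have : 2000 * ‖cc (EE a p τ) p u‖ / (1 - ‖bb p u‖) ^ 3 =
        2000 * ‖cc (EE a p τ) p u‖ * (1 / (1 - ‖bb p u‖)) ^ 3 := by
      field_simp
    simp only
    rw [this]
    gcongr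
  have hJ : ‖JJ (bb p u, cc (EE a p τ) p u) + psi (bb p u)‖ ≤
      6000 * (432 * A / dd ξ) * (20 / dd ξ ^ 2) ^ 4 := by
    refine (JJ_add_le hm).trans ?_
    have : 6000 * ‖cc (EE a p τ) p u‖ / (1 - ‖bb p u‖) ^ 4 =
        6000 * ‖cc (EE a p τ) p u‖ * (1 / (1 - ‖bb p u‖)) ^ 4 := by
      field_simp
    simp only
    rw [this]
    gcongr
  have hP := norm_phase hξ hp hτ h₂
  have e : SS a p τ u = (ee p + τ + lr p u) *
      (II (bb p u, cc (EE a p τ) p u) - (3 * (1 - bb p u))⁻¹)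
      - (JJ (bb p u, cc (EE a p τ) p u) + psi (bb p u)) := by
    unfold SS HH H0
    ring
  have h3 : ‖(ee p + τ + lr p u) * (II (bb p u, cc (EE a p τ) p u) - (3 * (1 - bb p u))⁻¹)‖ ≤
      16 / dd ξ * (2000 * (432 * A / dd ξ) * (20 / dd ξ ^ 2) ^ 3) := by
    rw [norm_mul]
    gcongr
  have h4 : 16 / dd ξ * (2000 * (432 * A / dd ξ) * (20 / dd ξ ^ 2) ^ 3) ≤
      110592000000 * A / dd ξ ^ 9 := by
    have : 16 / dd ξ * (2000 * (432 * A / dd ξ) * (20 / dd ξ ^ 2) ^ 3) =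
        110592000000 * A * dd ξ / dd ξ ^ 9 := by
      field_simp
      ring
    rw [this]
    refine div_le_div_of_nonneg_right ?_ (by positivity)
    nlinarith
  have h5 : 6000 * (432 * A / dd ξ) * (20 / dd ξ ^ 2) ^ 4 = 414720000000 * A / dd ξ ^ 9 := by
    field_simp
    ring
  have h6 : 110592000000 * A / dd ξ ^ 9 + 414720000000 * A / dd ξ ^ 9 ≤
      6 * 10 ^ 11 * A / dd ξ ^ 9 := by
    rw [← add_div]
    refine div_le_div_of_nonneg_right ?_ (by positivity)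
    nlinarith
  rw [e]
  refine (norm_sub_le _ _).trans ?_
  linarith

include hW hξ hp hτ h₁ h₂ in
lemma HH_cj : HH a (cj p) (conj τ) (conj u) = conj (HH a p τ u) := by
  have hm := hW ξ hξ p hp τ hτ u h₁ (le_inv_of_le hξ h₂)
  have hN := box_subset hξ hp
  have e : (bb (cj p) (conj u), cc (EE a (cj p) (conj τ)) (cj p) (conj u)) =
      cj (bb p u, cc (EE a p τ) p u) := by
    rw [EE_cj a hN, bb_cj, cc_cj]
    rfl
  unfold HH
  rw [e, II_conj hm, JJ_conj hm, ee_conj hN, lr_conj hξ hp h₂]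
  simp only [map_add, map_sub, map_mul]

include hξ hp h₂ in
lemma H0_cj : H0 (cj p) (conj u) = conj (H0 p u) := by
  have hN := box_subset hξ hp
  unfold H0
  rw [bb_cj, psi_conj, ee_conj hN, lr_conj hξ hp h₂]
  simp only [map_add, map_sub, map_mul, map_div₀, map_one, map_ofNat]

include hW hξ hp hτ h₁ h₂ in
lemma SS_cj : SS a (cj p) (conj τ) (conj u) = conj (SS a p τ u) := by
  unfold SS
  rw [HH_cj hW hξ hp hτ h₁ h₂, H0_cj hξ hp h₂, bb_cj]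
  simp only [map_sub, map_mul, map_inv₀, map_one, map_ofNat]

end bounds

lemma SS_at {ξ : ℂ} (hξ : ‖ξ‖ < 1) {p : ℂ × ℂ} (hp : p ∈ box ξ) {a : ℝ} (hW : GoodA a) {E : Type}
    [NormedAddCommGroup E] [NormedSpace ℂ E] {f : E → ℂ × ℂ} {k g : E → ℂ} {z : E}
    (hf : DifferentiableAt ℂ f z) (hk : DifferentiableAt ℂ k z) (hg : DifferentiableAt ℂ g z)
    (e : f z = p) (hτ : ‖k z‖ < 2)
    (h₁ : 1 - 2 / 3 * dd ξ ≤ ‖g z‖) (h₂ : ‖g z‖ ≤ 1 - 1 / 3 * dd ξ) :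
    DifferentiableAt ℂ (fun z => SS a (f z) (k z) (g z)) z := by
  obtain ⟨i1, i2⟩ := H0_at hξ hp hf hg e h₁ h₂
  unfold SS
  exact ((HH_at hξ hp hW hf hk hg e hτ h₁ h₂).sub i2).sub (hk.mul i1)

lemma sig_diff : DifferentiableOn ℂ sig NB := by
  rintro p ⟨ξ, hξ, hp⟩
  have h := (box_den hξ hp).1
  have h0 : den p ≠ 0 := fun h1 => by
    rw [h1, norm_zero] at h
    linarith
  refine DifferentiableAt.differentiableWithinAt ?_
  unfold sig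
  exact diff_div (by fun_prop) (by unfold den; fun_prop) h0

lemma TT_diff {a : ℝ} (hW : GoodA a) : DifferentiableOn ℂ (TT a) (NB ×ˢ ball 0 2) := by
  have h1 := avg_holo (Φ := fun z => SS a z.1.1 z.1.2 z.2) fun ξ hξ z hp hτ h₁ h₂ =>
    SS_at hξ hp hW (by fun_prop) (by fun_prop) (by fun_prop) rfl hτ h₁ h₂
  have h2 := avg_holo (Φ := fun z => SS a z.1.1.swap z.1.2 z.2) fun ξ hξ z hp hτ h₁ h₂ =>
    SS_at (norm_conj_lt hξ) (swap_mem_box hp) hW (f := fun z : ((ℂ × ℂ) × ℂ) × ℂ => z.1.1.swap)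
      (differentiableAt_fst.fst.snd.prodMk differentiableAt_fst.fst.fst) (by fun_prop)
      (by fun_prop) rfl hτ (by rwa [dd_conj]) (by rwa [dd_conj])
  have h3 : DifferentiableOn ℂ (fun z : (ℂ × ℂ) × ℂ => sig z.1) (NB ×ˢ ball 0 2) :=
    sig_diff.comp differentiableOn_fst fun z hz => hz.1
  have h4 : DifferentiableOn ℂ (fun z : (ℂ × ℂ) × ℂ => -(3 * sig z.1 / 2)) (NB ×ˢ ball 0 2) := by
    simp only [div_eq_mul_inv]
    exact ((h3.const_mul 3).mul_const _).neg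
  exact h4.mul (h1.add h2)

lemma m1_diff {a : ℝ} (hW : GoodA a) :
    DifferentiableOn ℂ (fun z : (ℂ × ℂ) × ℂ => m1 a z.1 z.2) (NB ×ˢ ball 0 2) := by
  have h1 := avg_holo (Φ := fun z => HH a z.1.1 z.1.2 z.2 / z.2) fun ξ hξ z hp hτ h₁ h₂ =>
    diff_div (HH_at hξ hp hW (by fun_prop) (by fun_prop) (by fun_prop) rfl hτ h₁ h₂) (by fun_prop)
      (ne_zero_of_le hξ h₁)
  have h2 := avg_holo (Φ := fun z => z.2 * HH a z.1.1.swap z.1.2 z.2) fun ξ hξ z hp hτ h₁ h₂ =>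
    differentiableAt_snd.mul (HH_at (norm_conj_lt hξ) (swap_mem_box hp) hW
      (f := fun z : ((ℂ × ℂ) × ℂ) × ℂ => z.1.1.swap)
      (differentiableAt_fst.fst.snd.prodMk differentiableAt_fst.fst.fst) (by fun_prop)
      (by fun_prop) rfl hτ (by rwa [dd_conj]) (by rwa [dd_conj]))
  exact h1.neg.sub h2

lemma m10_diff : DifferentiableOn ℂ m10 NB := by
  have h1 := avg_holo (Φ := fun z => H0 z.1.1 z.2 / z.2) fun ξ hξ z hp hτ h₁ h₂ =>
    diff_div (H0_at hξ hp (f := fun z : ((ℂ × ℂ) × ℂ) × ℂ => z.1.1) (g := fun z => z.2)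
      (by fun_prop) (by fun_prop) rfl h₁ h₂).2 (by fun_prop) (ne_zero_of_le hξ h₁)
  have h2 := avg_holo (Φ := fun z => z.2 * H0 z.1.1.swap z.2) fun ξ hξ z hp hτ h₁ h₂ =>
    differentiableAt_snd.mul (H0_at (norm_conj_lt hξ) (swap_mem_box hp)
      (f := fun z : ((ℂ × ℂ) × ℂ) × ℂ => z.1.1.swap)
      (differentiableAt_fst.fst.snd.prodMk differentiableAt_fst.fst.fst)
      (by fun_prop) rfl (by rwa [dd_conj]) (by rwa [dd_conj])).2
  exact (h1.neg.sub h2).comp (f := fun p : ℂ × ℂ => (p, (0 : ℂ))) (by fun_prop)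
    fun p hp => ⟨hp, mem_ball_self two_pos⟩

section avgs

variable {a : ℝ} (ha : 0 < a) (hW : GoodA a) {ξ : ℂ} (hξ : ‖ξ‖ < 1) {p : ℂ × ℂ} (hp : p ∈ box ξ)
  {τ : ℂ} (hτ : ‖τ‖ < 2)

include hξ hp in
lemma on_rad {u : ℂ} (hu : ‖u‖ = rad p) : 1 - 2 / 3 * dd ξ ≤ ‖u‖ ∧ ‖u‖ ≤ 1 - 1 / 3 * dd ξ := by
  rw [hu]
  exact box_rad hξ hp

include hξ hp in
lemma cont_rad {f : ℂ → ℂ}
    (hf : ∀ u : ℂ, 1 - 2 / 3 * dd ξ ≤ ‖u‖ → ‖u‖ ≤ 1 - 1 / 3 * dd ξ → DifferentiableAt ℂ f u) :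
    ContinuousOn f (sphere 0 (rad p)) := fun u hu =>
  have h := on_rad hξ hp (mem_sphere_zero_iff_norm.1 hu)
  (hf u h.1 h.2).continuousAt.continuousWithinAt

include hW hξ hp hτ in
lemma avg_HH : avg (rad p) (HH a p τ) = avg (rad p) (SS a p τ) + τ * (3 * sig p)⁻¹ := by
  obtain ⟨r1, r2⟩ := box_rad hξ hp
  have c1 : ContinuousOn (SS a p τ) (sphere 0 (rad p)) := cont_rad hξ hp fun u h₁ h₂ =>
    SS_at hξ hp hW (f := fun _ => p) (k := fun _ => τ) (g := fun u => u) (by fun_prop)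
      (by fun_prop) (by fun_prop) rfl hτ h₁ h₂
  have c2 : ContinuousOn (H0 p) (sphere 0 (rad p)) := cont_rad hξ hp fun u h₁ h₂ =>
    (H0_at hξ hp (f := fun _ => p) (g := fun u => u) (by fun_prop) (by fun_prop) rfl h₁ h₂).2
  have c3 : ContinuousOn (fun u => τ * (3 * (1 - bb p u))⁻¹) (sphere 0 (rad p)) :=
    cont_rad hξ hp fun u h₁ h₂ => (H0_at hξ hp (f := fun _ => p) (g := fun u => u) (by fun_prop)
      (by fun_prop) rfl h₁ h₂).1.const_mul τ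
  have e : HH a p τ = fun u => (SS a p τ u + H0 p u) + τ * (3 * (1 - bb p u))⁻¹ := by
    funext u
    unfold SS
    ring
  rw [e, avg_add (f := fun u => SS a p τ u + H0 p u) (rad_pos p) (c1.add c2) c3, avg_add (rad_pos p) c1 c2, avg_const_mul,
    avg_I0 hξ hp r1 r2, avg_H0 hξ hp r1 r2, add_zero]

include ha hW hξ hp hτ in
lemma norm_avg_SS : ‖avg (rad p) (SS a p τ)‖ ≤ 6 * 10 ^ 11 * (a * fl (dd ξ)) / dd ξ ^ 9 :=
  norm_avg_le (rad_pos p) fun _ hu =>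
    norm_SS ha hW hξ hp hτ (on_rad hξ hp hu).1 (on_rad hξ hp hu).2

include ha hW hξ hp hτ in
lemma norm_TT : ‖TT a (p, τ)‖ ≤ 36 * 10 ^ 11 * (a * fl (dd ξ)) / dd ξ ^ 8 := by
  obtain ⟨h0, h1⟩ := dd_pos hξ
  have h2 := norm_avg_SS ha hW hξ hp hτ
  have h3 := norm_avg_SS ha hW (norm_conj_lt hξ) (swap_mem_box hp) hτ
  rw [rad_swap, dd_conj] at h3
  have h4 := (box_sig hξ hp).2.2
  have hf : 0 ≤ a * fl (dd ξ) := mul_nonneg ha.le (Real.exp_pos _).le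
  have h5 : ‖-(3 * sig p / 2)‖ ≤ 3 * dd ξ := by
    rw [norm_neg, norm_div, norm_mul, Complex.norm_ofNat, Complex.norm_ofNat]
    linarith
  have h6 := (norm_add_le _ _).trans (add_le_add h2 h3)
  unfold TT
  rw [norm_mul]
  refine (mul_le_mul h5 h6 (norm_nonneg _) (by positivity)).trans (le_of_eq ?_)
  field_simp
  ring

include hW hξ hp hτ in
lemma avg_SS_cj : avg (rad p) (SS a (cj p) (conj τ)) = conj (avg (rad p) (SS a p τ)) := by
  rw [avg_conj]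
  refine avg_congr (rad_pos p) fun u hu => ?_
  have h := on_rad hξ hp (u := conj u) (by rwa [norm_conj])
  rw [← SS_cj hW hξ hp hτ h.1 h.2, conj_conj]

include hW hξ hp hτ in
lemma TT_cj : TT a (cj p, conj τ) = conj (TT a (p, τ)) := by
  have h1 := avg_SS_cj hW hξ hp hτ
  have h2 := avg_SS_cj hW (norm_conj_lt hξ) (swap_mem_box hp) hτ
  rw [rad_swap] at h2
  unfold TT
  simp only [rad_cj, cj_swap, h1, h2, sig_cj, map_add, map_mul, map_neg, map_div₀, map_ofNat]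

include hW hξ hp hτ in
lemma m1_cj : m1 a (cj p) (conj τ) = conj (m1 a p τ) := by
  have h1 : avg (rad p) (fun u => HH a (cj p) (conj τ) u / u) =
      conj (avg (rad p) (fun u => HH a p τ u / u)) := by
    rw [avg_conj]
    refine avg_congr (rad_pos p) fun u hu => ?_
    have h := on_rad hξ hp (u := conj u) (by rwa [norm_conj])
    rw [map_div₀, ← HH_cj hW hξ hp hτ h.1 h.2, conj_conj]
  have h2 : avg (rad p) (fun u => u * HH a (cj p.swap) (conj τ) u) =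
      conj (avg (rad p) (fun u => u * HH a p.swap τ u)) := by
    rw [avg_conj]
    refine avg_congr (rad_pos p) fun u hu => ?_
    have h := on_rad hξ hp (u := conj u) (by rwa [norm_conj])
    rw [map_mul, ← HH_cj hW (norm_conj_lt hξ) (swap_mem_box hp) hτ (by rw [dd_conj]; exact h.1)
      (by rw [dd_conj]; exact h.2), conj_conj]
  unfold m1
  rw [rad_cj, cj_swap, h1, h2, map_sub, map_neg]

include hξ hp in
lemma norm_pair {f g : ℂ → ℂ} {C : ℝ}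
    (hf : ∀ u : ℂ, 1 - 2 / 3 * dd ξ ≤ ‖u‖ → ‖u‖ ≤ 1 - 1 / 3 * dd ξ → ‖f u‖ ≤ C)
    (hg : ∀ u : ℂ, 1 - 2 / 3 * dd ξ ≤ ‖u‖ → ‖u‖ ≤ 1 - 1 / 3 * dd ξ → ‖g u‖ ≤ C) :
    ‖-avg (rad p) (fun u => f u / u) - avg (rad p) (fun u => u * g u)‖ ≤ 4 * C := by
  obtain ⟨h0, h1⟩ := dd_pos hξ
  have h2 : ‖avg (rad p) (fun u => f u / u)‖ ≤ 3 * C := norm_avg_le (rad_pos p) fun u hu => by
    obtain ⟨r1, r2⟩ := on_rad hξ hp hu
    have := hf u r1 r2
    have h3 := norm_nonneg (f u)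
    rw [norm_div, div_le_iff₀ (by linarith)]
    nlinarith
  have h3 : ‖avg (rad p) (fun u => u * g u)‖ ≤ C := norm_avg_le (rad_pos p) fun u hu => by
    obtain ⟨r1, r2⟩ := on_rad hξ hp hu
    have := hg u r1 r2
    have h3 := norm_nonneg (g u)
    rw [norm_mul]
    nlinarith
  refine (norm_sub_le _ _).trans ?_
  rw [norm_neg]
  linarith

include hW hξ hp hτ in
lemma m1_sub : m1 a p τ - m10 p = -avg (rad p) (fun u => (HH a p τ u - H0 p u) / u)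
    - avg (rad p) (fun u => u * (HH a p.swap τ u - H0 p.swap u)) := by
  have hξ' := norm_conj_lt hξ
  have hp' := swap_mem_box hp
  have c1 : ContinuousOn (fun u => HH a p τ u / u) (sphere 0 (rad p)) :=
    cont_rad hξ hp fun u h₁ h₂ => diff_div (HH_at hξ hp hW (f := fun _ => p) (k := fun _ => τ)
      (g := fun u => u) (by fun_prop) (by fun_prop) (by fun_prop) rfl hτ h₁ h₂) (by fun_prop)
      (ne_zero_of_le hξ h₁)
  have c2 : ContinuousOn (fun u => H0 p u / u) (sphere 0 (rad p)) :=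
    cont_rad hξ hp fun u h₁ h₂ => diff_div (H0_at hξ hp (f := fun _ => p)
      (g := fun u => u) (by fun_prop) (by fun_prop) rfl h₁ h₂).2 (by fun_prop)
      (ne_zero_of_le hξ h₁)
  have c3 : ContinuousOn (fun u => u * HH a p.swap τ u) (sphere 0 (rad p)) :=
    cont_rad hξ hp fun u h₁ h₂ => differentiableAt_id.mul (HH_at hξ' hp' hW (f := fun _ => p.swap)
      (k := fun _ => τ) (g := fun u => u) (by fun_prop) (by fun_prop) (by fun_prop) rfl hτ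
      (by rwa [dd_conj]) (by rwa [dd_conj]))
  have c4 : ContinuousOn (fun u => u * H0 p.swap u) (sphere 0 (rad p)) :=
    cont_rad hξ hp fun u h₁ h₂ => differentiableAt_id.mul (H0_at hξ' hp' (f := fun _ => p.swap)
      (g := fun u => u) (by fun_prop) (by fun_prop) rfl (by rwa [dd_conj]) (by rwa [dd_conj])).2
  simp only [sub_div, mul_sub]
  rw [avg_sub (rad_pos p) c1 c2, avg_sub (rad_pos p) c3 c4]
  unfold m1 m10
  ring

include ha hW hξ hp hτ in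
lemma norm_HH_sub (hb : ‖τ‖ ≤ 36 * 10 ^ 11 * (a * fl (dd ξ)) / dd ξ ^ 8) {u : ℂ}
    (h₁ : 1 - 2 / 3 * dd ξ ≤ ‖u‖) (h₂ : ‖u‖ ≤ 1 - 1 / 3 * dd ξ) :
    ‖HH a p τ u - H0 p u‖ ≤ 258 * 10 ^ 11 * (a * fl (dd ξ)) / dd ξ ^ 10 := by
  obtain ⟨h0, h1⟩ := dd_pos hξ
  have hf : 0 ≤ a * fl (dd ξ) := mul_nonneg ha.le (Real.exp_pos _).le
  have h3 := norm_SS ha hW hξ hp hτ h₁ h₂
  have h4 := norm_I0 hξ hp h₁ h₂
  set A := a * fl (dd ξ)
  have e : HH a p τ u - H0 p u = SS a p τ u + τ * (3 * (1 - bb p u))⁻¹ := by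
    unfold SS
    ring
  have h5 : ‖τ * (3 * (1 - bb p u))⁻¹‖ ≤ 252 * 10 ^ 11 * A / dd ξ ^ 10 := by
    rw [norm_mul]
    refine (mul_le_mul hb h4 (norm_nonneg _) (by positivity)).trans (le_of_eq ?_)
    field_simp
    ring
  have h6 : 6 * 10 ^ 11 * A / dd ξ ^ 9 ≤ 6 * 10 ^ 11 * A / dd ξ ^ 10 :=
    div_le_div_of_nonneg_left (by positivity) (by positivity)
      (pow_le_pow_of_le_one h0.le h1 (by norm_num))
  have h7 : 258 * 10 ^ 11 * A / dd ξ ^ 10 =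
      6 * 10 ^ 11 * A / dd ξ ^ 10 + 252 * 10 ^ 11 * A / dd ξ ^ 10 := by ring
  rw [e]
  refine (norm_add_le _ _).trans ?_
  linarith

end avgs

lemma TT_swap (a : ℝ) (p : ℂ × ℂ) (τ : ℂ) : TT a (p.swap, τ) = TT a (p, τ) := by
  unfold TT
  simp only [rad_swap, sig_swap, Prod.swap_swap]
  ring

lemma div_pow_mono {d A B : ℝ} (h0 : 0 < d) (h1 : d ≤ 1) (hA : 0 ≤ A) (hAB : A ≤ B) {m n : ℕ}
    (h : m ≤ n) : A / d ^ m ≤ B / d ^ n :=
  div_le_div₀ (hA.trans hAB) hAB (by positivity) (pow_le_pow_of_le_one h0.le h1 h)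

/-- The solution of the constraint and the bounds on it. -/
theorem core_tau : ∃ a₀ K : ℝ, 0 < a₀ ∧ 0 < K ∧ ∀ a : ℝ, 0 < a → a ≤ a₀ →
    (∀ ξ : ℂ, ‖ξ‖ < 1 → ∀ p ∈ box ξ, ∀ τ : ℂ, ‖τ‖ < 2 → ∀ u : ℂ, 1 - 2 / 3 * dd ξ ≤ ‖u‖ →
      ‖u‖ ≤ (1 - 2 / 3 * dd ξ)⁻¹ → (bb p u, cc (EE a p τ) p u) ∈ WW) ∧
    ∃ τ : ℂ × ℂ → ℂ, DifferentiableOn ℂ τ NB ∧
      DifferentiableOn ℂ (fun p => m1 a p (τ p)) NB ∧ DifferentiableOn ℂ m10 NB ∧
      (∀ p ∈ NB, τ p.swap = τ p ∧ τ (cj p) = conj (τ p) ∧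
        m1 a (cj p) (τ (cj p)) = conj (m1 a p (τ p))) ∧
      ∀ ξ : ℂ, ‖ξ‖ < 1 → ∀ p ∈ box ξ,
        avg (rad p) (HH a p (τ p)) + avg (rad p) (HH a p.swap (τ p)) = 0 ∧ ‖τ p‖ ≤ 1 ∧
        ‖τ p‖ ≤ K * a * fl (dd ξ) / dd ξ ^ 12 ∧ ‖m1 a p (τ p)‖ ≤ K / dd ξ ^ 12 ∧
        ‖m1 a p (τ p) - m10 p‖ ≤ K * a * fl (dd ξ) / dd ξ ^ 12 := by
  obtain ⟨a₁, ha₁, hG⟩ := exists_goodA
  obtain ⟨C, hC, hfl⟩ := fl_le 8
  refine ⟨min a₁ (1 / (144 * 10 ^ 11 * C)), 1032 * 10 ^ 11, lt_min ha₁ (by positivity),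
    by positivity, fun a ha ha₀ => ?_⟩
  have hW : GoodA a := hG a ha (ha₀.trans (min_le_left _ _))
  have ha₂ : a ≤ 1 / (144 * 10 ^ 11 * C) := ha₀.trans (min_le_right _ _)
  refine ⟨hW, ?_⟩
  obtain ⟨τ, hτd, hτ⟩ := holo_fix (T := TT a) isOpen_NB (ρ := 1) one_pos
    (by rw [mul_one]; exact TT_diff hW) (by
      rintro p ⟨ξ, hξ, hp⟩ s hs
      rw [mul_one, mem_ball_zero_iff] at hs
      obtain ⟨h0, h1⟩ := dd_pos hξ
      refine (norm_TT ha hW hξ hp hs).trans ?_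
      rw [div_le_iff₀ (by positivity)]
      have h2 := hfl _ h0 h1
      have h3 : a * fl (dd ξ) ≤ 1 / (144 * 10 ^ 11 * C) * (C * dd ξ ^ 8) := by
        have : 0 ≤ fl (dd ξ) := (Real.exp_pos _).le
        gcongr
      have h4 : 1 / (144 * 10 ^ 11 * C) * (C * dd ξ ^ 8) = dd ξ ^ 8 / (144 * 10 ^ 11) := by
        field_simp
      linarith)
  have hlt : ∀ p ∈ NB, ‖τ p‖ < 2 := fun p hp => by linarith [(hτ p hp).2.1]
  have hcj : ∀ p ∈ NB, τ (cj p) = conj (τ p) := by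
    rintro p ⟨ξ, hξ, hp⟩
    have hN := box_subset hξ hp
    refine ((hτ _ (cj_mem_NB hN)).2.2 _ (by rw [norm_conj]; linarith [(hτ p hN).2.1]) ?_).symm
    rw [TT_cj hW hξ hp (hlt p hN), (hτ p hN).1]
  refine ⟨τ, hτd, ?_, m10_diff, fun p hN => ⟨?_, hcj p hN, ?_⟩, fun ξ hξ p hp => ?_⟩
  · exact (m1_diff hW).comp (f := fun p => (p, τ p)) (differentiableOn_id.prodMk hτd)
      fun p hp => ⟨hp, mem_ball_zero_iff.2 (hlt p hp)⟩
  · refine (hτ p hN).2.2 _ (by linarith [(hτ _ (swap_mem_NB hN)).2.1]) ?_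
    rw [← TT_swap, (hτ _ (swap_mem_NB hN)).1]
  · obtain ⟨ξ, hξ, hp⟩ := hN
    rw [hcj p (box_subset hξ hp), m1_cj hW hξ hp (hlt p (box_subset hξ hp))]
  · have hN := box_subset hξ hp
    obtain ⟨h0, h1⟩ := dd_pos hξ
    have hξ' := norm_conj_lt hξ
    have hp' := swap_mem_box hp
    have hf : 0 ≤ a * fl (dd ξ) := mul_nonneg ha.le (Real.exp_pos _).le
    have hb : ‖τ p‖ ≤ 36 * 10 ^ 11 * (a * fl (dd ξ)) / dd ξ ^ 8 := by
      rw [← (hτ p hN).1]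
      exact norm_TT ha hW hξ hp (hlt p hN)
    refine ⟨?_, by linarith [(hτ p hN).2.1], ?_, ?_, ?_⟩
    · have e1 := avg_HH hW hξ hp (hlt p hN)
      have e2 := avg_HH hW hξ' hp' (hlt p hN)
      rw [rad_swap, sig_swap] at e2
      have e3 := (hτ p hN).1
      have hs : sig p ≠ 0 := fun h => by
        have := (box_sig hξ hp).1
        rw [h, zero_re] at this
        exact lt_irrefl _ this
      unfold TT at e3
      simp only at e3
      rw [e1, e2]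
      have e4 : τ p * (3 * sig p)⁻¹ = -(1 / 2) *
          (avg (rad p) (SS a p (τ p)) + avg (rad p) (SS a p.swap (τ p))) := by
        rw [mul_inv_eq_iff_eq_mul₀ (mul_ne_zero three_ne_zero hs)]
        linear_combination -e3
      linear_combination 2 * e4
    · rw [mul_assoc]
      exact hb.trans (div_pow_mono h0 h1 (by positivity) (by nlinarith) (by norm_num))
    · refine (norm_pair hξ hp (f := HH a p (τ p)) (g := HH a p.swap (τ p)) (C := 1520 / dd ξ ^ 4)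
        (fun u h₁ h₂ => norm_HH hW hξ hp (hlt p hN) h₁ h₂) fun u h₁ h₂ => ?_).trans ?_
      · have := norm_HH hW hξ' hp' (hlt p hN) (u := u) (by rwa [dd_conj]) (by rwa [dd_conj])
        rwa [dd_conj] at this
      · rw [← mul_div_assoc]
        exact div_pow_mono h0 h1 (by norm_num) (by norm_num) (by norm_num)
    · rw [m1_sub hW hξ hp (hlt p hN)]
      refine (norm_pair hξ hp (f := fun u => HH a p (τ p) u - H0 p u)
        (g := fun u => HH a p.swap (τ p) u - H0 p.swap u)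
        (C := 258 * 10 ^ 11 * (a * fl (dd ξ)) / dd ξ ^ 10)
        (fun u h₁ h₂ => norm_HH_sub ha hW hξ hp (hlt p hN) hb h₁ h₂) fun u h₁ h₂ => ?_).trans ?_
      · have := norm_HH_sub ha hW hξ' hp' (hlt p hN) (by rwa [dd_conj]) (u := u)
          (by rwa [dd_conj]) (by rwa [dd_conj])
        rwa [dd_conj] at this
      · rw [← mul_div_assoc, mul_assoc (1032 * 10 ^ 11)]
        exact div_pow_mono h0 h1 (by positivity) (by nlinarith) (by norm_num)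

end Pool.Agent.Lib.MP_e941ef_an
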