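import Pool.Agent.Lib.MP_e941ef_an.Mu

namespace Pool.Agent.Lib.MP_e941ef_an

open Complex Metric Set Filter Topology
open scoped ComplexConjugate ContDiff

theorem isOpen_WX : IsOpen WX := by
  have h1 : IsOpen {z : ℂ × ℂ | ‖z.2‖ < 1} := isOpen_lt (by fun_prop) (by fun_prop)
  have h2 : IsOpen {z : ℂ × ℂ | ‖z.1 - 1‖ < (1 - ‖z.2‖) / 100} :=
    isOpen_lt (by fun_prop) (by fun_prop)
  exact h1.inter h2

theorem WX_norm_le {z : ℂ × ℂ} (hz : z ∈ WX) : ‖z.1‖ ≤ 101 / 100 := by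
  have h1 := hz.2
  have h2 := norm_nonneg z.2
  have : ‖z.1‖ - ‖(1 : ℂ)‖ ≤ ‖z.1 - 1‖ := norm_sub_norm_le _ _
  rw [norm_one] at this
  linarith

theorem WX_norm_ge {z : ℂ × ℂ} (hz : z ∈ WX) : 99 / 100 ≤ ‖z.1‖ := by
  have h1 := hz.2
  have h2 := norm_nonneg z.2
  have h3 : ‖(1 : ℂ)‖ - ‖z.1‖ ≤ ‖1 - z.1‖ := norm_sub_norm_le _ _
  rw [norm_one, norm_sub_rev] at h3
  linarith

theorem WX_ne {z : ℂ × ℂ} (hz : z ∈ WX) : z.1 ≠ 0 := by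
  have := WX_norm_ge hz
  intro h
  rw [h, norm_zero] at this
  norm_num at this

theorem NN_ge {z : ℂ × ℂ} (hz : z ∈ WX) : 29 / 10 * (1 - ‖z.2‖) ≤ ‖NN z.1 z.2‖ := by
  obtain ⟨ν, β⟩ := z
  have h1 : ‖ν‖ ≤ 101 / 100 := WX_norm_le hz
  have h2 : ‖β‖ < 1 := hz.1
  have h3 : ‖ν - 1‖ < (1 - ‖β‖) / 100 := hz.2
  have e : NN ν β = 3 * (1 - β)
      + (ν - 1) * (ν + 2 - 3 / 5 * β * (ν ^ 3 + 2 * ν ^ 2 + 3 * ν + 4)) := by
    unfold NN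
    ring
  have h4 : ‖ν + 2‖ ≤ 101 / 100 + 2 := by
    calc ‖ν + 2‖ ≤ ‖ν‖ + ‖(2 : ℂ)‖ := norm_add_le _ _
      _ ≤ _ := by simpa using h1
  have h5 : ‖ν ^ 3 + 2 * ν ^ 2 + 3 * ν + 4‖ ≤ (101 / 100) ^ 3 + 2 * (101 / 100) ^ 2
      + 3 * (101 / 100) + 4 := by
    calc ‖ν ^ 3 + 2 * ν ^ 2 + 3 * ν + 4‖
        ≤ ‖ν ^ 3‖ + ‖2 * ν ^ 2‖ + ‖3 * ν‖ + ‖(4 : ℂ)‖ := by
          refine (norm_add_le _ _).trans ?_
          gcongr
          refine (norm_add_le _ _).trans ?_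
          gcongr
          exact norm_add_le _ _
      _ = ‖ν‖ ^ 3 + 2 * ‖ν‖ ^ 2 + 3 * ‖ν‖ + 4 := by simp
      _ ≤ _ := by gcongr
  have h6 : ‖3 / 5 * β * (ν ^ 3 + 2 * ν ^ 2 + 3 * ν + 4)‖ ≤ 3 / 5 * 1 * ((101 / 100) ^ 3
      + 2 * (101 / 100) ^ 2 + 3 * (101 / 100) + 4) := by
    rw [norm_mul, norm_mul]
    have : ‖(3 / 5 : ℂ)‖ = 3 / 5 := by simp
    rw [this]
    gcongr
  have h7 : ‖ν + 2 - 3 / 5 * β * (ν ^ 3 + 2 * ν ^ 2 + 3 * ν + 4)‖ ≤ 10 := by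
    refine (norm_sub_le _ _).trans ?_
    linarith
  have h8 : ‖(ν - 1) * (ν + 2 - 3 / 5 * β * (ν ^ 3 + 2 * ν ^ 2 + 3 * ν + 4))‖
      ≤ (1 - ‖β‖) / 100 * 10 := by
    rw [norm_mul]
    have : 0 ≤ (1 - ‖β‖) / 100 := by linarith
    gcongr
  have h9 : 3 * (1 - ‖β‖) ≤ ‖3 * (1 - β)‖ := by
    rw [norm_mul]
    have := one_sub_norm_le β
    simp only [Complex.norm_ofNat]
    linarith
  have h10 := norm_sub_norm_le (3 * (1 - β))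
    (-((ν - 1) * (ν + 2 - 3 / 5 * β * (ν ^ 3 + 2 * ν ^ 2 + 3 * ν + 4))))
  rw [norm_neg, sub_neg_eq_add] at h10
  simp only
  rw [e]
  linarith

theorem NN_ne {z : ℂ × ℂ} (hz : z ∈ WX) : NN z.1 z.2 ≠ 0 := by
  have h1 := NN_ge hz
  have h2 := hz.1
  intro h
  rw [h, norm_zero] at h1
  linarith

theorem Iint_le {z : ℂ × ℂ} (hz : z ∈ WX) : ‖Iint z.1 z.2‖ ≤ 11 / (1 - ‖z.2‖) := by
  have h1 := WX_norm_le hz
  have h2 := WX_norm_ge hz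
  have h3 := NN_ge hz
  have h4 := hz.1
  have h0 := norm_nonneg z.2
  have hp : 0 < 1 - ‖z.2‖ := by linarith
  have a1 : ‖4 / z.1‖ ≤ 41 / 10 / (1 - ‖z.2‖) := by
    rw [norm_div]
    simp only [Complex.norm_ofNat]
    rw [div_le_div_iff₀ (by linarith) hp]
    nlinarith
  have a2 : ‖z.1 + 1‖ ≤ 101 / 100 + 1 := by
    calc ‖z.1 + 1‖ ≤ ‖z.1‖ + ‖(1 : ℂ)‖ := norm_add_le _ _
      _ ≤ _ := by simpa using h1
  have a3 : ‖z.1 ^ 2 + 1‖ ≤ (101 / 100) ^ 2 + 1 := by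
    calc ‖z.1 ^ 2 + 1‖ ≤ ‖z.1 ^ 2‖ + ‖(1 : ℂ)‖ := norm_add_le _ _
      _ = ‖z.1‖ ^ 2 + 1 := by simp
      _ ≤ _ := by gcongr
  have a4 : ‖1 - z.2 * (z.1 ^ 2 + 1)‖ ≤ 1 + 1 * ((101 / 100) ^ 2 + 1) := by
    calc ‖1 - z.2 * (z.1 ^ 2 + 1)‖ ≤ ‖(1 : ℂ)‖ + ‖z.2 * (z.1 ^ 2 + 1)‖ := norm_sub_le _ _
      _ = 1 + ‖z.2‖ * ‖z.1 ^ 2 + 1‖ := by simp
      _ ≤ _ := by gcongr
  have a5 : ‖3 * (z.1 + 1) * (1 - z.2 * (z.1 ^ 2 + 1))‖
      ≤ 3 * (101 / 100 + 1) * (1 + 1 * ((101 / 100) ^ 2 + 1)) := by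
    rw [norm_mul, norm_mul]
    simp only [Complex.norm_ofNat]
    gcongr
  have a6 : ‖3 * (z.1 + 1) * (1 - z.2 * (z.1 ^ 2 + 1)) / NN z.1 z.2‖ ≤ 69 / 10 / (1 - ‖z.2‖) := by
    rw [norm_div, div_le_div_iff₀ (by linarith) hp]
    nlinarith
  unfold Iint
  refine (norm_sub_le _ _).trans ?_
  have : 41 / 10 / (1 - ‖z.2‖) + 69 / 10 / (1 - ‖z.2‖) = 11 / (1 - ‖z.2‖) := by ring
  linarith

theorem Iint_diffAt {z : ℂ × ℂ} (hz : z ∈ WX) :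
    DifferentiableAt ℂ (fun w : ℂ × ℂ => Iint w.1 w.2) z := by
  have h1 := WX_ne hz
  have h2 := NN_ne hz
  unfold Iint
  unfold NN at h2 ⊢
  fun_prop (disch := assumption)

theorem seg_mem_WX {z : ℂ × ℂ} (hz : z ∈ WX) {t : ℝ} (ht : t ∈ uIcc (0 : ℝ) 1) :
    (1 + (t : ℂ) * (z.1 - 1), z.2) ∈ WX := by
  rw [uIcc_of_le zero_le_one] at ht
  refine ⟨hz.1, ?_⟩
  simp only [add_sub_cancel_left, norm_mul, Complex.norm_real, Real.norm_eq_abs,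
    abs_of_nonneg ht.1]
  have h1 := hz.2
  have h2 := norm_nonneg (z.1 - 1)
  nlinarith [ht.2]

theorem XiT_diff : DifferentiableOn ℂ XiT WX := by
  have hc : Continuous fun q : (ℂ × ℂ) × ℂ => ((1 + q.2 * (q.1.1 - 1), q.1.2) : ℂ × ℂ) := by
    fun_prop
  have hW : IsOpen {q : (ℂ × ℂ) × ℂ | (1 + q.2 * (q.1.1 - 1), q.1.2) ∈ WX} :=
    isOpen_WX.preimage hc
  have hΦ : DifferentiableOn ℂ
      (fun q : (ℂ × ℂ) × ℂ => (q.1.1 - 1) * Iint (1 + q.2 * (q.1.1 - 1)) q.1.2)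
      {q : (ℂ × ℂ) × ℂ | (1 + q.2 * (q.1.1 - 1), q.1.2) ∈ WX} := by
    intro q hq
    apply DifferentiableAt.differentiableWithinAt
    have h1 : DifferentiableAt ℂ
        (fun q : (ℂ × ℂ) × ℂ => ((1 + q.2 * (q.1.1 - 1), q.1.2) : ℂ × ℂ)) q := by fun_prop
    have h2 := (Iint_diffAt hq).comp q h1
    have h3 : DifferentiableAt ℂ (fun q : (ℂ × ℂ) × ℂ => q.1.1 - 1) q := by fun_prop
    exact h3.mul h2
  exact holo_integral hW hΦ (γ := fun t : ℝ => (t : ℂ)) continuous_ofReal isOpen_WX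
    (a := 0) (b := 1) fun p hp t ht => seg_mem_WX hp ht

theorem XiT_fderiv {z : ℂ × ℂ} (hz : z ∈ WX) : fderiv ℂ XiT z (1, 0) = Iint z.1 z.2 := by
  obtain ⟨ν, β⟩ := z
  have hβ : ‖β‖ < 1 := hz.1
  have hmem : ∀ w ∈ ball (1 : ℂ) ((1 - ‖β‖) / 100), (w, β) ∈ WX := fun w hw =>
    ⟨hβ, by simpa [dist_eq_norm] using hw⟩
  have hd : DifferentiableOn ℂ (fun w => Iint w β) (ball (1 : ℂ) ((1 - ‖β‖) / 100)) := by
    intro w hw
    have h1 : DifferentiableAt ℂ (fun w : ℂ => ((w, β) : ℂ × ℂ)) w := by fun_prop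
    exact ((Iint_diffAt (hmem w hw)).comp w h1).differentiableWithinAt
  obtain ⟨g, hg⟩ := hd.isExactOn_ball
  have hν : ν ∈ ball (1 : ℂ) ((1 - ‖β‖) / 100) := by simpa [dist_eq_norm] using hz.2
  have key : ∀ w ∈ ball (1 : ℂ) ((1 - ‖β‖) / 100), XiT (w, β) = g w - g 1 := by
    intro w hw
    have hseg : ∀ t ∈ uIcc (0 : ℝ) 1, 1 + (t : ℂ) * (w - 1) ∈ ball (1 : ℂ) ((1 - ‖β‖) / 100) := by
      intro t ht
      simpa [dist_eq_norm] using (seg_mem_WX (hmem w hw) ht).2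
    have hder : ∀ t ∈ uIcc (0 : ℝ) 1, HasDerivAt (fun s : ℝ => g (1 + (s : ℂ) * (w - 1)))
        ((w - 1) * Iint (1 + (t : ℂ) * (w - 1)) β) t := by
      intro t ht
      have h1 : HasDerivAt (fun s : ℂ => 1 + s * (w - 1)) (w - 1) (t : ℂ) := by
        simpa using ((hasDerivAt_id (t : ℂ)).mul_const (w - 1)).const_add 1
      have h2 := ((hg _ (hseg t ht)).comp (t : ℂ) h1).comp_ofReal
      rw [mul_comm]
      exact h2
    have hcont : ContinuousOn (fun t : ℝ => (w - 1) * Iint (1 + (t : ℂ) * (w - 1)) β)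
        (uIcc (0 : ℝ) 1) := by
      refine continuousOn_const.mul ?_
      exact hd.continuousOn.comp (f := fun t : ℝ => 1 + (t : ℂ) * (w - 1)) (by fun_prop) hseg
    have := intervalIntegral.integral_eq_sub_of_hasDerivAt hder hcont.intervalIntegrable
    unfold XiT
    simpa using this
  have h1 : HasDerivAt (fun w : ℂ => XiT (w, β)) (Iint ν β) ν := by
    refine ((hg ν hν).sub_const (g 1)).congr_of_eventuallyEq ?_
    filter_upwards [isOpen_ball.mem_nhds hν] with w hw using key w hw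
  have h2 : HasFDerivAt XiT (fderiv ℂ XiT (ν, β)) (ν, β) :=
    (XiT_diff.differentiableAt (isOpen_WX.mem_nhds hz)).hasFDerivAt
  have h3 : HasDerivAt (fun w : ℂ => ((w, β) : ℂ × ℂ)) (1, 0) ν :=
    (hasDerivAt_id ν).prodMk (hasDerivAt_const ν β)
  have h4 := HasFDerivAt.comp_hasDerivAt (l := XiT) (f := fun w : ℂ => ((w, β) : ℂ × ℂ)) ν h2 h3
  exact h4.unique h1

theorem XiT_le {z : ℂ × ℂ} (hz : z ∈ WX) : ‖XiT z‖ ≤ 1 := by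
  unfold XiT
  have hp : 0 < 1 - ‖z.2‖ := by linarith [hz.1]
  have := intervalIntegral.norm_integral_le_of_norm_le_const (a := 0) (b := 1) (C := 1)
    (f := fun t : ℝ => (z.1 - 1) * Iint (1 + (t : ℂ) * (z.1 - 1)) z.2) (fun t ht => by
      have h1 := Iint_le (seg_mem_WX hz (uIoc_subset_uIcc ht))
      simp only at h1
      have h2 := hz.2
      rw [norm_mul]
      calc ‖z.1 - 1‖ * ‖Iint (1 + (t : ℂ) * (z.1 - 1)) z.2‖
          ≤ (1 - ‖z.2‖) / 100 * (11 / (1 - ‖z.2‖)) := by gcongr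
        _ = 11 / 100 := by field_simp
        _ ≤ 1 := by norm_num)
  simpa using this

theorem XiT_conj (z : ℂ × ℂ) : XiT (cj z) = conj (XiT z) := by
  unfold XiT
  rw [← intervalIntegral.intervalIntegral_conj]
  refine intervalIntegral.integral_congr fun t _ => ?_
  simp [cj, Iint, NN, map_ofNat]

theorem bet_diff : DifferentiableOn ℂ bet WW := by
  have := mu_diff
  unfold bet
  fun_prop

theorem PP_diff : DifferentiableOn ℂ PP WW := by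
  have h1 := mu_diff
  have h2 := bet_diff
  unfold PP
  fun_prop

theorem Xi_diff : DifferentiableOn ℂ Xi WW := by
  have h1 : DifferentiableOn ℂ (fun z => (((mu z)⁻¹, bet z) : ℂ × ℂ)) WW :=
    (mu_diff.inv fun z hz => mu_ne hz).prodMk bet_diff
  exact XiT_diff.comp h1 fun z hz => mem_WX hz

theorem II_diff : DifferentiableOn ℂ II WW := by
  exact PP_diff.inv fun z hz => PP_ne hz

theorem JJ_diff : DifferentiableOn ℂ JJ WW := by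
  have h1 : DifferentiableOn ℂ (fun z => psi (bet z)) WW :=
    psi_diff.comp bet_diff fun z hz => mem_ball_zero_iff.2 (bet_norm_lt hz)
  have h2 : DifferentiableOn ℂ (fun z => psi (bet z) * (mu z ^ 2)⁻¹) WW :=
    h1.mul ((mu_diff.pow 2).inv fun z hz => pow_ne_zero _ (mu_ne hz))
  have h3 : DifferentiableOn ℂ (fun z => Xi z * (PP z)⁻¹) WW := Xi_diff.mul II_diff
  refine (h2.neg.sub h3).congr fun z _ => ?_
  simp [JJ, div_eq_mul_inv]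

theorem bet_conj {z : ℂ × ℂ} (hz : z ∈ WW) : bet (cj z) = conj (bet z) := by
  unfold bet
  rw [mu_conj hz]
  simp [cj]

theorem PP_conj {z : ℂ × ℂ} (hz : z ∈ WW) : PP (cj z) = conj (PP z) := by
  unfold PP
  rw [mu_conj hz, bet_conj hz]
  simp [map_ofNat]

theorem Xi_conj {z : ℂ × ℂ} (hz : z ∈ WW) : Xi (cj z) = conj (Xi z) := by
  unfold Xi
  rw [mu_conj hz, bet_conj hz, ← XiT_conj]
  simp [cj]

theorem II_conj {z : ℂ × ℂ} (hz : z ∈ WW) : II (cj z) = conj (II z) := by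
  unfold II
  rw [PP_conj hz, map_inv₀]

theorem JJ_conj {z : ℂ × ℂ} (hz : z ∈ WW) : JJ (cj z) = conj (JJ z) := by
  unfold JJ
  rw [PP_conj hz, Xi_conj hz, mu_conj hz, bet_conj hz, psi_conj]
  simp

theorem PP_ge {z : ℂ × ℂ} (hz : z ∈ WW) : 1 - ‖z.1‖ ≤ ‖PP z‖ := by
  have h1 := mu_norm_ge hz
  have h2 := bet_lt hz
  have h3 := one_sub_norm_le (bet z)
  have hp : 0 < 1 - ‖z.1‖ := by linarith [hz.1]
  unfold PP
  rw [norm_mul, norm_mul, norm_pow]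
  simp only [Complex.norm_ofNat]
  calc 1 - ‖z.1‖ ≤ 3 * (999 / 1000) ^ 2 * ((1 - ‖z.1‖) * (9 / 10)) := by nlinarith
    _ ≤ 3 * ‖mu z‖ ^ 2 * ‖1 - bet z‖ := by
      gcongr
      linarith

theorem II_le {z : ℂ × ℂ} (hz : z ∈ WW) : ‖II z‖ ≤ 1 / (1 - ‖z.1‖) := by
  have hp : 0 < 1 - ‖z.1‖ := by linarith [hz.1]
  unfold II
  rw [norm_inv, one_div]
  exact inv_anti₀ hp (PP_ge hz)

theorem JJ_le {z : ℂ × ℂ} (hz : z ∈ WW) : ‖JJ z‖ ≤ 3 / (1 - ‖z.1‖) ^ 2 := by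
  have hp : 0 < 1 - ‖z.1‖ := by linarith [hz.1]
  have h0 := norm_nonneg z.1
  have h1 := mu_norm_ge hz
  have h2 := bet_lt hz
  have h3 := psi_le (bet_norm_lt hz)
  have h4 := PP_ge hz
  have h5 : ‖Xi z‖ ≤ 1 := XiT_le (mem_WX hz)
  have a1 : ‖psi (bet z) / mu z ^ 2‖ ≤ 2 / (1 - ‖z.1‖) ^ 2 := by
    rw [norm_div, norm_pow]
    calc ‖psi (bet z)‖ / ‖mu z‖ ^ 2
        ≤ (1 / ((1 - ‖z.1‖) * (9 / 10)) ^ 2) / (999 / 1000) ^ 2 := by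
          gcongr
          refine h3.trans ?_
          gcongr
      _ = (1 / ((9 / 10) ^ 2 * (999 / 1000) ^ 2)) / (1 - ‖z.1‖) ^ 2 := by field_simp
      _ ≤ _ := by
          gcongr
          norm_num
  have a2 : ‖Xi z / PP z‖ ≤ 1 / (1 - ‖z.1‖) ^ 2 := by
    rw [norm_div]
    calc ‖Xi z‖ / ‖PP z‖ ≤ 1 / (1 - ‖z.1‖) := by gcongr
      _ ≤ 1 / (1 - ‖z.1‖) ^ 2 := by
          apply one_div_le_one_div_of_le (by positivity)
          nlinarith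
  unfold JJ
  refine (norm_sub_le _ _).trans ?_
  rw [norm_neg]
  have : 2 / (1 - ‖z.1‖) ^ 2 + 1 / (1 - ‖z.1‖) ^ 2 = 3 / (1 - ‖z.1‖) ^ 2 := by ring
  linarith

/-- The Schwarz estimate in the second variable. -/
theorem schwarz_WW {f : ℂ × ℂ → ℂ} (hf : DifferentiableOn ℂ f WW) {z : ℂ × ℂ} (hz : z ∈ WW)
    {M : ℝ} (hM : ∀ c, (z.1, c) ∈ WW → ‖f (z.1, c)‖ ≤ M) :
    ‖f z - f (z.1, 0)‖ ≤ 2 * M / ((1 - ‖z.1‖) ^ 2 / 1000) * ‖z.2‖ := by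
  have hp : 0 < 1 - ‖z.1‖ := by linarith [hz.1]
  have hmem : ∀ c ∈ ball (0 : ℂ) ((1 - ‖z.1‖) ^ 2 / 1000), (z.1, c) ∈ WW := fun c hc =>
    ⟨hz.1, mem_ball_zero_iff.1 hc⟩
  have hd : DifferentiableOn ℂ (fun c => f (z.1, c)) (ball (0 : ℂ) ((1 - ‖z.1‖) ^ 2 / 1000)) :=
    hf.comp (f := fun c : ℂ => ((z.1, c) : ℂ × ℂ)) (by fun_prop) hmem
  have h0 : (z.1, (0 : ℂ)) ∈ WW := hmem 0 (mem_ball_self (by positivity))
  have hmaps : MapsTo (fun c => f (z.1, c)) (ball (0 : ℂ) ((1 - ‖z.1‖) ^ 2 / 1000))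
      (closedBall (f (z.1, 0)) (2 * M)) := by
    intro c hc
    rw [mem_closedBall, dist_eq_norm]
    refine (norm_sub_le _ _).trans ?_
    linarith [hM c (hmem c hc), hM 0 h0]
  have := Complex.dist_le_div_mul_dist_of_mapsTo_ball hd hmaps (mem_ball_zero_iff.2 hz.2)
  simpa [dist_eq_norm] using this

theorem II_zero {b : ℂ} (hb : ‖b‖ < 1) : II (b, 0) = (3 * (1 - b))⁻¹ := by
  unfold II PP bet
  rw [mu_zero hb]
  simp

theorem JJ_zero {b : ℂ} (hb : ‖b‖ < 1) : JJ (b, 0) = -psi b := by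
  unfold JJ Xi XiT bet
  rw [mu_zero hb]
  simp

theorem II_sub_le {z : ℂ × ℂ} (hz : z ∈ WW) :
    ‖II z - (3 * (1 - z.1))⁻¹‖ ≤ 2000 * ‖z.2‖ / (1 - ‖z.1‖) ^ 3 := by
  have hp : 0 < 1 - ‖z.1‖ := by linarith [hz.1]
  have h := schwarz_WW II_diff hz (M := 1 / (1 - ‖z.1‖)) fun c hc => II_le hc
  rw [II_zero hz.1] at h
  refine h.trans_eq ?_
  field_simp
  ring

theorem JJ_add_le {z : ℂ × ℂ} (hz : z ∈ WW) :
    ‖JJ z + psi z.1‖ ≤ 6000 * ‖z.2‖ / (1 - ‖z.1‖) ^ 4 := by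
  have hp : 0 < 1 - ‖z.1‖ := by linarith [hz.1]
  have h := schwarz_WW JJ_diff hz (M := 3 / (1 - ‖z.1‖) ^ 2) fun c hc => JJ_le hc
  rw [JJ_zero hz.1, sub_neg_eq_add] at h
  refine h.trans_eq ?_
  field_simp
  ring

end Pool.Agent.Lib.MP_e941ef_an
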