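import Pool.Agent.Lib.MP_e941ef_an.BG
import Pool.Agent.Lib.MP_e941ef_an.Xi
import Pool.Agent.Lib.MP_e941ef_an.Fix

namespace Pool.Agent.Lib.MP_e941ef_an

open Complex Metric Set Filter Topology
open scoped ComplexConjugate ContDiff

lemma diff_div {E : Type} [NormedAddCommGroup E] [NormedSpace ℂ E] {f g : E → ℂ} {z : E}
    (hf : DifferentiableAt ℂ f z) (hg : DifferentiableAt ℂ g z) (h : g z ≠ 0) :
    DifferentiableAt ℂ (fun z => f z / g z) z := by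
  simp only [div_eq_mul_inv]
  exact hf.mul (hg.inv h)

/-- The condition that all the arguments of `mu` lie in its domain. -/
def GoodA (a : ℝ) : Prop :=
  ∀ ξ : ℂ, ‖ξ‖ < 1 → ∀ p ∈ box ξ, ∀ τ : ℂ, ‖τ‖ < 2 → ∀ u : ℂ, 1 - 2 / 3 * dd ξ ≤ ‖u‖ →
    ‖u‖ ≤ (1 - 2 / 3 * dd ξ)⁻¹ → (bb p u, cc (EE a p τ) p u) ∈ WW

lemma box_subset {ξ : ℂ} (hξ : ‖ξ‖ < 1) : box ξ ⊆ NB := fun _ hp => ⟨ξ, hξ, hp⟩

lemma norm_conj_lt {ξ : ℂ} (hξ : ‖ξ‖ < 1) : ‖conj ξ‖ < 1 := by rwa [norm_conj]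

lemma swap_mem_NB {p : ℂ × ℂ} (hp : p ∈ NB) : p.swap ∈ NB := by
  obtain ⟨ξ, hξ, hp⟩ := hp
  exact ⟨conj ξ, norm_conj_lt hξ, swap_mem_box hp⟩

lemma cj_mem_NB {p : ℂ × ℂ} (hp : p ∈ NB) : cj p ∈ NB := by
  obtain ⟨ξ, hξ, hp⟩ := hp
  exact ⟨conj ξ, norm_conj_lt hξ, cj_mem_box hp⟩

lemma le_inv_of_le {ξ u : ℂ} (hξ : ‖ξ‖ < 1) (h : ‖u‖ ≤ 1 - 1 / 3 * dd ξ) :
    ‖u‖ ≤ (1 - 2 / 3 * dd ξ)⁻¹ := by
  obtain ⟨h0, h1⟩ := dd_pos hξ
  have : 1 ≤ (1 - 2 / 3 * dd ξ)⁻¹ := (one_le_inv₀ (by linarith)).2 (by linarith)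
  linarith

lemma ne_zero_of_le {ξ u : ℂ} (hξ : ‖ξ‖ < 1) (h : 1 - 2 / 3 * dd ξ ≤ ‖u‖) : u ≠ 0 := by
  obtain ⟨h0, h1⟩ := dd_pos hξ
  intro h2
  rw [h2, norm_zero] at h
  linarith

lemma rad_swap (p : ℂ × ℂ) : rad p.swap = rad p := by simp [rad, mul_comm]

lemma rad_cj (p : ℂ × ℂ) : rad (cj p) = rad p := by simp [rad, cj]

lemma cj_swap (p : ℂ × ℂ) : (cj p).swap = cj p.swap := rfl

lemma xx_cj (p : ℂ × ℂ) : xx (cj p) = conj (xx p) := by simp [xx, den, cj]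

lemma ll_cj (E : ℂ) (p : ℂ × ℂ) : ll (conj E) (cj p) = conj (ll E p) := by simp [ll, cj]

lemma bb_cj (p : ℂ × ℂ) (u : ℂ) : bb (cj p) (conj u) = conj (bb p u) := by
  simp only [bb, cj_swap, xx_cj, map_add, map_mul, map_div₀, map_pow, map_ofNat]

lemma cc_cj (E : ℂ) (p : ℂ × ℂ) (u : ℂ) : cc (conj E) (cj p) (conj u) = conj (cc E p u) := by
  simp only [cc, cj_swap, xx_cj, ll_cj, map_add, map_mul, map_div₀]

lemma EE_cj (a : ℝ) {p : ℂ × ℂ} (hp : p ∈ NB) (τ : ℂ) :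
    EE a (cj p) (conj τ) = conj (EE a p τ) := by
  simp only [EE, ee_conj hp, map_mul, conj_ofReal, ← exp_conj, map_add]

lemma EE_swap (a : ℝ) (p : ℂ × ℂ) (τ : ℂ) : EE a p.swap τ = EE a p τ := by
  simp only [EE, ee_swap]

lemma rad_pos (p : ℂ × ℂ) : 0 < rad p := by
  unfold rad
  positivity

lemma norm_EE {a : ℝ} (ha : 0 < a) {ξ : ℂ} (hξ : ‖ξ‖ < 1) {p : ℂ × ℂ} (hp : p ∈ box ξ) {τ : ℂ}
    (hτ : ‖τ‖ < 2) : ‖EE a p τ‖ ≤ 9 * a * fl (dd ξ) := by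
  have h1 := (box_ee hξ hp).2
  have h2 : ‖exp τ‖ ≤ 9 := by
    rw [norm_exp]
    have h3 : τ.re ≤ 2 := (re_le_norm τ).trans hτ.le
    have h4 : Real.exp 2 = Real.exp 1 ^ 2 := by
      rw [← Real.exp_nat_mul]
      norm_num
    have h5 := Real.exp_one_lt_d9
    have h6 := Real.exp_pos 1
    calc Real.exp τ.re ≤ Real.exp 2 := Real.exp_le_exp.2 h3
      _ ≤ 9 := by rw [h4]; nlinarith
  rw [EE, norm_mul, exp_add, norm_mul, norm_real, Real.norm_of_nonneg ha.le]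
  have := mul_le_mul h1 h2 (norm_nonneg _) (le_trans (norm_nonneg _) h1)
  nlinarith

lemma norm_cc {a : ℝ} (ha : 0 < a) {ξ : ℂ} (hξ : ‖ξ‖ < 1) {p : ℂ × ℂ} (hp : p ∈ box ξ) {τ : ℂ}
    (hτ : ‖τ‖ < 2) {u : ℂ} (h₁ : 1 - 2 / 3 * dd ξ ≤ ‖u‖) (h₂ : ‖u‖ ≤ (1 - 2 / 3 * dd ξ)⁻¹) :
    ‖cc (EE a p τ) p u‖ ≤ 432 * (a * fl (dd ξ)) / dd ξ := by
  have h0 := (dd_pos hξ).1
  refine (box_cc hξ hp _ h₁ h₂).trans ?_
  have := norm_EE ha hξ hp hτ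
  exact div_le_div_of_nonneg_right (by linarith) h0.le

lemma exists_goodA : ∃ a₀ : ℝ, 0 < a₀ ∧ ∀ a : ℝ, 0 < a → a ≤ a₀ → GoodA a := by
  obtain ⟨C, hC, h⟩ := fl_le 5
  refine ⟨1 / (432 * 500000 * C), by positivity, fun a ha ha₀ ξ hξ p hp τ hτ u h₁ h₂ => ?_⟩
  obtain ⟨h0, h1⟩ := dd_pos hξ
  have hb := box_bb hξ hp h₁ h₂
  have hc := norm_cc ha hξ hp hτ h₁ h₂
  have hf := h _ h0 h1
  refine ⟨by simp only; nlinarith [sq_pos_of_pos h0], ?_⟩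
  have h3 : dd ξ ^ 2 / 20 ≤ 1 - ‖bb p u‖ := by linarith
  have h4 : (dd ξ ^ 2 / 20) ^ 2 ≤ (1 - ‖bb p u‖) ^ 2 := by gcongr
  have h5 : a * fl (dd ξ) ≤ 1 / (432 * 500000 * C) * (C * dd ξ ^ 5) := by
    have : 0 ≤ fl (dd ξ) := (Real.exp_pos _).le
    gcongr
  have h6 : 432 * (a * fl (dd ξ)) / dd ξ ≤ dd ξ ^ 4 / 500000 := by
    rw [div_le_iff₀ h0]
    have : 1 / (432 * 500000 * C) * (C * dd ξ ^ 5) = dd ξ ^ 4 / 500000 * dd ξ / 432 := by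
      field_simp
    linarith
  have h7 : 0 < dd ξ ^ 4 := by positivity
  simp only
  nlinarith

section diff

variable {ξ : ℂ} (hξ : ‖ξ‖ < 1) {p : ℂ × ℂ} (hp : p ∈ box ξ)

include hξ hp

lemma xx_at : DifferentiableAt ℂ xx p :=
  xx_diff.differentiableAt (isOpen_NB.mem_nhds (box_subset hξ hp))

lemma xxs_at : DifferentiableAt ℂ (fun p : ℂ × ℂ => xx p.swap) p :=
  DifferentiableAt.comp (g := xx) (f := fun p : ℂ × ℂ => p.swap) p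
    (xx_at (norm_conj_lt hξ) (swap_mem_box hp)) (differentiableAt_snd.prodMk differentiableAt_fst)

lemma ee_at : DifferentiableAt ℂ ee p :=
  ee_diff.differentiableAt (isOpen_NB.mem_nhds (box_subset hξ hp))

lemma core_sq_ne : 1 - (p.1 * p.2) ^ 2 ≠ 0 := by
  have h := (box_sq hξ hp).2.2
  obtain ⟨h0, h1⟩ := dd_pos hξ
  intro h2
  have h3 : ‖(p.1 * p.2) ^ 2‖ = 1 := by
    rw [← sub_eq_zero.1 h2, norm_one]
  rw [norm_pow] at h3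
  have := norm_nonneg (p.1 * p.2)
  nlinarith

lemma bb_at {E : Type} [NormedAddCommGroup E] [NormedSpace ℂ E] {f : E → ℂ × ℂ} {g : E → ℂ} {z : E}
    (hf : DifferentiableAt ℂ f z) (hg : DifferentiableAt ℂ g z) (e : f z = p) (h0 : g z ≠ 0) :
    DifferentiableAt ℂ (fun z => bb (f z) (g z)) z := by
  have h1 : DifferentiableAt ℂ (fun z => xx (f z)) z := (e ▸ xx_at hξ hp).comp z hf
  have h2 : DifferentiableAt ℂ (fun z => xx (f z).swap) z := (e ▸ xxs_at hξ hp).comp z hf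
  unfold bb
  exact ((diff_div (h1.pow 2) hg h0).add ((h1.const_mul 2).mul h2)).add ((h2.pow 2).mul hg)

lemma ll_at {E : Type} [NormedAddCommGroup E] [NormedSpace ℂ E] {f : E → ℂ × ℂ} {k : E → ℂ} {z : E}
    (hf : DifferentiableAt ℂ f z) (hk : DifferentiableAt ℂ k z) (e : f z = p) :
    DifferentiableAt ℂ (fun z => ll (k z) (f z)) z ∧
      DifferentiableAt ℂ (fun z => ll (k z) (f z).swap) z := by
  have h1 := hf.fst
  have h2 := hf.snd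
  have h3 := core_sq_ne hξ hp
  rw [← e] at h3
  unfold ll
  refine ⟨diff_div (hk.mul ((h1.pow 2).const_sub 1)) (((h1.mul h2).pow 2).const_sub 1) h3,
    diff_div (hk.mul ((h2.pow 2).const_sub 1)) (((h2.mul h1).pow 2).const_sub 1) ?_⟩
  simpa [mul_comm] using h3

lemma EE_at {E : Type} [NormedAddCommGroup E] [NormedSpace ℂ E] (a : ℝ) {f : E → ℂ × ℂ}
    {k : E → ℂ} {z : E} (hf : DifferentiableAt ℂ f z) (hk : DifferentiableAt ℂ k z)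
    (e : f z = p) : DifferentiableAt ℂ (fun z => EE a (f z) (k z)) z := by
  have h1 : DifferentiableAt ℂ (fun z => ee (f z)) z := (e ▸ ee_at hξ hp).comp z hf
  unfold EE
  exact (h1.add hk).cexp.const_mul _

lemma H0_at {E : Type} [NormedAddCommGroup E] [NormedSpace ℂ E] {f : E → ℂ × ℂ} {g : E → ℂ} {z : E}
    (hf : DifferentiableAt ℂ f z) (hg : DifferentiableAt ℂ g z) (e : f z = p)
    (h₁ : 1 - 2 / 3 * dd ξ ≤ ‖g z‖) (h₂ : ‖g z‖ ≤ 1 - 1 / 3 * dd ξ) :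
    DifferentiableAt ℂ (fun z => (3 * (1 - bb (f z) (g z)))⁻¹) z ∧
      DifferentiableAt ℂ (fun z => H0 (f z) (g z)) z := by
  have hb := bb_at hξ hp hf hg e (ne_zero_of_le hξ h₁)
  have h1 : DifferentiableAt ℂ (fun z => ee (f z)) z := (e ▸ ee_at hξ hp).comp z hf
  have h2 : DifferentiableAt ℂ (fun z => lr (f z) (g z)) z :=
    DifferentiableAt.comp (g := fun z : (ℂ × ℂ) × ℂ => lr z.1 z.2) (f := fun z => (f z, g z)) z
      (e ▸ lr_diffAt hξ hp h₂) (hf.prodMk hg)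
  have h3 : ‖bb (f z) (g z)‖ < 1 := by
    have := box_bb hξ hp h₁ (le_inv_of_le hξ h₂)
    have h0 := (dd_pos hξ).1
    rw [e]
    nlinarith [sq_pos_of_pos h0]
  have h4 : 3 * (1 - bb (f z) (g z)) ≠ 0 := by
    refine mul_ne_zero (by norm_num) fun h => ?_
    rw [← sub_eq_zero.1 h, norm_one] at h3
    exact lt_irrefl _ h3
  have h5 : DifferentiableAt ℂ (fun z => psi (bb (f z) (g z))) z :=
    DifferentiableAt.comp (g := psi) (f := fun z => bb (f z) (g z)) z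
      (psi_diff.differentiableAt (isOpen_ball.mem_nhds (mem_ball_zero_iff.2 h3))) hb
  refine ⟨((hb.const_sub 1).const_mul 3).inv h4, ?_⟩
  unfold H0
  exact (diff_div (h1.add h2) ((hb.const_sub 1).const_mul 3) h4).add h5

lemma HH_at {a : ℝ} (hW : GoodA a) {E : Type} [NormedAddCommGroup E] [NormedSpace ℂ E]
    {f : E → ℂ × ℂ} {k g : E → ℂ} {z : E}
    (hf : DifferentiableAt ℂ f z) (hk : DifferentiableAt ℂ k z) (hg : DifferentiableAt ℂ g z)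
    (e : f z = p) (hτ : ‖k z‖ < 2)
    (h₁ : 1 - 2 / 3 * dd ξ ≤ ‖g z‖) (h₂ : ‖g z‖ ≤ 1 - 1 / 3 * dd ξ) :
    DifferentiableAt ℂ (fun z => HH a (f z) (k z) (g z)) z := by
  have h0 := ne_zero_of_le hξ h₁
  have hb := bb_at hξ hp hf hg e h0
  have h1 : DifferentiableAt ℂ (fun z => ee (f z)) z := (e ▸ ee_at hξ hp).comp z hf
  have h2 : DifferentiableAt ℂ (fun z => lr (f z) (g z)) z :=
    DifferentiableAt.comp (g := fun z : (ℂ × ℂ) × ℂ => lr z.1 z.2) (f := fun z => (f z, g z)) z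
      (e ▸ lr_diffAt hξ hp h₂) (hf.prodMk hg)
  have hx1 : DifferentiableAt ℂ (fun z => xx (f z)) z := (e ▸ xx_at hξ hp).comp z hf
  have hx2 : DifferentiableAt ℂ (fun z => xx (f z).swap) z := (e ▸ xxs_at hξ hp).comp z hf
  obtain ⟨l1, l2⟩ := ll_at hξ hp hf (EE_at hξ hp a hf hk e) e
  have hc : DifferentiableAt ℂ (fun z => cc (EE a (f z) (k z)) (f z) (g z)) z := by
    unfold cc
    exact ((diff_div hx1 hg h0).add hx2).mul (l1.add (l2.mul hg))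
  have hm : (bb (f z) (g z), cc (EE a (f z) (k z)) (f z) (g z)) ∈ WW := by
    rw [e]
    exact hW ξ hξ p hp _ hτ _ h₁ (le_inv_of_le hξ h₂)
  have hI : DifferentiableAt ℂ (fun z => II (bb (f z) (g z), cc (EE a (f z) (k z)) (f z) (g z))) z :=
    DifferentiableAt.comp (g := II)
      (f := fun z => (bb (f z) (g z), cc (EE a (f z) (k z)) (f z) (g z))) z
      (II_diff.differentiableAt (isOpen_WW.mem_nhds hm)) (hb.prodMk hc)
  have hJ : DifferentiableAt ℂ (fun z => JJ (bb (f z) (g z), cc (EE a (f z) (k z)) (f z) (g z))) z :=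
    DifferentiableAt.comp (g := JJ)
      (f := fun z => (bb (f z) (g z), cc (EE a (f z) (k z)) (f z) (g z))) z
      (JJ_diff.differentiableAt (isOpen_WW.mem_nhds hm)) (hb.prodMk hc)
  unfold HH
  exact (((h1.add hk).add h2).mul hI).sub hJ

lemma avg_rad_eq {f : ℂ → ℂ}
    (hf : ∀ u : ℂ, 1 - 2 / 3 * dd ξ ≤ ‖u‖ → ‖u‖ ≤ 1 - 1 / 3 * dd ξ → DifferentiableAt ℂ f u)
    {r : ℝ} (h₁ : 1 - 2 / 3 * dd ξ ≤ r) (h₂ : r ≤ 1 - 1 / 3 * dd ξ) : avg (rad p) f = avg r f := by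
  obtain ⟨h0, h1⟩ := dd_pos hξ
  obtain ⟨r1, r2⟩ := box_rad hξ hp
  have hpos : 0 < 1 - 2 / 3 * dd ξ := by linarith
  rw [← avg_radius hpos r1 fun u a b => hf u a (b.trans r2),
    ← avg_radius hpos h₁ fun u a b => hf u a (b.trans h₂)]

end diff

lemma avg_holo {Φ : ((ℂ × ℂ) × ℂ) × ℂ → ℂ}
    (hΦ : ∀ ξ : ℂ, ‖ξ‖ < 1 → ∀ z : ((ℂ × ℂ) × ℂ) × ℂ, z.1.1 ∈ box ξ → ‖z.1.2‖ < 2 →
      1 - 2 / 3 * dd ξ ≤ ‖z.2‖ → ‖z.2‖ ≤ 1 - 1 / 3 * dd ξ → DifferentiableAt ℂ Φ z) :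
    DifferentiableOn ℂ (fun z : (ℂ × ℂ) × ℂ => avg (rad z.1) (fun u => Φ (z, u)))
      (NB ×ˢ ball 0 2) := by
  rintro z₀ ⟨⟨ξ, hξ, hp⟩, hτ⟩
  obtain ⟨h0, h1⟩ := dd_pos hξ
  have oU : IsOpen (box ξ ×ˢ ball (0 : ℂ) 2) := (isOpen_box ξ).prod isOpen_ball
  have oW : IsOpen ((box ξ ×ˢ ball (0 : ℂ) 2) ×ˢ
      {u : ℂ | 1 - 2 / 3 * dd ξ < ‖u‖ ∧ ‖u‖ < 1 - 1 / 3 * dd ξ}) :=
    oU.prod ((isOpen_lt continuous_const continuous_norm).inter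
      (isOpen_lt continuous_norm continuous_const))
  have h := holo_avg oW (Φ := Φ) (fun z hz => (hΦ ξ hξ z hz.1.1 (mem_ball_zero_iff.1 hz.1.2)
    hz.2.1.le hz.2.2.le).differentiableWithinAt) oU (r := 1 - 1 / 2 * dd ξ) (by linarith)
    (fun z hz u hu => ⟨hz, by constructor <;> simp only [hu] <;> linarith⟩)
  refine ((h.differentiableAt (oU.mem_nhds ⟨hp, hτ⟩)).congr_of_eventuallyEq ?_).differentiableWithinAt
  filter_upwards [oU.mem_nhds ⟨hp, hτ⟩] with z hz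
  refine avg_rad_eq hξ hz.1 (fun u a b => ?_) (by linarith) (by linarith)
  exact DifferentiableAt.comp (g := Φ) (f := fun u => (z, u)) u
    (hΦ ξ hξ (z, u) hz.1 (mem_ball_zero_iff.1 hz.2) a b) (by fun_prop)

end Pool.Agent.Lib.MP_e941ef_an
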