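import Pool.Agent.Lib.MP_e941ef_an.Defs

namespace Pool.Agent.Lib.MP_e941ef_an

open Complex Metric Set Filter Topology
open scoped ComplexConjugate ContDiff

private theorem den_ne {a1 a2 : ℝ × ℝ → ℂ} {v : ℝ × ℝ} (h : detR a1 a2 v ≠ 0) :
    ((detR a1 a2 v : ℂ) * I) ≠ 0 :=
  mul_ne_zero (Complex.ofReal_ne_zero.mpr h) I_ne_zero

theorem piC_cov {a1 a2 : ℝ × ℝ → ℂ} {v : ℝ × ℝ} (h : detR a1 a2 v ≠ 0) (z : ℂ) :
    piC a1 a2 (v, cov a1 a2 v z) = z := by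
  unfold piC
  rw [div_eq_iff (den_ne h)]
  apply Complex.ext <;> simp [cov, detR] <;> ring

theorem cov_piC {a1 a2 : ℝ × ℝ → ℂ} {w : Ph} (h : detR a1 a2 w.1 ≠ 0) :
    cov a1 a2 w.1 (piC a1 a2 w) = w.2 := by
  have key : piC a1 a2 w * ((detR a1 a2 w.1 : ℂ) * I) =
      (w.2.1 : ℂ) * conj (a2 w.1) - (w.2.2 : ℂ) * conj (a1 w.1) := by
    unfold piC
    rw [div_mul_cancel₀ _ (den_ne h)]
  have hre := congrArg Complex.re key
  have him := congrArg Complex.im key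
  have hd : detR a1 a2 w.1 =
      2 * ((a1 w.1).im * (a2 w.1).re - (a1 w.1).re * (a2 w.1).im) := by
    simp [detR]; ring
  simp at hre him
  ext
  · apply mul_left_cancel₀ h
    simp only [cov, mul_re]
    linear_combination (2 * (a1 w.1).re) * him + (2 * (a1 w.1).im) * hre - w.2.1 * hd
  · apply mul_left_cancel₀ h
    simp only [cov, mul_re]
    linear_combination (2 * (a2 w.1).re) * him + (2 * (a2 w.1).im) * hre - w.2.2 * hd

private theorem contDiff_conj' {f : ℝ × ℝ → ℂ} (hf : ContDiff ℝ ∞ f) :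
    ContDiff ℝ ∞ (fun v => conj (f v)) :=
  Complex.conjCLE.contDiff.comp hf

private theorem contDiff_ofReal' {X : Type*} [NormedAddCommGroup X] [NormedSpace ℝ X]
    {f : X → ℝ} (hf : ContDiff ℝ ∞ f) : ContDiff ℝ ∞ (fun v => (f v : ℂ)) :=
  Complex.ofRealCLM.contDiff.comp hf

private theorem contDiff_re' {X : Type*} [NormedAddCommGroup X] [NormedSpace ℝ X]
    {f : X → ℂ} (hf : ContDiff ℝ ∞ f) : ContDiff ℝ ∞ (fun v => (f v).re) :=
  Complex.reCLM.contDiff.comp hf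

private theorem contDiff_im' {X : Type*} [NormedAddCommGroup X] [NormedSpace ℝ X]
    {f : X → ℂ} (hf : ContDiff ℝ ∞ f) : ContDiff ℝ ∞ (fun v => (f v).im) :=
  Complex.imCLM.contDiff.comp hf

private theorem contDiff_detR {a1 a2 : ℝ × ℝ → ℂ} (h1 : ContDiff ℝ ∞ a1) (h2 : ContDiff ℝ ∞ a2) :
    ContDiff ℝ ∞ (detR a1 a2) :=
  contDiff_const.mul (contDiff_im' (h1.mul (contDiff_conj' h2)))

theorem contDiff_piC {a1 a2 : ℝ × ℝ → ℂ} (h1 : ContDiff ℝ ∞ a1) (h2 : ContDiff ℝ ∞ a2)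
    (h : ∀ v, detR a1 a2 v ≠ 0) : ContDiff ℝ ∞ (piC a1 a2) := by
  have hn : ContDiff ℝ ∞ (fun w : Ph =>
      (w.2.1 : ℂ) * conj (a2 w.1) - (w.2.2 : ℂ) * conj (a1 w.1)) :=
    ((contDiff_ofReal' (contDiff_fst.comp contDiff_snd)).mul
      ((contDiff_conj' h2).comp contDiff_fst)).sub
    ((contDiff_ofReal' (contDiff_snd.comp contDiff_snd)).mul
      ((contDiff_conj' h1).comp contDiff_fst))
  have hd : ContDiff ℝ ∞ (fun w : Ph => ((detR a1 a2 w.1 : ℂ) * I)) :=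
    (contDiff_ofReal' ((contDiff_detR h1 h2).comp contDiff_fst)).mul contDiff_const
  have := hn.mul (hd.inv fun w => den_ne (h w.1))
  have he : piC a1 a2 = fun w : Ph =>
      ((w.2.1 : ℂ) * conj (a2 w.1) - (w.2.2 : ℂ) * conj (a1 w.1)) *
        (fun w : Ph => ((detR a1 a2 w.1 : ℂ) * I))⁻¹ w := by
    funext w
    simp only [piC, div_eq_mul_inv, Pi.inv_apply]
  rw [he]
  exact this

theorem contDiff_ham {a1 a2 : ℝ × ℝ → ℂ} {U : ℝ × ℝ → ℝ} (h1 : ContDiff ℝ ∞ a1)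
    (h2 : ContDiff ℝ ∞ a2) (h : ∀ v, detR a1 a2 v ≠ 0) (hU : ContDiff ℝ ∞ U) :
    ContDiff ℝ ∞ (ham a1 a2 U) := by
  have hp := contDiff_piC h1 h2 h
  have := ((((contDiff_re' hp).mul (contDiff_re' hp)).add
    ((contDiff_im' hp).mul (contDiff_im' hp))).div_const 2).add (hU.comp contDiff_fst)
  exact this

theorem contDiff_lin {a1 a2 f : ℝ × ℝ → ℂ} (h1 : ContDiff ℝ ∞ a1)
    (h2 : ContDiff ℝ ∞ a2) (h : ∀ v, detR a1 a2 v ≠ 0) (hf : ContDiff ℝ ∞ f) :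
    ContDiff ℝ ∞ (lin a1 a2 f) :=
  contDiff_const.mul (contDiff_re' ((hf.comp contDiff_fst).mul (contDiff_piC h1 h2 h)))

theorem contDiff_poly {d : ℕ} {c : ℕ → ℕ → ℝ × ℝ → ℝ} (hc : ∀ i j, ContDiff ℝ ∞ (c i j)) :
    ContDiff ℝ ∞ (poly d c) := by
  unfold poly
  refine ContDiff.sum fun i _ => ContDiff.sum fun j _ => ?_
  exact (((hc i j).comp contDiff_fst).mul ((contDiff_fst.comp contDiff_snd).pow i)).mul
    ((contDiff_snd.comp contDiff_snd).pow j)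

theorem continuous_bracket {f g : Ph → ℝ} (hf : ContDiff ℝ ∞ f) (hg : ContDiff ℝ ∞ g) :
    Continuous (bracket f g) := by
  have cf : Continuous (fderiv ℝ f) := hf.continuous_fderiv (by simp)
  have cg : Continuous (fderiv ℝ g) := hg.continuous_fderiv (by simp)
  unfold bracket
  fun_prop

theorem bracket_congr {f f' g g' : Ph → ℝ} {w : Ph} (hf : f =ᶠ[𝓝 w] f') (hg : g =ᶠ[𝓝 w] g') :
    bracket f g w = bracket f' g' w := by
  unfold bracket
  rw [hf.fderiv_eq, hg.fderiv_eq]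

private theorem expandPh (φ : Ph →L[ℝ] ℝ) (u : Ph) :
    φ u = u.1.1 * φ ((1, 0), 0) + u.1.2 * φ ((0, 1), 0) + u.2.1 * φ (0, (1, 0))
      + u.2.2 * φ (0, (0, 1)) := by
  have : u = u.1.1 • (((1, 0), 0) : Ph) + u.1.2 • (((0, 1), 0) : Ph)
      + u.2.1 • ((0, (1, 0)) : Ph) + u.2.2 • ((0, (0, 1)) : Ph) := by
    ext <;> simp
  conv_lhs => rw [this]
  simp only [map_add, map_smul, smul_eq_mul]

/-- The derivative along the base at a fixed frame coordinate. -/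
private theorem fderiv_base {a1 a2 : ℝ × ℝ → ℂ} (h1 : ContDiff ℝ ∞ a1) (h2 : ContDiff ℝ ∞ a2)
    {G : Ph → ℝ} (v : ℝ × ℝ) (z : ℂ) (hG : DifferentiableAt ℝ G (v, cov a1 a2 v z))
    (e : ℝ × ℝ) :
    fderiv ℝ (fun v' => G (v', cov a1 a2 v' z)) v e =
      fderiv ℝ G (v, cov a1 a2 v z)
        (e, (2 * (z * fderiv ℝ a1 v e).re, 2 * (z * fderiv ℝ a2 v e).re)) := by
  have d1 : HasFDerivAt a1 (fderiv ℝ a1 v) v := (h1.differentiable (by simp) v).hasFDerivAt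
  have d2 : HasFDerivAt a2 (fderiv ℝ a2 v) v := (h2.differentiable (by simp) v).hasFDerivAt
  have c1 := (Complex.reCLM.hasFDerivAt.comp v (d1.const_mul z)).const_mul (2 : ℝ)
  have c2 := (Complex.reCLM.hasFDerivAt.comp v (d2.const_mul z)).const_mul (2 : ℝ)
  have hm := (hasFDerivAt_id (𝕜 := ℝ) v).prodMk (c1.prodMk c2)
  have hc : HasFDerivAt (fun v' => G (v', cov a1 a2 v' z)) _ v := hG.hasFDerivAt.comp v hm
  rw [hc.fderiv]
  simp

/-- The derivative along the fibre in the frame coordinate. -/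
private theorem fderiv_fibre {a1 a2 : ℝ × ℝ → ℂ}
    {G : Ph → ℝ} (v : ℝ × ℝ) (z : ℂ) (hG : DifferentiableAt ℝ G (v, cov a1 a2 v z)) (η : ℂ) :
    fderiv ℝ (fun z' => G (v, cov a1 a2 v z')) z η =
      fderiv ℝ G (v, cov a1 a2 v z) (0, cov a1 a2 v η) := by
  have c1 := (Complex.reCLM.hasFDerivAt.comp z
    ((hasFDerivAt_id (𝕜 := ℝ) z).mul_const (a1 v))).const_mul (2 : ℝ)
  have c2 := (Complex.reCLM.hasFDerivAt.comp z
    ((hasFDerivAt_id (𝕜 := ℝ) z).mul_const (a2 v))).const_mul (2 : ℝ)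
  have hm := (hasFDerivAt_const (𝕜 := ℝ) v z).prodMk (c1.prodMk c2)
  have hc : HasFDerivAt (fun z' => G (v, cov a1 a2 v z')) _ z := hG.hasFDerivAt.comp z hm
  rw [hc.fderiv]
  simp [cov, mul_comm]

/-- The Poisson bracket with the Hamiltonian in terms of the frame. -/
theorem frame_bracket {a1 a2 : ℝ × ℝ → ℂ} {U : ℝ × ℝ → ℝ} (h1 : ContDiff ℝ ∞ a1)
    (h2 : ContDiff ℝ ∞ a2) (h : ∀ v, detR a1 a2 v ≠ 0) (hU : ContDiff ℝ ∞ U)
    {G : Ph → ℝ} (hG : Differentiable ℝ G) (v : ℝ × ℝ) (z : ℂ) :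
    2 * detR a1 a2 v * bracket (ham a1 a2 U) G (v, cov a1 a2 v z) =
      -(2 * (z * a2 v).im) * fderiv ℝ (fun v' => G (v', cov a1 a2 v' z)) v (1, 0)
      + (2 * (z * a1 v).im) * fderiv ℝ (fun v' => G (v', cov a1 a2 v' z)) v (0, 1)
      + (2 * (z * curl a1 a2 v).re) * fderiv ℝ (fun z' => G (v, cov a1 a2 v z')) z (-I * z)
      - 2 * detR a1 a2 v * fderiv ℝ (fun z' => G (v, cov a1 a2 v z')) z
          (piC a1 a2 (v, (fderiv ℝ U v (1, 0), fderiv ℝ U v (0, 1)))) := by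
  have hH : DifferentiableAt ℝ (ham a1 a2 U) (v, cov a1 a2 v z) :=
    (contDiff_ham h1 h2 h hU).differentiable (by simp) _
  have dU : HasFDerivAt U (fderiv ℝ U v) v := (hU.differentiable (by simp) v).hasFDerivAt
  have hb : (fun v' => ham a1 a2 U (v', cov a1 a2 v' z)) = fun v' => normSq z / 2 + U v' := by
    funext v'; simp only [ham, piC_cov (h v')]
  have hf : (fun z' => ham a1 a2 U (v, cov a1 a2 v z')) =
      fun z' : ℂ => (z'.re * z'.re + z'.im * z'.im) / 2 + U v := by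
    funext z'; simp only [ham, piC_cov (h v), normSq_apply]
  have Eb : ∀ e, fderiv ℝ (ham a1 a2 U) (v, cov a1 a2 v z)
      (e, (2 * (z * fderiv ℝ a1 v e).re, 2 * (z * fderiv ℝ a2 v e).re)) = fderiv ℝ U v e := by
    intro e
    rw [← fderiv_base h1 h2 v z hH e, hb, (dU.const_add _).fderiv]
  have Ef : ∀ η, fderiv ℝ (ham a1 a2 U) (v, cov a1 a2 v z) (0, cov a1 a2 v η) =
      z.re * η.re + z.im * η.im := by
    intro η
    rw [← fderiv_fibre v z hH η, hf]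
    have r : HasFDerivAt (fun z' : ℂ => z'.re) Complex.reCLM z := Complex.reCLM.hasFDerivAt
    have i : HasFDerivAt (fun z' : ℂ => z'.im) Complex.imCLM z := Complex.imCLM.hasFDerivAt
    have hd := ((((r.fun_mul r).fun_add (i.fun_mul i)).mul_const (2 : ℝ)⁻¹).add_const (U v))
    have hd' : HasFDerivAt (fun z' : ℂ => (z'.re * z'.re + z'.im * z'.im) / 2 + U v) _ z := hd
    rw [hd'.fderiv]
    simp
    ring
  have E1 := Eb (1, 0)
  have E2 := Eb (0, 1)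
  have E3 := Ef 1
  have E4 := Ef I
  rw [expandPh] at E1 E2 E3 E4
  have hcov : cov a1 a2 v (piC a1 a2 (v, (fderiv ℝ U v (1, 0), fderiv ℝ U v (0, 1)))) =
      (fderiv ℝ U v (1, 0), fderiv ℝ U v (0, 1)) :=
    cov_piC (w := (v, (fderiv ℝ U v (1, 0), fderiv ℝ U v (0, 1)))) (h v)
  rw [fderiv_base h1 h2 v z (hG _), fderiv_base h1 h2 v z (hG _), fderiv_fibre v z (hG _),
    fderiv_fibre v z (hG _), hcov]
  unfold bracket
  have hd : detR a1 a2 v = 2 * ((a1 v).im * (a2 v).re - (a1 v).re * (a2 v).im) := by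
    simp [detR]; ring
  generalize fderiv ℝ (ham a1 a2 U) (v, cov a1 a2 v z) = φ at *
  generalize fderiv ℝ G (v, cov a1 a2 v z) = ψ
  rw [expandPh ψ ((1, 0), (2 * (z * fderiv ℝ a1 v (1, 0)).re, 2 * (z * fderiv ℝ a2 v (1, 0)).re)),
    expandPh ψ ((0, 1), (2 * (z * fderiv ℝ a1 v (0, 1)).re, 2 * (z * fderiv ℝ a2 v (0, 1)).re)),
    expandPh ψ (0, cov a1 a2 v (-I * z)),
    expandPh ψ (0, (fderiv ℝ U v (1, 0), fderiv ℝ U v (0, 1)))]
  simp only [cov, curl, pd1, pd2, Prod.fst_zero, Prod.snd_zero, mul_re, mul_im, sub_re, sub_im,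
    one_re, one_im, I_re, I_im, neg_re, neg_im] at E1 E2 E3 E4 ⊢
  generalize φ ((1, 0), 0) = f1 at *
  generalize φ ((0, 1), 0) = f2 at *
  generalize φ (0, (1, 0)) = f3 at *
  generalize φ (0, (0, 1)) = f4 at *
  generalize ψ ((1, 0), 0) = g1
  generalize ψ ((0, 1), 0) = g2
  generalize ψ (0, (1, 0)) = g3
  generalize ψ (0, (0, 1)) = g4
  have h3 : detR a1 a2 v * f3 = -(z.re * (a2 v).im + z.im * (a2 v).re) := by
    linear_combination f3 * hd - (a2 v).im * E3 - (a2 v).re * E4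
  have h4 : detR a1 a2 v * f4 = z.re * (a1 v).im + z.im * (a1 v).re := by
    linear_combination f4 * hd + (a1 v).im * E3 + (a1 v).re * E4
  generalize fderiv ℝ a1 v (1, 0) = b11 at *
  generalize fderiv ℝ a1 v (0, 1) = b21 at *
  generalize fderiv ℝ a2 v (1, 0) = b12 at *
  generalize fderiv ℝ a2 v (0, 1) = b22 at *
  linear_combination
    2 * (g1 + g3 * (2 * (z.re * b11.re - z.im * b11.im))
      + g4 * (2 * (z.re * b21.re - z.im * b21.im))) * h3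
    + 2 * (g2 + g3 * (2 * (z.re * b12.re - z.im * b12.im))
      + g4 * (2 * (z.re * b22.re - z.im * b22.im))) * h4
    - 2 * detR a1 a2 v * g3 * E1 - 2 * detR a1 a2 v * g4 * E2

/-- The bracket of the Hamiltonian with a linear function. -/
theorem bracket_lin {a1 a2 f : ℝ × ℝ → ℂ} {U : ℝ × ℝ → ℝ} (h1 : ContDiff ℝ ∞ a1)
    (h2 : ContDiff ℝ ∞ a2) (h : ∀ v, detR a1 a2 v ≠ 0) (hU : ContDiff ℝ ∞ U)
    (hf : ContDiff ℝ ∞ f) (v : ℝ × ℝ) (z : ℂ) :
    2 * detR a1 a2 v * bracket (ham a1 a2 U) (lin a1 a2 f) (v, cov a1 a2 v z) =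
      Lam a1 a2 f v z
        - 2 * detR a1 a2 v * lin a1 a2 f (v, (fderiv ℝ U v (1, 0), fderiv ℝ U v (0, 1))) := by
  rw [frame_bracket h1 h2 h hU ((contDiff_lin h1 h2 h hf).differentiable (by simp)) v z]
  have hb : (fun v' => lin a1 a2 f (v', cov a1 a2 v' z)) = fun v' => 2 * (f v' * z).re := by
    funext v'; simp only [lin, piC_cov (h v')]
  have hz : (fun z' => lin a1 a2 f (v, cov a1 a2 v z')) = fun z' => 2 * (f v * z').re := by
    funext z'; simp only [lin, piC_cov (h v)]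
  have df : HasFDerivAt f (fderiv ℝ f v) v := (hf.differentiable (by simp) v).hasFDerivAt
  have c1 : HasFDerivAt (fun v' => 2 * (f v' * z).re) _ v :=
    (Complex.reCLM.hasFDerivAt.comp v (df.mul_const z)).const_mul (2 : ℝ)
  have c2 : HasFDerivAt (fun z' => 2 * (f v * z').re) _ z :=
    (Complex.reCLM.hasFDerivAt.comp z
      ((hasFDerivAt_id (𝕜 := ℝ) z).const_mul (f v))).const_mul (2 : ℝ)
  rw [hb, hz, c1.fderiv, c2.fderiv]
  unfold Lam lin pd1 pd2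
  generalize piC a1 a2 (v, (fderiv ℝ U v (1, 0), fderiv ℝ U v (0, 1))) = η
  simp
  ring

/-- The Leibniz rule for the quintic. -/
theorem bracket_quint {a1 a2 x l : ℝ × ℝ → ℂ} {U : ℝ × ℝ → ℝ} (h1 : ContDiff ℝ ∞ a1)
    (h2 : ContDiff ℝ ∞ a2) (h : ∀ v, detR a1 a2 v ≠ 0) (hU : ContDiff ℝ ∞ U)
    (hx : ContDiff ℝ ∞ x) (hl : ContDiff ℝ ∞ l) (w : Ph) :
    bracket (ham a1 a2 U) (quint a1 a2 x l U) w =
      (3 * lin a1 a2 x w ^ 2 * (2 * ham a1 a2 U w) - 3 * lin a1 a2 x w ^ 4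
        + 4 * lin a1 a2 x w ^ 3 * lin a1 a2 l w) * bracket (ham a1 a2 U) (lin a1 a2 x) w
      + lin a1 a2 x w ^ 4 * bracket (ham a1 a2 U) (lin a1 a2 l) w := by
  have dH := ((contDiff_ham h1 h2 h hU).differentiable (by simp) w).hasFDerivAt
  have dx := ((contDiff_lin h1 h2 h hx).differentiable (by simp) w).hasFDerivAt
  have dl := ((contDiff_lin h1 h2 h hl).differentiable (by simp) w).hasFDerivAt
  have dq := ((dx.fun_mul dx).fun_mul dx).fun_mul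
    (((dH.const_mul (2 : ℝ)).fun_sub ((dx.fun_mul dx).const_mul (3 / 5 : ℝ))).fun_add
      (dx.fun_mul dl))
  have he : quint a1 a2 x l U = fun w => lin a1 a2 x w * lin a1 a2 x w * lin a1 a2 x w *
      (2 * ham a1 a2 U w - 3 / 5 * (lin a1 a2 x w * lin a1 a2 x w)
        + lin a1 a2 x w * lin a1 a2 l w) := by
    funext w; unfold quint; ring
  unfold bracket
  rw [he, dq.fderiv]
  simp only [add_apply, sub_apply, smul_apply, smul_eq_mul]
  ring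

private theorem poly_table {q1 q2 A B C U : ℝ × ℝ → ℝ} (hq1 : ContDiff ℝ ∞ q1)
    (hq2 : ContDiff ℝ ∞ q2) (hA : ContDiff ℝ ∞ A) (hB : ContDiff ℝ ∞ B) (hC : ContDiff ℝ ∞ C)
    (hU : ContDiff ℝ ∞ U) :
    ∃ c : ℕ → ℕ → ℝ × ℝ → ℝ, (∀ i j, ContDiff ℝ ∞ (c i j)) ∧ ∀ w : Ph,
      (q1 w.1 * w.2.1 + q2 w.1 * w.2.2) ^ 3 *
        (A w.1 * w.2.1 ^ 2 + B w.1 * (w.2.1 * w.2.2) + C w.1 * w.2.2 ^ 2 + 2 * U w.1) =
      poly 5 c w := by
  refine ⟨fun i j => match i, j with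
    | 3, 0 => fun v => 2 * U v * q1 v ^ 3
    | 2, 1 => fun v => 6 * U v * q1 v ^ 2 * q2 v
    | 1, 2 => fun v => 6 * U v * q1 v * q2 v ^ 2
    | 0, 3 => fun v => 2 * U v * q2 v ^ 3
    | 5, 0 => fun v => q1 v ^ 3 * A v
    | 4, 1 => fun v => q1 v ^ 3 * B v + 3 * q1 v ^ 2 * q2 v * A v
    | 3, 2 => fun v => q1 v ^ 3 * C v + 3 * q1 v ^ 2 * q2 v * B v + 3 * q1 v * q2 v ^ 2 * A v
    | 2, 3 => fun v => 3 * q1 v ^ 2 * q2 v * C v + 3 * q1 v * q2 v ^ 2 * B v + q2 v ^ 3 * A v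
    | 1, 4 => fun v => 3 * q1 v * q2 v ^ 2 * C v + q2 v ^ 3 * B v
    | 0, 5 => fun v => q2 v ^ 3 * C v
    | _, _ => fun _ => 0, ?_, ?_⟩
  · intro i j
    dsimp only
    split <;> fun_prop
  · intro w
    simp only [poly, Finset.sum_range_succ, Finset.sum_range_zero, Nat.reduceAdd, Nat.reduceSub]
    ring

/-- The quintic is a polynomial in the momenta with smooth coefficients. -/
theorem quint_poly {a1 a2 x l : ℝ × ℝ → ℂ} {U : ℝ × ℝ → ℝ} (h1 : ContDiff ℝ ∞ a1)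
    (h2 : ContDiff ℝ ∞ a2) (h : ∀ v, detR a1 a2 v ≠ 0) (hU : ContDiff ℝ ∞ U)
    (hx : ContDiff ℝ ∞ x) (hl : ContDiff ℝ ∞ l) :
    ∃ c : ℕ → ℕ → ℝ × ℝ → ℝ, (∀ i j, ContDiff ℝ ∞ (c i j)) ∧ quint a1 a2 x l U = poly 5 c := by
  have hp := contDiff_piC h1 h2 h
  have hα : ContDiff ℝ ∞ (fun v : ℝ × ℝ => piC a1 a2 (v, (1, 0))) :=
    hp.comp (contDiff_id.prodMk contDiff_const)
  have hβ : ContDiff ℝ ∞ (fun v : ℝ × ℝ => piC a1 a2 (v, (0, 1))) :=
    hp.comp (contDiff_id.prodMk contDiff_const)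
  have hlin : ∀ w : Ph, piC a1 a2 w =
      (w.2.1 : ℂ) * piC a1 a2 (w.1, (1, 0)) + (w.2.2 : ℂ) * piC a1 a2 (w.1, (0, 1)) := by
    intro w
    simp only [piC, ofReal_one, ofReal_zero]
    ring
  have q1 := contDiff_const (c := (2 : ℝ)).mul (contDiff_re' (hx.mul hα))
  have q2 := contDiff_const (c := (2 : ℝ)).mul (contDiff_re' (hx.mul hβ))
  have l1 := contDiff_const (c := (2 : ℝ)).mul (contDiff_re' (hl.mul hα))
  have l2 := contDiff_const (c := (2 : ℝ)).mul (contDiff_re' (hl.mul hβ))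
  have ar := contDiff_re' hα
  have ai := contDiff_im' hα
  have br := contDiff_re' hβ
  have bi := contDiff_im' hβ
  have c35 : ContDiff ℝ ∞ (fun _ : ℝ × ℝ => (3 / 5 : ℝ)) := contDiff_const
  have c2 : ContDiff ℝ ∞ (fun _ : ℝ × ℝ => (2 : ℝ)) := contDiff_const
  obtain ⟨c, hc, he⟩ := poly_table q1 q2
    ((((ar.mul ar).add (ai.mul ai)).sub (c35.mul (q1.mul q1))).add (q1.mul l1))
    (((c2.mul ((ar.mul br).add (ai.mul bi))).sub (c35.mul (c2.mul (q1.mul q2)))).add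
      ((q1.mul l2).add (q2.mul l1)))
    ((((br.mul br).add (bi.mul bi)).sub (c35.mul (q2.mul q2))).add (q2.mul l2)) hU
  refine ⟨c, hc, funext fun w => ?_⟩
  rw [← he w]
  unfold quint ham lin
  rw [hlin w]
  generalize piC a1 a2 (w.1, (1, 0)) = α
  generalize piC a1 a2 (w.1, (0, 1)) = β
  simp only [normSq_apply, mul_re, mul_im, add_re, add_im, ofReal_re, ofReal_im]
  ring

end Pool.Agent.Lib.MP_e941ef_an
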