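import Pool.Agent.Lib.MP_e941ef_an.Defs

namespace Pool.Agent.Lib.MP_e941ef_an

open Complex Metric Set Filter Topology
open scoped ComplexConjugate ContDiff

/-- The real linear map with values `b1`, `b2` on the standard basis. -/
noncomputable def ucForm (b1 b2 : ℂ) : ℝ × ℝ →L[ℝ] ℂ :=
  (ContinuousLinearMap.fst ℝ ℝ ℝ).smulRight b1 + (ContinuousLinearMap.snd ℝ ℝ ℝ).smulRight b2

lemma ucForm_apply (b1 b2 : ℂ) (x : ℝ × ℝ) : ucForm b1 b2 x = x.1 * b1 + x.2 * b2 := by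
  simp [ucForm]

lemma uc_expand (L : ℝ × ℝ →L[ℝ] ℂ) (x : ℝ × ℝ) : L x = x.1 * L (1, 0) + x.2 * L (0, 1) := by
  have : x = x.1 • ((1 : ℝ), (0 : ℝ)) + x.2 • ((0 : ℝ), (1 : ℝ)) := by simp
  conv_lhs => rw [this, map_add, map_smul, map_smul]
  simp

lemma ucForm_equiv {b1 b2 : ℂ} (h : (b1 * conj b2).im ≠ 0) :
    ∃ e : (ℝ × ℝ) ≃L[ℝ] ℂ, (e : ℝ × ℝ →L[ℝ] ℂ) = ucForm b1 b2 := by
  have inj : Function.Injective (ucForm b1 b2 : ℝ × ℝ →ₗ[ℝ] ℂ) := by
    rw [injective_iff_map_eq_zero]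
    rintro ⟨x, y⟩ hx
    have hx' : (x : ℂ) * b1 + y * b2 = 0 := (ucForm_apply b1 b2 (x, y)).symm.trans hx
    have r := congrArg re hx'
    have i := congrArg im hx'
    simp at r i h
    have h' : b1.im * b2.re - b1.re * b2.im ≠ 0 := fun e => h (by linarith)
    have hx0 : x = 0 := (mul_eq_zero.1 (show x * (b1.im * b2.re - b1.re * b2.im) = 0 by
      linear_combination b2.re * i - b2.im * r)).resolve_right h'
    have hy0 : y = 0 := (mul_eq_zero.1 (show y * (b1.im * b2.re - b1.re * b2.im) = 0 by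
      linear_combination b1.im * r - b1.re * i)).resolve_right h'
    simp [hx0, hy0]
  refine ⟨(LinearMap.linearEquivOfInjective _ inj (by simp)).toContinuousLinearEquiv, ?_⟩
  ext <;> rfl

lemma ucForm_diff {b1 b2 : ℝ × ℝ → ℂ} {v : ℝ × ℝ} (h1 : DifferentiableAt ℝ b1 v)
    (h2 : DifferentiableAt ℝ b2 v) : DifferentiableAt ℝ (fun u => ucForm (b1 u) (b2 u)) v := by
  refine DifferentiableAt.add ?_ ?_
  · exact (ContinuousLinearMap.smulRightL ℝ (ℝ × ℝ) ℂ
      (ContinuousLinearMap.fst ℝ ℝ ℝ)).differentiableAt.comp v h1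
  · exact (ContinuousLinearMap.smulRightL ℝ (ℝ × ℝ) ℂ
      (ContinuousLinearMap.snd ℝ ℝ ℝ)).differentiableAt.comp v h2

lemma ucForm_fderiv {b1 b2 : ℝ × ℝ → ℂ} {v : ℝ × ℝ} (h1 : DifferentiableAt ℝ b1 v)
    (h2 : DifferentiableAt ℝ b2 v) (x y : ℝ × ℝ) :
    fderiv ℝ (fun u => ucForm (b1 u) (b2 u)) v x y =
      y.1 * fderiv ℝ b1 v x + y.2 * fderiv ℝ b2 v x := by
  have e1 := fderiv_clm_apply (ucForm_diff h1 h2) (differentiableAt_const y)
  have e2 : HasFDerivAt (fun u => ucForm (b1 u) (b2 u) y)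
      ((y.1 : ℂ) • fderiv ℝ b1 v + (y.2 : ℂ) • fderiv ℝ b2 v) v := by
    simp only [ucForm_apply]
    exact (h1.hasFDerivAt.const_mul _).add (h2.hasFDerivAt.const_mul _)
  have := congrArg (fun L => L x) (e1.symm.trans e2.fderiv)
  simpa using this

lemma uc_coord {a1 a2 F : ℝ × ℝ → ℂ} (h1 : ContDiff ℝ ∞ a1) (h2 : ContDiff ℝ ∞ a2)
    (hF : ContDiff ℝ ∞ F) (hFe : ∀ v, wedge a1 a2 F v = 5 * curl a1 a2 v * F v)
    {v₁ : ℝ × ℝ} (hv : F v₁ ≠ 0) :
    ∃ (N : Set (ℝ × ℝ)) (κ W : ℝ × ℝ → ℂ), IsOpen N ∧ v₁ ∈ N ∧ ∀ v ∈ N, F v ≠ 0 ∧ κ v ≠ 0 ∧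
      HasStrictFDerivAt W (ucForm (κ v * a1 v) (κ v * a2 v)) v := by
  have d1 : Differentiable ℝ a1 := h1.differentiable (by simp)
  have d2 : Differentiable ℝ a2 := h2.differentiable (by simp)
  have dF : Differentiable ℝ F := hF.differentiable (by simp)
  have hs : ∀ᶠ v in 𝓝 v₁, F v / F v₁ ∈ slitPlane := by
    have c : ContinuousAt (fun v => F v / F v₁) v₁ := (dF.continuous.div_const _).continuousAt
    exact c.preimage_mem_nhds (isOpen_slitPlane.mem_nhds (by simp [div_self hv]))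
  obtain ⟨r, hr, hb⟩ := Metric.eventually_nhds_iff_ball.1 hs
  let κ : ℝ × ℝ → ℂ := fun v => exp (-(1 / 5) * log (F v / F v₁))
  have hF0 : ∀ v ∈ ball v₁ r, F v ≠ 0 := fun v hv' e =>
    slitPlane_ne_zero (hb v hv') (by simp [e])
  have hκ : ∀ v ∈ ball v₁ r, HasFDerivAt κ ((-(κ v) / (5 * F v)) • fderiv ℝ F v) v := by
    intro v hv'
    have e0 : HasDerivAt (fun z : ℂ => z / F v₁) (1 / F v₁) (F v) :=
      (hasDerivAt_id (F v)).div_const _
    have e1 := ((e0.clog (hb v hv')).const_mul (-(1 / 5))).cexp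
    have e2 := e1.hasFDerivAt.restrictScalars ℝ |>.comp v (dF v).hasFDerivAt
    refine e2.congr_fderiv ?_
    have := hF0 v hv'
    ext <;> simp [κ] <;> field_simp
  have db1 : ∀ v ∈ ball v₁ r, DifferentiableAt ℝ (fun u => κ u * a1 u) v := fun v hv' =>
    (hκ v hv').differentiableAt.mul (d1 v)
  have db2 : ∀ v ∈ ball v₁ r, DifferentiableAt ℝ (fun u => κ u * a2 u) v := fun v hv' =>
    (hκ v hv').differentiableAt.mul (d2 v)
  obtain ⟨W, hW⟩ := (convex_ball v₁ r).exists_forall_hasFDerivAt_of_fderiv_symmetric isOpen_ball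
    (show DifferentiableOn ℝ (fun u => ucForm (κ u * a1 u) (κ u * a2 u)) (ball v₁ r) from
      fun v hv' => (ucForm_diff (db1 v hv') (db2 v hv')).differentiableWithinAt) fun v hv' x y => by
      rw [ucForm_fderiv (db1 v hv') (db2 v hv'), ucForm_fderiv (db1 v hv') (db2 v hv'),
        uc_expand _ x, uc_expand (fderiv ℝ (fun u => κ u * a2 u) v) x, uc_expand _ y,
        uc_expand (fderiv ℝ (fun u => κ u * a2 u) v) y]
      have key : fderiv ℝ (fun u => κ u * a2 u) v (1, 0) =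
          fderiv ℝ (fun u => κ u * a1 u) v (0, 1) := by
        rw [((hκ v hv').fun_mul (d2 v).hasFDerivAt).fderiv,
          ((hκ v hv').fun_mul (d1 v).hasFDerivAt).fderiv]
        have e := hFe v
        have := hF0 v hv'
        simp only [wedge, curl, pd1, pd2] at e
        simp only [add_apply, smul_apply, smul_eq_mul]
        field_simp
        linear_combination -κ v * e
      rw [key]
      ring
  refine ⟨ball v₁ r, κ, W, isOpen_ball, mem_ball_self hr, fun v hv' =>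
    ⟨hF0 v hv', exp_ne_zero _, ?_⟩⟩
  exact hasStrictFDerivAt_of_hasFDerivAt_of_continuousAt
    (f' := fun u => ucForm (κ u * a1 u) (κ u * a2 u))
    (Filter.mem_of_superset (isOpen_ball.mem_nhds hv') hW)
    (ucForm_diff (db1 v hv') (db2 v hv')).continuousAt

lemma uc_local {a1 a2 F : ℝ × ℝ → ℂ} (h1 : ContDiff ℝ ∞ a1) (h2 : ContDiff ℝ ∞ a2)
    (h : ∀ v, detR a1 a2 v ≠ 0) (hF : ContDiff ℝ ∞ F)
    (hFe : ∀ v, wedge a1 a2 F v = 5 * curl a1 a2 v * F v)
    {g : ℝ × ℝ → ℂ} (hg : ∀ v, F v ≠ 0 → DifferentiableAt ℝ g v)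
    (hge : ∀ v, F v ≠ 0 → wedge a1 a2 g v = 0) {v₁ : ℝ × ℝ} (hv : F v₁ ≠ 0) {C : ℂ}
    (hC : ∃ᶠ v in 𝓝[≠] v₁, g v = C) : ∀ᶠ v in 𝓝 v₁, g v = C := by
  obtain ⟨N, κ, W, ho, hm, hN⟩ := uc_coord h1 h2 hF hFe hv
  have hd : ∀ v ∈ N, (κ v * a1 v * conj (κ v * a2 v)).im ≠ 0 := fun v hv' e => by
    have e1 : κ v * a1 v * conj (κ v * a2 v) = (normSq (κ v) : ℂ) * (a1 v * conj (a2 v)) := by
      rw [map_mul, ← mul_conj]; ring
    rw [e1, im_ofReal_mul] at e
    rcases mul_eq_zero.1 e with e | e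
    · exact (hN v hv').2.1 (normSq_eq_zero.1 e)
    · exact h v (by simp only [detR, e, mul_zero])
  choose E hE using fun v hv' => ucForm_equiv (hd v hv')
  have hW : ∀ v (hv' : v ∈ N), HasStrictFDerivAt W (E v hv' : ℝ × ℝ →L[ℝ] ℂ) v := fun v hv' => by
    rw [hE]; exact (hN v hv').2.2
  let e := (hW v₁ hm).toOpenPartialHomeomorph W
  have es : v₁ ∈ e.source := (hW v₁ hm).mem_toOpenPartialHomeomorph_source
  have et : e v₁ ∈ e.target := e.map_source es
  have hT : IsOpen (e.target ∩ e.symm ⁻¹' N) := e.isOpen_inter_preimage_symm ho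
  have an : AnalyticAt ℂ (g ∘ e.symm) (e v₁) := by
    refine DifferentiableOn.analyticAt (s := e.target ∩ e.symm ⁻¹' N) ?_
      (hT.mem_nhds ⟨et, by simpa [e.left_inv es] using hm⟩)
    rintro w ⟨hw, hw'⟩
    set v := e.symm w
    have s1 := e.hasFDerivAt_symm hw (hW v hw').hasFDerivAt
    have s2 := (hg v (hN v hw').1).hasFDerivAt.comp w s1
    have nz : a1 v ≠ 0 := fun e0 => h v (by simp [detR, e0])
    have nk := (hN v hw').2.1
    have s3 : ∀ x, fderiv ℝ g v x = pd1 g v / (κ v * a1 v) * E v hw' x := fun x => by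
      have e1 : E v hw' x = ucForm (κ v * a1 v) (κ v * a2 v) x := by rw [← hE]; rfl
      have e2 := hge v (hN v hw').1
      rw [e1, ucForm_apply, uc_expand]
      simp only [wedge, pd1, pd2] at e2 ⊢
      field_simp
      linear_combination (-x.2 : ℂ) * e2
    refine (hasFDerivAt_of_restrictScalars ℝ
      (f' := (pd1 g v / (κ v * a1 v)) • ContinuousLinearMap.id ℂ ℂ) s2 ?_).differentiableAt
      |>.differentiableWithinAt
    refine ContinuousLinearMap.ext fun z => ?_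
    simp [s3]
  have lv : ∀ᶠ v in 𝓝 v₁, (g ∘ e.symm) (e v) = g v :=
    Filter.mem_of_superset (e.open_source.mem_nhds es) fun v hv' => by
      simp [e.left_inv hv']
  have fr : ∃ᶠ w in 𝓝[≠] (e v₁), (g ∘ e.symm) w = C := by
    have t : Tendsto e (𝓝[≠] v₁) (𝓝[≠] (e v₁)) := by
      refine tendsto_nhdsWithin_iff.2 ⟨(e.continuousAt es).tendsto.mono_left nhdsWithin_le_nhds, ?_⟩
      filter_upwards [self_mem_nhdsWithin, nhdsWithin_le_nhds (e.open_source.mem_nhds es)]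
        with v a b c using a (e.injOn b es c)
    refine t.frequently ((hC.and_eventually (nhdsWithin_le_nhds lv)).mono fun v hv' => ?_)
    exact hv'.2.trans hv'.1
  have ev := (an.frequently_eq_iff_eventually_eq analyticAt_const).1 fr
  filter_upwards [(e.continuousAt es).tendsto.eventually ev, lv] with v a b using b.symm.trans a

/-- Unique continuation: where a nonvanishing section `F` with `dF ∧ a = 5 F da` exists, the form
`a / F ^ (1/5)` is closed and gives local holomorphic coordinates. -/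
theorem unique_continuation {a1 a2 F : ℝ × ℝ → ℂ} (h1 : ContDiff ℝ ∞ a1) (h2 : ContDiff ℝ ∞ a2)
    (h : ∀ v, detR a1 a2 v ≠ 0) (hF : ContDiff ℝ ∞ F)
    (hFe : ∀ v, wedge a1 a2 F v = 5 * curl a1 a2 v * F v) (hZ : {v | F v = 0}.Countable)
    {g : ℝ × ℝ → ℂ} (hg : ∀ v, F v ≠ 0 → DifferentiableAt ℝ g v)
    (hge : ∀ v, F v ≠ 0 → wedge a1 a2 g v = 0) {v₀ : ℝ × ℝ} (hv₀ : F v₀ ≠ 0) {C : ℂ}
    (hC : ∀ᶠ v in 𝓝 v₀, g v = C) : ∀ v, F v ≠ 0 → g v = C := by
  have con : IsPreconnected {v | F v = 0}ᶜ :=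
    (hZ.isConnected_compl_of_one_lt_rank (by simp; norm_num)).isPreconnected
  have := con.subset_of_closure_inter_subset (u := {v | ∀ᶠ u in 𝓝 v, g u = C})
    isOpen_setOfPred_eventually_nhds ⟨v₀, hv₀, hC⟩ fun v hv => by
      by_contra hc
      refine hc (uc_local h1 h2 h hF hFe hg hge hv.2 ?_)
      have := mem_closure_iff_frequently.1 hv.1
      rw [frequently_nhdsWithin_iff]
      exact this.mono fun u hu => ⟨hu.self_of_nhds, fun e => hc (e ▸ hu)⟩
  exact fun v hv => (this hv).self_of_nhds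

lemma uc_taylor {g : ℝ → ℂ} (hg : ContDiff ℝ ∞ g) (m : ℕ)
    (h : ∀ i < m, iteratedDeriv i g 0 = 0) :
    Tendsto (fun t : ℝ => g t / (t : ℂ) ^ m) (𝓝[≠] 0)
      (𝓝 (iteratedDeriv m g 0 / (m.factorial : ℂ))) := by
  have t := taylor_isLittleO_univ (x₀ := 0) (n := m) (hg.of_le (by exact_mod_cast le_top))
  have e : ∀ x : ℝ, taylorWithinEval g m univ 0 x =
      (x : ℂ) ^ m * (iteratedDeriv m g 0 / (m.factorial : ℂ)) := fun x => by
    rw [taylor_within_apply, Finset.sum_range_succ, Finset.sum_eq_zero]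
    · simp [iteratedDerivWithin_univ]; ring
    · intro i hi
      simp [iteratedDerivWithin_univ, h i (Finset.mem_range.1 hi)]
  simp only [e, sub_zero] at t
  have t2 : (fun x : ℝ => g x - (x : ℂ) ^ m * (iteratedDeriv m g 0 / (m.factorial : ℂ)))
      =o[𝓝 0] fun x : ℝ => (x : ℂ) ^ m := by
    refine t.trans_isBigO (Asymptotics.isBigO_of_le _ fun x => ?_)
    simp
  have t3 := (t2.tendsto_div_nhds_zero.mono_left
    (nhdsWithin_le_nhds (s := {0}ᶜ))).add_const (iteratedDeriv m g 0 / (m.factorial : ℂ))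
  rw [zero_add] at t3
  refine t3.congr' (Filter.mem_of_superset self_mem_nhdsWithin fun x hx => ?_)
  have : (x : ℂ) ≠ 0 := ofReal_ne_zero.2 hx
  simp only [mem_ofPred_eq]
  field_simp
  ring

/-- A smooth function cannot vanish to a fractional order. -/
theorem no_fractional_order {g k : ℝ → ℂ} (hg : ContDiff ℝ ∞ g) (hk : ContinuousAt k 0)
    {n : ℕ} (hn₁ : 1 ≤ n) (hn₄ : n ≤ 4)
    (h : ∀ᶠ t in 𝓝 (0 : ℝ), g t ^ 5 = (t : ℂ) ^ (4 * n) * k t) : k 0 = 0 := by
  classical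
  obtain ⟨m, c, hc, hm⟩ : ∃ (m : ℕ) (c : ℂ), (m < 4 → c ≠ 0) ∧ m ≤ 4 ∧
      Tendsto (fun t : ℝ => g t / (t : ℂ) ^ m) (𝓝[≠] 0) (𝓝 c) := by
    have ex : ∃ m, m = 4 ∨ iteratedDeriv m g 0 ≠ 0 := ⟨4, Or.inl rfl⟩
    refine ⟨Nat.find ex, _, fun l => ?_, Nat.find_min' ex (Or.inl rfl),
      uc_taylor hg _ fun i hi => ?_⟩
    · exact div_ne_zero ((Nat.find_spec ex).resolve_left l.ne)
        (Nat.cast_ne_zero.2 (Nat.factorial_ne_zero _))
    · by_contra hc
      exact Nat.find_min ex hi (Or.inr hc)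
  obtain ⟨hm, ht⟩ := hm
  have t0 : ∀ j : ℕ, j ≠ 0 → Tendsto (fun t : ℝ => (t : ℂ) ^ j) (𝓝[≠] 0) (𝓝 0) := fun j hj => by
    have c : Continuous fun t : ℝ => (t : ℂ) ^ j := by fun_prop
    simpa [hj] using (c.tendsto 0).mono_left (nhdsWithin_le_nhds (s := {0}ᶜ))
  have tk : Tendsto k (𝓝[≠] 0) (𝓝 (k 0)) := hk.tendsto.mono_left nhdsWithin_le_nhds
  rcases lt_trichotomy (5 * m) (4 * n) with l | l | l
  · obtain ⟨j, hj⟩ := Nat.exists_eq_add_of_lt l
    have a := (t0 (j + 1) (by simp)).mul tk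
    have b : Tendsto (fun t : ℝ => (t : ℂ) ^ (j + 1) * k t) (𝓝[≠] 0) (𝓝 (c ^ 5)) := by
      refine (ht.pow 5).congr' ?_
      filter_upwards [self_mem_nhdsWithin, nhdsWithin_le_nhds h] with t h0 e
      have : (t : ℂ) ≠ 0 := ofReal_ne_zero.2 h0
      rw [div_pow, e, hj]
      field_simp
      ring
    have := tendsto_nhds_unique a b
    exact absurd (pow_eq_zero_iff (by norm_num) |>.1 (this.symm.trans (zero_mul _)))
      (hc (by omega))
  · omega
  · obtain ⟨j, hj⟩ := Nat.exists_eq_add_of_lt l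
    have a := (t0 (j + 1) (by simp)).mul (ht.pow 5)
    rw [zero_mul] at a
    refine tendsto_nhds_unique tk (a.congr' ?_)
    filter_upwards [self_mem_nhdsWithin, nhdsWithin_le_nhds h] with t h0 e
    have : (t : ℂ) ≠ 0 := ofReal_ne_zero.2 h0
    rw [div_pow, e, ← pow_mul, mul_comm m 5, hj]
    field_simp
    ring

/-- A real function killed by `· ∧ a` is constant. -/
theorem const_of_wedge {a1 a2 g : ℝ × ℝ → ℂ} (h : ∀ v, detR a1 a2 v ≠ 0)
    (hg : Differentiable ℝ g) (hr : ∀ v, conj (g v) = g v) (hge : ∀ v, wedge a1 a2 g v = 0) :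
    ∃ C : ℝ, ∀ v, g v = C := by
  have him : ∀ v x, (fderiv ℝ g v x).im = 0 := fun v x => by
    have e1 := (imCLM.hasFDerivAt.comp v (hg v).hasFDerivAt).fderiv
    have e2 : (imCLM ∘ g) = fun _ => 0 := funext fun u => conj_eq_iff_im.1 (hr u)
    rw [e2] at e1
    simpa using (congrArg (fun L => L x) e1).symm
  have hz : ∀ v, fderiv ℝ g v = 0 := fun v => by
    have e := hge v
    have d := h v
    have r := congrArg re e
    have i := congrArg im e
    simp only [wedge, pd1, pd2, sub_re, sub_im, mul_re, mul_im, him, zero_re, zero_im] at r i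
    simp only [detR, mul_im, conj_re, conj_im] at d
    have p1 : (fderiv ℝ g v (1, 0)).re = 0 := 
      (mul_eq_zero_iff_right d).1 (by linear_combination 2 * (a1 v).im * r - 2 * (a1 v).re * i)
    have p2 : (fderiv ℝ g v (0, 1)).re = 0 := 
      (mul_eq_zero_iff_right d).1 (by linear_combination 2 * (a2 v).im * r - 2 * (a2 v).re * i)
    refine ContinuousLinearMap.ext fun x => ?_
    rw [uc_expand, Complex.ext (w := 0) p1 (him _ _), Complex.ext (w := 0) p2 (him _ _)]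
    simp
  refine ⟨(g 0).re, fun v => ?_⟩
  rw [is_const_of_fderiv_eq_zero hg hz v 0]
  exact (conj_eq_iff_re.1 (hr 0)).symm

end Pool.Agent.Lib.MP_e941ef_an
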