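import Pool.Agent.Lib.MP_e941ef_an.Rec
import Pool.Agent.Lib.MP_e941ef_an.UC
import Pool.Agent.Lib.MP_e941ef_an.Band

namespace Pool.Agent.Lib.MP_e941ef_an

open Complex Metric Set Filter Topology
open scoped ComplexConjugate ContDiff

theorem contDiff_pot : ContDiff ℝ ∞ (fun v : ℝ × ℝ => pot (RR v)) := by
  refine expNegInvGlue.contDiff.comp (f := fun v : ℝ × ℝ => -tt (RR v) - 2 / 3) ?_
  unfold tt RR
  refine (ContDiff.div (by fun_prop) (by fun_prop) fun v => ?_).neg.sub contDiff_const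
  positivity

namespace NLAux

variable {a1 a2 f g : ℝ × ℝ → ℂ} {v : ℝ × ℝ}

lemma wedge_zero : wedge a1 a2 0 v = 0 := by simp [wedge, pd1, pd2]

lemma wedge_mul (hf : DifferentiableAt ℝ f v) (hg : DifferentiableAt ℝ g v) :
    wedge a1 a2 (fun v => f v * g v) v = wedge a1 a2 f v * g v + f v * wedge a1 a2 g v := by
  simp only [wedge, pd1, pd2, fderiv_fun_mul hf hg, add_apply, smul_apply, smul_eq_mul]
  ring

lemma wedge_sub (hf : DifferentiableAt ℝ f v) (hg : DifferentiableAt ℝ g v) :
    wedge a1 a2 (fun v => f v - g v) v = wedge a1 a2 f v - wedge a1 a2 g v := by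
  simp only [wedge, pd1, pd2, fderiv_fun_sub hf hg, sub_apply]
  ring

lemma wedge_const (c : ℂ) : wedge a1 a2 (fun _ => c) v = 0 := by simp [wedge, pd1, pd2]

lemma wedge_pow (hf : DifferentiableAt ℝ f v) (n : ℕ) :
    wedge a1 a2 (fun v => f v ^ (n + 1)) v = (n + 1) * f v ^ n * wedge a1 a2 f v := by
  induction n with
  | zero => simp
  | succ n ih =>
    have e : (fun v => f v ^ (n + 1 + 1)) = fun v => f v ^ (n + 1) * f v := by
      funext v; rw [pow_succ]
    rw [e, wedge_mul (hf.fun_pow _) hf, ih]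
    push_cast
    ring

lemma wedge_div (hf : DifferentiableAt ℝ f v) (hg : DifferentiableAt ℝ g v) (h0 : g v ≠ 0)
    (h : wedge a1 a2 f v * g v = f v * wedge a1 a2 g v) :
    wedge a1 a2 (fun v => f v / g v) v = 0 := by
  have hq : DifferentiableAt ℝ (fun v => f v / g v) v := by
    simp only [div_eq_mul_inv]
    exact hf.fun_mul (hg.fun_inv h0)
  have hev : f =ᶠ[𝓝 v] fun v => f v / g v * g v := by
    filter_upwards [hg.continuousAt.eventually_ne h0] with u hu
    rw [div_mul_cancel₀ _ hu]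
  have h1 : wedge a1 a2 f v = wedge a1 a2 (fun v => f v / g v * g v) v := by
    simp only [wedge, pd1, pd2, ← hev.fderiv_eq]
  rw [wedge_mul hq hg] at h1
  have h2 : wedge a1 a2 (fun v => f v / g v) v * (g v * g v) = 0 := by
    have e : f v / g v * g v = f v := div_mul_cancel₀ _ h0
    linear_combination h - g v * h1 - wedge a1 a2 g v * e
  exact (mul_eq_zero.1 h2).resolve_right (mul_ne_zero h0 h0)

lemma extract_five {e : ℕ → ℂ} (h : ∀ z : ℂ, ∑ j ∈ Finset.range 6, e j * z ^ j = 0) : e 5 = 0 := by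
  have := extract_complex (N := 6) (e := fun j k => if k = 0 then e j else 0) (fun z => by
    refine Eq.trans ?_ (h z)
    simp [Finset.sum_range_succ]) (j := 5) (k := 0) (by norm_num)
  simpa using this

lemma two_re (u z : ℂ) : ((2 * (u * z).re : ℝ) : ℂ) = u * z + conj u * conj z := by
  rw [← map_mul, add_conj]

end NLAux

open NLAux

/-- The top coefficient of the quintic is a holomorphic section. -/
theorem F5_eq (D : Data) (v : ℝ × ℝ) :
    wedge D.a1 D.a2 (fun v => D.x v ^ 4 * (D.l v - 3 / 5 * D.x v)) v =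
      5 * curl D.a1 D.a2 v * (D.x v ^ 4 * (D.l v - 3 / 5 * D.x v)) := by
  obtain ⟨c, hc, hq⟩ := quint_poly D.sa1 D.sa2 D.nondeg contDiff_pot D.sx D.sl
  obtain ⟨φ, -, hz, -, hexp, -, hrec, -⟩ := recurrences D.sa1 D.sa2 D.nondeg contDiff_pot hc
    (fun w => by rw [← hq]; exact D.integral w)
  have h5 : φ 5 0 = fun v => D.x v ^ 4 * (D.l v - 3 / 5 * D.x v) := by
    funext v
    have key := entire_conj (f := fun p : ℂ × ℂ =>
      ∑ j ∈ Finset.range 6, ∑ k ∈ Finset.range (6 - j), φ j k v * p.1 ^ j * p.2 ^ k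
        - (D.x v * p.1 + conj (D.x v) * p.2) ^ 3 * (p.1 * p.2 + 2 * (pot (RR v) : ℂ)
          - 3 / 5 * (D.x v * p.1 + conj (D.x v) * p.2) ^ 2
          + (D.x v * p.1 + conj (D.x v) * p.2) * (D.l v * p.1 + conj (D.l v) * p.2)))
      (by fun_prop) (fun z => by
        simp only
        rw [← hexp, ← hq, ← two_re, ← two_re, mul_conj]
        simp only [quint, lin, ham, piC_cov (D.nondeg v)]
        push_cast
        ring)
    have := extract_five (e := fun j => φ j 0 v
      - (if j = 3 then 2 * (pot (RR v) : ℂ) * D.x v ^ 3 else 0)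
      - (if j = 5 then D.x v ^ 4 * (D.l v - 3 / 5 * D.x v) else 0)) fun z => by
        refine Eq.trans ?_ (key (z, 0))
        simp [Finset.sum_range_succ]
        ring
    simpa [sub_eq_zero] using this
  have := hrec 5 v
  rw [hz 7 0 (by norm_num), hz 6 1 (by norm_num), h5] at this
  simp only [Pi.zero_apply, mul_zero, sub_zero, add_zero] at this
  push_cast at this
  linear_combination -this

/-- A holomorphic section of weight `1 ≤ n ≤ 4` that is rotation invariant on the band vanishes. -/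
theorem vanish (D : Data) {n : ℕ} (hn₁ : 1 ≤ n) (hn₄ : n ≤ 4) {g : ℝ × ℝ → ℂ}
    (hg : ContDiff ℝ ∞ g) (hge : ∀ v, wedge D.a1 D.a2 g v = n * curl D.a1 D.a2 v * g v) {C : ℂ}
    (hC : ∀ v, 2 < RR v → RR v < 3 → g v = C * (VV v / (Real.sqrt (RR v) : ℂ)) ^ n) :
    g = 0 := by
  set F : ℝ × ℝ → ℂ := fun v => D.x v ^ 4 * (D.l v - 3 / 5 * D.x v) with hFdef
  have hF : ContDiff ℝ ∞ F := (D.sx.pow 4).mul (D.sl.sub (contDiff_const.mul D.sx))
  have hFd : Differentiable ℝ F := hF.differentiable (by simp)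
  have hgd : Differentiable ℝ g := hg.differentiable (by simp)
  obtain ⟨m, rfl⟩ : ∃ m, n = m + 1 := ⟨n - 1, by omega⟩
  have hband : ∀ v, 2 < RR v → RR v < 3 →
      F v = -3 / 5120 * (VV v / (√(RR v) : ℂ)) ^ 5 ∧ VV v / (√(RR v) : ℂ) ≠ 0 := fun v h2 h3 => by
    obtain ⟨-, -, hx, hl⟩ := D.band v h2 h3
    refine ⟨?_, right_ne_zero_of_mul_eq_one (BandAux.unit_mul (by linarith))⟩
    simp only [hFdef, hx, hl]
    ring
  have hRR : Continuous RR := by unfold RR; fun_prop
  have hv₀ : ∀ᶠ v in 𝓝 ((3 / 2, 0) : ℝ × ℝ), 2 < RR v ∧ RR v < 3 :=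
    (hRR.continuousAt.eventually (lt_mem_nhds (by norm_num [RR]))).and
      (hRR.continuousAt.eventually (gt_mem_nhds (by norm_num [RR])))
  have hne : ∀ v, 2 < RR v → RR v < 3 → F v ≠ 0 := fun v h2 h3 => by
    rw [(hband v h2 h3).1]
    exact mul_ne_zero (by norm_num) (pow_ne_zero _ (hband v h2 h3).2)
  have huc := unique_continuation D.sa1 D.sa2 D.nondeg hF (F5_eq D) D.zeros
    (g := fun v => g v ^ (4 + 1) / F v ^ (m + 1))
    (fun v hv => by
      simp only [div_eq_mul_inv]
      exact ((hgd v).fun_pow _).fun_mul (((hFd v).fun_pow _).fun_inv (pow_ne_zero _ hv)))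
    (fun v hv => by
      refine wedge_div ((hgd v).fun_pow _) ((hFd v).fun_pow _) (pow_ne_zero _ hv) ?_
      rw [wedge_pow (hgd v), wedge_pow (hFd v), hge, F5_eq D v]
      push_cast
      ring)
    (v₀ := (3 / 2, 0)) (hne _ hv₀.self_of_nhds.1 hv₀.self_of_nhds.2)
    (C := C ^ 5 / (-3 / 5120) ^ (m + 1)) (by
      filter_upwards [hv₀] with v hv
      rw [hC v hv.1 hv.2, (hband v hv.1 hv.2).1]
      have := (hband v hv.1 hv.2).2
      generalize VV v / (√(RR v) : ℂ) = u at *
      rw [mul_pow, mul_pow, ← pow_mul, ← pow_mul, mul_comm (m + 1) (4 + 1)]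
      exact mul_div_mul_right _ _ (pow_ne_zero _ this))
  generalize C ^ 5 / (-3 / 5120) ^ (m + 1) = C' at huc
  have hall : (fun v => g v ^ 5) = fun v => C' * F v ^ (m + 1) := by
    refine Continuous.ext_on (D.zeros.dense_compl ℝ) (hg.continuous.pow 5)
      (continuous_const.mul (hF.continuous.pow _)) fun v hv => ?_
    have hv' : F v ≠ 0 := hv
    exact (div_eq_iff (pow_ne_zero _ hv')).1 (huc v hv')
  have hι : ContDiff ℝ ∞ fun t : ℝ => ((t, 0) : ℝ × ℝ) := by fun_prop
  have hk : ContinuousAt (fun t : ℝ => kapS (RR (t, 0))) 0 := by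
    have h1 : ContinuousAt (fun t : ℝ => tt (RR (t, 0))) 0 := by
      unfold tt RR
      exact ContinuousAt.div (by fun_prop) (by fun_prop) (by norm_num)
    unfold kapS
    refine ContinuousAt.div continuousAt_const (ContinuousAt.mul (by unfold RR; fun_prop)
      (continuousAt_const.sub (h1.pow 2))) ?_
    norm_num [tt, RR]
  have h0 := no_fractional_order (g := fun t : ℝ => g (t, 0))
    (k := fun t : ℝ => C' * ((kapS (RR (t, 0)) : ℂ) ^ 4 *
      (D.l (t, 0) - 3 / 5 * D.x (t, 0))) ^ (m + 1)) (hg.comp hι) (by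
      refine continuousAt_const.mul (ContinuousAt.pow (ContinuousAt.mul
        ((continuous_ofReal.continuousAt.comp hk).pow 4) ?_) _)
      exact ((D.sl.continuous.comp hι.continuous).sub
        (continuous_const.mul (D.sx.continuous.comp hι.continuous))).continuousAt)
    hn₁ hn₄ (by
      have hlt : ∀ᶠ t in 𝓝 (0 : ℝ), RR (t, 0) < 1 :=
        (hRR.comp hι.continuous).continuousAt.eventually (gt_mem_nhds (by norm_num [RR]))
      filter_upwards [hlt] with t ht
      have e : D.x (t, 0) ^ 4 = (t : ℂ) ^ 4 * (kapS (RR (t, 0)) : ℂ) ^ 4 := by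
        rw [D.near _ ht, xS, mul_pow]; simp [VV]
      rw [congrFun hall (t, 0)]
      simp only [hFdef, e]
      rw [pow_mul, mul_assoc, mul_pow]
      ring)
  have hx0 : D.x (0, 0) = 0 := by rw [D.near _ (by norm_num [RR])]; simp [xS, VV]
  have hk0 : kapS (RR (0, 0)) = 2 := by norm_num [kapS, tt, RR]
  have hl0 : D.l (0, 0) ≠ 0 := D.pole
  simp only [hx0, hk0, mul_zero, sub_zero] at h0
  have hC' : C' = 0 := (mul_eq_zero.1 h0).resolve_right
    (pow_ne_zero _ (mul_ne_zero (by norm_num) hl0))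
  funext v
  have := congrFun hall v
  rw [hC', zero_mul] at this
  exact pow_eq_zero_iff (by norm_num) |>.1 this

/-- Every polynomial integral of degree at most `4` is a polynomial in the Hamiltonian. -/
theorem no_lower (D : Data) {d : ℕ} (hd : d ≤ 4) {c : ℕ → ℕ → ℝ × ℝ → ℝ}
    (hc : ∀ i j, ContDiff ℝ ∞ (c i j))
    (hint : ∀ w, bracket (ham D.a1 D.a2 (fun v => pot (RR v))) (poly d c) w = 0) :
    ∃ c₀ c₁ c₂ : ℝ, ∀ w, poly d c w = c₀ + c₁ * ham D.a1 D.a2 (fun v => pot (RR v)) w
      + c₂ * ham D.a1 D.a2 (fun v => pot (RR v)) w ^ 2 := by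
  obtain ⟨c', hc', h5, he⟩ := poly_pad hd hc
  rw [he] at hint ⊢
  obtain ⟨φ, hs, hz, hz5, hexp, hsym, r1, r2⟩ :=
    recurrences D.sa1 D.sa2 D.nondeg contDiff_pot hc' hint
  have hz' : ∀ j k, 5 ≤ j + k → φ j k = 0 := fun j k h =>
    h.lt_or_eq.elim (hz j k) fun h => hz5 h5 j k h.symm
  have hv₀ : 2 < RR (3 / 2, 0) ∧ RR (3 / 2, 0) < 3 := by norm_num [RR]
  have kill : ∀ n k, 1 ≤ n → n + k + k ≤ 4 →
      (∀ v, wedge D.a1 D.a2 (φ (n + k) k) v = n * curl D.a1 D.a2 v * φ (n + k) k v) →
      φ (n + k) k = 0 := fun n k h1 h4 hw => by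
    set u₀ := VV (3 / 2, 0) / (√(RR (3 / 2, 0)) : ℂ) with hu₀
    refine vanish D h1 (by omega) (hs _ _) hw (C := φ (n + k) k (3 / 2, 0) * conj u₀ ^ n)
      fun v h2 h3 => ?_
    set u := VV v / (√(RR v) : ℂ) with hu
    have e0 : conj u₀ * u₀ = 1 := BandAux.unit_mul (by linarith [hv₀.1])
    have e1 : conj u * u = 1 := BandAux.unit_mul (by linarith)
    have := extract_complex (N := 6) (e := fun j k => φ j k v
      - φ j k (3 / 2, 0) * (u * conj u₀) ^ j * (conj u * u₀) ^ k) (fun z => by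
        have h := congrArg (fun x : ℝ => (x : ℂ)) (band_const D hc' hint ⟨h2, h3⟩ hv₀ z)
        simp only [hexp] at h
        rw [← sub_eq_zero, ← Finset.sum_sub_distrib] at h
        rw [← h]
        refine Finset.sum_congr rfl fun j _ => ?_
        rw [← Finset.sum_sub_distrib]
        refine Finset.sum_congr rfl fun k _ => ?_
        simp only [map_mul, conj_conj, ← hu, ← hu₀, mul_pow]
        ring) (j := n + k) (k := k) (by omega)
    rw [sub_eq_zero.1 this, pow_add, mul_assoc, mul_assoc, ← mul_pow]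
    have e2 : u * conj u₀ * (conj u * u₀) = 1 := by linear_combination (conj u₀ * u₀) * e1 + e0
    rw [e2, one_pow, mul_one, mul_pow]
    ring
  have z40 : φ 4 0 = 0 := kill 4 0 (by norm_num) (by norm_num) fun v => by
    have := r1 4 v
    simp only [hz' 6 0 (by norm_num), hz' 5 1 (by norm_num), Pi.zero_apply] at this
    linear_combination -this
  have z30 : φ 3 0 = 0 := kill 3 0 (by norm_num) (by norm_num) fun v => by
    have := r1 3 v
    simp only [hz' 5 0 (by norm_num), hz' 4 1 (by norm_num), Pi.zero_apply] at this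
    linear_combination -this
  have z31 : φ 3 1 = 0 := kill 2 1 (by norm_num) (by norm_num) fun v => by
    have := r2 3 0 v
    simp only [zero_add, Nat.reduceAdd, z40, hz' 5 1 (by norm_num), hz' 4 2 (by norm_num),
      Pi.zero_apply, wedge_zero] at this
    push_cast at this ⊢
    linear_combination -this
  have z21 : φ 2 1 = 0 := kill 1 1 (by norm_num) (by norm_num) fun v => by
    have := r2 2 0 v
    simp only [zero_add, Nat.reduceAdd, z30, hz' 4 1 (by norm_num), hz' 3 2 (by norm_num),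
      Pi.zero_apply, wedge_zero] at this
    push_cast at this ⊢
    linear_combination -this
  have z20 : φ 2 0 = 0 := kill 2 0 (by norm_num) (by norm_num) fun v => by
    have := r1 2 v
    simp only [Nat.reduceAdd, z40, z31, Pi.zero_apply] at this
    linear_combination -this
  have z10 : φ 1 0 = 0 := kill 1 0 (by norm_num) (by norm_num) fun v => by
    have := r1 1 v
    simp only [Nat.reduceAdd, z30, z21, Pi.zero_apply] at this
    linear_combination -this
  have hdf : ∀ j k, Differentiable ℝ (φ j k) := fun j k => (hs j k).differentiable (by simp)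
  have hU : Differentiable ℝ fun v : ℝ × ℝ => ((pot (RR v) : ℝ) : ℂ) :=
    ofRealCLM.differentiable.comp (contDiff_pot.differentiable (by simp))
  obtain ⟨c₂, h₂⟩ := const_of_wedge D.nondeg (hdf 2 2) (fun v => (hsym 2 2 v).symm) fun v => by
    have := r2 2 1 v
    simp only [Nat.reduceAdd, z31, hz' 4 2 (by norm_num), hz' 3 3 (by norm_num),
      Pi.zero_apply, wedge_zero] at this
    push_cast at this
    linear_combination -this
  obtain ⟨c₁, h₁⟩ := const_of_wedge (g := fun v => φ 1 1 v - 4 * c₂ * (pot (RR v) : ℂ)) D.nondeg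
    ((hdf 1 1).sub (hU.const_mul _))
    (fun v => by simp only [map_sub, map_mul, conj_ofReal, map_ofNat, ← hsym 1 1 v]) fun v => by
    have := r2 1 0 v
    simp only [zero_add, Nat.reduceAdd, z31, z20, Pi.zero_apply, wedge_zero, h₂] at this
    push_cast at this
    rw [wedge_sub (hdf 1 1 v) ((hU v).const_mul _), wedge_mul (differentiableAt_const _) (hU v),
      wedge_const]
    linear_combination -this
  obtain ⟨c₀, h₀⟩ := const_of_wedge (g := fun v => φ 0 0 v
      - (2 * c₁ - (-4 * c₂) * (pot (RR v) : ℂ)) * (pot (RR v) : ℂ)) D.nondeg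
    ((hdf 0 0).sub (((differentiable_const _).sub (hU.const_mul _)).mul hU))
    (fun v => by
      simp only [map_sub, map_mul, map_neg, conj_ofReal, map_ofNat, ← hsym 0 0 v]) fun v => by
    have := r1 0 v
    simp only [zero_add, z20, Pi.zero_apply, sub_eq_iff_eq_add.1 (h₁ v)] at this
    push_cast at this
    have d1 : DifferentiableAt ℝ (fun v => 2 * (c₁ : ℂ) - (-4 * c₂) * (pot (RR v) : ℂ)) v :=
      (differentiableAt_const _).fun_sub ((hU v).const_mul _)
    rw [wedge_sub (hdf 0 0 v) (d1.fun_mul (hU v)), wedge_mul d1 (hU v),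
      wedge_sub (differentiableAt_const _) ((hU v).const_mul _),
      wedge_mul (differentiableAt_const _) (hU v), wedge_const, wedge_const]
    linear_combination -this
  refine ⟨c₀, 2 * c₁, 4 * c₂, fun w => ?_⟩
  have h := hexp w.1 (piC D.a1 D.a2 w)
  rw [cov_piC (D.nondeg _)] at h
  have s : ∀ j k, φ j k = 0 → φ k j w.1 = 0 := fun j k h => by rw [hsym, h]; simp
  simp only [Finset.sum_range_succ, Finset.range_zero, Finset.sum_empty, Nat.reduceSub, z40, z30,
    z31, z21, z20, z10, s _ _ z40, s _ _ z30, s _ _ z31, s _ _ z21, s _ _ z20, s _ _ z10,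
    hz' 0 5 (by norm_num), hz' 1 4 (by norm_num), hz' 2 3 (by norm_num), hz' 3 2 (by norm_num),
    hz' 4 1 (by norm_num), hz' 5 0 (by norm_num), Pi.zero_apply, h₂,
    sub_eq_iff_eq_add.1 (h₁ w.1), sub_eq_iff_eq_add.1 (h₀ w.1)] at h
  apply ofReal_injective
  rw [h, ham]
  push_cast
  rw [← mul_conj]
  ring

end Pool.Agent.Lib.MP_e941ef_an
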