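import Pool.Agent.Lib.MP_e941ef_an.Defs

namespace Pool.Agent.Lib.MP_e941ef_an

open Complex Metric Set Filter Topology
open scoped ComplexConjugate ContDiff

namespace Prof

/-- The real linear map with values `a`, `b` on the standard basis. -/
noncomputable def LL (a b : ℂ) : ℝ × ℝ →L[ℝ] ℂ :=
  (ContinuousLinearMap.fst ℝ ℝ ℝ).smulRight a + (ContinuousLinearMap.snd ℝ ℝ ℝ).smulRight b

theorem LL_apply (a b : ℂ) (w : ℝ × ℝ) : LL a b w = (w.1 : ℂ) * a + (w.2 : ℂ) * b := by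
  simp [LL]

/-- `f` is differentiable at `v` with derivatives `a`, `b` along the axes. -/
def HP (f : ℝ × ℝ → ℂ) (v : ℝ × ℝ) (a b : ℂ) : Prop := HasFDerivAt f (LL a b) v

theorem HP.pd1 {f : ℝ × ℝ → ℂ} {v : ℝ × ℝ} {a b : ℂ} (h : HP f v a b) : pd1 f v = a := by
  unfold Pool.Agent.Lib.MP_e941ef_an.pd1
  rw [HasFDerivAt.fderiv h, LL_apply]
  simp

theorem HP.pd2 {f : ℝ × ℝ → ℂ} {v : ℝ × ℝ} {a b : ℂ} (h : HP f v a b) : pd2 f v = b := by
  unfold Pool.Agent.Lib.MP_e941ef_an.pd2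
  rw [HasFDerivAt.fderiv h, LL_apply]
  simp

theorem HP.of_eq {f : ℝ × ℝ → ℂ} {v : ℝ × ℝ} {L : ℝ × ℝ →L[ℝ] ℂ} {a b : ℂ}
    (h : HasFDerivAt f L v) (hL : ∀ w, L w = (w.1 : ℂ) * a + (w.2 : ℂ) * b) : HP f v a b := by
  have : L = LL a b := by
    apply ContinuousLinearMap.ext
    intro w
    rw [hL, LL_apply]
  unfold HP
  rwa [← this]

theorem HP.congr {f : ℝ × ℝ → ℂ} {v : ℝ × ℝ} {a b a' b' : ℂ} (h : HP f v a b)
    (ha : a = a') (hb : b = b') : HP f v a' b' := by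
  subst ha hb
  exact h

theorem HP.const (c : ℂ) (v : ℝ × ℝ) : HP (fun _ => c) v 0 0 :=
  HP.of_eq (hasFDerivAt_const c v) (by intro w; simp)

theorem HP.fst (v : ℝ × ℝ) : HP (fun w => (w.1 : ℂ)) v 1 0 := by
  have h : HasFDerivAt (fun w : ℝ × ℝ => (w.1 : ℂ))
      (ofRealCLM.comp (ContinuousLinearMap.fst ℝ ℝ ℝ)) v :=
    (ofRealCLM.comp (ContinuousLinearMap.fst ℝ ℝ ℝ)).hasFDerivAt
  exact HP.of_eq h (by intro w; simp)

theorem HP.snd (v : ℝ × ℝ) : HP (fun w => (w.2 : ℂ)) v 0 1 := by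
  have h : HasFDerivAt (fun w : ℝ × ℝ => (w.2 : ℂ))
      (ofRealCLM.comp (ContinuousLinearMap.snd ℝ ℝ ℝ)) v :=
    (ofRealCLM.comp (ContinuousLinearMap.snd ℝ ℝ ℝ)).hasFDerivAt
  exact HP.of_eq h (by intro w; simp)

theorem HP.add {f g : ℝ × ℝ → ℂ} {v : ℝ × ℝ} {a b c d : ℂ} (h : HP f v a b) (k : HP g v c d) :
    HP (fun w => f w + g w) v (a + c) (b + d) :=
  HP.of_eq (HasFDerivAt.fun_add h k) (by
    intro w
    simp only [add_apply, LL_apply]
    ring)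

theorem HP.mul {f g : ℝ × ℝ → ℂ} {v : ℝ × ℝ} {a b c d : ℂ} (h : HP f v a b) (k : HP g v c d) :
    HP (fun w => f w * g w) v (a * g v + f v * c) (b * g v + f v * d) :=
  HP.of_eq (HasFDerivAt.fun_mul h k) (by
    intro w
    simp only [add_apply, smul_apply, LL_apply, smul_eq_mul]
    ring)

theorem hasFDerivAt_RR (v : ℝ × ℝ) : HasFDerivAt RR
    ((2 * v.1) • ContinuousLinearMap.fst ℝ ℝ ℝ + (2 * v.2) • ContinuousLinearMap.snd ℝ ℝ ℝ) v := by
  have h1 : HasFDerivAt (fun w : ℝ × ℝ => w.1) (ContinuousLinearMap.fst ℝ ℝ ℝ) v :=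
    hasFDerivAt_fst
  have h2 : HasFDerivAt (fun w : ℝ × ℝ => w.2) (ContinuousLinearMap.snd ℝ ℝ ℝ) v :=
    hasFDerivAt_snd
  have h := (h1.fun_mul h1).fun_add (h2.fun_mul h2)
  have e : RR = fun w : ℝ × ℝ => w.1 * w.1 + w.2 * w.2 := by
    funext w
    simp only [RR]
    ring
  rw [e]
  refine h.congr_fderiv ?_
  apply ContinuousLinearMap.ext
  intro w
  simp
  ring

theorem HP.rad {g : ℝ → ℝ} {g' : ℝ} {v : ℝ × ℝ} (h : HasDerivAt g g' (RR v)) :
    HP (fun w => (g (RR w) : ℂ)) v ((g' : ℂ) * (2 * v.1)) ((g' : ℂ) * (2 * v.2)) := by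
  have h1 := h.comp_hasFDerivAt v (hasFDerivAt_RR v)
  have h2 := ofRealCLM.hasFDerivAt.comp v h1
  refine HP.of_eq h2 ?_
  intro w
  simp
  ring

theorem HP.vv (v : ℝ × ℝ) : HP VV v 1 I := by
  have h := (HP.fst v).add ((HP.snd v).mul (HP.const I v))
  exact HP.congr h (by simp) (by simp)

theorem contDiff_RR : ContDiff ℝ ∞ RR := by
  unfold RR
  fun_prop

theorem RR_nonneg (v : ℝ × ℝ) : 0 ≤ RR v := by
  unfold RR
  positivity

theorem contDiff_VV : ContDiff ℝ ∞ VV := by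
  have h1 : ContDiff ℝ ∞ (fun w : ℝ × ℝ => (w.1 : ℂ)) := ofRealCLM.contDiff.comp contDiff_fst
  have h2 : ContDiff ℝ ∞ (fun w : ℝ × ℝ => (w.2 : ℂ)) := ofRealCLM.contDiff.comp contDiff_snd
  exact h1.add (h2.mul contDiff_const)

noncomputable def QQ (R : ℝ) : ℝ := 1 + 6 * R + R ^ 2

noncomputable def k0 (R : ℝ) : ℝ := 2 * (1 + R) / QQ R

noncomputable def k1 (R : ℝ) : ℝ := -2 * (5 + 2 * R + R ^ 2) / QQ R ^ 2

noncomputable def c0 (R : ℝ) : ℝ := 3 * (1 - R) / Real.sqrt (QQ R)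

noncomputable def c1 (R : ℝ) : ℝ := -12 * (1 + R) / (QQ R * Real.sqrt (QQ R))

noncomputable def w0 (R : ℝ) : ℝ := k1 R - k0 R * c1 R

theorem QQ_pos {R : ℝ} (h : -1 / 10 < R) : 0 < QQ R := by
  unfold QQ
  nlinarith [sq_nonneg R]

theorem two_sub {R : ℝ} (h : -1 / 10 < R) : 2 - tt R ^ 2 = QQ R / (1 + R) ^ 2 := by
  have h1 : (1 + R) ≠ 0 := by linarith
  unfold tt QQ
  field_simp
  ring

theorem kapS_eq {R : ℝ} (h : -1 / 10 < R) : kapS R = k0 R := by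
  have h1 : (1 + R) ≠ 0 := by linarith
  have h2 := (QQ_pos h).ne'
  unfold kapS k0
  rw [two_sub h]
  field_simp

theorem cS_eq {R : ℝ} (h : -1 / 10 < R) : cS R = c0 R := by
  have h1 : 0 < 1 + R := by linarith
  have h2 := QQ_pos h
  have h3 : 0 < Real.sqrt (QQ R) := Real.sqrt_pos.2 h2
  unfold cS c0
  rw [two_sub h, Real.sqrt_div h2.le, Real.sqrt_sq h1.le]
  unfold tt
  field_simp

theorem hasDerivAt_QQ (R : ℝ) : HasDerivAt QQ (6 + 2 * R) R := by
  have h := (((hasDerivAt_id R).const_mul 6).const_add 1).fun_add ((hasDerivAt_id R).fun_pow 2)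
  refine h.congr_deriv ?_
  simp

theorem hasDerivAt_k0 {R : ℝ} (h : -1 / 10 < R) : HasDerivAt k0 (k1 R) R := by
  have h2 := (QQ_pos h).ne'
  have h3 := ((((hasDerivAt_id R).const_add 1).const_mul 2).fun_div (hasDerivAt_QQ R) h2)
  refine h3.congr_deriv ?_
  unfold k1
  congr 1
  unfold QQ
  simp
  ring

theorem hasDerivAt_c0 {R : ℝ} (h : -1 / 10 < R) : HasDerivAt c0 (c1 R) R := by
  have h2 := QQ_pos h
  have h3 : 0 < Real.sqrt (QQ R) := Real.sqrt_pos.2 h2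
  have h4 := ((((hasDerivAt_id R).const_sub 1).const_mul 3).fun_div
    ((hasDerivAt_QQ R).sqrt h2.ne') h3.ne')
  refine h4.congr_deriv ?_
  unfold c1
  have h5 : Real.sqrt (QQ R) ^ 2 = QQ R := Real.sq_sqrt h2.le
  have h6 : QQ R = 1 + 6 * R + R ^ 2 := rfl
  generalize Real.sqrt (QQ R) = s at *
  rw [← h5]
  simp only [id]
  field_simp
  rw [h6] at h5
  linear_combination (-6 : ℝ) * h5

theorem ev_dom {R : ℝ} (h : 0 ≤ R) : ∀ᶠ S in 𝓝 R, -1 / 10 < S :=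
  lt_mem_nhds (by linarith)

theorem hasDerivAt_kapS {R : ℝ} (h : 0 ≤ R) : HasDerivAt kapS (k1 R) R :=
  (hasDerivAt_k0 (by linarith)).congr_of_eventuallyEq
    ((ev_dom h).mono fun _ hS => kapS_eq hS)

theorem hasDerivAt_cS {R : ℝ} (h : 0 ≤ R) : HasDerivAt cS (c1 R) R :=
  (hasDerivAt_c0 (by linarith)).congr_of_eventuallyEq
    ((ev_dom h).mono fun _ hS => cS_eq hS)

theorem contDiff_QQ : ContDiff ℝ ∞ QQ := by
  unfold QQ
  fun_prop

theorem contDiffAt_k0 {R : ℝ} (h : 0 ≤ R) : ContDiffAt ℝ ∞ k0 R := by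
  have h2 := (QQ_pos (R := R) (by linarith)).ne'
  unfold k0
  exact ContDiffAt.div (by fun_prop) contDiff_QQ.contDiffAt h2

theorem contDiffAt_w0 {R : ℝ} (h : 0 ≤ R) : ContDiffAt ℝ ∞ w0 R := by
  have h2 := QQ_pos (R := R) (by linarith)
  have h3 : 0 < Real.sqrt (QQ R) := Real.sqrt_pos.2 h2
  have hk1 : ContDiffAt ℝ ∞ k1 R := by
    unfold k1
    exact ContDiffAt.div (by fun_prop) (contDiff_QQ.contDiffAt.pow 2) (pow_ne_zero 2 h2.ne')
  have hc1 : ContDiffAt ℝ ∞ c1 R := by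
    unfold c1
    exact ContDiffAt.div (by fun_prop)
      (contDiff_QQ.contDiffAt.mul (contDiff_QQ.contDiffAt.sqrt h2.ne')) (mul_pos h2 h3).ne'
  unfold w0
  exact hk1.sub ((contDiffAt_k0 h).mul hc1)

theorem k0_pos {R : ℝ} (h : 0 ≤ R) : 0 < k0 R := by
  have h2 := QQ_pos (R := R) (by linarith)
  unfold k0
  positivity

theorem k0_w0_pos {R : ℝ} (h : 0 ≤ R) (h' : R ≤ 2) : 0 < k0 R + 2 * R * w0 R := by
  have h2 := QQ_pos (R := R) (by linarith)
  have h3 : 0 < Real.sqrt (QQ R) := Real.sqrt_pos.2 h2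
  have h6 : QQ R = 1 + 6 * R + R ^ 2 := rfl
  have h7 : Real.sqrt (QQ R) ≤ 5 := by
    rw [Real.sqrt_le_left (by norm_num), h6]
    nlinarith
  have e : k0 R + 2 * R * w0 R =
      (2 * (1 - R) ^ 3 * Real.sqrt (QQ R) + 48 * R * (1 + R) ^ 2) /
        (QQ R ^ 2 * Real.sqrt (QQ R)) := by
    unfold w0 k0 k1 c1
    generalize Real.sqrt (QQ R) = s at *
    field_simp
    rw [h6]
    ring
  rw [e]
  apply div_pos _ (by positivity)
  rcases lt_or_ge R 1 with h1 | h1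
  · have : 0 < 1 - R := by linarith
    positivity
  · have h8 : -1 ≤ (1 - R) ^ 3 := by
      have a1 : 0 ≤ 2 - R := by linarith
      have a2 : 0 ≤ (1 - R) ^ 2 - (1 - R) + 1 := by nlinarith [sq_nonneg (1 - R)]
      nlinarith [mul_nonneg a1 a2]
    have h9 : -5 ≤ (1 - R) ^ 3 * Real.sqrt (QQ R) := by nlinarith
    have h10 : 4 ≤ R * (1 + R) ^ 2 := by nlinarith
    nlinarith

noncomputable def th (R : ℝ) : ℝ := Real.smoothTransition (4 - 2 * R)

noncomputable def th3 (R : ℝ) : ℝ := Real.smoothTransition (R - 3)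

noncomputable def rho (R : ℝ) : ℝ := (1 - th3 R) / (4 * Real.sqrt R) + th3 R / (2 * R)

noncomputable def kk (R : ℝ) : ℝ := th R * k0 R + (1 - th R) * rho R

noncomputable def wb (R : ℝ) : ℝ := th R * w0 R

theorem th_one {R : ℝ} (h : R ≤ 3 / 2) : th R = 1 :=
  Real.smoothTransition.one_of_one_le (by linarith)

theorem th_zero {R : ℝ} (h : 2 ≤ R) : th R = 0 :=
  Real.smoothTransition.zero_of_nonpos (by linarith)

theorem contDiff_th : ContDiff ℝ ∞ th := by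
  unfold th
  exact Real.smoothTransition.contDiff.comp (by fun_prop)

theorem contDiff_th3 : ContDiff ℝ ∞ th3 := by
  unfold th3
  exact Real.smoothTransition.contDiff.comp (by fun_prop)

theorem rho_pos {R : ℝ} (h : 0 < R) : 0 < rho R := by
  have h3 : 0 < Real.sqrt R := Real.sqrt_pos.2 h
  have a0 : 0 ≤ th3 R := Real.smoothTransition.nonneg _
  have a1 : th3 R ≤ 1 := Real.smoothTransition.le_one _
  unfold rho
  rcases eq_or_lt_of_le a0 with e | e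
  · rw [← e]
    simp only [sub_zero, zero_div, add_zero]
    positivity
  · have : 0 ≤ 1 - th3 R := by linarith
    positivity

theorem contDiffAt_rho {R : ℝ} (h : 0 < R) : ContDiffAt ℝ ∞ rho R := by
  have h3 : 0 < Real.sqrt R := Real.sqrt_pos.2 h
  unfold rho
  refine ContDiffAt.add (ContDiffAt.div (contDiffAt_const.sub contDiff_th3.contDiffAt)
    (contDiffAt_const.mul (contDiffAt_id.sqrt h.ne')) (by positivity))
    (ContDiffAt.div contDiff_th3.contDiffAt (by fun_prop) (by positivity))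

theorem kk_eq {R : ℝ} (h : R ≤ 3 / 2) : kk R = k0 R := by
  unfold kk
  rw [th_one h]
  ring

theorem wb_eq {R : ℝ} (h : R ≤ 3 / 2) : wb R = w0 R := by
  unfold wb
  rw [th_one h]
  ring

theorem contDiffAt_kk {R : ℝ} (h : 0 ≤ R) : ContDiffAt ℝ ∞ kk R := by
  rcases lt_or_ge R (3 / 2) with h1 | h1
  · refine (contDiffAt_k0 h).congr_of_eventuallyEq ?_
    exact (gt_mem_nhds h1 : ∀ᶠ S in 𝓝 R, S < 3 / 2).mono fun S hS => kk_eq hS.le
  · unfold kk
    exact (contDiff_th.contDiffAt.mul (contDiffAt_k0 h)).add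
      ((contDiffAt_const.sub contDiff_th.contDiffAt).mul (contDiffAt_rho (by linarith)))

theorem contDiffAt_wb {R : ℝ} (h : 0 ≤ R) : ContDiffAt ℝ ∞ wb R := by
  unfold wb
  exact contDiff_th.contDiffAt.mul (contDiffAt_w0 h)

theorem kk_pos {R : ℝ} (h : 0 ≤ R) : 0 < kk R ∧ 0 < kk R + 2 * R * wb R := by
  rcases le_or_gt R (3 / 2) with h1 | h1
  · rw [kk_eq h1, wb_eq h1]
    exact ⟨k0_pos h, k0_w0_pos h (by linarith)⟩
  · have a0 : 0 ≤ th R := Real.smoothTransition.nonneg _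
    have a1 : th R ≤ 1 := Real.smoothTransition.le_one _
    have hr := rho_pos (R := R) (by linarith)
    have hk := k0_pos h
    rcases le_or_gt 2 R with h2 | h2
    · unfold kk wb
      rw [th_zero h2]
      constructor <;> nlinarith
    · have hw := k0_w0_pos h h2.le
      have key : ∀ a b t : ℝ, 0 < a → 0 < b → 0 ≤ t → t ≤ 1 → 0 < t * a + (1 - t) * b := by
        intro a b t ha hb h0 h1
        rcases eq_or_lt_of_le h0 with e | e
        · rw [← e]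
          linarith
        · have : 0 ≤ 1 - t := by linarith
          positivity
      constructor
      · exact key _ _ _ hk hr a0 a1
      · have := key _ _ _ hw hr a0 a1
        unfold kk wb
        linarith

theorem HP_xS (v : ℝ × ℝ) : HP xS v
    ((k0 (RR v) : ℂ) + VV v * ((k1 (RR v) : ℂ) * (2 * v.1)))
    (I * (k0 (RR v) : ℂ) + VV v * ((k1 (RR v) : ℂ) * (2 * v.2))) := by
  have h0 := RR_nonneg v
  have h := (HP.vv v).mul (HP.rad (hasDerivAt_kapS h0))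
  have e : kapS (RR v) = k0 (RR v) := kapS_eq (by linarith)
  refine HP.congr h ?_ ?_
  · rw [e]
    ring
  · rw [e]

theorem HP_cSC (v : ℝ × ℝ) : HP cSC v ((c1 (RR v) : ℂ) * (2 * v.1))
    ((c1 (RR v) : ℂ) * (2 * v.2)) :=
  HP.rad (hasDerivAt_cS (RR_nonneg v))

theorem norm_le_VV (v : ℝ × ℝ) : ‖v‖ ≤ ‖VV v‖ := by
  have h1 : (VV v).re = v.1 := by simp [VV]
  have h2 : (VV v).im = v.2 := by simp [VV]
  rw [Prod.norm_def]
  apply max_le
  · rw [← h1, Real.norm_eq_abs]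
    exact abs_re_le_norm _
  · rw [← h2, Real.norm_eq_abs]
    exact abs_im_le_norm _

theorem contDiffAt_xS (v : ℝ × ℝ) : ContDiffAt ℝ ∞ xS v := by
  have h0 := RR_nonneg v
  have h1 : ContDiffAt ℝ ∞ kapS (RR v) :=
    (contDiffAt_k0 h0).congr_of_eventuallyEq ((ev_dom h0).mono fun _ hS => kapS_eq hS)
  have h2 : ContDiffAt ℝ ∞ (fun w => kapS (RR w)) v := h1.comp v contDiff_RR.contDiffAt
  have h3 : ContDiffAt ℝ ∞ (fun w => (kapS (RR w) : ℂ)) v :=
    ofRealCLM.contDiff.contDiffAt.comp v h2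
  exact contDiff_VV.contDiffAt.mul h3

theorem xS_expand : ∃ δ : ℝ, 0 < δ ∧ ∀ v v' : ℝ × ℝ, ‖v‖ < δ → ‖v'‖ < δ →
    ‖v - v'‖ ≤ ‖xS v - xS v'‖ := by
  have h0 : HP xS 0 2 (2 * I) := by
    refine HP.congr (HP_xS 0) ?_ ?_
    · simp [RR, VV, k0, QQ]
    · simp [RR, VV, k0, QQ]
      ring
  have h1 : HasStrictFDerivAt xS (LL 2 (2 * I)) 0 :=
    (contDiffAt_xS 0).hasStrictFDerivAt' h0 (by simp)
  have h2 := (h1.isLittleO.def (by norm_num : (0 : ℝ) < 1))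
  rw [Metric.eventually_nhds_iff] at h2
  obtain ⟨δ, hδ, h2⟩ := h2
  refine ⟨δ, hδ, fun v v' hv hv' => ?_⟩
  have h3 := h2 (y := (v, v')) (by
    rw [Prod.dist_eq]
    simp only [dist_zero_right]
    exact max_lt hv hv')
  simp only [one_mul] at h3
  have h4 : LL 2 (2 * I) (v - v') = 2 * VV (v - v') := by
    rw [LL_apply]
    unfold VV
    ring
  have h5 : 2 * ‖v - v'‖ ≤ ‖LL 2 (2 * I) (v - v')‖ := by
    rw [h4, norm_mul]
    have := norm_le_VV (v - v')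
    simp only [Complex.norm_ofNat]
    linarith
  have h6 : ‖LL 2 (2 * I) (v - v')‖ ≤ ‖xS v - xS v'‖ + ‖xS v - xS v' - LL 2 (2 * I) (v - v')‖ := by
    have := norm_sub_le (xS v - xS v') (xS v - xS v' - LL 2 (2 * I) (v - v'))
    rwa [sub_sub_cancel] at this
  linarith

theorem half_le_kapS {R : ℝ} (h : 0 ≤ R) (h' : R ≤ 1) : 1 / 2 ≤ kapS R := by
  have h2 := QQ_pos (R := R) (by linarith)
  rw [kapS_eq (by linarith)]
  unfold k0
  rw [le_div_iff₀ h2]
  unfold QQ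
  nlinarith

end Prof

open Prof

/-- The rotational background on the whole southern chart. -/
theorem profile : ∃ κ ϖ : ℝ → ℝ, ContDiff ℝ ∞ (fun v : ℝ × ℝ => κ (RR v)) ∧
    ContDiff ℝ ∞ (fun v : ℝ × ℝ => ϖ (RR v)) ∧
    (∀ R, 0 < R → DifferentiableAt ℝ κ R ∧ DifferentiableAt ℝ ϖ R) ∧
    (∀ R, 0 ≤ R → 0 < κ R ∧ 0 < κ R + 2 * R * ϖ R) ∧
    (∀ R, 2 < R → ϖ R = 0) ∧ (∀ R, 2 < R → R < 3 → κ R = 1 / (4 * Real.sqrt R)) ∧
    (∀ R, 4 < R → κ R = 1 / (2 * R)) ∧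
    ∀ v, RR v ≤ 1 → xS v = VV v * (κ (RR v) : ℂ) ∧
      aS1 v = I * ((κ (RR v) : ℂ) + 2 * VV v * (ϖ (RR v) : ℂ) * (v.1 : ℂ)) ∧
      aS2 v = I * (I * (κ (RR v) : ℂ) + 2 * VV v * (ϖ (RR v) : ℂ) * (v.2 : ℂ)) := by
  refine ⟨kk, wb, ?_, ?_, ?_, fun R h => kk_pos h, ?_, ?_, ?_, ?_⟩
  · rw [contDiff_iff_contDiffAt]
    intro v
    exact (contDiffAt_kk (RR_nonneg v)).comp v contDiff_RR.contDiffAt
  · rw [contDiff_iff_contDiffAt]
    intro v
    exact (contDiffAt_wb (RR_nonneg v)).comp v contDiff_RR.contDiffAt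
  · intro R h
    exact ⟨(contDiffAt_kk h.le).differentiableAt (by simp),
      (contDiffAt_wb h.le).differentiableAt (by simp)⟩
  · intro R h
    unfold wb
    rw [th_zero h.le, zero_mul]
  · intro R h h'
    have e : th3 R = 0 := Real.smoothTransition.zero_of_nonpos (by linarith)
    unfold kk rho
    rw [th_zero h.le, e]
    simp
  · intro R h
    have e : th3 R = 1 := Real.smoothTransition.one_of_one_le (by linarith)
    unfold kk rho
    rw [th_zero (by linarith), e]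
    simp
  · intro v hv
    have h0 := RR_nonneg v
    have e : kapS (RR v) = k0 (RR v) := kapS_eq (by linarith)
    have ex : xS v = VV v * (k0 (RR v) : ℂ) := by
      unfold xS
      rw [e]
    rw [kk_eq (by linarith), wb_eq (by linarith)]
    refine ⟨ex, ?_, ?_⟩
    · unfold aS1
      rw [(HP_xS v).pd1, (HP_cSC v).pd1, ex]
      unfold w0
      push_cast
      ring
    · unfold aS2
      rw [(HP_xS v).pd2, (HP_cSC v).pd2, ex]
      unfold w0
      push_cast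
      ring

/-- In a rotational region the linear function with coefficient `V κ` is an integral. -/
theorem Lam_rot {κ ϖ : ℝ → ℝ} {v : ℝ × ℝ} (hκ : DifferentiableAt ℝ κ (RR v))
    (hϖ : DifferentiableAt ℝ ϖ (RR v)) (z : ℂ) :
    Lam (fun v => I * ((κ (RR v) : ℂ) + 2 * VV v * (ϖ (RR v) : ℂ) * (v.1 : ℂ)))
      (fun v => I * (I * (κ (RR v) : ℂ) + 2 * VV v * (ϖ (RR v) : ℂ) * (v.2 : ℂ)))
      (fun v => VV v * (κ (RR v) : ℂ)) v z = 0 := by
  have hk := HP.rad hκ.hasDerivAt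
  have hw := HP.rad hϖ.hasDerivAt
  have hV := HP.vv v
  have h1 := (HP.const I v).mul
    (hk.add ((((HP.const 2 v).mul hV).mul hw).mul (HP.fst v)))
  have h2 := (HP.const I v).mul
    (((HP.const I v).mul hk).add ((((HP.const 2 v).mul hV).mul hw).mul (HP.snd v)))
  have h3 := hV.mul hk
  unfold Lam curl
  rw [h1.pd2, h2.pd1, h3.pd1, h3.pd2]
  simp only [VV, mul_re, mul_im, add_re, add_im, sub_re, sub_im, ofReal_re, ofReal_im, I_re, I_im,
    re_ofNat, im_ofNat, one_re, one_im, zero_re, zero_im]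
  ring

/-- The zeros of the top coefficient in the cap. -/
theorem zeros_small : ∃ ε : ℝ, 0 < ε ∧ ∀ l : ℝ × ℝ → ℂ, ContDiff ℝ ∞ l →
    (∀ v, ‖l v‖ ≤ ε ∧ ‖pd1 l v‖ ≤ ε ∧ ‖pd2 l v‖ ≤ ε) →
    {v | RR v ≤ 1 ∧ l v - 3 / 5 * xS v = 0}.Subsingleton := by
  obtain ⟨δ, hδ, hx⟩ := xS_expand
  refine ⟨min (δ / 4) (1 / 4), by positivity, fun l hl hb => ?_⟩
  set ε := min (δ / 4) (1 / 4) with hε
  have e1 : ε ≤ δ / 4 := min_le_left _ _
  have e2 : ε ≤ 1 / 4 := min_le_right _ _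
  have e0 : 0 < ε := by positivity
  have hd : ∀ v, ‖fderiv ℝ l v‖ ≤ 2 * ε := by
    intro v
    apply ContinuousLinearMap.opNorm_le_bound _ (by positivity)
    intro w
    have hw : w = w.1 • ((1, 0) : ℝ × ℝ) + w.2 • ((0, 1) : ℝ × ℝ) := by
      ext <;> simp
    have h1 : fderiv ℝ l v w = w.1 • pd1 l v + w.2 • pd2 l v := by
      conv_lhs => rw [hw]
      rw [map_add, map_smul, map_smul]
      rfl
    have a1 : ‖w.1‖ ≤ ‖w‖ := norm_fst_le w
    have a2 : ‖w.2‖ ≤ ‖w‖ := norm_snd_le w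
    rw [h1]
    calc ‖w.1 • pd1 l v + w.2 • pd2 l v‖ ≤ ‖w.1 • pd1 l v‖ + ‖w.2 • pd2 l v‖ := norm_add_le _ _
      _ = ‖w.1‖ * ‖pd1 l v‖ + ‖w.2‖ * ‖pd2 l v‖ := by rw [norm_smul, norm_smul]
      _ ≤ ‖w‖ * ε + ‖w‖ * ε := by
        gcongr
        · exact (hb v).2.1
        · exact (hb v).2.2
      _ = 2 * ε * ‖w‖ := by ring
  have hsmall : ∀ v, RR v ≤ 1 → l v - 3 / 5 * xS v = 0 → ‖v‖ < δ := by
    intro v h1 h2
    have h3 : l v = 3 / 5 * xS v := sub_eq_zero.1 h2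
    have h4 := half_le_kapS (RR_nonneg v) h1
    have h5 : ‖l v‖ = 3 / 5 * (‖VV v‖ * kapS (RR v)) := by
      rw [h3]
      unfold xS
      rw [norm_mul, norm_mul, Complex.norm_real, Real.norm_of_nonneg (by linarith)]
      simp
    have h6 := norm_le_VV v
    have h7 := (hb v).1
    have h8 : ‖VV v‖ * (1 / 2) ≤ ‖VV v‖ * kapS (RR v) :=
      mul_le_mul_of_nonneg_left h4 (norm_nonneg _)
    linarith
  intro v hv v' hv'
  have h1 := hx v v' (hsmall v hv.1 hv.2) (hsmall v' hv'.1 hv'.2)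
  have h2 : ‖l v - l v'‖ ≤ 2 * ε * ‖v - v'‖ :=
    convex_univ.norm_image_sub_le_of_norm_fderiv_le
      (fun x _ => (hl.differentiable (by simp)) x) (fun x _ => hd x) (mem_univ v') (mem_univ v)
  have h3 : l v - l v' = 3 / 5 * (xS v - xS v') := by
    linear_combination hv.2 - hv'.2
  have h4 : ‖l v - l v'‖ = 3 / 5 * ‖xS v - xS v'‖ := by
    rw [h3, norm_mul]
    simp
  have h5 := norm_nonneg (v - v')
  have h6 : ‖v - v'‖ ≤ 0 := by nlinarith
  exact sub_eq_zero.1 (norm_eq_zero.1 (le_antisymm h6 h5))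

end Pool.Agent.Lib.MP_e941ef_an
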