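import Pool.Agent.Lib.MP_e941ef_an.Cap
import Pool.Agent.Lib.MP_e941ef_an.Frame
import Pool.Agent.Lib.MP_e941ef_an.Profile
import Pool.Agent.Lib.MP_e941ef_an.NoLower

namespace Pool.Agent.Lib.MP_e941ef_an

open Complex Metric Set Filter Topology
open scoped ComplexConjugate ContDiff
open Prof

theorem dx_Lam_congr {a1 a2 f a1' a2' f' : ℝ × ℝ → ℂ} {v : ℝ × ℝ} (h1 : a1 =ᶠ[𝓝 v] a1')
    (h2 : a2 =ᶠ[𝓝 v] a2') (h3 : f =ᶠ[𝓝 v] f') (z : ℂ) :
    Lam a1 a2 f v z = Lam a1' a2' f' v z := by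
  unfold Lam curl pd1 pd2
  rw [h1.fderiv_eq, h2.fderiv_eq, h3.fderiv_eq, h1.eq_of_nhds, h2.eq_of_nhds, h3.eq_of_nhds]

theorem dx_Lam_zero (a1 a2 : ℝ × ℝ → ℂ) (v : ℝ × ℝ) (z : ℂ) :
    Lam a1 a2 (fun _ => 0) v z = 0 := by
  simp [Lam, pd1, pd2]

theorem dx_Lam_smul (a1 a2 f : ℝ × ℝ → ℂ) (v : ℝ × ℝ) (t : ℝ) (z : ℂ) :
    Lam a1 a2 f v (t * z) = t ^ 2 * Lam a1 a2 f v z := by
  simp only [Lam, mul_re, mul_im, ofReal_re, ofReal_im]
  ring

theorem dx_polar (z : ℂ) : ∃ (t : ℝ) (u : ℂ), ‖u‖ = 1 ∧ z = t * u := by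
  by_cases h : z = 0
  · exact ⟨0, 1, by simp, by simp [h]⟩
  · have hn : (‖z‖ : ℂ) ≠ 0 := by exact_mod_cast norm_ne_zero_iff.2 h
    refine ⟨‖z‖, z / ‖z‖, ?_, by field_simp⟩
    rw [norm_div, norm_real, norm_norm, div_self (norm_ne_zero_iff.2 h)]

theorem dx_compact : IsCompact {v : ℝ × ℝ | RR v ≤ 1} := by
  refine Metric.isCompact_of_isClosed_isBounded
    (isClosed_le contDiff_RR.continuous continuous_const) ?_
  refine (Metric.isBounded_closedBall (x := (0 : ℝ × ℝ)) (r := 1)).subset fun v hv => ?_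
  have hv' : v.1 ^ 2 + v.2 ^ 2 ≤ 1 := hv
  rw [mem_closedBall, dist_zero_right, Prod.norm_def, max_le_iff, Real.norm_eq_abs,
    Real.norm_eq_abs]
  exact ⟨abs_le.2 ⟨by nlinarith [sq_nonneg v.2], by nlinarith [sq_nonneg v.2]⟩,
    abs_le.2 ⟨by nlinarith [sq_nonneg v.1], by nlinarith [sq_nonneg v.1]⟩⟩

theorem dx_perturb {b1 b2 d1 d2 : ℂ} {B c ε : ℝ} (hc : 0 < c) (hB1 : ‖b1‖ ≤ B) (hB2 : ‖b2‖ ≤ B)
    (h1 : ‖d1‖ ≤ ε) (h2 : ‖d2‖ ≤ ε) (he1 : ε ≤ 1) (he : ε ≤ c / (8 * B + 8))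
    (hb : 2 * (b1 * conj b2).im ≤ -c) : 2 * ((b1 + d1) * conj (b2 + d2)).im ≠ 0 := by
  have hB : 0 ≤ B := (norm_nonneg _).trans hB1
  have h0 : 0 ≤ ε := (norm_nonneg _).trans h1
  have e : ((b1 + d1) * conj (b2 + d2)).im =
      (b1 * conj b2).im + (b1 * conj d2).im + (d1 * conj b2).im + (d1 * conj d2).im := by
    simp only [map_add, add_mul, mul_add, add_im]; ring
  have k : ∀ (p q : ℂ) (P Q : ℝ), ‖p‖ ≤ P → ‖q‖ ≤ Q → (p * conj q).im ≤ P * Q := by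
    intro p q P Q hp hq
    refine (le_abs_self _).trans ((abs_im_le_norm _).trans ?_)
    rw [norm_mul, norm_conj]
    exact mul_le_mul hp hq (norm_nonneg _) ((norm_nonneg _).trans hp)
  have k1 := k _ _ _ _ hB1 h2
  have k2 := k _ _ _ _ h1 hB2
  have k3 := k _ _ _ _ h1 h2
  rw [le_div_iff₀ (by positivity)] at he
  rw [e]
  apply ne_of_lt
  nlinarith

theorem dx_pot_diff {R : ℝ} (h : 0 ≤ R) : DifferentiableAt ℝ pot R := by
  unfold pot
  refine ((expNegInvGlue.contDiff (n := 1)).differentiable (by simp) _).comp R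
    (f := fun R => -tt R - 2 / 3) ?_
  unfold tt
  exact (DifferentiableAt.div (by fun_prop) (by fun_prop) (by linarith)).neg.sub_const _

theorem dx_pot_fderiv (v : ℝ × ℝ) : ∃ c : ℝ,
    fderiv ℝ (fun v => pot (RR v)) v (1, 0) = c * v.1 ∧
      fderiv ℝ (fun v => pot (RR v)) v (0, 1) = c * v.2 := by
  have h := (dx_pot_diff (RR_nonneg v)).hasDerivAt.comp_hasFDerivAt v (hasFDerivAt_RR v)
  have h' : fderiv ℝ (fun v => pot (RR v)) v = _ := h.fderiv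
  refine ⟨2 * deriv pot (RR v), ?_, ?_⟩ <;> rw [h'] <;> simp <;> ring

theorem dx_pot_zero {R : ℝ} (h0 : 0 ≤ R) (h : R ≤ 1) : pot R = 0 := by
  apply expNegInvGlue.zero_of_nonpos
  have : 0 ≤ tt R := div_nonneg (by linarith) (by linarith)
  linarith

theorem dx_dense {F : Ph → ℝ} (hF : Continuous F)
    (h : ∀ w : Ph, RR w.1 ≠ 0 → RR w.1 ≠ 1 → F w = 0) (w : Ph) : F w = 0 := by
  have fin : ∀ c : ℝ, {s : ℝ | RR (s, w.1.2) = c}.Finite := by
    intro c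
    refine (Set.toFinite {Real.sqrt (c - w.1.2 ^ 2), -Real.sqrt (c - w.1.2 ^ 2)}).subset ?_
    intro s hs
    have h1 : s ^ 2 + w.1.2 ^ 2 = c := hs
    have h2 : s ^ 2 = Real.sqrt (c - w.1.2 ^ 2) ^ 2 := by
      rw [Real.sq_sqrt (by nlinarith [sq_nonneg s])]; linarith
    exact sq_eq_sq_iff_eq_or_eq_neg.1 h2
  have hd := ((fin 0).union (fin 1)).countable.dense_compl ℝ
  have hc : Continuous fun s : ℝ => F ((s, w.1.2), w.2) := hF.comp (by fun_prop)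
  have := Continuous.ext_on hd hc (continuous_const (y := (0 : ℝ))) fun s hs => by
    simp only [mem_compl_iff, mem_union, mem_setOf_eq, not_or] at hs
    exact h _ hs.1 hs.2
  exact congrFun this w.1.1

theorem data_exists : Nonempty Data := by
  obtain ⟨κ, ϖ, sκ, sϖ, hdiff, hpos, hϖ0, hκband, hκfar, hS⟩ := profile
  obtain ⟨ε0, hε0, hzs⟩ := zeros_small
  obtain ⟨b1, hb1⟩ : ∃ b1 : ℝ × ℝ → ℂ,
    b1 = fun v => I * ((κ (RR v) : ℂ) + 2 * VV v * (ϖ (RR v) : ℂ) * (v.1 : ℂ)) := ⟨_, rfl⟩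
  obtain ⟨b2, hb2⟩ : ∃ b2 : ℝ × ℝ → ℂ,
    b2 = fun v => I * (I * (κ (RR v) : ℂ) + 2 * VV v * (ϖ (RR v) : ℂ) * (v.2 : ℂ)) := ⟨_, rfl⟩
  obtain ⟨x, hx⟩ : ∃ x : ℝ × ℝ → ℂ, x = fun v => VV v * (κ (RR v) : ℂ) := ⟨_, rfl⟩
  have cκ : ContDiff ℝ ∞ fun v : ℝ × ℝ => (κ (RR v) : ℂ) := ofRealCLM.contDiff.comp sκ
  have cϖ : ContDiff ℝ ∞ fun v : ℝ × ℝ => (ϖ (RR v) : ℂ) := ofRealCLM.contDiff.comp sϖ
  have c1 : ContDiff ℝ ∞ fun v : ℝ × ℝ => (v.1 : ℂ) := ofRealCLM.contDiff.comp contDiff_fst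
  have c2 : ContDiff ℝ ∞ fun v : ℝ × ℝ => (v.2 : ℂ) := ofRealCLM.contDiff.comp contDiff_snd
  have sb1 : ContDiff ℝ ∞ b1 :=
    hb1 ▸ contDiff_const.mul (cκ.add (((contDiff_const.mul contDiff_VV).mul cϖ).mul c1))
  have sb2 : ContDiff ℝ ∞ b2 :=
    hb2 ▸ contDiff_const.mul ((contDiff_const.mul cκ).add
      (((contDiff_const.mul contDiff_VV).mul cϖ).mul c2))
  have sx : ContDiff ℝ ∞ x := hx ▸ contDiff_VV.mul cκ
  have hdet : ∀ v, 2 * (b1 v * conj (b2 v)).im =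
      -(2 * κ (RR v) * (κ (RR v) + 2 * RR v * ϖ (RR v))) := by
    intro v
    have hR : RR v = v.1 ^ 2 + v.2 ^ 2 := rfl
    rw [hb1, hb2]
    obtain ⟨k, hk⟩ : ∃ k, k = κ (RR v) := ⟨_, rfl⟩
    obtain ⟨p, hp⟩ : ∃ p, p = ϖ (RR v) := ⟨_, rfl⟩
    simp only [← hk, ← hp]
    rw [hR]
    simp [VV]
    ring
  have hgpos : ∀ v, 0 < 2 * κ (RR v) * (κ (RR v) + 2 * RR v * ϖ (RR v)) := fun v => by
    obtain ⟨k1, k2⟩ := hpos _ (RR_nonneg v)
    positivity
  have cg : Continuous fun v : ℝ × ℝ => 2 * κ (RR v) * (κ (RR v) + 2 * RR v * ϖ (RR v)) :=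
    (continuous_const.mul sκ.continuous).mul (sκ.continuous.add
      ((continuous_const.mul contDiff_RR.continuous).mul sϖ.continuous))
  obtain ⟨v0, -, hv0⟩ := dx_compact.exists_isMinOn ⟨0, by simp [RR]⟩ cg.continuousOn
  obtain ⟨c, hc⟩ : ∃ c, c = 2 * κ (RR v0) * (κ (RR v0) + 2 * RR v0 * ϖ (RR v0)) := ⟨_, rfl⟩
  have hc0 : 0 < c := hc ▸ hgpos v0
  obtain ⟨B1, hB1⟩ := dx_compact.exists_bound_of_continuousOn sb1.continuous.continuousOn
  obtain ⟨B2, hB2⟩ := dx_compact.exists_bound_of_continuousOn sb2.continuous.continuousOn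
  have hB0 : 0 ≤ max B1 B2 :=
    ((norm_nonneg _).trans (hB1 0 (by simp [RR]))).trans (le_max_left _ _)
  obtain ⟨ε, hε⟩ : ∃ ε, ε = min (min 1 ε0) (c / (8 * max B1 B2 + 8)) := ⟨_, rfl⟩
  have hεpos : 0 < ε := by rw [hε]; positivity
  have hε1 : ε ≤ 1 := hε ▸ (min_le_left _ _).trans (min_le_left _ _)
  have hε2 : ε ≤ ε0 := hε ▸ (min_le_left _ _).trans (min_le_right _ _)
  have hε3 : ε ≤ c / (8 * max B1 B2 + 8) := hε ▸ min_le_right _ _
  obtain ⟨da1, da2, l, sd1, sd2, sl, hout, hsm, hl0, hcap⟩ := cap_exists hεpos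
  obtain ⟨a1, ha1⟩ : ∃ a1 : ℝ × ℝ → ℂ, a1 = fun v => b1 v + da1 v := ⟨_, rfl⟩
  obtain ⟨a2, ha2⟩ : ∃ a2 : ℝ × ℝ → ℂ, a2 = fun v => b2 v + da2 v := ⟨_, rfl⟩
  have sa1 : ContDiff ℝ ∞ a1 := ha1 ▸ sb1.add sd1
  have sa2 : ContDiff ℝ ∞ a2 := ha2 ▸ sb2.add sd2
  have o1 : ∀ v, 1 ≤ RR v → a1 v = b1 v := fun v hv => by simp [ha1, (hout v hv).1]
  have o2 : ∀ v, 1 ≤ RR v → a2 v = b2 v := fun v hv => by simp [ha2, (hout v hv).2.1]
  have nd : ∀ v, detR a1 a2 v ≠ 0 := by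
    intro v
    unfold detR
    rcases le_total 1 (RR v) with h | h
    · rw [o1 v h, o2 v h, hdet]
      exact neg_ne_zero.2 (hgpos v).ne'
    · rw [ha1, ha2]
      refine dx_perturb hc0 ((hB1 v h).trans (le_max_left _ _)) ((hB2 v h).trans (le_max_right _ _))
        (hsm v).1 (hsm v).2.1 hε1 hε3 ?_
      rw [hdet, neg_le_neg_iff, hc]
      exact hv0 h
  have hint : ∀ w : Ph, RR w.1 ≠ 0 → RR w.1 ≠ 1 → bracket (ham a1 a2 fun v => pot (RR v))
      (quint a1 a2 x l fun v => pot (RR v)) w = 0 := by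
    rintro ⟨v, p⟩ h0 h1
    obtain ⟨z, hz⟩ : ∃ z, cov a1 a2 v z = p := ⟨_, cov_piC (w := (v, p)) (nd v)⟩
    subst hz
    have hR : 0 < RR v := lt_of_le_of_ne (RR_nonneg v) (Ne.symm h0)
    have h2d : 2 * detR a1 a2 v ≠ 0 := mul_ne_zero two_ne_zero (nd v)
    have bx := bracket_lin sa1 sa2 nd contDiff_pot sx v z
    have bl := bracket_lin sa1 sa2 nd contDiff_pot sl v z
    rw [bracket_quint sa1 sa2 nd contDiff_pot sx sl]
    rcases lt_or_gt_of_ne h1 with h | h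
    · have ev : ∀ᶠ u in 𝓝 v, RR u < 1 :=
        (isOpen_lt contDiff_RR.continuous continuous_const).mem_nhds h
      have eU : (fun v => pot (RR v)) =ᶠ[𝓝 v] fun _ => 0 :=
        ev.mono fun u hu => dx_pot_zero (RR_nonneg u) hu.le
      have e1 : a1 =ᶠ[𝓝 v] fun v => aS1 v + da1 v :=
        ev.mono fun u hu => by simp only [ha1, hb1, (hS u hu.le).2.1]
      have e2 : a2 =ᶠ[𝓝 v] fun v => aS2 v + da2 v :=
        ev.mono fun u hu => by simp only [ha2, hb2, (hS u hu.le).2.2]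
      have e3 : x =ᶠ[𝓝 v] xS := ev.mono fun u hu => by simp only [hx, (hS u hu.le).1]
      have z0 : ∀ f, lin a1 a2 f (v, (fderiv ℝ (fun v => pot (RR v)) v (1, 0),
          fderiv ℝ (fun v => pot (RR v)) v (0, 1))) = 0 := by
        intro f
        rw [eU.fderiv_eq]
        simp [lin, piC]
      rw [z0, mul_zero, sub_zero, dx_Lam_congr e1 e2 e3] at bx
      rw [z0, mul_zero, sub_zero, dx_Lam_congr e1 e2 (EventuallyEq.refl _ l)] at bl
      obtain ⟨t, u, hu, rfl⟩ := dx_polar z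
      rw [dx_Lam_smul] at bx bl
      have key := hcap v hR h u hu
      have hn : normSq u = 1 := by rw [normSq_eq_norm_sq, hu]; norm_num
      have lx : lin a1 a2 x (v, cov a1 a2 v (t * u)) = t * (2 * (xS v * u).re) := by
        simp only [lin, piC_cov (nd v), e3.eq_of_nhds, mul_re, mul_im, ofReal_re, ofReal_im]
        ring
      have ll : lin a1 a2 l (v, cov a1 a2 v (t * u)) = t * (2 * (l v * u).re) := by
        simp only [lin, piC_cov (nd v), mul_re, mul_im, ofReal_re, ofReal_im]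
        ring
      have hh : ham a1 a2 (fun v => pot (RR v)) (v, cov a1 a2 v (t * u)) = t ^ 2 / 2 := by
        simp only [ham, piC_cov (nd v), dx_pot_zero hR.le h.le, map_mul, hn, normSq_ofReal]
        ring
      rw [lx, ll, hh]
      apply mul_left_cancel₀ h2d
      rw [mul_add, mul_left_comm, bx, mul_left_comm (2 * detR a1 a2 v), bl, mul_zero]
      linear_combination t ^ 6 * key
    · have ev : ∀ᶠ u in 𝓝 v, 1 < RR u :=
        (isOpen_lt continuous_const contDiff_RR.continuous).mem_nhds h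
      have e1 : a1 =ᶠ[𝓝 v] b1 := ev.mono fun u hu => o1 u hu.le
      have e2 : a2 =ᶠ[𝓝 v] b2 := ev.mono fun u hu => o2 u hu.le
      have e3 : l =ᶠ[𝓝 v] fun _ => 0 := ev.mono fun u hu => (hout u hu.le).2.2
      have L1 : Lam a1 a2 x v z = 0 := by
        rw [dx_Lam_congr e1 e2 (EventuallyEq.refl _ x), hb1, hb2, hx]
        exact Lam_rot (hdiff _ hR).1 (hdiff _ hR).2 z
      have L2 : Lam a1 a2 l v z = 0 := by
        rw [dx_Lam_congr (EventuallyEq.refl _ a1) (EventuallyEq.refl _ a2) e3, dx_Lam_zero]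
      obtain ⟨q, q1, q2⟩ := dx_pot_fderiv v
      have z1 : lin a1 a2 x (v, (q * v.1, q * v.2)) = 0 := by
        have hn : x v * (((q * v.1 : ℝ) : ℂ) * conj (a2 v) - ((q * v.2 : ℝ) : ℂ) * conj (a1 v)) =
            ((-(q * κ (RR v) ^ 2 * (v.1 ^ 2 + v.2 ^ 2)) : ℝ) : ℂ) := by
          rw [o1 v h.le, o2 v h.le, hb1, hb2, hx]
          obtain ⟨k, hk⟩ : ∃ k, k = κ (RR v) := ⟨_, rfl⟩
          obtain ⟨p, hp⟩ : ∃ p, p = ϖ (RR v) := ⟨_, rfl⟩
          simp only [← hk, ← hp]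
          apply Complex.ext
          · simp only [ofReal_re]; simp [VV]; ring
          · simp only [ofReal_im]; simp [VV]; ring
        simp only [lin, piC]
        rw [← mul_div_assoc, hn, ← div_div, ← ofReal_div, div_I]
        simp only [neg_re, mul_re, ofReal_re, ofReal_im, I_re, I_im]
        ring
      have z2 : lin a1 a2 l (v, (q * v.1, q * v.2)) = 0 := by
        simp [lin, (hout v h.le).2.2]
      rw [q1, q2, L1, z1, mul_zero, sub_zero] at bx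
      rw [q1, q2, L2, z2, mul_zero, sub_zero] at bl
      rw [(mul_eq_zero.1 bx).resolve_left h2d, (mul_eq_zero.1 bl).resolve_left h2d]
      ring
  have cq : ContDiff ℝ ∞ (quint a1 a2 x l fun v => pot (RR v)) := by
    obtain ⟨cf, hcf, hq⟩ := quint_poly sa1 sa2 nd contDiff_pot sx sl
    exact hq ▸ contDiff_poly hcf
  refine ⟨⟨a1, a2, x, l, sa1, sa2, sx, sl, nd,
    dx_dense (continuous_bracket (contDiff_ham sa1 sa2 nd contDiff_pot) cq) hint,
    fun v h2 h3 => ?_, fun v h4 => ?_, fun v h => ?_, hl0, ?_⟩⟩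
  · have h1 : 1 ≤ RR v := by linarith
    rw [o1 v h1, o2 v h1, hb1, hb2, hx]
    simp only [hϖ0 _ h2, hκband _ h2 h3]
    refine ⟨?_, ?_, ?_, (hout v h1).2.2⟩
    · push_cast; ring
    · push_cast
      rw [mul_zero, zero_mul, add_zero, ← mul_assoc, I_mul_I]; ring
    · push_cast; ring
  · have h1 : 1 ≤ RR v := by linarith
    rw [o1 v h1, o2 v h1, hb1, hb2, hx]
    simp only [hϖ0 _ (by linarith : 2 < RR v), hκfar _ h4]
    refine ⟨?_, ?_, ?_, (hout v h1).2.2⟩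
    · push_cast; ring
    · push_cast
      rw [mul_zero, zero_mul, add_zero, ← mul_assoc, I_mul_I]; ring
    · push_cast; ring
  · rw [hx, (hS v h.le).1]
  · have hsub := hzs l sl fun v =>
      ⟨(hsm v).2.2.1.trans hε2, (hsm v).2.2.2.1.trans hε2, (hsm v).2.2.2.2.trans hε2⟩
    refine ((countable_singleton (0 : ℝ × ℝ)).union hsub.countable).mono fun v hv => ?_
    by_cases h0 : v = 0
    · exact Or.inl h0
    have hxv : x v ≠ 0 := by
      rw [hx]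
      refine mul_ne_zero (fun h => h0 ?_) (ofReal_ne_zero.2 (hpos _ (RR_nonneg v)).1.ne')
      have r1 := congrArg Complex.re h
      have r2 := congrArg Complex.im h
      simp [VV] at r1 r2
      exact Prod.ext r1 r2
    have hv' : l v - 3 / 5 * x v = 0 := (mul_eq_zero.1 hv).resolve_left (pow_ne_zero _ hxv)
    right
    rcases le_total (RR v) 1 with h | h
    · refine ⟨h, ?_⟩
      rw [(hS v h).1, ← hv', hx]
    · rw [(hout v h).2.2, zero_sub, neg_eq_zero] at hv'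
      exact absurd ((mul_eq_zero.1 hv').resolve_left (by norm_num)) hxv

end Pool.Agent.Lib.MP_e941ef_an
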