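import Pool.Agent.Lib.MP_e941ef_an.Stmt

/-!
Definitions shared by all files of the solution of MP_e941ef_an.
-/

namespace Pool.Agent.Lib.MP_e941ef_an

open Complex Metric Set
open scoped ComplexConjugate ContDiff

noncomputable section

/-! ### Plane calculus -/

def RR (v : ℝ × ℝ) : ℝ := v.1 ^ 2 + v.2 ^ 2

def VV (v : ℝ × ℝ) : ℂ := (v.1 : ℂ) + (v.2 : ℂ) * I

def pd1 (f : ℝ × ℝ → ℂ) (v : ℝ × ℝ) : ℂ := fderiv ℝ f v (1, 0)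

def pd2 (f : ℝ × ℝ → ℂ) (v : ℝ × ℝ) : ℂ := fderiv ℝ f v (0, 1)

/-- The covector `2 Re (z a)`. -/
def cov (a1 a2 : ℝ × ℝ → ℂ) (v : ℝ × ℝ) (z : ℂ) : ℝ × ℝ :=
  (2 * (z * a1 v).re, 2 * (z * a2 v).re)

/-- The real determinant of the frame. -/
def detR (a1 a2 : ℝ × ℝ → ℂ) (v : ℝ × ℝ) : ℝ := 2 * (a1 v * conj (a2 v)).im

/-- The frame coordinate of a covector: the inverse of `cov`. -/
def piC (a1 a2 : ℝ × ℝ → ℂ) (w : Ph) : ℂ :=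
  ((w.2.1 : ℂ) * conj (a2 w.1) - (w.2.2 : ℂ) * conj (a1 w.1)) / ((detR a1 a2 w.1 : ℂ) * I)

/-- `da` evaluated on the standard basis. -/
def curl (a1 a2 : ℝ × ℝ → ℂ) (v : ℝ × ℝ) : ℂ := pd1 a2 v - pd2 a1 v

/-- `df ∧ a` evaluated on the standard basis. -/
def wedge (a1 a2 f : ℝ × ℝ → ℂ) (v : ℝ × ℝ) : ℂ := pd1 f v * a2 v - pd2 f v * a1 v

/-- `2 detR` times the bracket of the kinetic energy with the linear function `2 Re (f z)`. -/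
def Lam (a1 a2 f : ℝ × ℝ → ℂ) (v : ℝ × ℝ) (z : ℂ) : ℝ :=
  -(2 * (z * a2 v).im) * (2 * (pd1 f v * z).re) + (2 * (z * a1 v).im) * (2 * (pd2 f v * z).re)
    + (2 * (z * curl a1 a2 v).re) * (2 * (f v * z).im)

/-- The linear function of the momenta with frame coefficient `f`. -/
def lin (a1 a2 f : ℝ × ℝ → ℂ) (w : Ph) : ℝ := 2 * (f w.1 * piC a1 a2 w).re

/-- The Hamiltonian of a frame and a potential. -/
def ham (a1 a2 : ℝ × ℝ → ℂ) (U : ℝ × ℝ → ℝ) (w : Ph) : ℝ := normSq (piC a1 a2 w) / 2 + U w.1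

/-- The quintic integral. -/
def quint (a1 a2 x l : ℝ × ℝ → ℂ) (U : ℝ × ℝ → ℝ) (w : Ph) : ℝ :=
  lin a1 a2 x w ^ 3 *
    (2 * ham a1 a2 U w - 3 / 5 * lin a1 a2 x w ^ 2 + lin a1 a2 x w * lin a1 a2 l w)

/-- The inversion, lifted to covectors. -/
def tr (w : Ph) : Ph :=
  ((w.1.1 / RR w.1, w.1.2 / RR w.1),
    (RR w.1 * w.2.1 - 2 * (w.1.1 * w.2.1 + w.1.2 * w.2.2) * w.1.1,
      RR w.1 * w.2.2 - 2 * (w.1.1 * w.2.1 + w.1.2 * w.2.2) * w.1.2))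

/-- Log-polar coordinates, lifted to covectors. -/
def pol (w : Ph) : Ph :=
  ((Real.exp w.1.1 * Real.cos w.1.2, Real.exp w.1.1 * Real.sin w.1.2),
    (Real.exp (-w.1.1) * (w.2.1 * Real.cos w.1.2 - w.2.2 * Real.sin w.1.2),
      Real.exp (-w.1.1) * (w.2.1 * Real.sin w.1.2 + w.2.2 * Real.cos w.1.2)))

/-! ### The background on the southern cap -/

def tt (R : ℝ) : ℝ := (1 - R) / (1 + R)

def kapS (R : ℝ) : ℝ := 2 / ((1 + R) * (2 - tt R ^ 2))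

def cS (R : ℝ) : ℝ := 3 * tt R / Real.sqrt (2 - tt R ^ 2)

def xS (v : ℝ × ℝ) : ℂ := VV v * (kapS (RR v) : ℂ)

def cSC (v : ℝ × ℝ) : ℂ := (cS (RR v) : ℂ)

def aS1 (v : ℝ × ℝ) : ℂ := I * (pd1 xS v - xS v * pd1 cSC v)

def aS2 (v : ℝ × ℝ) : ℂ := I * (pd2 xS v - xS v * pd2 cSC v)

/-- The potential, a function of the height on the sphere. -/
def pot (R : ℝ) : ℝ := expNegInvGlue (-tt R - 2 / 3)

/-- All the properties of the system in the southern chart. -/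
structure Data where
  a1 : ℝ × ℝ → ℂ
  a2 : ℝ × ℝ → ℂ
  x : ℝ × ℝ → ℂ
  l : ℝ × ℝ → ℂ
  sa1 : ContDiff ℝ ∞ a1
  sa2 : ContDiff ℝ ∞ a2
  sx : ContDiff ℝ ∞ x
  sl : ContDiff ℝ ∞ l
  nondeg : ∀ v, detR a1 a2 v ≠ 0
  integral : ∀ w, bracket (ham a1 a2 (fun v => pot (RR v)))
    (quint a1 a2 x l (fun v => pot (RR v))) w = 0
  band : ∀ v, 2 < RR v → RR v < 3 → a1 v = I / (4 * (Real.sqrt (RR v) : ℂ)) ∧
    a2 v = -1 / (4 * (Real.sqrt (RR v) : ℂ)) ∧ x v = VV v / (4 * (Real.sqrt (RR v) : ℂ)) ∧ l v = 0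
  far : ∀ v, 4 < RR v → a1 v = I / (2 * (RR v : ℂ)) ∧ a2 v = -1 / (2 * (RR v : ℂ)) ∧
    x v = VV v / (2 * (RR v : ℂ)) ∧ l v = 0
  near : ∀ v, RR v < 1 → x v = xS v
  pole : l 0 ≠ 0
  zeros : {v | x v ^ 4 * (l v - 3 / 5 * x v) = 0}.Countable

/-! ### Auxiliary holomorphic functions -/

/-- The coefficients `(3/4)_k / (1/2)_k`. -/
def tauc (k : ℕ) : ℝ := ∏ j ∈ Finset.range k, (4 * (j : ℝ) + 3) / (4 * (j : ℝ) + 2)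

def psi (β : ℂ) : ℂ := ∑' k : ℕ, (tauc k : ℂ) * β ^ k

/-- The domain of `mu`. -/
def WW : Set (ℂ × ℂ) := {z | ‖z.1‖ < 1 ∧ ‖z.2‖ < (1 - ‖z.1‖) ^ 2 / 1000}

/-- The root near `1` of `m ^ 3 - (3/5) b m ^ 5 - (1 - (3/5) b) = c`. -/
def mu (z : ℂ × ℂ) : ℂ :=
  Classical.epsilon fun m : ℂ =>
    ‖m - 1‖ ≤ ‖1 - z.1‖ / 100 ∧ m ^ 3 - 3 / 5 * z.1 * m ^ 5 - (1 - 3 / 5 * z.1) = z.2

def NN (ν β : ℂ) : ℂ := 1 + ν + ν ^ 2 - 3 / 5 * β * (1 + ν + ν ^ 2 + ν ^ 3 + ν ^ 4)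

def Iint (ν β : ℂ) : ℂ := 4 / ν - 3 * (ν + 1) * (1 - β * (ν ^ 2 + 1)) / NN ν β

/-- The domain of `XiT`. -/
def WX : Set (ℂ × ℂ) := {z | ‖z.2‖ < 1 ∧ ‖z.1 - 1‖ < (1 - ‖z.2‖) / 100}

def XiT (z : ℂ × ℂ) : ℂ := ∫ t in (0 : ℝ)..1, (z.1 - 1) * Iint (1 + (t : ℂ) * (z.1 - 1)) z.2

def bet (z : ℂ × ℂ) : ℂ := z.1 * mu z ^ 2

def PP (z : ℂ × ℂ) : ℂ := 3 * mu z ^ 2 * (1 - bet z)

def Xi (z : ℂ × ℂ) : ℂ := XiT ((mu z)⁻¹, bet z)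

def II (z : ℂ × ℂ) : ℂ := (PP z)⁻¹

def JJ (z : ℂ × ℂ) : ℂ := -(psi (bet z) / mu z ^ 2) - Xi z / PP z

/-! ### The construction on the complexified cap -/

def den (p : ℂ × ℂ) : ℂ := 1 + p.1 * p.2

def xx (p : ℂ × ℂ) : ℂ := p.1 / den p

def sig (p : ℂ × ℂ) : ℂ := (1 - p.1 * p.2) / den p

def ww (p : ℂ × ℂ) : ℂ := sig p ^ (1 / 2 : ℂ)

def ee (p : ℂ × ℂ) : ℂ := -3 / ww p

def bb (p : ℂ × ℂ) (u : ℂ) : ℂ := xx p ^ 2 / u + 2 * xx p * xx p.swap + xx p.swap ^ 2 * u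

def ll (E : ℂ) (p : ℂ × ℂ) : ℂ := E * (1 - p.1 ^ 2) / (1 - (p.1 * p.2) ^ 2)

def cc (E : ℂ) (p : ℂ × ℂ) (u : ℂ) : ℂ := (xx p / u + xx p.swap) * (ll E p + ll E p.swap * u)

def kap (p : ℂ × ℂ) : ℂ := (1 - p.2 ^ 2) / (1 - p.1 ^ 2)

def lr (p : ℂ × ℂ) (u : ℂ) : ℂ := log (1 + kap p * u) - log (1 + kap p * p.1 ^ 2)

def EE (a : ℝ) (p : ℂ × ℂ) (τ : ℂ) : ℂ := (a : ℂ) * exp (ee p + τ)

def HH (a : ℝ) (p : ℂ × ℂ) (τ : ℂ) (u : ℂ) : ℂ :=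
  (ee p + τ + lr p u) * II (bb p u, cc (EE a p τ) p u) - JJ (bb p u, cc (EE a p τ) p u)

def H0 (p : ℂ × ℂ) (u : ℂ) : ℂ := (ee p + lr p u) / (3 * (1 - bb p u)) + psi (bb p u)

def rad (p : ℂ × ℂ) : ℝ := (1 + ‖p.1 * p.2‖) / 2

def avg (r : ℝ) (f : ℂ → ℂ) : ℂ := Real.circleAverage f 0 r

def m1 (a : ℝ) (p : ℂ × ℂ) (τ : ℂ) : ℂ :=
  -avg (rad p) (fun u => HH a p τ u / u) - avg (rad p) (fun u => u * HH a p.swap τ u)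

def m10 (p : ℂ × ℂ) : ℂ :=
  -avg (rad p) (fun u => H0 p u / u) - avg (rad p) (fun u => u * H0 p.swap u)

def dd (ξ : ℂ) : ℝ := 1 - ‖ξ‖ ^ 2

/-- The complex box around the point `(ξ, conj ξ)` of the real slice. -/
def box (ξ : ℂ) : Set (ℂ × ℂ) :=
  {p | ‖p.1 - ξ‖ < dd ξ ^ 2 / 1000 ∧ ‖p.2 - conj ξ‖ < dd ξ ^ 2 / 1000}

/-- The complex neighbourhood of the real disc. -/
def NB : Set (ℂ × ℂ) := {p | ∃ ξ : ℂ, ‖ξ‖ < 1 ∧ p ∈ box ξ}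

/-- The flat weight. -/
def fl (d : ℝ) : ℝ := Real.exp (-(1 / Real.sqrt d))

def cj (p : ℂ × ℂ) : ℂ × ℂ := (conj p.1, conj p.2)

/-- The 1-form `A` in terms of the values and differentials of `x`, `l`, `m`. -/
def Aform (x l m dx dl dm : ℂ) : ℂ :=
  x * dl / l - dx + 5 * x ^ 2 * (l - 3 / 5 * x) * dm + 4 * m * x ^ 2 * (dl - 3 / 5 * dx)
    + 6 * x * (l - 3 / 5 * x) * m * dx

/-- The exterior derivative of `Aform`. -/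
def Bform (x l m dx dl dm dx' dl' dm' : ℂ) : ℂ :=
  (dx * dl' - dx' * dl) / l
    + ((4 * x * (l - 3 / 5 * x) * dx + x ^ 2 * (dl - 3 / 5 * dx)) * dm'
      - (4 * x * (l - 3 / 5 * x) * dx' + x ^ 2 * (dl' - 3 / 5 * dx')) * dm)
    + 2 * m * x * (dx * dl' - dx' * dl)

/-- The identity `dF ∧ dϑ = 0` on the complexified cap, evaluated on `(ζ ∂_ζ, w1, w2)`. -/
def STid (x y l1 l2 m ms : ℂ × ℂ → ℂ) (p w1 w2 : ℂ × ℂ) (ζ : ℂ) : Prop :=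
  let q := x p * ζ + y p / ζ
  let lam := l1 p * ζ + l2 p / ζ
  let Fq := 3 * q ^ 2 - 3 * q ^ 4 + 4 * q ^ 3 * lam
  let Fl := q ^ 4
  let D := fun (f : ℂ × ℂ → ℂ) (w : ℂ × ℂ) => fderiv ℂ f p w
  let dF := fun w => Fq * (D x w * ζ + D y w / ζ) + Fl * (D l1 w * ζ + D l2 w / ζ)
  let Om := fun w => ζ * Aform (x p) (l1 p) (m p) (D x w) (D l1 w) (D m w)
    + Aform (y p) (l2 p) (ms p) (D y w) (D l2 w) (D ms w) / ζ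
  (Fq * (x p * ζ - y p / ζ) + Fl * (l1 p * ζ - l2 p / ζ)) *
      (ζ * Bform (x p) (l1 p) (m p) (D x w1) (D l1 w1) (D m w1) (D x w2) (D l1 w2) (D m w2)
        - Bform (y p) (l2 p) (ms p) (D y w1) (D l2 w1) (D ms w1) (D y w2) (D l2 w2) (D ms w2) / ζ)
    - dF w1 * Om w2 + dF w2 * Om w1 = 0

/-- The inclusion of the real plane in its complexification. -/
def cx (v : ℝ × ℝ) : ℂ × ℂ := ((v.1 : ℂ), (v.2 : ℂ))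

/-- Holomorphic near the real unit disc and flat at its boundary circle. -/
def FlatHol (f : ℂ × ℂ → ℂ) : Prop :=
  ∃ (η : ℝ) (K : ℕ), 0 < η ∧
    (∀ v, RR v < 1 → DifferentiableOn ℂ f (ball (cx v) (η * (1 - RR v) ^ K))) ∧
    ∀ M : ℕ, ∃ C : ℝ, ∀ v, RR v < 1 → ∀ p ∈ ball (cx v) (η * (1 - RR v) ^ K),
      ‖f p‖ ≤ C * (1 - RR v) ^ M

/-- The restriction to the real unit disc, extended by zero. -/
def ext0 (f : ℂ × ℂ → ℂ) (v : ℝ × ℝ) : ℂ := if RR v < 1 then f (cx v) else 0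

/-- The complexified parametrisation of the cap. -/
def par (p : ℂ × ℂ) : ℂ × ℂ :=
  (2 * (p.1 + p.2 * I) / (1 + p.1 ^ 2 + p.2 ^ 2), 2 * (p.1 - p.2 * I) / (1 + p.1 ^ 2 + p.2 ^ 2))

end

end Pool.Agent.Lib.MP_e941ef_an
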