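import Pool.Agent.Lib.MP_e941ef_an.SCV

namespace Pool.Agent.Lib.MP_e941ef_an

open Complex Metric Set Filter Topology
open scoped ComplexConjugate ContDiff

theorem FlatHol.fderiv {f : ℂ × ℂ → ℂ} (hf : FlatHol f) (w : ℂ × ℂ) :
    FlatHol (fun p => fderiv ℂ f p w) := by
  obtain ⟨η, K, hη, hd, hb⟩ := hf
  have hsub : ∀ v, RR v < 1 → ∀ p ∈ ball (cx v) (η / 2 * (1 - RR v) ^ K),
      ball p (η / 2 * (1 - RR v) ^ K) ⊆ ball (cx v) (η * (1 - RR v) ^ K) := by
    intro v _ p hp q hq
    rw [mem_ball] at hp hq ⊢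
    linarith [dist_triangle q p (cx v)]
  refine ⟨η / 2, K, half_pos hη, fun v hv => ?_, fun M => ?_⟩
  · refine (holo_fderiv isOpen_ball (hd v hv) w).mono (ball_subset_ball ?_)
    have : 0 < (1 - RR v) ^ K := pow_pos (by linarith) K
    nlinarith
  · obtain ⟨C, hC⟩ := hb (M + K)
    refine ⟨4 * C / η * ‖w‖, fun v hv p hp => ?_⟩
    have hδ : 0 < 1 - RR v := by linarith
    have hr : 0 < η / 2 * (1 - RR v) ^ K := by positivity
    have h1 := norm_fderiv_le_div_of_mapsTo_ball (f := f) (c := p)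
      (R₂ := 2 * C * (1 - RR v) ^ (M + K)) ((hd v hv).mono (hsub v hv p hp)) (fun q hq => by
        rw [mem_closedBall, dist_eq_norm]
        have e1 := hC v hv q (hsub v hv p hp hq)
        have e2 := hC v hv p (hsub v hv p hp (mem_ball_self hr))
        linarith [norm_sub_le (f q) (f p)]) hr
    calc ‖_root_.fderiv ℂ f p w‖ ≤ ‖_root_.fderiv ℂ f p‖ * ‖w‖ := ContinuousLinearMap.le_opNorm _ _
      _ ≤ 2 * C * (1 - RR v) ^ (M + K) / (η / 2 * (1 - RR v) ^ K) * ‖w‖ := by gcongr
      _ = 4 * C / η * ‖w‖ * (1 - RR v) ^ M := by rw [pow_add]; field_simp; ring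

/-- The inclusion of the real plane as a continuous linear map. -/
noncomputable def cxL : ℝ × ℝ →L[ℝ] ℂ × ℂ := ofRealCLM.prodMap ofRealCLM

theorem cxL_apply (v : ℝ × ℝ) : cxL v = cx v := rfl

theorem differentiable_RR : Differentiable ℝ RR := by
  unfold RR; fun_prop

theorem FlatHol.hasFDerivAt_ext0 {f : ℂ × ℂ → ℂ} (hf : FlatHol f) (v : ℝ × ℝ) :
    HasFDerivAt (ext0 f) (if RR v < 1 then
      ((_root_.fderiv ℂ f (cx v)).restrictScalars ℝ).comp cxL else 0) v := by
  obtain ⟨η, K, hη, hd, hb⟩ := hf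
  have hr : ∀ v, RR v < 1 → 0 < η * (1 - RR v) ^ K := fun v hv =>
    mul_pos hη (pow_pos (by linarith) K)
  split_ifs with hv
  · have h1 : DifferentiableAt ℂ f (cx v) := (hd v hv).differentiableAt (ball_mem_nhds _ (hr v hv))
    have h2 : HasFDerivAt (fun u => f (cxL u))
        (((_root_.fderiv ℂ f (cx v)).restrictScalars ℝ).comp cxL) v :=
      (h1.hasFDerivAt.restrictScalars ℝ).comp v cxL.hasFDerivAt
    refine h2.congr_of_eventuallyEq ?_
    have : ∀ᶠ u in 𝓝 v, RR u < 1 :=
      (isOpen_lt differentiable_RR.continuous continuous_const).mem_nhds hv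
    exact this.mono fun u hu => if_pos hu
  · obtain ⟨C, hC⟩ := hb 2
    have h0 : ext0 f v = 0 := if_neg hv
    rw [hasFDerivAt_iff_isLittleO]
    simp only [h0, sub_zero, zero_apply]
    have h1 : (fun u => RR u - RR v) =O[𝓝 v] fun u => u - v :=
      (differentiable_RR v).hasFDerivAt.isBigO_sub
    have h2 : (fun u => RR u - RR v) =o[𝓝 v] fun _ => (1 : ℝ) := by
      rw [Asymptotics.isLittleO_one_iff]
      have := (differentiable_RR.continuous.tendsto v).sub_const (RR v)
      simpa using this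
    have h3 : (fun u => (RR u - RR v) * (RR u - RR v)) =o[𝓝 v] fun u => u - v := by
      have := h2.mul_isBigO h1.norm_right
      simpa using this
    refine Asymptotics.IsBigO.trans_isLittleO ?_ h3
    refine Asymptotics.IsBigO.of_bound |C| (Eventually.of_forall fun u => ?_)
    by_cases hu : RR u < 1
    · have e : ext0 f u = f (cx u) := if_pos hu
      rw [e, Real.norm_eq_abs, abs_mul_self]
      refine (hC u hu _ (mem_ball_self (hr u hu))).trans ?_
      have h4 : (1 - RR u) ^ 2 ≤ (RR u - RR v) * (RR u - RR v) := by nlinarith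
      calc C * (1 - RR u) ^ 2 ≤ |C| * (1 - RR u) ^ 2 := by gcongr; exact le_abs_self C
        _ ≤ _ := by gcongr
    · have e : ext0 f u = 0 := if_neg hu
      rw [e, norm_zero]; positivity

theorem FlatHol.fderiv_ext0' {f : ℂ × ℂ → ℂ} (hf : FlatHol f) (v e : ℝ × ℝ) :
    _root_.fderiv ℝ (ext0 f) v e = ext0 (fun p => _root_.fderiv ℂ f p (cx e)) v := by
  rw [(hf.hasFDerivAt_ext0 v).fderiv, ext0]
  split_ifs
  · rfl
  · rfl

/-- The extension by zero of a flat holomorphic function is smooth. -/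
theorem FlatHol.contDiff {f : ℂ × ℂ → ℂ} (hf : FlatHol f) : ContDiff ℝ ∞ (ext0 f) := by
  rw [contDiff_infty]
  intro n
  induction n generalizing f with
  | zero =>
    exact contDiff_zero.2 (continuous_iff_continuousAt.2 fun v => (hf.hasFDerivAt_ext0 v).continuousAt)
  | succ n ih =>
    rw [Nat.cast_succ, contDiff_succ_iff_fderiv]
    refine ⟨fun v => (hf.hasFDerivAt_ext0 v).differentiableAt, by simp, ?_⟩
    rw [contDiff_clm_apply_iff]
    intro e
    simp only [hf.fderiv_ext0']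
    exact ih (hf.fderiv (cx e))

theorem FlatHol.fderiv_ext0 {f : ℂ × ℂ → ℂ} (hf : FlatHol f) (v e : ℝ × ℝ) :
    _root_.fderiv ℝ (ext0 f) v e = ext0 (fun p => _root_.fderiv ℂ f p (cx e)) v :=
  hf.fderiv_ext0' v e

end Pool.Agent.Lib.MP_e941ef_an
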