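import Pool.Agent.Lib.MP_e941ef_an.Defs

namespace Pool.Agent.Lib.MP_e941ef_an

open Complex Metric Set Filter Topology
open scoped ComplexConjugate ContDiff

theorem norm_avg_le {f : ℂ → ℂ} {r C : ℝ} (hr : 0 < r) (h : ∀ u : ℂ, ‖u‖ = r → ‖f u‖ ≤ C) :
    ‖avg r f‖ ≤ C := by
  have hpi : 0 < 2 * Real.pi := Real.two_pi_pos
  have h1 : ‖∫ θ in (0 : ℝ)..2 * Real.pi, f (circleMap 0 r θ)‖ ≤ C * |2 * Real.pi - 0| :=
    intervalIntegral.norm_integral_le_of_norm_le_const fun θ _ =>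
      h _ (by simp [abs_of_pos hr])
  rw [avg, Real.circleAverage_def, norm_smul, Real.norm_eq_abs, abs_of_pos (inv_pos.2 hpi)]
  rw [sub_zero, abs_of_pos hpi] at h1
  calc (2 * Real.pi)⁻¹ * ‖∫ θ in (0 : ℝ)..2 * Real.pi, f (circleMap 0 r θ)‖
      ≤ (2 * Real.pi)⁻¹ * (C * (2 * Real.pi)) := by gcongr
    _ = C := by field_simp

theorem avg_congr {f g : ℂ → ℂ} {r : ℝ} (hr : 0 < r) (h : ∀ u : ℂ, ‖u‖ = r → f u = g u) :
    avg r f = avg r g := by
  refine Real.circleAverage_congr_sphere fun u hu => h u ?_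
  simpa [abs_of_pos hr] using hu

theorem avg_add {f g : ℂ → ℂ} {r : ℝ} (hr : 0 < r) (hf : ContinuousOn f (sphere 0 r))
    (hg : ContinuousOn g (sphere 0 r)) : avg r (fun u => f u + g u) = avg r f + avg r g := by
  exact Real.circleAverage_fun_add (hf.circleIntegrable hr.le) (hg.circleIntegrable hr.le)

theorem avg_sub {f g : ℂ → ℂ} {r : ℝ} (hr : 0 < r) (hf : ContinuousOn f (sphere 0 r))
    (hg : ContinuousOn g (sphere 0 r)) : avg r (fun u => f u - g u) = avg r f - avg r g := by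
  exact Real.circleAverage_fun_sub (hf.circleIntegrable hr.le) (hg.circleIntegrable hr.le)

theorem avg_const_mul (c : ℂ) (f : ℂ → ℂ) (r : ℝ) :
    avg r (fun u => c * f u) = c * avg r f := by
  exact Real.circleAverage_fun_smul (a := c) (f := f)

theorem avg_conj (f : ℂ → ℂ) (r : ℝ) : conj (avg r f) = avg r (fun u => conj (f (conj u))) := by
  have h1 : ∀ θ : ℝ, conj (circleMap 0 r θ) = circleMap 0 r (2 * Real.pi - θ) := by
    intro θ
    rw [conj_circleMap_zero, sub_eq_add_neg, add_comm, periodic_circleMap]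
  simp only [avg, Real.circleAverage_def, h1]
  rw [intervalIntegral.integral_comp_sub_left (fun θ => conj (f (circleMap 0 r θ)))]
  simp only [sub_self, sub_zero, Complex.real_smul, map_mul, Complex.conj_ofReal]
  congr 1
  simp only [intervalIntegral, map_sub, integral_conj]

/-- The average does not depend on the radius. -/
theorem avg_radius {f : ℂ → ℂ} {r₁ r₂ : ℝ} (h₁ : 0 < r₁) (h₁₂ : r₁ ≤ r₂)
    (hf : ∀ u : ℂ, r₁ ≤ ‖u‖ → ‖u‖ ≤ r₂ → DifferentiableAt ℂ f u) : avg r₁ f = avg r₂ f := by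
  have h₂ : 0 < r₂ := h₁.trans_le h₁₂
  rw [avg, avg, Real.circleAverage_eq_circleIntegral h₁.ne',
    Real.circleAverage_eq_circleIntegral h₂.ne',
    circleIntegral_sub_center_inv_smul_eq_of_differentiable_on_annulus_off_countable h₁ h₁₂
      countable_empty]
  · intro u hu
    simp only [Set.mem_sdiff, mem_closedBall, mem_ball, dist_zero_right, not_lt] at hu
    exact (hf u hu.2 hu.1).continuousAt.continuousWithinAt
  · intro u hu
    simp only [Set.mem_sdiff, mem_closedBall, mem_ball, dist_zero_right, not_le] at hu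
    exact hf u hu.1.2.le hu.1.1.le

/-- The Cauchy formula on a disc. -/
theorem avg_cauchy {f : ℂ → ℂ} {r : ℝ} (hf : ∀ u : ℂ, ‖u‖ ≤ r → DifferentiableAt ℂ f u)
    {s : ℂ} (hs : ‖s‖ < r) : avg r (fun u => f u * (u / (u - s))) = f s := by
  have hr : 0 < r := (norm_nonneg s).trans_lt hs
  have := circleAverage_sub_sub_inv_smul_of_differentiable_on_off_countable (f := f) (c := 0)
    (R := r) (w := s) countable_empty
    (fun u hu => (hf u (by simpa [abs_of_pos hr] using hu)).continuousAt.continuousWithinAt)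
    (fun u hu => hf u (le_of_lt (by simpa [abs_of_pos hr] using hu)))
    (by simpa [abs_of_pos hr] using hs)
  rw [← this, avg]
  congr 1
  ext u
  simp [mul_comm]

/-- The Cauchy formula on an annulus. -/
theorem avg_laurent {f : ℂ → ℂ} {r₁ r₂ : ℝ} (h₁ : 0 < r₁)
    (hf : ∀ u : ℂ, r₁ ≤ ‖u‖ → ‖u‖ ≤ r₂ → DifferentiableAt ℂ f u)
    {s : ℂ} (hs₁ : r₁ < ‖s‖) (hs₂ : ‖s‖ < r₂) :
    f s = avg r₂ (fun u => f u * (u / (u - s))) - avg r₁ (fun u => f u * (u / (u - s))) := by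
  have h₁₂ : r₁ < r₂ := hs₁.trans hs₂
  have h₂ : 0 < r₂ := h₁.trans h₁₂
  have hU : {u : ℂ | r₁ < ‖u‖ ∧ ‖u‖ < r₂} ∈ 𝓝 s :=
    ((isOpen_lt continuous_const continuous_norm).inter
      (isOpen_lt continuous_norm continuous_const)).mem_nhds ⟨hs₁, hs₂⟩
  have hd : ∀ u : ℂ, r₁ ≤ ‖u‖ → ‖u‖ ≤ r₂ → DifferentiableAt ℂ (fun u => u * dslope f s u) u := by
    intro u h1 h2
    refine differentiableAt_id.mul ?_
    rcases eq_or_ne u s with rfl | hne
    · exact ((differentiableOn_dslope hU).2 fun z hz =>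
        (hf z hz.1.le hz.2.le).differentiableWithinAt).differentiableAt hU
    · exact (differentiableAt_dslope_of_ne hne).2 (hf u h1 h2)
  have key : ∀ r : ℝ, r₁ ≤ r → r ≤ r₂ → r ≠ ‖s‖ → avg r (fun u => u * dslope f s u) =
      avg r (fun u => f u * (u / (u - s))) - f s * avg r (fun u => u / (u - s)) := by
    intro r h1 h2 h3
    have hr : 0 < r := h₁.trans_le h1
    have hne : ∀ u : ℂ, ‖u‖ = r → u - s ≠ 0 := fun u hu h =>
      h3 (by rw [← hu, sub_eq_zero.1 h])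
    have hc : ContinuousOn (fun u : ℂ => u / (u - s)) (sphere 0 r) :=
      continuousOn_id.div (continuousOn_id.sub continuousOn_const)
        fun u hu => hne u (by simpa using hu)
    have hcf : ContinuousOn f (sphere 0 r) := fun u hu => by
      have : ‖u‖ = r := by simpa using hu
      exact (hf u (this ▸ h1) (this ▸ h2)).continuousAt.continuousWithinAt
    rw [← avg_const_mul, ← avg_sub (f := fun u => f u * (u / (u - s)))
      (g := fun u => f s * (u / (u - s))) hr (hcf.mul hc) (continuousOn_const.mul hc)]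
    refine avg_congr hr fun u hu => ?_
    rw [dslope_of_ne _ (sub_ne_zero.1 (hne u hu)), slope_def_field]
    field_simp
  have e2 : avg r₂ (fun u => u / (u - s)) = 1 := by
    have := avg_cauchy (f := fun _ => (1 : ℂ)) (r := r₂) (fun _ _ => differentiableAt_const _) hs₂
    simpa using this
  have e1 : avg r₁ (fun u => u / (u - s)) = 0 := by
    have := avg_cauchy (f := fun u => u / (u - s)) (r := r₁) (s := 0) (fun u hu =>
      differentiableAt_id.div (differentiableAt_id.sub_const s) fun h => by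
        rw [sub_eq_zero.1 h] at hu; linarith) (by simpa using h₁)
    rw [zero_div] at this
    rw [← this]
    refine avg_congr h₁ fun u hu => ?_
    have : u ≠ 0 := by rintro rfl; simp at hu; exact h₁.ne hu
    rw [sub_zero, div_self this, mul_one]
  have := avg_radius h₁ h₁₂.le hd
  rw [key r₁ le_rfl h₁₂.le hs₁.ne, key r₂ h₁₂.le le_rfl hs₂.ne', e1, e2] at this
  linear_combination this

/-- A Liouville argument: a function on an annulus that continues to the punctured plane with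
simple poles at `0` and infinity in the form below is `ζ O(0) + J(0) / ζ`. -/
theorem liouville_glue {φ O J : ℂ → ℂ} {ρ₁ ρ₂ : ℝ} (h₁ : 0 < ρ₁) (h₁₂ : ρ₁ < ρ₂) (h₂ : ρ₂ < 1)
    (hφ : DifferentiableOn ℂ φ {ζ | ρ₁ < ‖ζ ^ 2‖ ∧ ‖ζ ^ 2‖ < ρ₁⁻¹})
    (hO : DifferentiableOn ℂ O (ball 0 ρ₂)) (hJ : DifferentiableOn ℂ J (ball 0 ρ₂))
    (hout : ∀ ζ : ℂ, ρ₂⁻¹ < ‖ζ ^ 2‖ → ‖ζ ^ 2‖ < ρ₁⁻¹ → φ ζ = ζ * O (ζ ^ 2)⁻¹)
    (hin : ∀ ζ : ℂ, ρ₁ < ‖ζ ^ 2‖ → ‖ζ ^ 2‖ < ρ₂ → φ ζ = J (ζ ^ 2) / ζ)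
    {ζ : ℂ} (hζ : ‖ζ‖ = 1) : φ ζ = ζ * O 0 + J 0 / ζ := by
  classical
  have hρ₂ : 0 < ρ₂ := h₁.trans h₁₂
  have hi : ρ₂⁻¹ < ρ₁⁻¹ := (inv_lt_inv₀ hρ₂ h₁).2 h₁₂
  have hi1 : 1 < ρ₂⁻¹ := (one_lt_inv₀ hρ₂).2 h₂
  let Ψ : ℂ → ℂ := fun z =>
    if ‖z ^ 2‖ < ρ₂ then J (z ^ 2) else if ‖z ^ 2‖ < ρ₁⁻¹ then z * φ z else z ^ 2 * O (z ^ 2)⁻¹
  have hA : ∀ z : ℂ, ‖z ^ 2‖ < ρ₂ → Ψ z = J (z ^ 2) := fun z hz => if_pos hz
  have hB : ∀ z : ℂ, ρ₁ < ‖z ^ 2‖ → ‖z ^ 2‖ < ρ₁⁻¹ → Ψ z = z * φ z := by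
    intro z h1 h2
    by_cases h3 : ‖z ^ 2‖ < ρ₂
    · have : z ≠ 0 := by rintro rfl; simp at h1; linarith
      rw [hA z h3, hin z h1 h3]; field_simp
    · simp only [Ψ, if_neg h3, if_pos h2]
  have hC : ∀ z : ℂ, ρ₂⁻¹ < ‖z ^ 2‖ → Ψ z = z ^ 2 * O (z ^ 2)⁻¹ := by
    intro z h1
    have h3 : ¬ ‖z ^ 2‖ < ρ₂ := by linarith
    by_cases h2 : ‖z ^ 2‖ < ρ₁⁻¹
    · simp only [Ψ, if_neg h3, if_pos h2]
      rw [hout z h1 h2]; ring
    · simp only [Ψ, if_neg h3, if_neg h2]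
  have hcont : Continuous fun z : ℂ => ‖z ^ 2‖ := by fun_prop
  have hsq : ∀ z : ℂ, DifferentiableAt ℂ (fun z : ℂ => z ^ 2) z := fun z => by fun_prop
  have hΨ : Differentiable ℂ Ψ := by
    intro z
    by_cases h1 : ‖z ^ 2‖ < ρ₂
    · have hn : ∀ᶠ w in 𝓝 z, ‖w ^ 2‖ < ρ₂ := (isOpen_lt hcont continuous_const).mem_nhds h1
      have : DifferentiableAt ℂ (fun w => J (w ^ 2)) z :=
        (hJ.differentiableAt (isOpen_ball.mem_nhds (by simpa using h1))).comp z (hsq z)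
      exact this.congr_of_eventuallyEq (hn.mono hA)
    by_cases h2 : ‖z ^ 2‖ < ρ₁⁻¹
    · have hn : {w : ℂ | ρ₁ < ‖w ^ 2‖ ∧ ‖w ^ 2‖ < ρ₁⁻¹} ∈ 𝓝 z :=
        ((isOpen_lt continuous_const hcont).inter (isOpen_lt hcont continuous_const)).mem_nhds
          ⟨by change ρ₁ < _; linarith, h2⟩
      have : DifferentiableAt ℂ (fun w => w * φ w) z :=
        differentiableAt_id.mul (hφ.differentiableAt hn)
      exact this.congr_of_eventuallyEq (mem_of_superset hn fun w hw => hB w hw.1 hw.2)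
    · have h3 : ρ₂⁻¹ < ‖z ^ 2‖ := by linarith
      have hn : ∀ᶠ w in 𝓝 z, ρ₂⁻¹ < ‖w ^ 2‖ := (isOpen_lt continuous_const hcont).mem_nhds h3
      have h0 : z ^ 2 ≠ 0 := by
        intro h; rw [h, norm_zero] at h3; linarith
      have hm : (z ^ 2)⁻¹ ∈ ball (0 : ℂ) ρ₂ := by
        rw [mem_ball_zero_iff, norm_inv]
        exact (inv_lt_comm₀ (by linarith) hρ₂).2 h3
      have : DifferentiableAt ℂ (fun w => w ^ 2 * O (w ^ 2)⁻¹) z :=
        (hsq z).mul ((hO.differentiableAt (isOpen_ball.mem_nhds hm)).comp z ((hsq z).inv h0))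
      exact this.congr_of_eventuallyEq (hn.mono hC)
  have hlim : Tendsto (fun z => Ψ z - z ^ 2 * O 0) (cocompact ℂ) (𝓝 (deriv O 0)) := by
    have hd : HasDerivAt O (deriv O 0) 0 :=
      (hO.differentiableAt (ball_mem_nhds 0 hρ₂)).hasDerivAt
    have t1 : Tendsto (fun z : ℂ => z ^ 2) (Bornology.cobounded ℂ) (Bornology.cobounded ℂ) :=
      tendsto_pow_cobounded_cobounded two_ne_zero
    have t2 := (hasDerivAt_iff_tendsto_slope.1 hd).comp (tendsto_inv₀_cobounded'.comp t1)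
    rw [← cobounded_eq_cocompact]
    refine t2.congr' ?_
    have t3 : ∀ᶠ z : ℂ in Bornology.cobounded ℂ, ρ₂⁻¹ < ‖z ^ 2‖ :=
      (tendsto_norm_cobounded_atTop.comp t1).eventually (eventually_gt_atTop _)
    filter_upwards [t3] with z hz
    simp only [Function.comp, slope_def_field, hC z hz, sub_zero, div_inv_eq_mul]
    ring
  have hE : Differentiable ℂ fun z => Ψ z - z ^ 2 * O 0 := hΨ.sub (by fun_prop)
  have e1 := hE.apply_eq_of_tendsto_cocompact ζ hlim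
  have e0 := hE.apply_eq_of_tendsto_cocompact 0 hlim
  have hz2 : ‖ζ ^ 2‖ = 1 := by rw [norm_pow, hζ, one_pow]
  rw [hB ζ (by linarith) (by linarith)] at e1
  rw [hA 0 (by simpa using hρ₂)] at e0
  have hz : ζ ≠ 0 := by rintro rfl; simp at hζ
  simp only [ne_eq, OfNat.ofNat_ne_zero, not_false_eq_true, zero_pow, zero_mul, sub_zero] at e0
  field_simp
  linear_combination e1 - e0

end Pool.Agent.Lib.MP_e941ef_an
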