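import Pool.Agent.Lib.MP_e941ef_an.STA

namespace Pool.Agent.Lib.MP_e941ef_an

open Complex Metric Set Filter Topology
open scoped ComplexConjugate ContDiff

/-- The 2-form divided by the fibre coordinate, as a function of `s = t⁻²`. -/
noncomputable def Ohat (x y l1 l2 dx dy d1 d2 κ dx' dy' d1' d2' κ' M Mp Mp' Ms s : ℂ) : ℂ :=
  ((dx + dy * s + κ * (x - y * s)) * (d1' + d2' * s + κ' * (l1 - l2 * s))
      - (dx' + dy' * s + κ' * (x - y * s)) * (d1 + d2 * s + κ * (l1 - l2 * s))) / (l1 + l2 * s)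
    + ((3 * (s - 3 / 5 * (x + y * s) ^ 2 + (x + y * s) * (l1 + l2 * s))
          * (dx + dy * s + κ * (x - y * s))
        + (x + y * s) * (-(6 / 5) * (x + y * s) * (dx + dy * s + κ * (x - y * s))
          + (x + y * s) * (d1 + d2 * s + κ * (l1 - l2 * s))
          + (l1 + l2 * s) * (dx + dy * s + κ * (x - y * s)))) * (Mp' - 2 * κ' * (M + s * Ms))
      - (3 * (s - 3 / 5 * (x + y * s) ^ 2 + (x + y * s) * (l1 + l2 * s))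
          * (dx' + dy' * s + κ' * (x - y * s))
        + (x + y * s) * (-(6 / 5) * (x + y * s) * (dx' + dy' * s + κ' * (x - y * s))
          + (x + y * s) * (d1' + d2' * s + κ' * (l1 - l2 * s))
          + (l1 + l2 * s) * (dx' + dy' * s + κ' * (x - y * s)))) * (Mp - 2 * κ * (M + s * Ms)))
    - 2 * M * (x + y * s) * ((d1 + d2 * s + κ * (l1 - l2 * s)) * (dx' + dy' * s + κ' * (x - y * s))
      - (d1' + d2' * s + κ' * (l1 - l2 * s)) * (dx + dy * s + κ * (x - y * s)))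

lemma Ohat_A {x y l1 l2 dx' dy' d1' d2' M Mp' Ms κ : ℂ} (hl : l1 ≠ 0) :
    Ohat x y l1 l2 0 0 0 0 κ dx' dy' d1' d2' 0 M 0 Mp' Ms 0 = κ * Aform x l1 M dx' d1' Mp' := by
  simp only [Ohat, Aform, mul_zero, add_zero, sub_zero]
  field_simp
  ring

lemma Ohat_B {x y l1 l2 dx dy d1 d2 dx' dy' d1' d2' M Mp Mp' Ms : ℂ} (hl : l1 ≠ 0) :
    Ohat x y l1 l2 dx dy d1 d2 0 dx' dy' d1' d2' 0 M Mp Mp' Ms 0 =
      Bform x l1 M dx d1 Mp dx' d1' Mp' := by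
  simp only [Ohat, Bform, mul_zero, add_zero, sub_zero]
  field_simp
  ring

lemma fderiv_lin {z₀ : (ℂ × ℂ) × ℂ} {t : (ℂ × ℂ) × ℂ → ℂ} {x y : ℂ × ℂ → ℂ}
    (dt : DifferentiableAt ℂ t z₀) (ht : t z₀ ≠ 0) (dx : DifferentiableAt ℂ x z₀.1)
    (dy : DifferentiableAt ℂ y z₀.1) :
    DifferentiableAt ℂ (fun z => x z.1 * t z + y z.1 / t z) z₀ ∧
    ∀ (v : (ℂ × ℂ) × ℂ) (κ : ℂ), fderiv ℂ t z₀ v = κ * t z₀ →
      fderiv ℂ (fun z => x z.1 * t z + y z.1 / t z) z₀ v =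
        fderiv ℂ x z₀.1 v.1 * t z₀ + fderiv ℂ y z₀.1 v.1 / t z₀
          + κ * (x z₀.1 * t z₀ - y z₀.1 / t z₀) := by
  have hx := dx.hasFDerivAt.comp z₀ (hasFDerivAt_fst (𝕜 := ℂ) (p := z₀))
  have hy := dy.hasFDerivAt.comp z₀ (hasFDerivAt_fst (𝕜 := ℂ) (p := z₀))
  have hti := (hasDerivAt_inv ht).comp_hasFDerivAt z₀ dt.hasFDerivAt
  have h := (hx.mul dt.hasFDerivAt).add (hy.mul hti)
  have e : (fun z => x z.1 * t z + y z.1 / t z) =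
      (x ∘ Prod.fst) * t + (y ∘ Prod.fst) * ((fun y => y⁻¹) ∘ t) := by
    funext z
    simp [div_eq_mul_inv]
  rw [e]
  refine ⟨h.differentiableAt, fun v κ hv => ?_⟩
  rw [h.fderiv]
  simp only [_root_.add_apply, _root_.smul_apply, smul_eq_mul, ContinuousLinearMap.comp_apply,
    ContinuousLinearMap.coe_fst', Function.comp_apply, hv]
  field_simp
  ring

/-- One half (outer or inner) of the gluing. -/
lemma half_form {z₀ : (ℂ × ℂ) × ℂ} {t η : (ℂ × ℂ) × ℂ → ℂ} {x y l1 l2 : ℂ × ℂ → ℂ}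
    {L M : (ℂ × ℂ) × ℂ → ℂ} {χ : ℂ → ℂ} (hχ : DifferentiableOn ℂ χ (ball 0 1))
    (dt : DifferentiableAt ℂ t z₀) (ht : t z₀ ≠ 0) (dx : DifferentiableAt ℂ x z₀.1)
    (dy : DifferentiableAt ℂ y z₀.1) (d1 : DifferentiableAt ℂ l1 z₀.1)
    (d2 : DifferentiableAt ℂ l2 z₀.1) (dL : DifferentiableAt ℂ L (z₀.1, (t z₀ ^ 2)⁻¹))
    (dM : DifferentiableAt ℂ M (z₀.1, (t z₀ ^ 2)⁻¹))
    {q lam : (ℂ × ℂ) × ℂ → ℂ} (eq : q = fun z => x z.1 * t z + y z.1 / t z)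
    (el : lam = fun z => l1 z.1 * t z + l2 z.1 / t z)
    (hW : ∀ᶠ z in 𝓝 z₀, (q z ^ 2, q z * lam z) ∈ WW) (hq : q z₀ ≠ 0)
    (hL : ∀ᶠ z in 𝓝 z₀, exp (L (z.1, (t z ^ 2)⁻¹)) = l1 z.1 + l2 z.1 * (t z ^ 2)⁻¹)
    (hη : η =ᶠ[𝓝 z₀] fun z => L (z.1, (t z ^ 2)⁻¹) + Xi (q z ^ 2, q z * lam z)
      - χ (bet (q z ^ 2, q z * lam z))
      + PP (q z ^ 2, q z * lam z) * ((t z ^ 2)⁻¹ * M (z.1, (t z ^ 2)⁻¹)))
    {u w : (ℂ × ℂ) × ℂ} {κ κ' : ℂ} (hu : fderiv ℂ t z₀ u = κ * t z₀)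
    (hw : fderiv ℂ t z₀ w = κ' * t z₀) :
    fderiv ℂ (fun z => q z * mu (q z ^ 2, q z * lam z)) z₀ u * (κ' + fderiv ℂ η z₀ w)
      - fderiv ℂ (fun z => q z * mu (q z ^ 2, q z * lam z)) z₀ w * (κ + fderiv ℂ η z₀ u) =
      t z₀ * Ohat (x z₀.1) (y z₀.1) (l1 z₀.1) (l2 z₀.1)
        (fderiv ℂ x z₀.1 u.1) (fderiv ℂ y z₀.1 u.1) (fderiv ℂ l1 z₀.1 u.1) (fderiv ℂ l2 z₀.1 u.1) κ
        (fderiv ℂ x z₀.1 w.1) (fderiv ℂ y z₀.1 w.1) (fderiv ℂ l1 z₀.1 w.1) (fderiv ℂ l2 z₀.1 w.1) κ'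
        (M (z₀.1, (t z₀ ^ 2)⁻¹)) (fderiv ℂ M (z₀.1, (t z₀ ^ 2)⁻¹) (u.1, 0))
        (fderiv ℂ M (z₀.1, (t z₀ ^ 2)⁻¹) (w.1, 0)) (fderiv ℂ M (z₀.1, (t z₀ ^ 2)⁻¹) (0, 1))
        (t z₀ ^ 2)⁻¹ := by
  obtain ⟨dq, fq⟩ := fderiv_lin dt ht dx dy
  obtain ⟨dl, fl⟩ := fderiv_lin dt ht d1 d2
  rw [← eq] at dq fq
  rw [← el] at dl fl
  have hs := (hasDerivAt_inv (pow_ne_zero 2 ht)).comp_hasFDerivAt z₀ (dt.hasFDerivAt.pow 2)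
  have hs' : HasFDerivAt (fun z => (t z ^ 2)⁻¹) _ z₀ := hs
  have hps : HasFDerivAt (fun z : (ℂ × ℂ) × ℂ => (z.1, (t z ^ 2)⁻¹)) _ z₀ :=
    (hasFDerivAt_fst (𝕜 := ℂ) (p := z₀)).prodMk hs'
  have hLg : HasFDerivAt (fun z : (ℂ × ℂ) × ℂ => L (z.1, (t z ^ 2)⁻¹)) _ z₀ :=
    HasFDerivAt.comp (f := fun z : (ℂ × ℂ) × ℂ => (z.1, (t z ^ 2)⁻¹)) z₀ dL.hasFDerivAt hps
  have hMg : HasFDerivAt (fun z : (ℂ × ℂ) × ℂ => M (z.1, (t z ^ 2)⁻¹)) _ z₀ :=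
    HasFDerivAt.comp (f := fun z : (ℂ × ℂ) × ℂ => (z.1, (t z ^ 2)⁻¹)) z₀ dM.hasFDerivAt hps
  have hmm : HasFDerivAt (fun z : (ℂ × ℂ) × ℂ => (t z ^ 2)⁻¹ * M (z.1, (t z ^ 2)⁻¹)) _ z₀ :=
    hs'.mul hMg
  have htn : ∀ᶠ z in 𝓝 z₀, t z ≠ 0 := dt.continuousAt.eventually_ne ht
  have elam : lam =ᶠ[𝓝 z₀] fun z => t z * exp (L (z.1, (t z ^ 2)⁻¹)) := by
    filter_upwards [hL, htn] with z h1 h2
    rw [h1, el]
    field_simp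
  have hl0 : lam z₀ = t z₀ * exp (L (z₀.1, (t z₀ ^ 2)⁻¹)) := elam.self_of_nhds
  have hlne : lam z₀ ≠ 0 := by
    rw [hl0]
    exact mul_ne_zero ht (exp_ne_zero _)
  have hθ : ∀ (v : (ℂ × ℂ) × ℂ) (k : ℂ), fderiv ℂ t z₀ v = k * t z₀ →
      fderiv ℂ lam z₀ v / lam z₀
        - fderiv ℂ (fun z : (ℂ × ℂ) × ℂ => L (z.1, (t z ^ 2)⁻¹)) z₀ v = k := by
    intro v k hv
    have h1 := (dt.hasFDerivAt.mul hLg.differentiableAt.hasFDerivAt.cexp).congr_of_eventuallyEq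
      (f₁ := lam) elam
    rw [h1.fderiv, hl0]
    simp only [_root_.add_apply, _root_.smul_apply, smul_eq_mul, hv]
    have := exp_ne_zero (L (z₀.1, (t z₀ ^ 2)⁻¹))
    field_simp
    ring
  have fm : ∀ (v : (ℂ × ℂ) × ℂ) (k : ℂ), fderiv ℂ t z₀ v = k * t z₀ →
      fderiv ℂ (fun z : (ℂ × ℂ) × ℂ => (t z ^ 2)⁻¹ * M (z.1, (t z ^ 2)⁻¹)) z₀ v =
        (t z₀ ^ 2)⁻¹ * (fderiv ℂ M (z₀.1, (t z₀ ^ 2)⁻¹) (v.1, 0) - 2 * k *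
          (M (z₀.1, (t z₀ ^ 2)⁻¹) + (t z₀ ^ 2)⁻¹ * fderiv ℂ M (z₀.1, (t z₀ ^ 2)⁻¹) (0, 1))) := by
    intro v k hv
    have hT : ∀ (a : ℂ × ℂ) (b : ℂ), fderiv ℂ M (z₀.1, (t z₀ ^ 2)⁻¹) (a, b) =
        fderiv ℂ M (z₀.1, (t z₀ ^ 2)⁻¹) (a, 0) + b * fderiv ℂ M (z₀.1, (t z₀ ^ 2)⁻¹) (0, 1) := by
      intro a b
      have : ((a, b) : (ℂ × ℂ) × ℂ) = (a, 0) + b • (0, 1) := by simp
      rw [this, map_add, map_smul, smul_eq_mul]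
    rw [hmm.fderiv]
    simp only [_root_.add_apply, _root_.smul_apply, smul_eq_mul, nsmul_eq_mul,
      ContinuousLinearMap.comp_apply, ContinuousLinearMap.prod_apply, ContinuousLinearMap.coe_fst',
      hv, Nat.reduceSub, Nat.cast_ofNat, pow_one]
    rw [hT]
    field_simp
    ring
  have key := local_form hχ dq dl hLg.differentiableAt hmm.differentiableAt hW hq hlne hη u w
  rw [hθ u κ hu, hθ w κ' hw, fm u κ hu, fm w κ' hw, fq u κ hu, fq w κ' hw, fl u κ hu,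
    fl w κ' hw] at key
  rw [key]
  have hl1 : l1 z₀.1 + l2 z₀.1 * (t z₀ ^ 2)⁻¹ ≠ 0 := by
    rw [← hL.self_of_nhds]
    exact exp_ne_zero _
  have hl2 : lam z₀ = t z₀ * (l1 z₀.1 + l2 z₀.1 * (t z₀ ^ 2)⁻¹) := by
    rw [hl0, hL.self_of_nhds]
  have hq2 : q z₀ = t z₀ * (x z₀.1 + y z₀.1 * (t z₀ ^ 2)⁻¹) := by
    rw [eq]
    field_simp
  rw [hl2, hq2]
  unfold Ohat
  generalize l1 z₀.1 + l2 z₀.1 * (t z₀ ^ 2)⁻¹ = Λ at hl1 ⊢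
  generalize x z₀.1 + y z₀.1 * (t z₀ ^ 2)⁻¹ = Q
  field_simp

lemma Ohat_diff {p₀ : ℂ × ℂ} {O : Set (ℂ × ℂ)} (hO : IsOpen O) (hp₀ : p₀ ∈ O) {ρ : ℝ}
    {M : (ℂ × ℂ) × ℂ → ℂ} (hM : DifferentiableOn ℂ M (O ×ˢ ball 0 ρ))
    (x y l1 l2 dx dy d1 d2 κ dx' dy' d1' d2' κ' : ℂ) (a b : ℂ × ℂ)
    (hl : ∀ s ∈ ball (0 : ℂ) ρ, l1 + l2 * s ≠ 0) :
    DifferentiableOn ℂ (fun s => Ohat x y l1 l2 dx dy d1 d2 κ dx' dy' d1' d2' κ' (M (p₀, s))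
      (fderiv ℂ M (p₀, s) (a, 0)) (fderiv ℂ M (p₀, s) (b, 0)) (fderiv ℂ M (p₀, s) (0, 1)) s)
      (ball 0 ρ) := by
  have ho : IsOpen (O ×ˢ ball (0 : ℂ) ρ) := hO.prod isOpen_ball
  have hi : DifferentiableOn ℂ (fun s : ℂ => ((p₀, s) : (ℂ × ℂ) × ℂ)) (ball 0 ρ) := by fun_prop
  have hm : MapsTo (fun s : ℂ => ((p₀, s) : (ℂ × ℂ) × ℂ)) (ball 0 ρ) (O ×ˢ ball 0 ρ) :=
    fun s hs => ⟨hp₀, hs⟩
  have h0 : DifferentiableOn ℂ (fun s => M (p₀, s)) (ball 0 ρ) := hM.comp hi hm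
  have h1 : DifferentiableOn ℂ (fun s => fderiv ℂ M (p₀, s) (a, 0)) (ball 0 ρ) :=
    (holo_fderiv ho hM (a, 0)).comp hi hm
  have h2 : DifferentiableOn ℂ (fun s => fderiv ℂ M (p₀, s) (b, 0)) (ball 0 ρ) :=
    (holo_fderiv ho hM (b, 0)).comp hi hm
  have h3 : DifferentiableOn ℂ (fun s => fderiv ℂ M (p₀, s) (0, 1)) (ball 0 ρ) :=
    (holo_fderiv ho hM (0, 1)).comp hi hm
  unfold Ohat
  refine DifferentiableOn.sub (DifferentiableOn.add (DifferentiableOn.div ?_ ?_ hl) ?_) ?_ <;>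
    fun_prop

end Pool.Agent.Lib.MP_e941ef_an
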