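import Pool.Agent.Lib.MP_e941ef_an.Laurent
import Pool.Agent.Lib.MP_e941ef_an.STB

namespace Pool.Agent.Lib.MP_e941ef_an

open Complex Metric Set Filter Topology
open scoped ComplexConjugate ContDiff

lemma fderiv_slice {M : (ℂ × ℂ) × ℂ → ℂ} {p₀ : ℂ × ℂ} (hM : DifferentiableAt ℂ M (p₀, 0))
    (w : ℂ × ℂ) : fderiv ℂ (fun p => M (p, 0)) p₀ w = fderiv ℂ M (p₀, 0) (w, 0) := by
  have h1 : HasFDerivAt (fun p : ℂ × ℂ => ((p, 0) : (ℂ × ℂ) × ℂ)) _ p₀ :=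
    (hasFDerivAt_id (𝕜 := ℂ) p₀).prodMk (hasFDerivAt_const (0 : ℂ) p₀)
  have h2 : HasFDerivAt (fun p => M (p, 0)) _ p₀ :=
    HasFDerivAt.comp (f := fun p : ℂ × ℂ => ((p, 0) : (ℂ × ℂ) × ℂ)) p₀ hM.hasFDerivAt h1
  rw [h2.fderiv]
  simp

/-- The structure theorem: the closed 2-form glued from the three pieces is `d (ζ A - A* / ζ)`,
and it is annihilated by `dF`. -/
theorem structure_thm {O : Set (ℂ × ℂ)} (hO : IsOpen O) {p₀ : ℂ × ℂ} (hp₀ : p₀ ∈ O)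
    {ρ₁ ρ₂ : ℝ} (h₁ : 0 < ρ₁) (h₁₂ : ρ₁ < ρ₂) (h₂ : ρ₂ < 1)
    {x y l1 l2 : ℂ × ℂ → ℂ} (hx : DifferentiableOn ℂ x O) (hy : DifferentiableOn ℂ y O)
    (hl1 : DifferentiableOn ℂ l1 O) (hl2 : DifferentiableOn ℂ l2 O)
    {n M Ms Lo Li : (ℂ × ℂ) × ℂ → ℂ} {χ : ℂ → ℂ} (hχ : DifferentiableOn ℂ χ (ball 0 1))
    (hn : DifferentiableOn ℂ n (O ×ˢ {s | ρ₁ < ‖s‖ ∧ ‖s‖ < ρ₁⁻¹}))
    (hM : DifferentiableOn ℂ M (O ×ˢ ball 0 ρ₂)) (hMs : DifferentiableOn ℂ Ms (O ×ˢ ball 0 ρ₂))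
    (hLo : DifferentiableOn ℂ Lo (O ×ˢ ball 0 ρ₂)) (hLi : DifferentiableOn ℂ Li (O ×ˢ ball 0 ρ₂))
    {B : ℂ × ℂ → ℂ → ℂ × ℂ}
    (hB : ∀ p s, B p s = ((x p * s + y p) ^ 2 / s, (x p * s + y p) * (l1 p * s + l2 p) / s))
    (hW : ∀ p ∈ O, ∀ s : ℂ, ρ₁ < ‖s‖ → ‖s‖ < ρ₁⁻¹ → B p s ∈ WW)
    (hq : ∀ s : ℂ, (ρ₁ < ‖s‖ ∧ ‖s‖ < ρ₂) ∨ (ρ₂⁻¹ < ‖s‖ ∧ ‖s‖ < ρ₁⁻¹) → x p₀ * s + y p₀ ≠ 0)
    (eLo : ∀ p ∈ O, ∀ u ∈ ball (0 : ℂ) ρ₂, exp (Lo (p, u)) = l1 p + l2 p * u)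
    (eLi : ∀ p ∈ O, ∀ u ∈ ball (0 : ℂ) ρ₂, exp (Li (p, u)) = l2 p + l1 p * u)
    (hout : ∀ p ∈ O, ∀ s : ℂ, ρ₂⁻¹ < ‖s‖ → ‖s‖ < ρ₁⁻¹ → PP (B p s) * n (p, s) =
      Lo (p, s⁻¹) + Xi (B p s) - χ (bet (B p s)) + PP (B p s) * (s⁻¹ * M (p, s⁻¹)))
    (hin : ∀ p ∈ O, ∀ s : ℂ, ρ₁ < ‖s‖ → ‖s‖ < ρ₂ → -(PP (B p s) * n (p, s)) =
      Li (p, s) + Xi (B p s) - χ (bet (B p s)) + PP (B p s) * (s * Ms (p, s)))
    (w1 w2 : ℂ × ℂ) {ζ : ℂ} (hζ : ‖ζ‖ = 1) :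
    STid x y l1 l2 (fun p => M (p, 0)) (fun p => Ms (p, 0)) p₀ w1 w2 ζ := by
  have hρ₂ : 0 < ρ₂ := h₁.trans h₁₂
  have h₂' : 1 < ρ₂⁻¹ := (one_lt_inv₀ hρ₂).2 h₂
  have h₂₁ : ρ₂⁻¹ < ρ₁⁻¹ := (inv_lt_inv₀ hρ₂ h₁).2 h₁₂
  set q : (ℂ × ℂ) × ℂ → ℂ := fun z => x z.1 * z.2 + y z.1 / z.2 with hqd
  set lam : (ℂ × ℂ) × ℂ → ℂ := fun z => l1 z.1 * z.2 + l2 z.1 / z.2 with hld
  set A : Set ((ℂ × ℂ) × ℂ) := {z | z.1 ∈ O ∧ ρ₁ < ‖z.2 ^ 2‖ ∧ ‖z.2 ^ 2‖ < ρ₁⁻¹} with hA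
  have cn : Continuous fun z : (ℂ × ℂ) × ℂ => ‖z.2 ^ 2‖ := by fun_prop
  have oA : IsOpen A := (hO.preimage continuous_fst).inter
    ((isOpen_lt continuous_const cn).inter (isOpen_lt cn continuous_const))
  have ne0 : ∀ {ζ : ℂ}, ρ₁ < ‖ζ ^ 2‖ → ζ ≠ 0 := by
    intro ζ h h0
    rw [h0] at h
    simp at h
    linarith
  have eB : ∀ z ∈ A, (q z ^ 2, q z * lam z) = B z.1 (z.2 ^ 2) := by
    intro z hz
    have := ne0 hz.2.1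
    rw [hB]
    simp only [hqd, hld]
    congr 1 <;> field_simp
  have wA : ∀ z ∈ A, (q z ^ 2, q z * lam z) ∈ WW := fun z hz => by
    rw [eB z hz]
    exact hW _ hz.1 _ hz.2.1 hz.2.2
  have dsnd : ∀ z : (ℂ × ℂ) × ℂ, DifferentiableAt ℂ (fun z : (ℂ × ℂ) × ℂ => z.2) z :=
    fun z => differentiableAt_snd
  have dq : ∀ z ∈ A, DifferentiableAt ℂ q z := fun z hz =>
    (fderiv_lin (dsnd z) (ne0 hz.2.1) (hx.differentiableAt (hO.mem_nhds hz.1))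
      (hy.differentiableAt (hO.mem_nhds hz.1))).1
  have dl : ∀ z ∈ A, DifferentiableAt ℂ lam z := fun z hz =>
    (fderiv_lin (dsnd z) (ne0 hz.2.1) (hl1.differentiableAt (hO.mem_nhds hz.1))
      (hl2.differentiableAt (hO.mem_nhds hz.1))).1
  have dμ : ∀ z ∈ A, DifferentiableAt ℂ (fun z => mu (q z ^ 2, q z * lam z)) z := fun z hz =>
    DifferentiableAt.comp (g := mu) (f := fun z => (q z ^ 2, q z * lam z)) z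
      (mu_diff.differentiableAt (isOpen_WW.mem_nhds (wA z hz)))
      (((dq z hz).pow 2).prodMk ((dq z hz).mul (dl z hz)))
  set ℓ : (ℂ × ℂ) × ℂ → ℂ := fun z => q z * mu (q z ^ 2, q z * lam z) with hℓ
  set η : (ℂ × ℂ) × ℂ → ℂ := fun z => PP (q z ^ 2, q z * lam z) * n (z.1, z.2 ^ 2) with hη
  have dℓ : DifferentiableOn ℂ ℓ A := fun z hz =>
    ((dq z hz).mul (dμ z hz)).differentiableWithinAt
  have dη : DifferentiableOn ℂ η A := fun z hz => by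
    have o2 : IsOpen (O ×ˢ {s : ℂ | ρ₁ < ‖s‖ ∧ ‖s‖ < ρ₁⁻¹}) := hO.prod
      ((isOpen_lt continuous_const continuous_norm).inter
        (isOpen_lt continuous_norm continuous_const))
    have h1 : DifferentiableAt ℂ (fun z : (ℂ × ℂ) × ℂ => n (z.1, z.2 ^ 2)) z :=
      DifferentiableAt.comp (g := n) (f := fun z : (ℂ × ℂ) × ℂ => (z.1, z.2 ^ 2)) z
        (hn.differentiableAt (o2.mem_nhds ⟨hz.1, hz.2⟩)) (by fun_prop)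
    have h2 := dμ z hz
    have h3 := dq z hz
    have h4 : DifferentiableAt ℂ (fun z => PP (q z ^ 2, q z * lam z)) z := by
      unfold PP bet
      exact ((h2.pow 2).const_mul 3).mul (((h3.pow 2).mul (h2.pow 2)).const_sub 1)
    exact (h4.mul h1).differentiableWithinAt
  have l1ne : ∀ s ∈ ball (0 : ℂ) ρ₂, l1 p₀ + l2 p₀ * s ≠ 0 := fun s hs => by
    rw [← eLo p₀ hp₀ s hs]
    exact exp_ne_zero _
  have l2ne : ∀ s ∈ ball (0 : ℂ) ρ₂, l2 p₀ + l1 p₀ * s ≠ 0 := fun s hs => by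
    rw [← eLi p₀ hp₀ s hs]
    exact exp_ne_zero _
  have oM : IsOpen (O ×ˢ ball (0 : ℂ) ρ₂) := hO.prod isOpen_ball
  have dx0 := hx.differentiableAt (hO.mem_nhds hp₀)
  have dy0 := hy.differentiableAt (hO.mem_nhds hp₀)
  have d10 := hl1.differentiableAt (hO.mem_nhds hp₀)
  have d20 := hl2.differentiableAt (hO.mem_nhds hp₀)
  have main : ∀ (a b : ℂ × ℂ) (κ κ' : ℂ),
      fderiv ℂ ℓ (p₀, ζ) (a, κ * ζ) * (κ' + fderiv ℂ η (p₀, ζ) (b, κ' * ζ))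
        - fderiv ℂ ℓ (p₀, ζ) (b, κ' * ζ) * (κ + fderiv ℂ η (p₀, ζ) (a, κ * ζ)) =
      ζ * Ohat (x p₀) (y p₀) (l1 p₀) (l2 p₀)
        (fderiv ℂ x p₀ a) (fderiv ℂ y p₀ a) (fderiv ℂ l1 p₀ a) (fderiv ℂ l2 p₀ a) κ
        (fderiv ℂ x p₀ b) (fderiv ℂ y p₀ b) (fderiv ℂ l1 p₀ b) (fderiv ℂ l2 p₀ b) κ'
        (M (p₀, 0)) (fderiv ℂ M (p₀, 0) (a, 0)) (fderiv ℂ M (p₀, 0) (b, 0))
        (fderiv ℂ M (p₀, 0) (0, 1)) 0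
      + -Ohat (y p₀) (x p₀) (l2 p₀) (l1 p₀)
        (fderiv ℂ y p₀ a) (fderiv ℂ x p₀ a) (fderiv ℂ l2 p₀ a) (fderiv ℂ l1 p₀ a) (-κ)
        (fderiv ℂ y p₀ b) (fderiv ℂ x p₀ b) (fderiv ℂ l2 p₀ b) (fderiv ℂ l1 p₀ b) (-κ')
        (Ms (p₀, 0)) (fderiv ℂ Ms (p₀, 0) (a, 0)) (fderiv ℂ Ms (p₀, 0) (b, 0))
        (fderiv ℂ Ms (p₀, 0) (0, 1)) 0 / ζ := by
    intro a b κ κ'
    have split : ∀ (f : (ℂ × ℂ) × ℂ → ℂ), DifferentiableOn ℂ f A → ∀ (a : ℂ × ℂ) (κ : ℂ),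
        DifferentiableOn ℂ (fun ζ : ℂ => fderiv ℂ f (p₀, ζ) (a, κ * ζ))
          {ζ | ρ₁ < ‖ζ ^ 2‖ ∧ ‖ζ ^ 2‖ < ρ₁⁻¹} := by
      intro f hf a κ
      have hi : DifferentiableOn ℂ (fun s : ℂ => ((p₀, s) : (ℂ × ℂ) × ℂ))
          {ζ | ρ₁ < ‖ζ ^ 2‖ ∧ ‖ζ ^ 2‖ < ρ₁⁻¹} := by fun_prop
      have hm : MapsTo (fun s : ℂ => ((p₀, s) : (ℂ × ℂ) × ℂ))
          {ζ | ρ₁ < ‖ζ ^ 2‖ ∧ ‖ζ ^ 2‖ < ρ₁⁻¹} A := fun s hs => ⟨hp₀, hs⟩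
      have h1 := (holo_fderiv oA hf (a, 0)).comp hi hm
      have h2 := (holo_fderiv oA hf (0, 1)).comp hi hm
      have h3 : DifferentiableOn ℂ (fun ζ : ℂ => κ * ζ) {ζ | ρ₁ < ‖ζ ^ 2‖ ∧ ‖ζ ^ 2‖ < ρ₁⁻¹} := by
        fun_prop
      refine (h1.add (h3.mul h2)).congr fun ζ _ => ?_
      have : ((a, κ * ζ) : (ℂ × ℂ) × ℂ) = (a, 0) + (κ * ζ) • (0, 1) := by simp
      rw [this, map_add, map_smul, smul_eq_mul]
      rfl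
    refine liouville_glue (φ := fun ζ =>
      fderiv ℂ ℓ (p₀, ζ) (a, κ * ζ) * (κ' + fderiv ℂ η (p₀, ζ) (b, κ' * ζ))
        - fderiv ℂ ℓ (p₀, ζ) (b, κ' * ζ) * (κ + fderiv ℂ η (p₀, ζ) (a, κ * ζ))) h₁ h₁₂ h₂
      (((split ℓ dℓ a κ).mul ((split η dη b κ').const_add κ')).sub
        ((split ℓ dℓ b κ').mul ((split η dη a κ).const_add κ)))
      (Ohat_diff hO hp₀ hM _ _ _ _ _ _ _ _ _ _ _ _ _ _ a b l1ne)
      (Ohat_diff hO hp₀ hMs _ _ _ _ _ _ _ _ _ _ _ _ _ _ a b l2ne).neg ?_ ?_ hζ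
    · intro ζ hζ₁ hζ₂
      have hζA : ((p₀, ζ) : (ℂ × ℂ) × ℂ) ∈ A := ⟨hp₀, by linarith, hζ₂⟩
      have hζ0 : ζ ≠ 0 := ne0 hζA.2.1
      have hb : ∀ {s : ℂ}, ρ₂⁻¹ < ‖s‖ → s⁻¹ ∈ ball (0 : ℂ) ρ₂ := by
        intro s hs
        rw [mem_ball_zero_iff, norm_inv]
        exact inv_lt_of_inv_lt₀ hρ₂ hs
      have ev : ∀ᶠ z : (ℂ × ℂ) × ℂ in 𝓝 (p₀, ζ), z ∈ A ∧ ρ₂⁻¹ < ‖z.2 ^ 2‖ :=
        (oA.inter (isOpen_lt continuous_const cn)).mem_nhds ⟨hζA, hζ₁⟩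
      refine half_form (t := fun z => z.2) (z₀ := (p₀, ζ)) (L := Lo) (M := M) hχ (dsnd _) hζ0
        dx0 dy0 d10 d20 (hLo.differentiableAt (oM.mem_nhds ⟨hp₀, hb hζ₁⟩))
        (hM.differentiableAt (oM.mem_nhds ⟨hp₀, hb hζ₁⟩)) hqd hld
        (ev.mono fun z hz => wA z hz.1) ?_ (ev.mono fun z hz => eLo _ hz.1.1 _ (hb hz.2))
        (ev.mono fun z hz => ?_) (u := (a, κ * ζ)) (w := (b, κ' * ζ)) (by simp [fderiv_snd])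
        (by simp [fderiv_snd])
      · have := hq (ζ ^ 2) (Or.inr ⟨hζ₁, hζ₂⟩)
        intro h0
        apply this
        simp only [hqd] at h0
        field_simp at h0
        linear_combination h0
      · simp only [hη]
        rw [eB z hz.1]
        exact hout _ hz.1.1 _ hz.2 hz.1.2.2
    · intro ζ hζ₁ hζ₂
      have hζA : ((p₀, ζ) : (ℂ × ℂ) × ℂ) ∈ A := ⟨hp₀, hζ₁, by linarith⟩
      have hζ0 : ζ ≠ 0 := ne0 hζA.2.1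
      have es : ∀ s : ℂ, (s⁻¹ ^ 2)⁻¹ = s ^ 2 := fun s => by rw [inv_pow, inv_inv]
      have ev : ∀ᶠ z : (ℂ × ℂ) × ℂ in 𝓝 (p₀, ζ), z ∈ A ∧ ‖z.2 ^ 2‖ < ρ₂ :=
        (oA.inter (isOpen_lt cn continuous_const)).mem_nhds ⟨hζA, hζ₂⟩
      have ht : HasFDerivAt (fun z : (ℂ × ℂ) × ℂ => z.2⁻¹) _ (p₀, ζ) :=
        (hasDerivAt_inv hζ0).comp_hasFDerivAt (p₀, ζ)
          (hasFDerivAt_snd (𝕜 := ℂ) (p := ((p₀, ζ) : (ℂ × ℂ) × ℂ)))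
      have ft : ∀ (a : ℂ × ℂ) (κ : ℂ),
          fderiv ℂ (fun z : (ℂ × ℂ) × ℂ => z.2⁻¹) (p₀, ζ) (a, κ * ζ) = -κ * ζ⁻¹ := by
        intro a κ
        rw [ht.fderiv]
        simp only [_root_.smul_apply, ContinuousLinearMap.coe_snd', smul_eq_mul]
        field_simp
      have key := half_form (t := fun z => z.2⁻¹) (z₀ := (p₀, ζ)) (L := Li) (M := Ms)
        (η := fun z => -η z) (q := q) (lam := lam) hχ ht.differentiableAt (inv_ne_zero hζ0)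
        dy0 dx0 d20 d10
        (by
          rw [es]
          exact hLi.differentiableAt (oM.mem_nhds ⟨hp₀, mem_ball_zero_iff.2 hζ₂⟩))
        (by
          rw [es]
          exact hMs.differentiableAt (oM.mem_nhds ⟨hp₀, mem_ball_zero_iff.2 hζ₂⟩))
        (by
          funext z
          simp only [hqd, div_eq_mul_inv, inv_inv]
          ring)
        (by
          funext z
          simp only [hld, div_eq_mul_inv, inv_inv]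
          ring)
        (ev.mono fun z hz => wA z hz.1)
        (by
          have := hq (ζ ^ 2) (Or.inl ⟨hζ₁, hζ₂⟩)
          intro h0
          apply this
          simp only [hqd] at h0
          field_simp at h0
          linear_combination h0)
        (ev.mono fun z hz => by
          rw [es]
          exact eLi _ hz.1.1 _ (mem_ball_zero_iff.2 hz.2))
        (ev.mono fun z hz => by
          simp only [hη, es]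
          rw [eB z hz.1]
          exact hin _ hz.1.1 _ hz.1.2.1 hz.2)
        (ft a κ) (ft b κ')
      simp only [es, fderiv_fun_neg, _root_.neg_apply] at key
      simp only [Pi.neg_apply]
      rw [div_eq_mul_inv]
      linear_combination -key
  have hζ0 : ζ ≠ 0 := by
    intro h
    rw [h] at hζ
    simp at hζ
  have hζA : ((p₀, ζ) : (ℂ × ℂ) × ℂ) ∈ A := by
    refine ⟨hp₀, ?_, ?_⟩ <;> simp only [norm_pow, hζ, one_pow] <;> linarith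
  obtain ⟨c, hc⟩ := dF_eq (dq _ hζA) (dl _ hζA) (oA.eventually_mem hζA |>.mono wA)
  have fq := (fderiv_lin (z₀ := (p₀, ζ)) (dsnd _) hζ0 dx0 dy0).2
  have fl := (fderiv_lin (z₀ := (p₀, ζ)) (dsnd _) hζ0 d10 d20).2
  have l10 : l1 p₀ ≠ 0 := by simpa using l1ne 0 (mem_ball_self hρ₂)
  have l20 : l2 p₀ ≠ 0 := by simpa using l2ne 0 (mem_ball_self hρ₂)
  have m0 := main w1 w2 0 0
  have m1 := main 0 w1 1 0
  have m2 := main 0 w2 1 0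
  have c0 := hc (0, 1 * ζ)
  have c1 := hc (w1, 0 * ζ)
  have c2 := hc (w2, 0 * ζ)
  rw [fq _ 1 (by simp [fderiv_snd]), fl _ 1 (by simp [fderiv_snd])] at c0
  rw [fq _ 0 (by simp [fderiv_snd]), fl _ 0 (by simp [fderiv_snd])] at c1 c2
  have z0 : (((0 : ℂ × ℂ), (0 : ℂ)) : (ℂ × ℂ) × ℂ) = 0 := rfl
  simp only [neg_zero, map_zero, z0] at m0 m1 m2 c0
  rw [Ohat_B l10, Ohat_B l20] at m0
  rw [Ohat_A l10, Ohat_A l20] at m1 m2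
  have hm0 : ((p₀, 0) : (ℂ × ℂ) × ℂ) ∈ O ×ˢ ball (0 : ℂ) ρ₂ := ⟨hp₀, mem_ball_self hρ₂⟩
  have dM0 := hM.differentiableAt (oM.mem_nhds hm0)
  have dMs0 := hMs.differentiableAt (oM.mem_nhds hm0)
  simp only [STid, fderiv_slice dM0, fderiv_slice dMs0]
  change _ = c * fderiv ℂ ℓ (p₀, ζ) _ at c0 c1 c2
  simp only [hqd, hld] at c0 c1 c2
  generalize fderiv ℂ ℓ (p₀, ζ) (0, 1 * ζ) = ℓe at *
  generalize fderiv ℂ ℓ (p₀, ζ) (w1, 0 * ζ) = ℓ1 at *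
  generalize fderiv ℂ ℓ (p₀, ζ) (w2, 0 * ζ) = ℓ2 at *
  generalize fderiv ℂ η (p₀, ζ) (0, 1 * ζ) = ηe at *
  generalize fderiv ℂ η (p₀, ζ) (w1, 0 * ζ) = η1 at *
  generalize fderiv ℂ η (p₀, ζ) (w2, 0 * ζ) = η2 at *
  generalize Bform (x p₀) _ _ _ _ _ _ _ _ = B1 at m0 ⊢
  generalize Bform (y p₀) _ _ _ _ _ _ _ _ = B2 at m0 ⊢
  generalize Aform (x p₀) _ _ (fderiv ℂ x p₀ w1) _ _ = A11 at m1 ⊢
  generalize Aform (y p₀) _ _ (fderiv ℂ y p₀ w1) _ _ = A12 at m1 ⊢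
  generalize Aform (x p₀) _ _ (fderiv ℂ x p₀ w2) _ _ = A21 at m2 ⊢
  generalize Aform (y p₀) _ _ (fderiv ℂ y p₀ w2) _ _ = A22 at m2 ⊢
  linear_combination (ζ * B1 - B2 / ζ) * c0 - (ζ * A21 + A22 / ζ) * c1 + (ζ * A11 + A12 / ζ) * c2
    - c * (ℓe * m0 - ℓ1 * m2 + ℓ2 * m1)

end Pool.Agent.Lib.MP_e941ef_an
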