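import Pool.Agent.Lib.MP_e941ef_an.Core
import Pool.Agent.Lib.MP_e941ef_an.ST

namespace Pool.Agent.Lib.MP_e941ef_an

open Complex Metric Set Filter Topology
open scoped ComplexConjugate ContDiff

section split

variable {O : Set (ℂ × ℂ)} (hO : IsOpen O) {α β : ℝ} {G : ℂ × ℂ → ℂ → ℂ}
  (hG : ∀ p ∈ O, ∀ u : ℂ, α < ‖u‖ → ‖u‖ < β →
    DifferentiableAt ℂ (fun z : (ℂ × ℂ) × ℂ => G z.1 z.2) (p, u))

include hG in
lemma slice_at {p : ℂ × ℂ} (hp : p ∈ O) {u : ℂ} (h₁ : α < ‖u‖) (h₂ : ‖u‖ < β) :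
    DifferentiableAt ℂ (G p) u :=
  DifferentiableAt.comp (g := fun z : (ℂ × ℂ) × ℂ => G z.1 z.2) (f := fun u => (p, u)) u
    (hG p hp u h₁ h₂) (by fun_prop)

include hO hG in
lemma kernel_holo {r : ℝ} (hr : 0 < r) (h₁ : α < r) (h₂ : r < β) {S : Set ℂ} (hS : IsOpen S)
    {k c : ℂ × ℂ → ℂ} (hk : Differentiable ℂ k) (hc : Differentiable ℂ c)
    (h0 : ∀ s ∈ S, ∀ u : ℂ, ‖u‖ = r → k (u, s) ≠ 0) :
    DifferentiableOn ℂ (fun z : (ℂ × ℂ) × ℂ => avg r (fun u => G z.1 u * (c (u, z.2) / k (u, z.2))))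
      (O ×ˢ S) := by
  have oW : IsOpen {z : ((ℂ × ℂ) × ℂ) × ℂ | z.1.1 ∈ O ∧ (α < ‖z.2‖ ∧ ‖z.2‖ < β) ∧
      k (z.2, z.1.2) ≠ 0} := by
    have cn : Continuous fun z : ((ℂ × ℂ) × ℂ) × ℂ => ‖z.2‖ := by fun_prop
    refine (hO.preimage (by fun_prop)).inter (IsOpen.inter (IsOpen.inter
      (isOpen_lt continuous_const cn) (isOpen_lt cn continuous_const)) ?_)
    exact isOpen_ne_fun (hk.continuous.comp (by fun_prop)) continuous_const
  refine holo_avg oW (Φ := fun z : ((ℂ × ℂ) × ℂ) × ℂ =>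
    G z.1.1 z.2 * (c (z.2, z.1.2) / k (z.2, z.1.2))) (fun z hz => ?_) (hO.prod hS) hr
    fun z hz u hu => ⟨hz.1, by constructor <;> simp only [hu] <;> assumption, h0 _ hz.2 u hu⟩
  have d1 : DifferentiableAt ℂ (fun z : ((ℂ × ℂ) × ℂ) × ℂ => G z.1.1 z.2) z :=
    DifferentiableAt.comp (g := fun z : (ℂ × ℂ) × ℂ => G z.1 z.2)
      (f := fun z : ((ℂ × ℂ) × ℂ) × ℂ => (z.1.1, z.2)) z (hG _ hz.1 _ hz.2.1.1 hz.2.1.2)
      (by fun_prop)
  have d2 : DifferentiableAt ℂ (fun z : ((ℂ × ℂ) × ℂ) × ℂ => c (z.2, z.1.2)) z :=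
    (hc _).comp z (by fun_prop)
  have d3 : DifferentiableAt ℂ (fun z : ((ℂ × ℂ) × ℂ) × ℂ => k (z.2, z.1.2)) z :=
    (hk _).comp z (by fun_prop)
  exact (d1.mul (diff_div d2 d3 hz.2.2)).differentiableWithinAt

include hG in
lemma laurent_split {R₁ R₂ : ℝ} (h₀ : 0 < R₁) (h₁ : α < R₁) (h₂ : R₂ < β) {p : ℂ × ℂ} (hp : p ∈ O)
    {s : ℂ} (hs₁ : R₁ < ‖s‖) (hs₂ : ‖s‖ < R₂) :
    G p s = avg R₁ (G p) + s * avg R₂ (fun u => G p u * (1 / (u - s)))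
      + avg R₁ (fun u => G p u * (u / (s - u))) := by
  have h₁₂ : R₁ < R₂ := hs₁.trans hs₂
  have hd : ∀ u : ℂ, R₁ ≤ ‖u‖ → ‖u‖ ≤ R₂ → DifferentiableAt ℂ (G p) u := fun u a b =>
    slice_at hG hp (h₁.trans_le a) (b.trans_lt h₂)
  have hR₂ : 0 < R₂ := h₀.trans h₁₂
  have ne : ∀ u : ℂ, ‖u‖ = R₂ → u - s ≠ 0 := fun u hu h => by
    rw [sub_eq_zero.1 h] at hu
    linarith
  have c1 : ContinuousOn (G p) (sphere 0 R₂) := fun u hu =>
    have h := mem_sphere_zero_iff_norm.1 hu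
    (hd u (by linarith) h.le).continuousAt.continuousWithinAt
  have c2 : ContinuousOn (fun u => s * (G p u * (1 / (u - s)))) (sphere 0 R₂) :=
    continuousOn_const.mul (c1.mul (continuousOn_const.div (by fun_prop)
      fun u hu => ne u (mem_sphere_zero_iff_norm.1 hu)))
  have e1 : avg R₂ (fun u => G p u * (u / (u - s))) =
      avg R₂ (G p) + s * avg R₂ (fun u => G p u * (1 / (u - s))) := by
    rw [← avg_const_mul, ← avg_add hR₂ c1 c2]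
    refine avg_congr hR₂ fun u hu => ?_
    have := ne u hu
    field_simp
    ring
  have e2 : avg R₁ (fun u => G p u * (u / (u - s))) =
      -1 * avg R₁ (fun u => G p u * (u / (s - u))) := by
    rw [← avg_const_mul]
    refine avg_congr h₀ fun u _ => ?_
    rw [← neg_sub s u, div_neg]
    ring
  rw [avg_laurent h₀ hd hs₁ hs₂, e1, e2, avg_radius h₀ h₁₂.le hd]
  ring

end split

lemma split_thm {O : Set (ℂ × ℂ)} (hO : IsOpen O) {α β R₁ R₂ : ℝ} (h₀ : 0 < R₁) (h₁ : α < R₁)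
    (h₁₂ : R₁ < R₂) (h₂ : R₂ < β) (h₃ : R₂ < 1) {G G' : ℂ × ℂ → ℂ → ℂ}
    (hG : ∀ p ∈ O, ∀ u : ℂ, α < ‖u‖ → ‖u‖ < β →
      DifferentiableAt ℂ (fun z : (ℂ × ℂ) × ℂ => G z.1 z.2) (p, u))
    (hG' : ∀ p ∈ O, ∀ u : ℂ, α < ‖u‖ → ‖u‖ < β →
      DifferentiableAt ℂ (fun z : (ℂ × ℂ) × ℂ => G' z.1 z.2) (p, u))
    (hc : ∀ p ∈ O, avg R₁ (G p) + avg R₁ (G' p) = 0) :
    ∃ n M Ms : (ℂ × ℂ) × ℂ → ℂ, DifferentiableOn ℂ n (O ×ˢ {s | R₁ < ‖s‖ ∧ ‖s‖ < R₁⁻¹}) ∧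
      DifferentiableOn ℂ M (O ×ˢ ball 0 R₂) ∧ DifferentiableOn ℂ Ms (O ×ˢ ball 0 R₂) ∧
      (∀ p ∈ O, ∀ s : ℂ, R₂⁻¹ < ‖s‖ → ‖s‖ < R₁⁻¹ → n (p, s) = G p s⁻¹ + s⁻¹ * M (p, s⁻¹)) ∧
      (∀ p ∈ O, ∀ s : ℂ, R₁ < ‖s‖ → ‖s‖ < R₂ → -n (p, s) = G' p s + s * Ms (p, s)) ∧
      ∀ p ∈ O, M (p, 0) = -avg R₁ (fun u => G p u / u) - avg R₁ (fun u => u * G' p u) ∧
        Ms (p, 0) = -avg R₁ (fun u => G' p u / u) - avg R₁ (fun u => u * G p u) := by
  have hR₂ : 0 < R₂ := h₀.trans h₁₂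
  have oA : IsOpen {s : ℂ | R₁ < ‖s‖ ∧ ‖s‖ < R₁⁻¹} :=
    (isOpen_lt continuous_const continuous_norm).inter (isOpen_lt continuous_norm continuous_const)
  have k1 : ∀ s : ℂ, ‖s‖ < R₁⁻¹ → ∀ u : ℂ, ‖u‖ = R₁ → 1 - u * s ≠ 0 := fun s hs u hu h => by
    have h4 : ‖u * s‖ = 1 := by rw [← sub_eq_zero.1 h, norm_one]
    rw [norm_mul, hu] at h4
    have := mul_lt_mul_of_pos_left hs h₀
    rw [mul_inv_cancel₀ h₀.ne'] at this
    linarith
  have k2 : ∀ s : ℂ, ‖s‖ < R₂ → ‖s‖ < R₁⁻¹ := fun s hs =>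
    (hs.trans h₃).trans ((one_lt_inv₀ h₀).2 (h₁₂.trans h₃))
  have k3 : ∀ s ∈ ball (0 : ℂ) R₂, ∀ u : ℂ, ‖u‖ = R₂ → u - s ≠ 0 := fun s hs u hu h => by
    rw [sub_eq_zero.1 h] at hu
    rw [mem_ball_zero_iff] at hs
    linarith
  have z0 : ∀ {G : ℂ × ℂ → ℂ → ℂ}, (∀ p ∈ O, ∀ u : ℂ, α < ‖u‖ → ‖u‖ < β →
      DifferentiableAt ℂ (fun z : (ℂ × ℂ) × ℂ => G z.1 z.2) (p, u)) → ∀ p ∈ O,
      avg R₂ (fun u => G p u * (1 / (u - 0))) = avg R₁ (fun u => G p u / u) := by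
    intro G hG p hp
    rw [avg_radius h₀ h₁₂.le (f := fun u => G p u / u) fun u a b =>
      (slice_at hG hp (h₁.trans_le a) (b.trans_lt h₂)).div differentiableAt_id
        (norm_pos_iff.1 (h₀.trans_le a))]
    refine avg_congr hR₂ fun u _ => ?_
    ring
  have z1 : ∀ (G : ℂ × ℂ → ℂ → ℂ) (p : ℂ × ℂ),
      avg R₁ (fun u => G p u * (u / (1 - u * 0))) = avg R₁ (fun u => u * G p u) := by
    intro G p
    refine avg_congr h₀ fun u _ => ?_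
    ring
  refine ⟨fun z => avg R₁ (fun u => G z.1 u * (1 / 1)) +
      avg R₁ (fun u => G z.1 u * (u * z.2 / (1 - u * z.2))) -
      avg R₁ (fun u => G' z.1 u * (u / (z.2 - u))),
    fun z => -avg R₂ (fun u => G z.1 u * (1 / (u - z.2))) -
      avg R₁ (fun u => G' z.1 u * (u / (1 - u * z.2))),
    fun z => -avg R₂ (fun u => G' z.1 u * (1 / (u - z.2))) -
      avg R₁ (fun u => G z.1 u * (u / (1 - u * z.2))), ?_, ?_, ?_, ?_, ?_, ?_⟩
  · refine ((kernel_holo hO hG h₀ h₁ (h₁₂.trans h₂) oA (k := fun _ => 1) (c := fun _ => 1)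
      (by fun_prop) (by fun_prop) fun _ _ _ _ => one_ne_zero).add
      (kernel_holo hO hG h₀ h₁ (h₁₂.trans h₂) oA (k := fun w => 1 - w.1 * w.2)
        (c := fun w => w.1 * w.2) (by fun_prop) (by fun_prop) fun s hs u hu => k1 s hs.2 u hu)).sub
      (kernel_holo hO hG' h₀ h₁ (h₁₂.trans h₂) oA (k := fun w => w.2 - w.1)
        (c := fun w => w.1) (by fun_prop) (by fun_prop) fun s hs u hu h => ?_)
    have h5 : s = u := sub_eq_zero.1 h
    have := hs.1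
    rw [h5] at this
    linarith
  · exact (kernel_holo hO hG hR₂ (h₁.trans h₁₂) h₂ isOpen_ball (k := fun w => w.1 - w.2)
      (c := fun _ => 1) (by fun_prop) (by fun_prop) k3).neg.sub
      (kernel_holo hO hG' h₀ h₁ (h₁₂.trans h₂) isOpen_ball (k := fun w => 1 - w.1 * w.2)
        (c := fun w => w.1) (by fun_prop) (by fun_prop)
        fun s hs u hu => k1 s (k2 s (mem_ball_zero_iff.1 hs)) u hu)
  · exact (kernel_holo hO hG' hR₂ (h₁.trans h₁₂) h₂ isOpen_ball (k := fun w => w.1 - w.2)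
      (c := fun _ => 1) (by fun_prop) (by fun_prop) k3).neg.sub
      (kernel_holo hO hG h₀ h₁ (h₁₂.trans h₂) isOpen_ball (k := fun w => 1 - w.1 * w.2)
        (c := fun w => w.1) (by fun_prop) (by fun_prop)
        fun s hs u hu => k1 s (k2 s (mem_ball_zero_iff.1 hs)) u hu)
  · intro p hp s hs₁ hs₂
    have hs0 : 0 < ‖s‖ := (inv_pos.2 hR₂).trans hs₁
    have hs : s ≠ 0 := norm_pos_iff.1 hs0
    have i1 : R₁ < ‖s⁻¹‖ := by
      rw [norm_inv]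
      exact (lt_inv_comm₀ h₀ hs0).2 hs₂
    have i2 : ‖s⁻¹‖ < R₂ := by
      rw [norm_inv]
      exact (inv_lt_comm₀ hs0 hR₂).2 hs₁
    have e1 : avg R₁ (fun u => G p u * (u / (s⁻¹ - u))) =
        avg R₁ (fun u => G p u * (u * s / (1 - u * s))) := by
      refine avg_congr h₀ fun u hu => ?_
      have := k1 s hs₂ u hu
      congr 1
      rw [div_eq_div_iff (fun h => this (by field_simp at h; linear_combination h)) this]
      field_simp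
    have e2 : s⁻¹ * avg R₁ (fun u => G' p u * (u / (1 - u * s⁻¹))) =
        avg R₁ (fun u => G' p u * (u / (s - u))) := by
      rw [← avg_const_mul]
      refine avg_congr h₀ fun u hu => ?_
      have h5 : 1 - u * s⁻¹ = (s - u) / s := by field_simp
      rw [h5]
      field_simp
    have e3 : avg R₁ (fun u => G p u * (1 / 1)) = avg R₁ (G p) := by simp
    rw [laurent_split hG h₀ h₁ h₂ hp i1 i2]
    simp only
    rw [e1, e3, ← e2]
    ring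
  · intro p hp s hs₁ hs₂
    have e1 : avg R₁ (fun u => G p u * (u * s / (1 - u * s))) =
        s * avg R₁ (fun u => G p u * (u / (1 - u * s))) := by
      rw [← avg_const_mul]
      refine avg_congr h₀ fun u _ => ?_
      ring
    have e3 : avg R₁ (fun u => G p u * (1 / 1)) = avg R₁ (G p) := by simp
    rw [laurent_split hG' h₀ h₁ h₂ hp hs₁ hs₂]
    simp only
    rw [e1, e3]
    linear_combination -hc p hp
  · intro p hp
    simp only
    rw [z0 hG p hp, z0 hG' p hp, z1, z1]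
    exact ⟨rfl, rfl⟩

lemma STid_congr {x y l1 l2 m ms m' ms' : ℂ × ℂ → ℂ} {p w1 w2 : ℂ × ℂ} {ζ : ℂ}
    (h1 : m =ᶠ[𝓝 p] m') (h2 : ms =ᶠ[𝓝 p] ms') (h : STid x y l1 l2 m ms p w1 w2 ζ) :
    STid x y l1 l2 m' ms' p w1 w2 ζ := by
  unfold STid at h ⊢
  simp only at h ⊢
  rw [← h1.fderiv_eq, ← h2.fderiv_eq, ← h1.eq_of_nhds, ← h2.eq_of_nhds]
  exact h

lemma PP_HH {a : ℝ} {p : ℂ × ℂ} {τ u : ℂ} (h : (bb p u, cc (EE a p τ) p u) ∈ WW) :
    PP (bb p u, cc (EE a p τ) p u) * HH a p τ u =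
      ((Real.log a : ℂ) + ee p + τ + lr p u) + Xi (bb p u, cc (EE a p τ) p u)
        - ((Real.log a : ℂ) - 3 * (1 - bet (bb p u, cc (EE a p τ) p u))
          * psi (bet (bb p u, cc (EE a p τ) p u))) := by
  have h1 := PP_ne h
  have h2 := mu_ne h
  unfold HH II JJ
  generalize (bb p u, cc (EE a p τ) p u) = z at h1 h2 ⊢
  have h3 : PP z = 3 * mu z ^ 2 * (1 - bet z) := rfl
  field_simp
  rw [h3]
  ring

lemma exp_L {a : ℝ} (ha : 0 < a) {ξ : ℂ} (hξ : ‖ξ‖ < 1) {p : ℂ × ℂ} (hp : p ∈ box ξ) (τ : ℂ) {u : ℂ}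
    (hu : ‖u‖ ≤ 1 - 1 / 3 * dd ξ) : exp ((Real.log a : ℂ) + ee p + τ + lr p u) =
      ll (EE a p τ) p + ll (EE a p τ) p.swap * u := by
  rw [← box_exp_lr hξ hp _ hu, EE, add_assoc (Real.log a : ℂ), exp_add, exp_add, ← ofReal_exp,
    Real.exp_log ha]

/-- The structure identity for the solution of the constraint. -/
theorem core_ST {a : ℝ} (ha : 0 < a)
    (hW : ∀ ξ : ℂ, ‖ξ‖ < 1 → ∀ p ∈ box ξ, ∀ τ : ℂ, ‖τ‖ < 2 → ∀ u : ℂ, 1 - 2 / 3 * dd ξ ≤ ‖u‖ →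
      ‖u‖ ≤ (1 - 2 / 3 * dd ξ)⁻¹ → (bb p u, cc (EE a p τ) p u) ∈ WW)
    {τ : ℂ × ℂ → ℂ} (hτ : DifferentiableOn ℂ τ NB)
    (hc : ∀ ξ : ℂ, ‖ξ‖ < 1 → ∀ p ∈ box ξ,
      avg (rad p) (HH a p (τ p)) + avg (rad p) (HH a p.swap (τ p)) = 0 ∧ ‖τ p‖ ≤ 1)
    {ξ : ℂ} (hξ : ‖ξ‖ < 1) (hξ0 : ξ ≠ 0) (w1 w2 : ℂ × ℂ) {ζ : ℂ} (hζ : ‖ζ‖ = 1) :
    STid xx (fun p => xx p.swap) (fun p => ll (EE a p (τ p)) p) (fun p => ll (EE a p (τ p)) p.swap)
      (fun p => m1 a p (τ p)) (fun p => m1 a p.swap (τ p)) (ξ, conj ξ) w1 w2 ζ := by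
  obtain ⟨h0, h1⟩ := dd_pos hξ
  have hξ' := norm_conj_lt hξ
  have hlt : ∀ p ∈ box ξ, ‖τ p‖ < 2 := fun p hp => by linarith [(hc ξ hξ p hp).2]
  have hτa : ∀ p ∈ box ξ, DifferentiableAt ℂ τ p := fun p hp =>
    hτ.differentiableAt (isOpen_NB.mem_nhds (box_subset hξ hp))
  have hτ1 : ∀ p ∈ box ξ, ∀ u : ℂ, DifferentiableAt ℂ (fun z : (ℂ × ℂ) × ℂ => τ z.1) (p, u) :=
    fun p hp u => DifferentiableAt.comp (g := τ) (f := fun z : (ℂ × ℂ) × ℂ => z.1) (p, u)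
      (hτa p hp) differentiableAt_fst
  have dsw : ∀ z : (ℂ × ℂ) × ℂ, DifferentiableAt ℂ (fun z : (ℂ × ℂ) × ℂ => z.1.swap) z := fun z =>
    differentiableAt_fst.snd.prodMk differentiableAt_fst.fst
  have dG : ∀ p ∈ box ξ, ∀ u : ℂ, 1 - 2 / 3 * dd ξ ≤ ‖u‖ → ‖u‖ ≤ 1 - 1 / 3 * dd ξ →
      DifferentiableAt ℂ (fun z : (ℂ × ℂ) × ℂ => HH a z.1 (τ z.1) z.2) (p, u) :=
    fun p hp u a b => HH_at hξ hp hW differentiableAt_fst (hτ1 p hp u) differentiableAt_snd rfl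
      (hlt p hp) a b
  have dG' : ∀ p ∈ box ξ, ∀ u : ℂ, 1 - 2 / 3 * dd ξ ≤ ‖u‖ → ‖u‖ ≤ 1 - 1 / 3 * dd ξ →
      DifferentiableAt ℂ (fun z : (ℂ × ℂ) × ℂ => HH a z.1.swap (τ z.1) z.2) (p, u) :=
    fun p hp u a b => HH_at hξ' (swap_mem_box hp) hW (dsw _) (hτ1 p hp u) differentiableAt_snd rfl
      (hlt p hp) (by rwa [dd_conj]) (by rwa [dd_conj])
  have sG : ∀ p ∈ box ξ, ∀ u : ℂ, 1 - 2 / 3 * dd ξ ≤ ‖u‖ → ‖u‖ ≤ 1 - 1 / 3 * dd ξ →
      DifferentiableAt ℂ (HH a p (τ p)) u := fun p hp u b c =>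
    DifferentiableAt.comp (g := fun z : (ℂ × ℂ) × ℂ => HH a z.1 (τ z.1) z.2) (f := fun u => (p, u))
      u (dG p hp u b c) (by fun_prop)
  have sG' : ∀ p ∈ box ξ, ∀ u : ℂ, 1 - 2 / 3 * dd ξ ≤ ‖u‖ → ‖u‖ ≤ 1 - 1 / 3 * dd ξ →
      DifferentiableAt ℂ (HH a p.swap (τ p)) u := fun p hp u b c =>
    DifferentiableAt.comp (g := fun z : (ℂ × ℂ) × ℂ => HH a z.1.swap (τ z.1) z.2)
      (f := fun u => (p, u)) u (dG' p hp u b c) (by fun_prop)
  have r1 : 1 - 2 / 3 * dd ξ ≤ 1 - 3 / 5 * dd ξ := by linarith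
  have r2 : 1 - 3 / 5 * dd ξ ≤ 1 - 1 / 3 * dd ξ := by linarith
  have r0 : 0 < 1 - 3 / 5 * dd ξ := by linarith
  obtain ⟨n, M, Ms, hn, hM, hMs, hout, hin, hz⟩ := split_thm (isOpen_box ξ)
    (α := 1 - 2 / 3 * dd ξ) (β := 1 - 1 / 3 * dd ξ) (R₁ := 1 - 3 / 5 * dd ξ)
    (R₂ := 1 - 2 / 5 * dd ξ) r0 (by linarith) (by linarith) (by linarith) (by linarith)
    (G := fun p => HH a p (τ p)) (G' := fun p => HH a p.swap (τ p))
    (fun p hp u a b => dG p hp u a.le b.le) (fun p hp u a b => dG' p hp u a.le b.le)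
    fun p hp => by
      rw [← avg_rad_eq hξ hp (sG p hp) r1 r2, ← avg_rad_eq hξ hp (sG' p hp) r1 r2]
      exact (hc ξ hξ p hp).1
  have hp₀ := self_mem_box hξ
  have dl : ∀ p ∈ box ξ, DifferentiableAt ℂ (fun p => ll (EE a p (τ p)) p) p ∧
      DifferentiableAt ℂ (fun p => ll (EE a p (τ p)) p.swap) p := fun p hp =>
    ll_at hξ hp (f := fun p => p) differentiableAt_id
      (EE_at hξ hp a (f := fun p => p) differentiableAt_id (hτa p hp) rfl) rfl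
  have bl : ∀ u ∈ ball (0 : ℂ) (1 - 2 / 5 * dd ξ), ‖u‖ ≤ 1 - 1 / 3 * dd ξ := fun u hu => by
    rw [mem_ball_zero_iff] at hu
    linarith
  have dee : ∀ p ∈ box ξ, ∀ u : ℂ, DifferentiableAt ℂ (fun z : (ℂ × ℂ) × ℂ => ee z.1) (p, u) :=
    fun p hp u => DifferentiableAt.comp (g := ee) (f := fun z : (ℂ × ℂ) × ℂ => z.1) (p, u)
      (ee_at hξ hp) differentiableAt_fst
  have eB1 : ∀ (p : ℂ × ℂ) (s : ℂ), s ≠ 0 → ((xx p * s + xx p.swap) ^ 2 / s,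
      (xx p * s + xx p.swap) * (ll (EE a p (τ p)) p * s + ll (EE a p (τ p)) p.swap) / s) =
      (bb p s⁻¹, cc (EE a p (τ p)) p s⁻¹) := fun p s hs => by
    unfold bb cc
    congr 1
    · field_simp
      ring
    · field_simp
  have eB2 : ∀ (p : ℂ × ℂ) (s : ℂ), s ≠ 0 → ((xx p * s + xx p.swap) ^ 2 / s,
      (xx p * s + xx p.swap) * (ll (EE a p (τ p)) p * s + ll (EE a p (τ p)) p.swap) / s) =
      (bb p.swap s, cc (EE a p.swap (τ p)) p.swap s) := fun p s hs => by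
    unfold bb cc
    rw [EE_swap, Prod.swap_swap]
    congr 1
    · field_simp
      ring
    · field_simp
      ring
  have inv1 : (1 - 3 / 5 * dd ξ)⁻¹ ≤ (1 - 2 / 3 * dd ξ)⁻¹ := inv_anti₀ (by linarith) r1
  have hWs : ∀ p ∈ box ξ, ∀ s : ℂ, 1 - 3 / 5 * dd ξ < ‖s‖ → ‖s‖ < (1 - 3 / 5 * dd ξ)⁻¹ →
      (bb p.swap s, cc (EE a p.swap (τ p)) p.swap s) ∈ WW := fun p hp s b c =>
    hW _ hξ' _ (swap_mem_box hp) _ (hlt p hp) s (by rw [dd_conj]; linarith)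
      (by rw [dd_conj]; linarith)
  have one2 : 1 < (1 - 2 / 5 * dd ξ)⁻¹ := (one_lt_inv₀ (by linarith)).2 (by linarith)
  have key := structure_thm (isOpen_box ξ) hp₀ r0 (ρ₂ := 1 - 2 / 5 * dd ξ) (by linarith)
    (by linarith) (x := xx) (y := fun p => xx p.swap) (l1 := fun p => ll (EE a p (τ p)) p)
    (l2 := fun p => ll (EE a p (τ p)) p.swap)
    (fun p hp => (xx_at hξ hp).differentiableWithinAt)
    (fun p hp => (xxs_at hξ hp).differentiableWithinAt)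
    (fun p hp => (dl p hp).1.differentiableWithinAt)
    (fun p hp => (dl p hp).2.differentiableWithinAt)
    (n := n) (M := M) (Ms := Ms)
    (Lo := fun z => (Real.log a : ℂ) + ee z.1 + τ z.1 + lr z.1 z.2)
    (Li := fun z => (Real.log a : ℂ) + ee z.1.swap + τ z.1 + lr z.1.swap z.2)
    (χ := fun β => (Real.log a : ℂ) - 3 * (1 - β) * psi β)
    ((differentiableOn_const _).sub (DifferentiableOn.mul (by fun_prop) psi_diff)) hn hM hMs
    (fun z hz => ((((dee z.1 hz.1 z.2).const_add _).add (hτ1 z.1 hz.1 z.2)).add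
      (lr_diffAt hξ hz.1 (bl _ hz.2))).differentiableWithinAt)
    (fun z hz => by
      simp only [ee_swap]
      refine ((((dee z.1 hz.1 z.2).const_add _).add (hτ1 z.1 hz.1 z.2)).add
        ?_).differentiableWithinAt
      exact DifferentiableAt.comp (g := fun z : (ℂ × ℂ) × ℂ => lr z.1 z.2)
        (f := fun z : (ℂ × ℂ) × ℂ => (z.1.swap, z.2)) z
        (lr_diffAt hξ' (swap_mem_box hz.1) (by rw [dd_conj]; exact bl _ hz.2))
        ((dsw z).prodMk differentiableAt_snd))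
    (B := fun p s => ((xx p * s + xx p.swap) ^ 2 / s,
      (xx p * s + xx p.swap) * (ll (EE a p (τ p)) p * s + ll (EE a p (τ p)) p.swap) / s))
    (fun _ _ => rfl)
    (fun p hp s b c => by
      rw [eB2 p s (norm_pos_iff.1 (r0.trans b))]
      exact hWs p hp s b c)
    (fun s hs h => by
      have hden : den (ξ, conj ξ) ≠ 0 := fun h => by
        have := (box_den hξ hp₀).1
        rw [h, norm_zero] at this
        linarith
      have e : xx (ξ, conj ξ) * s + xx (ξ, conj ξ).swap = (ξ * s + conj ξ) / den (ξ, conj ξ) := by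
        simp only [xx, den, Prod.swap_prod_mk, mul_comm (conj ξ) ξ]
        ring
      rw [e, div_eq_zero_iff, or_iff_left hden] at h
      have h3 : ‖ξ * s‖ = ‖ξ‖ := by
        rw [eq_neg_of_add_eq_zero_left h, norm_neg, norm_conj]
      rw [norm_mul] at h3
      have h4 : ‖s‖ = 1 := by
        have := norm_ne_zero_iff.2 hξ0
        field_simp at h3
        exact h3
      rcases hs with hs | hs
      · linarith [hs.2]
      · linarith [hs.1])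
    (fun p hp u hu => exp_L ha hξ hp _ (bl u hu))
    (fun p hp u hu => by
      have := exp_L ha hξ' (swap_mem_box hp) (τ p) (u := u) (by rw [dd_conj]; exact bl u hu)
      rwa [EE_swap, Prod.swap_swap] at this)
    (fun p hp s b c => by
      have hs0 : s ≠ 0 := norm_pos_iff.1 (by linarith)
      have hm := hWs p hp s (by linarith) c
      rw [← eB2 p s hs0, eB1 p s hs0] at hm
      simp only
      rw [eB1 p s hs0, hout p hp s b c, mul_add, PP_HH hm])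
    (fun p hp s b c => by
      have hs0 : s ≠ 0 := norm_pos_iff.1 (r0.trans b)
      have hm := hWs p hp s b (by
        have : 1 < (1 - 3 / 5 * dd ξ)⁻¹ := (one_lt_inv₀ r0).2 (by linarith)
        linarith)
      simp only
      rw [eB2 p s hs0, ← mul_neg, hin p hp s b c, mul_add, PP_HH hm])
    w1 w2 hζ
  refine STid_congr ?_ ?_ key
  · filter_upwards [(isOpen_box ξ).mem_nhds hp₀] with p hp
    rw [(hz p hp).1, m1, avg_rad_eq hξ hp (f := fun u => HH a p (τ p) u / u) (fun u b c =>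
      (sG p hp u b c).div differentiableAt_id (ne_zero_of_le hξ b)) r1 r2,
      avg_rad_eq hξ hp (f := fun u => u * HH a p.swap (τ p) u) (fun u b c =>
      differentiableAt_id.mul (sG' p hp u b c)) r1 r2]
  · filter_upwards [(isOpen_box ξ).mem_nhds hp₀] with p hp
    rw [(hz p hp).2, m1, rad_swap, Prod.swap_swap,
      avg_rad_eq hξ hp (f := fun u => HH a p.swap (τ p) u / u) (fun u b c =>
      (sG' p hp u b c).div differentiableAt_id (ne_zero_of_le hξ b)) r1 r2,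
      avg_rad_eq hξ hp (f := fun u => u * HH a p (τ p) u) (fun u b c =>
      differentiableAt_id.mul (sG p hp u b c)) r1 r2]

end Pool.Agent.Lib.MP_e941ef_an
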