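import Pool.Agent.Lib.MP_e941ef_an.Frame
import Pool.Agent.Lib.MP_e941ef_an.Canon
import Pool.Agent.Lib.MP_e941ef_an.NoLower

namespace Pool.Agent.Lib.MP_e941ef_an

open Complex Metric Set Filter Topology
open scoped ComplexConjugate ContDiff Matrix

/-- The kinetic energy of a frame as a positive definite quadratic form. -/
theorem frame_cometric {a1 a2 : ℝ × ℝ → ℂ} (h1 : ContDiff ℝ ∞ a1) (h2 : ContDiff ℝ ∞ a2)
    (h : ∀ v, detR a1 a2 v ≠ 0) : ∃ k11 k12 k22 : ℝ × ℝ → ℝ, ContDiff ℝ ∞ k11 ∧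
      ContDiff ℝ ∞ k12 ∧ ContDiff ℝ ∞ k22 ∧ (∀ y, 0 < k11 y ∧ 0 < k11 y * k22 y - k12 y ^ 2) ∧
      ∀ w : Ph, normSq (piC a1 a2 w) =
        k11 w.1 * w.2.1 ^ 2 + 2 * k12 w.1 * w.2.1 * w.2.2 + k22 w.1 * w.2.2 ^ 2 := by
  have r1 : ContDiff ℝ ∞ (fun v => (a1 v).re) := reCLM.contDiff.comp h1
  have i1 : ContDiff ℝ ∞ (fun v => (a1 v).im) := imCLM.contDiff.comp h1
  have r2 : ContDiff ℝ ∞ (fun v => (a2 v).re) := reCLM.contDiff.comp h2
  have i2 : ContDiff ℝ ∞ (fun v => (a2 v).im) := imCLM.contDiff.comp h2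
  have hD : ∀ v, detR a1 a2 v = 2 * ((a1 v).im * (a2 v).re - (a1 v).re * (a2 v).im) := by
    intro v
    simp only [detR, mul_im, conj_re, conj_im]
    ring
  have sD : ContDiff ℝ ∞ (fun v => detR a1 a2 v ^ 2) := by
    simp only [hD]
    exact (contDiff_const.mul ((i1.mul r2).sub (r1.mul i2))).pow 2
  have h0 : ∀ v, detR a1 a2 v ^ 2 ≠ 0 := fun v => pow_ne_zero 2 (h v)
  refine ⟨fun v => ((a2 v).re ^ 2 + (a2 v).im ^ 2) / detR a1 a2 v ^ 2,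
    fun v => -((a1 v).re * (a2 v).re + (a1 v).im * (a2 v).im) / detR a1 a2 v ^ 2,
    fun v => ((a1 v).re ^ 2 + (a1 v).im ^ 2) / detR a1 a2 v ^ 2,
    ((r2.pow 2).add (i2.pow 2)).div sD h0, ((r1.mul r2).add (i1.mul i2)).neg.div sD h0,
    ((r1.pow 2).add (i1.pow 2)).div sD h0, fun y => ⟨?_, ?_⟩, fun w => ?_⟩
  · refine div_pos ?_ (sq_pos_of_ne_zero (h y))
    by_contra hc
    have a : (a2 y).re = 0 := by nlinarith [sq_nonneg (a2 y).re, sq_nonneg (a2 y).im]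
    have b : (a2 y).im = 0 := by nlinarith [sq_nonneg (a2 y).re, sq_nonneg (a2 y).im]
    exact h y (by rw [hD, a, b]; ring)
  · have := h y
    have e : ((a2 y).re ^ 2 + (a2 y).im ^ 2) / detR a1 a2 y ^ 2 *
        (((a1 y).re ^ 2 + (a1 y).im ^ 2) / detR a1 a2 y ^ 2) -
        (-((a1 y).re * (a2 y).re + (a1 y).im * (a2 y).im) / detR a1 a2 y ^ 2) ^ 2 =
        1 / (4 * detR a1 a2 y ^ 2) := by
      field_simp
      rw [hD]
      ring
    rw [e]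
    positivity
  · have := h w.1
    rw [piC, map_div₀, map_mul, normSq_I, normSq_ofReal, normSq_apply]
    simp only [sub_re, mul_re, ofReal_re, conj_re, ofReal_im, conj_im, sub_im, mul_im]
    field_simp
    ring

private lemma RR_pos {y : ℝ × ℝ} (hy : y ≠ 0) : 0 < RR y := by
  refine lt_of_le_of_ne (by unfold RR; positivity) (fun h => hy (Prod.ext ?_ ?_))
  · exact pow_eq_zero_iff two_ne_zero |>.1 (by unfold RR at h; nlinarith [sq_nonneg y.1, sq_nonneg y.2])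
  · exact pow_eq_zero_iff two_ne_zero |>.1 (by unfold RR at h; nlinarith [sq_nonneg y.1, sq_nonneg y.2])

private lemma contDiff_RR : ContDiff ℝ ∞ RR := by
  unfold RR
  fun_prop

private lemma smooth_glue {Φ G : ℝ × ℝ → ℝ} (hΦ : ∀ y, y ≠ 0 → ContDiffAt ℝ ∞ Φ y)
    (hG : ContDiff ℝ ∞ G) (h : ∀ y, y ≠ 0 → RR y < 1 / 4 → Φ y = G y) :
    ∃ f : ℝ × ℝ → ℝ, ContDiff ℝ ∞ f ∧ (∀ y, y ≠ 0 → f y = Φ y) ∧ f 0 = G 0 := by
  classical
  refine ⟨fun y => if y = 0 then G 0 else Φ y, contDiff_iff_contDiffAt.2 (fun y => ?_),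
    fun y hy => if_neg hy, if_pos rfl⟩
  by_cases hy : y = 0
  · subst hy
    refine hG.contDiffAt.congr_of_eventuallyEq ?_
    filter_upwards [(contDiff_RR.continuous.tendsto 0).eventually_lt_const
      (show RR 0 < 1 / 4 by simp [RR])] with y hy
    split_ifs with h0
    · rw [h0]
    · exact h y h0 hy
  · refine (hΦ y hy).congr_of_eventuallyEq ?_
    filter_upwards [isOpen_ne.mem_nhds hy] with y hy
    exact if_neg hy

private lemma contDiffAt_tr {y : ℝ × ℝ} (hy : y ≠ 0) (p : ℝ × ℝ) :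
    ContDiffAt ℝ ∞ (fun y => tr (y, p)) y := by
  have h := (RR_pos hy).ne'
  have hR := contDiff_RR.contDiffAt (x := y)
  unfold tr
  refine ((contDiffAt_fst.div hR h).prodMk (contDiffAt_snd.div hR h)).prodMk
    (ContDiffAt.prodMk ?_ ?_) <;> simp only <;> fun_prop

private lemma RR_tr {w : Ph} (hw : w.1 ≠ 0) : RR (tr w).1 = (RR w.1)⁻¹ := by
  have h := (RR_pos hw).ne'
  simp only [tr]
  rw [RR]
  field_simp
  rfl

private lemma far_tr {w : Ph} (hw : w.1 ≠ 0) (h : RR w.1 < 1 / 4) : 4 < RR (tr w).1 := by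
  rw [RR_tr hw, lt_inv_comm₀ (by norm_num) (RR_pos hw)]
  linarith

private lemma piC_far (D : Data) {w : Ph} (h : 4 < RR w.1) :
    piC D.a1 D.a2 w = -(RR w.1 : ℂ) * (w.2.2 + w.2.1 * I) := by
  obtain ⟨h1, h2, -, -⟩ := D.far w.1 h
  have h0 : RR w.1 ≠ 0 := by linarith
  have h0' : (RR w.1 : ℂ) ≠ 0 := by exact_mod_cast h0
  have hD : detR D.a1 D.a2 w.1 = -1 / (2 * RR w.1 ^ 2) := by
    have : I / (2 * (RR w.1 : ℂ)) * conj (-1 / (2 * (RR w.1 : ℂ))) =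
        ((-1 / (4 * RR w.1 ^ 2) : ℝ) : ℂ) * I := by
      simp only [map_div₀, map_neg, map_one, map_mul, conj_ofReal, map_ofNat]
      push_cast
      field_simp
      ring
    rw [detR, h1, h2, this]
    simp only [mul_im, ofReal_re, I_im, ofReal_im, I_re]
    ring
  rw [piC, hD, h1, h2]
  simp only [map_div₀, map_neg, map_one, map_mul, conj_ofReal, map_ofNat, conj_I]
  push_cast
  field_simp
  ring_nf
  simp only [I_sq]
  ring

private lemma lin_eq (a1 a2 f : ℝ × ℝ → ℂ) (w : Ph) : lin a1 a2 f w =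
    2 * (f w.1 * conj (a2 w.1) / ((detR a1 a2 w.1 : ℂ) * I)).re * w.2.1
      - 2 * (f w.1 * conj (a1 w.1) / ((detR a1 a2 w.1 : ℂ) * I)).re * w.2.2 := by
  have : f w.1 * piC a1 a2 w =
      (w.2.1 : ℂ) * (f w.1 * conj (a2 w.1) / ((detR a1 a2 w.1 : ℂ) * I))
        - (w.2.2 : ℂ) * (f w.1 * conj (a1 w.1) / ((detR a1 a2 w.1 : ℂ) * I)) := by
    rw [piC]; ring
  rw [lin, this, sub_re, re_ofReal_mul, re_ofReal_mul]
  ring

private lemma lin_north (D : Data) {f : ℝ × ℝ → ℂ} (hf : ContDiff ℝ ∞ f) {G1 G2 : ℝ × ℝ → ℝ}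
    (h1 : ContDiff ℝ ∞ G1) (h2 : ContDiff ℝ ∞ G2)
    (h : ∀ w : Ph, w.1 ≠ 0 → RR w.1 < 1 / 4 →
      lin D.a1 D.a2 f (tr w) = G1 w.1 * w.2.1 + G2 w.1 * w.2.2) :
    ∃ q1 q2 : ℝ × ℝ → ℝ, ContDiff ℝ ∞ q1 ∧ ContDiff ℝ ∞ q2 ∧ ∀ w : Ph, w.1 ≠ 0 →
      lin D.a1 D.a2 f (tr w) = q1 w.1 * w.2.1 + q2 w.1 * w.2.2 := by
  have hs := fun (p : ℝ × ℝ) y (hy : y ≠ 0) =>
    (contDiff_lin D.sa1 D.sa2 D.nondeg hf).contDiffAt.comp y (contDiffAt_tr hy p)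
  obtain ⟨q1, a1, b1, -⟩ := smooth_glue (hs (1, 0)) h1 (fun y hy hR => by
    simpa using h (y, (1, 0)) hy hR)
  obtain ⟨q2, a2, b2, -⟩ := smooth_glue (hs (0, 1)) h2 (fun y hy hR => by
    simpa using h (y, (0, 1)) hy hR)
  refine ⟨q1, q2, a1, a2, fun w hw => ?_⟩
  rw [b1 _ hw, b2 _ hw]
  simp only [Function.comp, lin_eq, tr]
  ring

private lemma exists_poly5 {k11 k12 k22 q1 q2 m1 m2 U : ℝ × ℝ → ℝ} (h11 : ContDiff ℝ ∞ k11)
    (h12 : ContDiff ℝ ∞ k12) (h22 : ContDiff ℝ ∞ k22) (hq1 : ContDiff ℝ ∞ q1)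
    (hq2 : ContDiff ℝ ∞ q2) (hm1 : ContDiff ℝ ∞ m1) (hm2 : ContDiff ℝ ∞ m2)
    (hU : ContDiff ℝ ∞ U) : ∃ c : ℕ → ℕ → ℝ × ℝ → ℝ, (∀ i j, ContDiff ℝ ∞ (c i j)) ∧
      ∀ w : Ph, poly 5 c w = (q1 w.1 * w.2.1 + q2 w.1 * w.2.2) ^ 3 *
        (2 * (1 / 2 * (k11 w.1 * w.2.1 ^ 2 + 2 * k12 w.1 * w.2.1 * w.2.2 + k22 w.1 * w.2.2 ^ 2)
          + U w.1) - 3 / 5 * (q1 w.1 * w.2.1 + q2 w.1 * w.2.2) ^ 2
          + (q1 w.1 * w.2.1 + q2 w.1 * w.2.2) * (m1 w.1 * w.2.1 + m2 w.1 * w.2.2)) := by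
  obtain ⟨A, hA, eA⟩ : ∃ A : ℝ × ℝ → ℝ, ContDiff ℝ ∞ A ∧
      ∀ y, A y = k11 y - 3 / 5 * q1 y ^ 2 + q1 y * m1 y := ⟨_, by fun_prop, fun _ => rfl⟩
  obtain ⟨B, hB, eB⟩ : ∃ B : ℝ × ℝ → ℝ, ContDiff ℝ ∞ B ∧
      ∀ y, B y = 2 * k12 y - 6 / 5 * q1 y * q2 y + q1 y * m2 y + q2 y * m1 y :=
    ⟨_, by fun_prop, fun _ => rfl⟩
  obtain ⟨C, hC, eC⟩ : ∃ C : ℝ × ℝ → ℝ, ContDiff ℝ ∞ C ∧
      ∀ y, C y = k22 y - 3 / 5 * q2 y ^ 2 + q2 y * m2 y := ⟨_, by fun_prop, fun _ => rfl⟩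
  refine ⟨fun i j => match i, j with
    | 3, 0 => fun y => 2 * U y * q1 y ^ 3
    | 2, 1 => fun y => 6 * U y * q1 y ^ 2 * q2 y
    | 1, 2 => fun y => 6 * U y * q1 y * q2 y ^ 2
    | 0, 3 => fun y => 2 * U y * q2 y ^ 3
    | 5, 0 => fun y => q1 y ^ 3 * A y
    | 4, 1 => fun y => q1 y ^ 3 * B y + 3 * q1 y ^ 2 * q2 y * A y
    | 3, 2 => fun y => q1 y ^ 3 * C y + 3 * q1 y ^ 2 * q2 y * B y + 3 * q1 y * q2 y ^ 2 * A y
    | 2, 3 => fun y => 3 * q1 y ^ 2 * q2 y * C y + 3 * q1 y * q2 y ^ 2 * B y + q2 y ^ 3 * A y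
    | 1, 4 => fun y => 3 * q1 y * q2 y ^ 2 * C y + q2 y ^ 3 * B y
    | 0, 5 => fun y => q2 y ^ 3 * C y
    | _, _ => fun _ => 0, fun i j => ?_, fun w => ?_⟩
  · beta_reduce
    split <;> fun_prop
  · simp only [poly, Finset.sum_range_succ, Finset.range_zero, Finset.sum_empty, eA, eB, eC,
      Nat.reduceAdd, Nat.reduceSub]
    ring

/-- The system in the northern chart. -/
theorem north (D : Data) : ∃ (k11 k12 k22 : ℝ × ℝ → ℝ) (c : ℕ → ℕ → ℝ × ℝ → ℝ) (h : Ph → ℝ),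
    ContDiff ℝ ∞ k11 ∧ ContDiff ℝ ∞ k12 ∧ ContDiff ℝ ∞ k22 ∧
    (∀ y, 0 < k11 y ∧ 0 < k11 y * k22 y - k12 y ^ 2) ∧ (∀ i j, ContDiff ℝ ∞ (c i j)) ∧
    (∀ w : Ph, h w = 1 / 2 * (k11 w.1 * w.2.1 ^ 2 + 2 * k12 w.1 * w.2.1 * w.2.2
      + k22 w.1 * w.2.2 ^ 2) + expNegInvGlue (tt (RR w.1) - 2 / 3)) ∧
    (∀ w : Ph, w.1 ≠ 0 → h w = ham D.a1 D.a2 (fun v => pot (RR v)) (tr w)) ∧
    ∀ w : Ph, w.1 ≠ 0 → poly 5 c w = quint D.a1 D.a2 D.x D.l (fun v => pot (RR v)) (tr w) := by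
  obtain ⟨g11, g12, g22, s11, s12, s22, hp, hQ⟩ := frame_cometric D.sa1 D.sa2 D.nondeg
  set Q : Ph → ℝ := fun w => normSq (piC D.a1 D.a2 w) with hQd
  have sQ : ContDiff ℝ ∞ Q := by
    have : Q = fun w : Ph =>
        g11 w.1 * w.2.1 ^ 2 + 2 * g12 w.1 * w.2.1 * w.2.2 + g22 w.1 * w.2.2 ^ 2 := funext hQ
    rw [this]
    fun_prop
  have hs := fun (p : ℝ × ℝ) y (hy : y ≠ 0) => sQ.contDiffAt.comp y (contDiffAt_tr hy p)
  have hfar : ∀ w : Ph, w.1 ≠ 0 → RR w.1 < 1 / 4 → Q (tr w) = w.2.1 ^ 2 + w.2.2 ^ 2 := by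
    intro w hw hR
    have h0 := (RR_pos hw).ne'
    simp only [hQd]
    rw [piC_far D (far_tr hw hR), map_mul, normSq_neg, normSq_ofReal, normSq_add_mul_I, RR_tr hw]
    simp only [tr]
    field_simp
    simp only [RR]
    ring
  obtain ⟨k11, a11, b11, c11⟩ := smooth_glue (G := fun _ => 1) (hs (1, 0)) contDiff_const
    (fun y hy hR => by simpa using hfar (y, (1, 0)) hy hR)
  obtain ⟨k22, a22, b22, c22⟩ := smooth_glue (G := fun _ => 1) (hs (0, 1)) contDiff_const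
    (fun y hy hR => by simpa using hfar (y, (0, 1)) hy hR)
  obtain ⟨k12, a12, b12, c12⟩ := smooth_glue (G := fun _ => 0)
    (fun y hy => (((hs (1, 1) y hy).sub (hs (1, 0) y hy)).sub (hs (0, 1) y hy)).div_const 2)
    contDiff_const (fun y hy hR => by
      simp only [Function.comp]
      rw [hfar (y, (1, 1)) hy hR, hfar (y, (1, 0)) hy hR, hfar (y, (0, 1)) hy hR]
      norm_num)
  have hk : ∀ w : Ph, w.1 ≠ 0 → Q (tr w) =
      k11 w.1 * w.2.1 ^ 2 + 2 * k12 w.1 * w.2.1 * w.2.2 + k22 w.1 * w.2.2 ^ 2 := by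
    intro w hw
    rw [b11 _ hw, b22 _ hw, b12 _ hw]
    simp only [Function.comp, hQd, hQ, tr]
    ring
  obtain ⟨q1, q2, sq1, sq2, hq⟩ := lin_north D D.sx (G1 := fun y => y.2) (G2 := fun y => -y.1)
    contDiff_snd contDiff_fst.neg (fun w hw hR => by
      have h0 := (RR_pos hw).ne'
      have h1 := far_tr hw hR
      have h2 : ((RR (tr w).1 : ℝ) : ℂ) ≠ 0 := by exact_mod_cast (by linarith : RR (tr w).1 ≠ 0)
      rw [lin, piC_far D h1, (D.far _ h1).2.2.1,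
        show VV (tr w).1 / (2 * (RR (tr w).1 : ℂ)) * (-(RR (tr w).1 : ℂ) *
          ((tr w).2.2 + (tr w).2.1 * I)) = ((-1 / 2 : ℝ) : ℂ) * (VV (tr w).1 *
          ((tr w).2.2 + (tr w).2.1 * I)) by push_cast; field_simp, re_ofReal_mul]
      simp only [VV, mul_re, add_re, ofReal_re, I_re, ofReal_im, I_im, add_im, mul_im, tr]
      field_simp
      ring)
  obtain ⟨m1, m2, sm1, sm2, hm⟩ := lin_north D D.sl (G1 := fun _ => 0) (G2 := fun _ => 0)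
    contDiff_const contDiff_const (fun w hw hR => by
      rw [lin, (D.far _ (far_tr hw hR)).2.2.2]
      simp)
  have hU : ContDiff ℝ ∞ (fun y => expNegInvGlue (tt (RR y) - 2 / 3)) := by
    refine expNegInvGlue.contDiff.comp (ContDiff.sub ?_ contDiff_const)
    unfold tt
    exact (contDiff_const.sub contDiff_RR).div (contDiff_const.add contDiff_RR)
      (fun y => by unfold RR; positivity)
  obtain ⟨c, sc, hc⟩ := exists_poly5 a11 a12 a22 sq1 sq2 sm1 sm2 hU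
  have hh : ∀ w : Ph, w.1 ≠ 0 → 1 / 2 * (k11 w.1 * w.2.1 ^ 2 + 2 * k12 w.1 * w.2.1 * w.2.2
      + k22 w.1 * w.2.2 ^ 2) + expNegInvGlue (tt (RR w.1) - 2 / 3) =
      ham D.a1 D.a2 (fun v => pot (RR v)) (tr w) := by
    intro w hw
    have h0 := RR_pos hw
    have e : -tt (RR w.1)⁻¹ = tt (RR w.1) := by
      unfold tt
      field_simp
      ring
    rw [← hk w hw, ham, pot, RR_tr hw, e]
    simp only [hQd]
    ring
  refine ⟨k11, k12, k22, c, _, a11, a12, a22, fun y => ?_, sc, fun _ => rfl, hh, fun w hw => ?_⟩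
  · by_cases hy : y = 0
    · rw [hy, c11, c12, c22]
      norm_num
    · have h0 := RR_pos hy
      obtain ⟨p1, p2⟩ := hp (y.1 / RR y, y.2 / RR y)
      rw [b11 _ hy, b22 _ hy, b12 _ hy]
      simp only [Function.comp, hQd, hQ, tr]
      set a := g11 (y.1 / RR y, y.2 / RR y)
      set b := g12 (y.1 / RR y, y.2 / RR y)
      set d := g22 (y.1 / RR y, y.2 / RR y)
      have e1 : (RR y - 2 * y.1 ^ 2) ^ 2 + (2 * y.1 * y.2) ^ 2 = RR y ^ 2 := by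
        unfold RR; ring
      constructor
      · refine pos_of_mul_pos_left (b := a) ?_ p1.le
        by_cases h1 : 2 * y.1 * y.2 = 0
        · have h2 : 0 < (a * RR y) ^ 2 := by positivity
          have h3 : (RR y - 2 * y.1 ^ 2) ^ 2 = RR y ^ 2 := by rw [← e1, h1]; ring
          refine h2.trans_eq ?_
          linear_combination (-a ^ 2) * h3 +
            (2 * a * b * (RR y - 2 * y.1 ^ 2) - a * d * (2 * y.1 * y.2)) * h1
        · have := mul_pos p2 (sq_pos_of_ne_zero h1)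
          nlinarith [sq_nonneg (a * (RR y - 2 * y.1 ^ 2) - b * (2 * y.1 * y.2))]
      · refine (mul_pos p2 (pow_pos h0 4)).trans_eq ?_
        unfold RR
        ring
  · rw [hc, quint, hq w hw, hm w hw, hh w hw]

end Pool.Agent.Lib.MP_e941ef_an
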