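import Pool.Agent.Lib.MP_e941ef_an.Frame
import Pool.Agent.Lib.MP_e941ef_an.Extract

namespace Pool.Agent.Lib.MP_e941ef_an

open Complex Metric Set Filter Topology
open scoped ComplexConjugate ContDiff

theorem fderiv_ofReal_apply {X : Type*} [NormedAddCommGroup X] [NormedSpace ℝ X] {g : X → ℝ}
    {x : X} (hg : DifferentiableAt ℝ g x) (e : X) :
    fderiv ℝ (fun y => (g y : ℂ)) x e = (fderiv ℝ g x e : ℂ) := by
  have := (Complex.ofRealCLM.hasFDerivAt.comp x hg.hasFDerivAt).fderiv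
  have h2 : fderiv ℝ (fun y => (g y : ℂ)) x = Complex.ofRealCLM.comp (fderiv ℝ g x) := this
  rw [h2]
  rfl

/-- The derivative of the expansion in the base point. -/
theorem fderiv_expansion_v {φ : ℕ → ℕ → ℝ × ℝ → ℂ} (hφ : ∀ j k, Differentiable ℝ (φ j k))
    (N : ℕ) (z z' : ℂ) (v e : ℝ × ℝ) :
    fderiv ℝ (fun v' => ∑ j ∈ Finset.range N, ∑ k ∈ Finset.range (N - j),
        φ j k v' * z ^ j * z' ^ k) v e =
      ∑ j ∈ Finset.range N, ∑ k ∈ Finset.range (N - j),
        fderiv ℝ (φ j k) v e * z ^ j * z' ^ k := by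
  have : HasFDerivAt (fun v' => ∑ j ∈ Finset.range N, ∑ k ∈ Finset.range (N - j),
        φ j k v' * z ^ j * z' ^ k) (∑ j ∈ Finset.range N, ∑ k ∈ Finset.range (N - j),
        z' ^ k • (z ^ j • fderiv ℝ (φ j k) v)) v := by
    refine HasFDerivAt.fun_sum fun j _ => HasFDerivAt.fun_sum fun k _ => ?_
    exact (((hφ j k v).hasFDerivAt).mul_const (z ^ j)).mul_const (z' ^ k)
  rw [this.fderiv]
  simp only [sum_apply, smul_apply, smul_eq_mul]
  exact Finset.sum_congr rfl fun j _ => Finset.sum_congr rfl fun k _ => by ring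

/-- The derivative of the expansion in the frame coordinate. -/
theorem fderiv_expansion_z (a : ℕ → ℕ → ℂ) (N : ℕ) (z η : ℂ) :
    fderiv ℝ (fun z' : ℂ => ∑ j ∈ Finset.range N, ∑ k ∈ Finset.range (N - j),
        a j k * z' ^ j * conj z' ^ k) z η =
      ∑ j ∈ Finset.range N, ∑ k ∈ Finset.range (N - j),
        a j k * ((j : ℂ) * z ^ (j - 1) * η * conj z ^ k
          + (k : ℂ) * z ^ j * conj z ^ (k - 1) * conj η) := by
  have hid : HasFDerivAt (fun z' : ℂ => z') (ContinuousLinearMap.id ℝ ℂ) z := hasFDerivAt_id z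
  have hcj : HasFDerivAt (fun z' : ℂ => conj z') (Complex.conjCLE : ℂ →L[ℝ] ℂ) z :=
    (Complex.conjCLE : ℂ →L[ℝ] ℂ).hasFDerivAt
  have := HasFDerivAt.fun_sum (u := Finset.range N) fun j _ =>
    HasFDerivAt.fun_sum (u := Finset.range (N - j)) fun k _ =>
      ((hid.pow j).const_mul (a j k)).fun_mul (hcj.pow k)
  rw [this.fderiv]
  simp only [sum_apply, smul_apply, smul_eq_mul,
    add_apply, ContinuousLinearMap.id_apply, nsmul_eq_mul,
    ContinuousLinearEquiv.coe_coe, Complex.conjCLE_apply]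
  exact Finset.sum_congr rfl fun j _ => Finset.sum_congr rfl fun k _ => by ring

/-- The algebraic core of the recurrences. -/
theorem rec_alg {p A B : ℕ → ℕ → ℂ} {a1 a2 b1 b2 κ κ' W W' : ℂ}
    (hp : ∀ j k, 5 < j + k → p j k = 0)
    (h : ∀ z : ℂ,
      -(z * a2 - conj z * b2) *
          (∑ j ∈ Finset.range 6, ∑ k ∈ Finset.range (6 - j), A j k * z ^ j * conj z ^ k)
        + (z * a1 - conj z * b1) *
          (∑ j ∈ Finset.range 6, ∑ k ∈ Finset.range (6 - j), B j k * z ^ j * conj z ^ k)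
        + (z * κ + conj z * κ') * (∑ j ∈ Finset.range 6, ∑ k ∈ Finset.range (6 - j),
          p j k * ((j : ℂ) * z ^ (j - 1) * z * conj z ^ k
            + (k : ℂ) * z ^ j * conj z ^ (k - 1) * (-conj z)))
        - 2 * (∑ j ∈ Finset.range 6, ∑ k ∈ Finset.range (6 - j),
          p j k * ((j : ℂ) * z ^ (j - 1) * W' * conj z ^ k
            + (k : ℂ) * z ^ j * conj z ^ (k - 1) * (-W))) = 0) :
    (∀ j, j ≤ 5 → -(A j 0 * a2 - B j 0 * a1) + (j : ℂ) * κ * p j 0
        - 2 * ((j : ℂ) + 2) * W' * p (j + 2) 0 + 2 * W * p (j + 1) 1 = 0) ∧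
      ∀ j k, j + k ≤ 4 → -(A j (k + 1) * a2 - B j (k + 1) * a1)
        + ((j : ℂ) - (k + 1)) * κ * p j (k + 1)
        + (A (j + 1) k * b2 - B (j + 1) k * b1)
        + ((j : ℂ) + 1 - k) * κ' * p (j + 1) k
        - 2 * ((j : ℂ) + 2) * W' * p (j + 2) (k + 1)
        + 2 * ((k : ℂ) + 2) * W * p (j + 1) (k + 2) = 0 := by
  set e : ℕ → ℕ → ℂ := fun J K =>
    (if J = 0 then 0 else
      -(A (J - 1) K * a2 - B (J - 1) K * a1) + (((J - 1 : ℕ) : ℂ) - K) * κ * p (J - 1) K)
    + (if K = 0 then 0 else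
      (A J (K - 1) * b2 - B J (K - 1) * b1) + ((J : ℂ) - ((K - 1 : ℕ) : ℂ)) * κ' * p J (K - 1))
    - 2 * ((J : ℂ) + 1) * W' * p (J + 1) K + 2 * ((K : ℂ) + 1) * W * p J (K + 1) with he
  have key : ∀ z : ℂ, ∑ j ∈ Finset.range 7, ∑ k ∈ Finset.range (7 - j),
      e j k * z ^ j * conj z ^ k = 0 := by
    intro z
    rw [← h z]
    generalize conj z = y
    simp only [he, Finset.sum_range_succ, Finset.range_zero, Finset.sum_empty]
    norm_num
    rw [hp 6 0 (by norm_num), hp 5 1 (by norm_num), hp 4 2 (by norm_num), hp 3 3 (by norm_num),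
      hp 2 4 (by norm_num), hp 1 5 (by norm_num), hp 0 6 (by norm_num),
      hp 7 0 (by norm_num), hp 6 1 (by norm_num), hp 5 2 (by norm_num), hp 4 3 (by norm_num),
      hp 3 4 (by norm_num), hp 2 5 (by norm_num), hp 1 6 (by norm_num), hp 0 7 (by norm_num)]
    ring
  refine ⟨fun j hj => ?_, fun j k hjk => ?_⟩
  · have := extract_complex key (j := j + 1) (k := 0) (by omega)
    simp only [he, Nat.add_sub_cancel, if_neg (Nat.succ_ne_zero j), if_true] at this
    push_cast at this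
    linear_combination this
  · have := extract_complex key (j := j + 1) (k := k + 1) (by omega)
    simp only [he, Nat.add_sub_cancel, if_neg (Nat.succ_ne_zero j),
      if_neg (Nat.succ_ne_zero k)] at this
    push_cast at this
    linear_combination this

theorem two_re_eq (w : ℂ) : ((2 * w.re : ℝ) : ℂ) = w + conj w := by
  rw [Complex.add_conj]

theorem two_im_eq (w : ℂ) : I * ((2 * w.im : ℝ) : ℂ) = w - conj w := by
  rw [Complex.sub_conj]
  ring

/-- The equations satisfied by the frame coefficients of a polynomial integral. -/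
theorem recurrences {a1 a2 : ℝ × ℝ → ℂ} {U : ℝ × ℝ → ℝ} (h1 : ContDiff ℝ ∞ a1)
    (h2 : ContDiff ℝ ∞ a2) (h : ∀ v, detR a1 a2 v ≠ 0) (hU : ContDiff ℝ ∞ U)
    {c : ℕ → ℕ → ℝ × ℝ → ℝ} (hc : ∀ i j, ContDiff ℝ ∞ (c i j))
    (hint : ∀ w, bracket (ham a1 a2 U) (poly 5 c) w = 0) :
    ∃ φ : ℕ → ℕ → ℝ × ℝ → ℂ, (∀ j k, ContDiff ℝ ∞ (φ j k)) ∧
      (∀ j k, 5 < j + k → φ j k = 0) ∧
      ((∀ i j, i + j = 5 → c i j = 0) → ∀ j k, j + k = 5 → φ j k = 0) ∧
      (∀ v (z : ℂ), (poly 5 c (v, cov a1 a2 v z) : ℂ) =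
        ∑ j ∈ Finset.range 6, ∑ k ∈ Finset.range (6 - j), φ j k v * z ^ j * conj z ^ k) ∧
      (∀ j k v, φ k j v = conj (φ j k v)) ∧
      (∀ j v, -wedge a1 a2 (φ j 0) v + (j : ℂ) * curl a1 a2 v * φ j 0 v
        - 2 * ((j : ℂ) + 2) * conj (wedge a1 a2 (fun v => (U v : ℂ)) v) * φ (j + 2) 0 v
        + 2 * wedge a1 a2 (fun v => (U v : ℂ)) v * φ (j + 1) 1 v = 0) ∧
      ∀ j k v, -wedge a1 a2 (φ j (k + 1)) v + ((j : ℂ) - (k + 1)) * curl a1 a2 v * φ j (k + 1) v
        + wedge (fun v => conj (a1 v)) (fun v => conj (a2 v)) (φ (j + 1) k) v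
        + ((j : ℂ) + 1 - k) * conj (curl a1 a2 v) * φ (j + 1) k v
        - 2 * ((j : ℂ) + 2) * conj (wedge a1 a2 (fun v => (U v : ℂ)) v) * φ (j + 2) (k + 1) v
        + 2 * ((k : ℂ) + 2) * wedge a1 a2 (fun v => (U v : ℂ)) v * φ (j + 1) (k + 2) v = 0 := by
  have hcj : ∀ {f : ℝ × ℝ → ℂ}, ContDiff ℝ ∞ f → ContDiff ℝ ∞ fun v => conj (f v) :=
    fun hf => (Complex.conjCLE : ℂ →L[ℝ] ℂ).contDiff.comp hf
  obtain ⟨φ, hφ, hφ5, hφtop, hexp⟩ := subst_frame hc h1 h2 (hcj h1) (hcj h2)
  have hpoly : ∀ v (z : ℂ), (poly 5 c (v, cov a1 a2 v z) : ℂ) =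
      ∑ j ∈ Finset.range 6, ∑ k ∈ Finset.range (6 - j), φ j k v * z ^ j * conj z ^ k := by
    intro v z
    rw [← hexp v z (conj z)]
    simp only [poly, cov, Complex.ofReal_sum, Complex.ofReal_mul _ (_ ^ _), Complex.ofReal_pow,
      two_re_eq, map_mul]
  have hsymm : ∀ j k v, φ k j v = conj (φ j k v) := by
    intro j k v
    by_cases hjk : j + k < 6
    · have key : ∀ z : ℂ, ∑ j ∈ Finset.range 6, ∑ k ∈ Finset.range (6 - j),
          (φ j k v - conj (φ k j v)) * z ^ j * conj z ^ k = 0 := by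
        intro z
        have e1 := hpoly v z
        have e2 := congrArg conj e1
        rw [Complex.conj_ofReal, e1] at e2
        simp only [map_sum, map_mul, map_pow, Complex.conj_conj] at e2
        simp only [Finset.sum_range_succ, Finset.range_zero, Finset.sum_empty] at e2 ⊢
        norm_num at e2 ⊢
        linear_combination e2
      have := extract_complex key (j := k) (k := j) (by omega)
      linear_combination this
    · rw [hφ5 j k (by omega), hφ5 k j (by omega)]
      simp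
  have hG : Differentiable ℝ (poly 5 c) := (contDiff_poly hc).differentiable (by simp)
  have hd1 : Differentiable ℝ a1 := h1.differentiable (by simp)
  have hd2 : Differentiable ℝ a2 := h2.differentiable (by simp)
  have hdU : Differentiable ℝ U := hU.differentiable (by simp)
  have hdφ : ∀ j k, Differentiable ℝ (φ j k) := fun j k => (hφ j k).differentiable (by simp)
  have hre : Differentiable ℝ Complex.re := Complex.reCLM.differentiable
  have hcov1 : ∀ z : ℂ, Differentiable ℝ fun v' => cov a1 a2 v' z := by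
    intro z
    unfold cov
    exact ((hre.comp (hd1.const_mul z)).const_mul 2).prodMk
      ((hre.comp (hd2.const_mul z)).const_mul 2)
  have hcov2 : ∀ v, Differentiable ℝ fun z' : ℂ => cov a1 a2 v z' := by
    intro v
    unfold cov
    exact ((hre.comp (differentiable_id.mul_const (a1 v))).const_mul 2).prodMk
      ((hre.comp (differentiable_id.mul_const (a2 v))).const_mul 2)
  have hDv : ∀ v (z : ℂ) (e : ℝ × ℝ),
      (fderiv ℝ (fun v' => poly 5 c (v', cov a1 a2 v' z)) v e : ℂ) =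
        ∑ j ∈ Finset.range 6, ∑ k ∈ Finset.range (6 - j),
          fderiv ℝ (φ j k) v e * z ^ j * conj z ^ k := by
    intro v z e
    have hd : DifferentiableAt ℝ (fun v' => poly 5 c (v', cov a1 a2 v' z)) v :=
      (hG.comp (differentiable_id.prodMk (hcov1 z))) v
    rw [← fderiv_expansion_v hdφ, ← fderiv_ofReal_apply hd]
    simp only [← hpoly]
  have hDz : ∀ v (z η : ℂ),
      (fderiv ℝ (fun z' => poly 5 c (v, cov a1 a2 v z')) z η : ℂ) =
        ∑ j ∈ Finset.range 6, ∑ k ∈ Finset.range (6 - j),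
          φ j k v * ((j : ℂ) * z ^ (j - 1) * η * conj z ^ k
            + (k : ℂ) * z ^ j * conj z ^ (k - 1) * conj η) := by
    intro v z η
    have hd : DifferentiableAt ℝ (fun z' => poly 5 c (v, cov a1 a2 v z')) z :=
      (hG.comp ((differentiable_const v).prodMk (hcov2 v))) z
    rw [← fderiv_expansion_z (fun j k => φ j k v), ← fderiv_ofReal_apply hd]
    simp only [← hpoly]
  have main : ∀ v, _ := fun v => rec_alg (p := fun j k => φ j k v)
    (A := fun j k => pd1 (φ j k) v) (B := fun j k => pd2 (φ j k) v) (a1 := a1 v) (a2 := a2 v)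
    (b1 := conj (a1 v)) (b2 := conj (a2 v)) (κ := curl a1 a2 v) (κ' := conj (curl a1 a2 v))
    (W := wedge a1 a2 (fun v => (U v : ℂ)) v) (W' := conj (wedge a1 a2 (fun v => (U v : ℂ)) v))
    (fun j k hjk => by rw [hφ5 j k hjk]; rfl) (by
      intro z
      have e0 := frame_bracket h1 h2 h hU hG v z
      rw [hint, mul_zero] at e0
      have e1 := congrArg (fun r : ℝ => I * (r : ℂ)) e0
      set η := piC a1 a2 (v, (fderiv ℝ U v (1, 0), fderiv ℝ U v (0, 1))) with hη
      have hdet : (detR a1 a2 v : ℂ) ≠ 0 := by exact_mod_cast h v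
      have hW : wedge a1 a2 (fun v => (U v : ℂ)) v =
          (fderiv ℝ U v (1, 0) : ℂ) * a2 v - (fderiv ℝ U v (0, 1) : ℂ) * a1 v := by
        simp only [wedge, pd1, pd2, fderiv_ofReal_apply (hdU v)]
      have hη1 : I * (detR a1 a2 v : ℂ) * η = conj (wedge a1 a2 (fun v => (U v : ℂ)) v) := by
        rw [hW, hη]
        simp only [piC, map_sub, map_mul, Complex.conj_ofReal]
        field_simp
      have hη2 : I * (detR a1 a2 v : ℂ) * conj η = -wedge a1 a2 (fun v => (U v : ℂ)) v := by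
        have := congrArg conj hη1
        simp only [map_mul, Complex.conj_ofReal, Complex.conj_I, Complex.conj_conj] at this
        linear_combination -this
      have s1 : I * (fderiv ℝ (fun z' => poly 5 c (v, cov a1 a2 v z')) z (-I * z) : ℂ) =
          ∑ j ∈ Finset.range 6, ∑ k ∈ Finset.range (6 - j),
            φ j k v * ((j : ℂ) * z ^ (j - 1) * z * conj z ^ k
              + (k : ℂ) * z ^ j * conj z ^ (k - 1) * (-conj z)) := by
        rw [hDz, Finset.mul_sum]
        refine Finset.sum_congr rfl fun j _ => ?_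
        rw [Finset.mul_sum]
        refine Finset.sum_congr rfl fun k _ => ?_
        simp only [map_mul, map_neg, Complex.conj_I]
        linear_combination (φ j k v * (-((j : ℂ) * z ^ (j - 1) * z * conj z ^ k)
          + (k : ℂ) * z ^ j * conj z ^ (k - 1) * conj z)) * I_mul_I
      have s2 : I * (detR a1 a2 v : ℂ) *
          (fderiv ℝ (fun z' => poly 5 c (v, cov a1 a2 v z')) z η : ℂ) =
          ∑ j ∈ Finset.range 6, ∑ k ∈ Finset.range (6 - j),
            φ j k v * ((j : ℂ) * z ^ (j - 1) * conj (wedge a1 a2 (fun v => (U v : ℂ)) v)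
              * conj z ^ k + (k : ℂ) * z ^ j * conj z ^ (k - 1)
              * (-wedge a1 a2 (fun v => (U v : ℂ)) v)) := by
        rw [hDz, Finset.mul_sum]
        refine Finset.sum_congr rfl fun j _ => ?_
        rw [Finset.mul_sum]
        refine Finset.sum_congr rfl fun k _ => ?_
        rw [← hη1, ← hη2]
        ring
      have t1 := two_im_eq (z * a1 v)
      have t2 := two_im_eq (z * a2 v)
      have t3 := two_re_eq (z * curl a1 a2 v)
      simp only [map_mul] at t1 t2 t3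
      simp only [pd1, pd2]
      rw [← s1, ← s2, ← hDv, ← hDv, ← t1, ← t2, ← t3]
      push_cast at e1 ⊢
      linear_combination -e1)
  have hw0 : ∀ (b1 b2 : ℝ × ℝ → ℂ) v, wedge b1 b2 0 v = 0 := by
    intro b1 b2 v
    simp [wedge, pd1, pd2]
  refine ⟨φ, hφ, hφ5, hφtop, hpoly, hsymm, fun j v => ?_, fun j k v => ?_⟩
  · by_cases hj : j ≤ 5
    · exact (main v).1 j hj
    · rw [hφ5 j 0 (by omega), hφ5 (j + 2) 0 (by omega), hφ5 (j + 1) 1 (by omega), hw0]
      simp
  · by_cases hjk : j + k ≤ 4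
    · exact (main v).2 j k hjk
    · rw [hφ5 j (k + 1) (by omega), hφ5 (j + 1) k (by omega), hφ5 (j + 2) (k + 1) (by omega),
        hφ5 (j + 1) (k + 2) (by omega), hw0, hw0]
      simp

end Pool.Agent.Lib.MP_e941ef_an
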