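import Pool.Agent.Lib.MP_e941ef_an.Xi

namespace Pool.Agent.Lib.MP_e941ef_an

open Complex Metric Set Filter Topology
open scoped ComplexConjugate ContDiff

lemma key_I {q lam μ : ℂ} (hμ : μ ≠ 0) (hN : NN μ⁻¹ (q ^ 2 * μ ^ 2) ≠ 0)
    (he : μ ^ 3 - 3 / 5 * q ^ 2 * μ ^ 5 - (1 - 3 / 5 * q ^ 2) = q * lam) :
    Iint μ⁻¹ (q ^ 2 * μ ^ 2) * (q * lam) / μ =
      (μ - 1) * (3 * μ ^ 2 * (1 - q ^ 2 * μ ^ 2)) - q * (6 / 5 * q * (1 - μ ^ 5) - lam) := by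
  have hc : q * lam = (1 - μ⁻¹) * μ ^ 3 * NN μ⁻¹ (q ^ 2 * μ ^ 2) := by
    rw [← he]
    unfold NN
    field_simp
    ring
  have h1 : Iint μ⁻¹ (q ^ 2 * μ ^ 2) * (q * lam) / μ = 4 * (q * lam)
      - 3 * (μ⁻¹ + 1) * (1 - q ^ 2 * μ ^ 2 * (μ⁻¹ ^ 2 + 1)) * (1 - μ⁻¹) * μ ^ 2 := by
    unfold Iint
    rw [hc]
    generalize NN μ⁻¹ (q ^ 2 * μ ^ 2) = N at hN
    field_simp
  rw [h1]
  have h2 : 3 * (μ⁻¹ + 1) * (1 - q ^ 2 * μ ^ 2 * (μ⁻¹ ^ 2 + 1)) * (1 - μ⁻¹) * μ ^ 2 =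
      3 * (μ ^ 2 - 1) * (1 - q ^ 2 * (1 + μ ^ 2)) := by
    field_simp
    ring
  rw [h2]
  linear_combination (-3) * he

lemma wedge_alg {q lam μ mm J c dq dl dμ dm dq' dl' dμ' dm' : ℂ} (hq : q ≠ 0) (hl : lam ≠ 0)
    (hμ : μ ≠ 0)
    (he : μ ^ 3 - 3 / 5 * q ^ 2 * μ ^ 5 - (1 - 3 / 5 * q ^ 2) = q * lam)
    (hJ : J * (q * lam) / μ =
      (μ - 1) * (3 * μ ^ 2 * (1 - q ^ 2 * μ ^ 2)) - q * (6 / 5 * q * (1 - μ ^ 5) - lam))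
    (R : 3 * μ ^ 2 * (1 - q ^ 2 * μ ^ 2) * dμ + 6 / 5 * q * (1 - μ ^ 5) * dq = q * dl + lam * dq)
    (R' : 3 * μ ^ 2 * (1 - q ^ 2 * μ ^ 2) * dμ' + 6 / 5 * q * (1 - μ ^ 5) * dq'
      = q * dl' + lam * dq') :
    (μ * dq + q * dμ) * (dl' / lam + (J * (-dμ' / μ ^ 2)
        + c * (2 * q * μ ^ 2 * dq' + 2 * q ^ 2 * μ * dμ')
        + 3 * μ ^ 2 * (1 - q ^ 2 * μ ^ 2) * dm'
        + mm * (6 * μ * (1 - q ^ 2 * μ ^ 2) * dμ'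
          - 3 * μ ^ 2 * (2 * q * μ ^ 2 * dq' + 2 * q ^ 2 * μ * dμ'))))
      - (μ * dq' + q * dμ') * (dl / lam + (J * (-dμ / μ ^ 2)
        + c * (2 * q * μ ^ 2 * dq + 2 * q ^ 2 * μ * dμ)
        + 3 * μ ^ 2 * (1 - q ^ 2 * μ ^ 2) * dm
        + mm * (6 * μ * (1 - q ^ 2 * μ ^ 2) * dμ
          - 3 * μ ^ 2 * (2 * q * μ ^ 2 * dq + 2 * q ^ 2 * μ * dμ)))) =
      (dq * dl' - dq' * dl) / lam
        + ((3 * (1 - 3 / 5 * q ^ 2 + q * lam) * dq + q * (-(6 / 5) * q * dq + q * dl + lam * dq)) * dm'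
          - (3 * (1 - 3 / 5 * q ^ 2 + q * lam) * dq'
            + q * (-(6 / 5) * q * dq' + q * dl' + lam * dq')) * dm)
        - 2 * mm * q * (dl * dq' - dl' * dq) := by
  have hA : (μ * dq + q * dμ) * (dl' / lam + J * (-dμ' / μ ^ 2))
      - (μ * dq' + q * dμ') * (dl / lam + J * (-dμ / μ ^ 2)) = (dq * dl' - dq' * dl) / lam := by
    have hJ' : J = ((μ - 1) * (3 * μ ^ 2 * (1 - q ^ 2 * μ ^ 2))
        - q * (6 / 5 * q * (1 - μ ^ 5) - lam)) * μ / (q * lam) := by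
      rw [← hJ]
      field_simp
    have e1 : dl = (3 * μ ^ 2 * (1 - q ^ 2 * μ ^ 2) * dμ + 6 / 5 * q * (1 - μ ^ 5) * dq
        - lam * dq) / q := by
      rw [R]
      field_simp
      ring
    have e2 : dl' = (3 * μ ^ 2 * (1 - q ^ 2 * μ ^ 2) * dμ' + 6 / 5 * q * (1 - μ ^ 5) * dq'
        - lam * dq') / q := by
      rw [R']
      field_simp
      ring
    rw [hJ', e1, e2]
    field_simp
    ring
  linear_combination hA + (q * dm') * R - (q * dm) * R' + 3 * (dq * dm' - dq' * dm) * he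
    + 2 * mm * dq * R' - 2 * mm * dq' * R

/-- The local computation of the 2-form. -/
lemma local_form {E : Type} [NormedAddCommGroup E] [NormedSpace ℂ E] {z₀ : E}
    {q lam Lg mm η : E → ℂ} {χ : ℂ → ℂ} (hχ : DifferentiableOn ℂ χ (ball 0 1))
    (dq : DifferentiableAt ℂ q z₀) (dl : DifferentiableAt ℂ lam z₀)
    (dL : DifferentiableAt ℂ Lg z₀) (dm : DifferentiableAt ℂ mm z₀)
    (hW : ∀ᶠ z in 𝓝 z₀, (q z ^ 2, q z * lam z) ∈ WW) (hq : q z₀ ≠ 0) (hl : lam z₀ ≠ 0)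
    (hη : η =ᶠ[𝓝 z₀] fun z => Lg z + Xi (q z ^ 2, q z * lam z) - χ (bet (q z ^ 2, q z * lam z))
      + PP (q z ^ 2, q z * lam z) * mm z) (u w : E) :
    fderiv ℂ (fun z => q z * mu (q z ^ 2, q z * lam z)) z₀ u *
        (fderiv ℂ lam z₀ w / lam z₀ - fderiv ℂ Lg z₀ w + fderiv ℂ η z₀ w)
      - fderiv ℂ (fun z => q z * mu (q z ^ 2, q z * lam z)) z₀ w *
        (fderiv ℂ lam z₀ u / lam z₀ - fderiv ℂ Lg z₀ u + fderiv ℂ η z₀ u) =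
      (fderiv ℂ q z₀ u * fderiv ℂ lam z₀ w - fderiv ℂ q z₀ w * fderiv ℂ lam z₀ u) / lam z₀
        + ((3 * (1 - 3 / 5 * q z₀ ^ 2 + q z₀ * lam z₀) * fderiv ℂ q z₀ u
            + q z₀ * (-(6 / 5) * q z₀ * fderiv ℂ q z₀ u + q z₀ * fderiv ℂ lam z₀ u
              + lam z₀ * fderiv ℂ q z₀ u)) * fderiv ℂ mm z₀ w
          - (3 * (1 - 3 / 5 * q z₀ ^ 2 + q z₀ * lam z₀) * fderiv ℂ q z₀ w
            + q z₀ * (-(6 / 5) * q z₀ * fderiv ℂ q z₀ w + q z₀ * fderiv ℂ lam z₀ w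
              + lam z₀ * fderiv ℂ q z₀ w)) * fderiv ℂ mm z₀ u)
        - 2 * mm z₀ * q z₀ *
          (fderiv ℂ lam z₀ u * fderiv ℂ q z₀ w - fderiv ℂ lam z₀ w * fderiv ℂ q z₀ u) := by
  have hW₀ : (q z₀ ^ 2, q z₀ * lam z₀) ∈ WW := hW.self_of_nhds
  set μ : E → ℂ := fun z => mu (q z ^ 2, q z * lam z) with hμdef
  have dbc : DifferentiableAt ℂ (fun z => (q z ^ 2, q z * lam z)) z₀ :=
    (dq.pow 2).prodMk (dq.mul dl)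
  have dμ : DifferentiableAt ℂ μ z₀ :=
    DifferentiableAt.comp (g := mu) (f := fun z => (q z ^ 2, q z * lam z)) z₀
      (mu_diff.differentiableAt (isOpen_WW.mem_nhds hW₀)) dbc
  have hμ0 : μ z₀ ≠ 0 := mu_ne hW₀
  have hq' := dq.hasFDerivAt
  have hl' := dl.hasFDerivAt
  have hL' := dL.hasFDerivAt
  have hm' := dm.hasFDerivAt
  have hμ' := dμ.hasFDerivAt
  -- the implicit relation
  have R : ∀ v : E, 3 * μ z₀ ^ 2 * (1 - q z₀ ^ 2 * μ z₀ ^ 2) * fderiv ℂ μ z₀ v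
      + 6 / 5 * q z₀ * (1 - μ z₀ ^ 5) * fderiv ℂ q z₀ v
      = q z₀ * fderiv ℂ lam z₀ v + lam z₀ * fderiv ℂ q z₀ v := by
    intro v
    have h1 := ((hμ'.pow 3).sub (((hq'.pow 2).const_mul (3 / 5 : ℂ)).mul (hμ'.pow 5))).sub
      (((hq'.pow 2).const_mul (3 / 5 : ℂ)).const_sub 1)
    have h2 := hq'.mul hl'
    have h3 : (fun z => μ z ^ 3 - 3 / 5 * q z ^ 2 * μ z ^ 5 - (1 - 3 / 5 * q z ^ 2)) =ᶠ[𝓝 z₀]
        fun z => q z * lam z := hW.mono fun z hz => mu_eq hz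
    have h4 := (h1.congr_of_eventuallyEq (f₁ := fun z => q z * lam z) h3.symm).unique h2
    have h5 := congrArg (fun L => L v) h4
    simp only [_root_.sub_apply, _root_.add_apply,
      _root_.smul_apply, _root_.neg_apply, smul_eq_mul, nsmul_eq_mul,
      Nat.reduceSub, Nat.cast_ofNat, pow_one] at h5
    linear_combination h5
  have hX₀ : ((μ z₀)⁻¹, q z₀ ^ 2 * μ z₀ ^ 2) ∈ WX := mem_WX hW₀
  have hβ₀ : q z₀ ^ 2 * μ z₀ ^ 2 ∈ ball (0 : ℂ) 1 := mem_ball_zero_iff.2 hX₀.1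
  have hβ' := (hq'.pow 2).mul (hμ'.pow 2)
  have hν' := (hasDerivAt_inv hμ0).comp_hasFDerivAt z₀ hμ'
  have hXT := (XiT_diff.differentiableAt (isOpen_WX.mem_nhds hX₀)).hasFDerivAt
  have hXi := hXT.comp z₀ (hν'.prodMk hβ')
  have hχ' := (hχ.differentiableAt (isOpen_ball.mem_nhds hβ₀)).hasDerivAt.comp_hasFDerivAt z₀ hβ'
  have hP' := (((hμ'.pow 2).const_mul (3 : ℂ)).mul (hβ'.const_sub 1))
  have hη' := (((hL'.add hXi).sub hχ').add (hP'.mul hm')).congr_of_eventuallyEq (f₁ := η) hη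
  have hℓ := (hq'.mul hμ').fderiv
  obtain ⟨c01, hc01⟩ : ∃ c, fderiv ℂ XiT ((μ z₀)⁻¹, q z₀ ^ 2 * μ z₀ ^ 2) (0, 1) = c := ⟨_, rfl⟩
  have hT : ∀ a b : ℂ, fderiv ℂ XiT ((μ z₀)⁻¹, q z₀ ^ 2 * μ z₀ ^ 2) (a, b) =
      Iint (μ z₀)⁻¹ (q z₀ ^ 2 * μ z₀ ^ 2) * a + c01 * b := by
    intro a b
    have : ((a, b) : ℂ × ℂ) = a • (1, 0) + b • (0, 1) := by simp
    rw [this, map_add, map_smul, map_smul, XiT_fderiv hX₀, hc01]
    simp only [smul_eq_mul]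
    ring
  have eη : ∀ v : E, fderiv ℂ η z₀ v = fderiv ℂ Lg z₀ v
      + (Iint (μ z₀)⁻¹ (q z₀ ^ 2 * μ z₀ ^ 2) * (-fderiv ℂ μ z₀ v / μ z₀ ^ 2)
      + (c01 - deriv χ (q z₀ ^ 2 * μ z₀ ^ 2)) *
        (2 * q z₀ * μ z₀ ^ 2 * fderiv ℂ q z₀ v + 2 * q z₀ ^ 2 * μ z₀ * fderiv ℂ μ z₀ v)
      + 3 * μ z₀ ^ 2 * (1 - q z₀ ^ 2 * μ z₀ ^ 2) * fderiv ℂ mm z₀ v
      + mm z₀ * (6 * μ z₀ * (1 - q z₀ ^ 2 * μ z₀ ^ 2) * fderiv ℂ μ z₀ v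
        - 3 * μ z₀ ^ 2 *
          (2 * q z₀ * μ z₀ ^ 2 * fderiv ℂ q z₀ v + 2 * q z₀ ^ 2 * μ z₀ * fderiv ℂ μ z₀ v))) := by
    intro v
    rw [hη'.fderiv]
    simp only [_root_.sub_apply, _root_.add_apply,
      _root_.smul_apply, _root_.neg_apply, smul_eq_mul, nsmul_eq_mul,
      Nat.reduceSub, Nat.cast_ofNat, pow_one, ContinuousLinearMap.comp_apply,
      ContinuousLinearMap.prod_apply, hT, Pi.mul_apply]
    ring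
  have eℓ : ∀ v : E, fderiv ℂ (fun z => q z * μ z) z₀ v
      = μ z₀ * fderiv ℂ q z₀ v + q z₀ * fderiv ℂ μ z₀ v := by
    intro v
    have : (fun z => q z * μ z) = q * μ := rfl
    rw [this, hℓ]
    simp only [_root_.add_apply, _root_.smul_apply, smul_eq_mul]
    ring
  have hN : NN (μ z₀)⁻¹ (q z₀ ^ 2 * μ z₀ ^ 2) ≠ 0 := NN_ne hX₀
  have he : μ z₀ ^ 3 - 3 / 5 * q z₀ ^ 2 * μ z₀ ^ 5 - (1 - 3 / 5 * q z₀ ^ 2) = q z₀ * lam z₀ :=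
    mu_eq hW₀
  have := wedge_alg (mm := mm z₀) (dm := fderiv ℂ mm z₀ u) (dm' := fderiv ℂ mm z₀ w)
    (c := c01 - deriv χ (q z₀ ^ 2 * μ z₀ ^ 2))
    hq hl hμ0 he (key_I hμ0 hN he) (R u) (R w)
  rw [eℓ u, eℓ w, eη u, eη w]
  linear_combination this

/-- `dF = P'(ℓ) dℓ`. -/
lemma dF_eq {E : Type} [NormedAddCommGroup E] [NormedSpace ℂ E] {z₀ : E} {q lam : E → ℂ}
    (dq : DifferentiableAt ℂ q z₀) (dl : DifferentiableAt ℂ lam z₀)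
    (hW : ∀ᶠ z in 𝓝 z₀, (q z ^ 2, q z * lam z) ∈ WW) : ∃ c : ℂ, ∀ v : E,
    (3 * q z₀ ^ 2 - 3 * q z₀ ^ 4 + 4 * q z₀ ^ 3 * lam z₀) * fderiv ℂ q z₀ v
      + q z₀ ^ 4 * fderiv ℂ lam z₀ v =
      c * fderiv ℂ (fun z => q z * mu (q z ^ 2, q z * lam z)) z₀ v := by
  have hW₀ : (q z₀ ^ 2, q z₀ * lam z₀) ∈ WW := hW.self_of_nhds
  have dbc : DifferentiableAt ℂ (fun z => (q z ^ 2, q z * lam z)) z₀ :=
    (dq.pow 2).prodMk (dq.mul dl)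
  have dμ : DifferentiableAt ℂ (fun z => mu (q z ^ 2, q z * lam z)) z₀ :=
    DifferentiableAt.comp (g := mu) (f := fun z => (q z ^ 2, q z * lam z)) z₀
      (mu_diff.differentiableAt (isOpen_WW.mem_nhds hW₀)) dbc
  set ℓ : E → ℂ := fun z => q z * mu (q z ^ 2, q z * lam z) with hℓ
  have dℓ : DifferentiableAt ℂ ℓ z₀ := dq.mul dμ
  have hq' := dq.hasFDerivAt
  have hl' := dl.hasFDerivAt
  have hℓ' := dℓ.hasFDerivAt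
  refine ⟨3 * ℓ z₀ ^ 2 - 3 * ℓ z₀ ^ 4, fun v => ?_⟩
  have h1 := (hℓ'.pow 3).sub ((hℓ'.pow 5).const_mul (3 / 5 : ℂ))
  have h2 := ((hq'.pow 3).sub ((hq'.pow 5).const_mul (3 / 5 : ℂ))).add ((hq'.pow 4).mul hl')
  have h3 : (fun z => q z ^ 3 - 3 / 5 * q z ^ 5 + q z ^ 4 * lam z) =ᶠ[𝓝 z₀]
      fun z => ℓ z ^ 3 - 3 / 5 * ℓ z ^ 5 := hW.mono fun z hz => by
    have := mu_eq hz
    simp only [hℓ] at this ⊢
    linear_combination (-q z ^ 3) * this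
  have h4 := (h1.congr_of_eventuallyEq
    (f₁ := fun z => q z ^ 3 - 3 / 5 * q z ^ 5 + q z ^ 4 * lam z) h3).unique h2
  have h5 := congrArg (fun L => L v) h4
  simp only [_root_.sub_apply, _root_.add_apply,
    _root_.smul_apply, smul_eq_mul, nsmul_eq_mul,
    Nat.reduceSub, Nat.cast_ofNat] at h5
  linear_combination -h5

end Pool.Agent.Lib.MP_e941ef_an
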