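import Pool.Agent.Lib.MP_e941ef_an.Defs

namespace Pool.Agent.Lib.MP_e941ef_an

open Complex Metric Set Filter Topology
open scoped ComplexConjugate ContDiff Matrix RealInnerProductSpace

private lemma den_pos (y : ℝ × ℝ) : 0 < 1 + y.1 ^ 2 + y.2 ^ 2 := by positivity

private lemma inner_E3 (x ξ : E3) : ⟪x, ξ⟫ = x 0 * ξ 0 + x 1 * ξ 1 + x 2 * ξ 2 := by
  simp only [PiLp.inner_apply, Fin.sum_univ_three, RCLike.inner_apply, conj_trivial]
  ring

private lemma stereo_zero (b : Bool) (y : ℝ × ℝ) :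
    stereo b y 0 = 2 * y.1 / (1 + y.1 ^ 2 + y.2 ^ 2) := by
  simp [stereo, div_eq_inv_mul]

private lemma stereo_one (b : Bool) (y : ℝ × ℝ) :
    stereo b y 1 = 2 * y.2 / (1 + y.1 ^ 2 + y.2 ^ 2) := by
  simp [stereo, div_eq_inv_mul]

private lemma stereo_two' (b : Bool) (y : ℝ × ℝ) :
    stereo b y 2 = (if b then 1 else -1) * (1 - y.1 ^ 2 - y.2 ^ 2) / (1 + y.1 ^ 2 + y.2 ^ 2) := by
  simp only [stereo, div_eq_inv_mul, PiLp.smul_apply, smul_eq_mul]
  rfl

private lemma E3_ext {x y : E3} (h0 : x 0 = y 0) (h1 : x 1 = y 1) (h2 : x 2 = y 2) : x = y := by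
  ext i
  fin_cases i
  · exact h0
  · exact h1
  · exact h2

private lemma differentiable_stereo (b : Bool) : Differentiable ℝ (stereo b) := by
  rw [differentiable_euclidean]
  intro i
  have h := fun y => (den_pos y).ne'
  fin_cases i
  · simp only [Fin.zero_eta, stereo_zero]
    simp only [div_eq_mul_inv]
    exact Differentiable.mul (by fun_prop) (Differentiable.inv (by fun_prop) h)
  · simp only [Fin.mk_one, stereo_one]
    simp only [div_eq_mul_inv]
    exact Differentiable.mul (by fun_prop) (Differentiable.inv (by fun_prop) h)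
  · simp only [Fin.reduceFinMk, stereo_two']
    simp only [div_eq_mul_inv]
    exact Differentiable.mul (by fun_prop) (Differentiable.inv (by fun_prop) h)

private lemma inner_fderiv (b : Bool) (y u : ℝ × ℝ) (ξ : E3) :
    ⟪ξ, fderiv ℝ (stereo b) y u⟫ = 2 / (1 + y.1 ^ 2 + y.2 ^ 2) * (ξ 0 * u.1 + ξ 1 * u.2)
      - 4 * (y.1 * u.1 + y.2 * u.2) / (1 + y.1 ^ 2 + y.2 ^ 2) ^ 2 *
        (ξ 0 * y.1 + ξ 1 * y.2 + (if b then 1 else -1) * ξ 2) := by
  have h1 := (innerSL ℝ ξ).hasFDerivAt.comp y (differentiable_stereo b y).hasFDerivAt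
  set ε : ℝ := if b then 1 else -1 with hε
  have h2 : (innerSL ℝ ξ) ∘ stereo b = fun y : ℝ × ℝ =>
      (ξ 0 * (2 * y.1) + ξ 1 * (2 * y.2) + ξ 2 * ε * (1 - y.1 ^ 2 - y.2 ^ 2)) *
        (1 + y.1 ^ 2 + y.2 ^ 2)⁻¹ := by
    funext y
    simp only [Function.comp, innerSL_apply_apply, inner_E3, stereo_zero, stereo_one, stereo_two',
      ← hε]
    ring
  rw [h2] at h1
  have f1 : HasFDerivAt (fun y : ℝ × ℝ => y.1) (ContinuousLinearMap.fst ℝ ℝ ℝ) y := hasFDerivAt_fst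
  have f2 : HasFDerivAt (fun y : ℝ × ℝ => y.2) (ContinuousLinearMap.snd ℝ ℝ ℝ) y := hasFDerivAt_snd
  have h3 := ((((f1.const_mul 2).const_mul (ξ 0)).add ((f2.const_mul 2).const_mul (ξ 1))).add
    ((((f1.pow 2).const_sub 1).sub (f2.pow 2)).const_mul (ξ 2 * ε))).mul
    ((hasDerivAt_inv (den_pos y).ne').comp_hasFDerivAt y (((f1.pow 2).const_add 1).add (f2.pow 2)))
  have h4 := congrArg (fun L : (ℝ × ℝ) →L[ℝ] ℝ => L u) (h1.unique h3)
  simp only [ContinuousLinearMap.comp_apply, innerSL_apply_apply] at h4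
  rw [h4]
  have := (den_pos y).ne'
  simp
  field_simp
  ring

/-- The momenta of a covector in a chart. -/
private noncomputable def mom (b : Bool) (y : ℝ × ℝ) (ξ : E3) : ℝ × ℝ :=
  (⟪ξ, fderiv ℝ (stereo b) y (1, 0)⟫, ⟪ξ, fderiv ℝ (stereo b) y (0, 1)⟫)

theorem norm_stereo (b : Bool) (y : ℝ × ℝ) : ‖stereo b y‖ = 1 := by
  have h : ‖stereo b y‖ ^ 2 = 1 := by
    rw [← real_inner_self_eq_norm_sq, inner_E3, stereo_zero, stereo_one, stereo_two']
    have := (den_pos y).ne'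
    cases b <;> simp <;> field_simp <;> ring
  nlinarith [norm_nonneg (stereo b y)]

theorem stereo_two (b : Bool) (y : ℝ × ℝ) :
    stereo b y 2 = (if b then 1 else -1) * tt (RR y) := by
  rw [stereo_two', tt, RR]
  ring

private lemma exists_lift' (b : Bool) (w : Ph) :
    ∃ z : Cot, z.1.1 = stereo b w.1 ∧ mom b w.1 z.1.2 = w.2 := by
  have hd := (den_pos w.1).ne'
  refine ⟨⟨(stereo b w.1, !₂[(1 + w.1.1 ^ 2 + w.1.2 ^ 2) / 2 * w.2.1 -
      (w.1.1 * w.2.1 + w.1.2 * w.2.2) * w.1.1, (1 + w.1.1 ^ 2 + w.1.2 ^ 2) / 2 * w.2.2 -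
      (w.1.1 * w.2.1 + w.1.2 * w.2.2) * w.1.2,
      -(if b then 1 else -1) * (w.1.1 * w.2.1 + w.1.2 * w.2.2)]), norm_stereo b w.1, ?_⟩, rfl, ?_⟩
  · rw [inner_E3, stereo_zero, stereo_one, stereo_two']
    cases b <;> simp <;> field_simp <;> ring
  · refine Prod.ext ?_ ?_ <;> simp only [mom, inner_fderiv] <;> cases b <;> simp <;> field_simp <;>
      ring

/-- Every point of a chart of the cotangent bundle comes from a covector. -/
theorem exists_lift (b : Bool) (w : Ph) : ∃ z : Cot, z.1.1 = stereo b w.1 ∧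
    ∀ {F : Cot → ℝ} {f : Ph → ℝ}, Coord b F f → F z = f w := by
  obtain ⟨z, h1, h2⟩ := exists_lift' b w
  refine ⟨z, h1, fun {F f} h => ?_⟩
  rw [h z w.1 h1]
  exact congrArg f (Prod.ext rfl h2)

theorem Coord.unique {b : Bool} {F : Cot → ℝ} {f g : Ph → ℝ} (hf : Coord b F f)
    (hg : Coord b F g) : f = g := by
  funext w
  obtain ⟨z, -, h⟩ := exists_lift b w
  rw [← h hf, ← h hg]

private lemma sq_sum (z : Cot) : z.1.1 0 ^ 2 + z.1.1 1 ^ 2 + z.1.1 2 ^ 2 = 1 := by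
  have h := real_inner_self_eq_norm_sq z.1.1
  rw [z.2.1, inner_E3] at h
  linarith

private lemma eq_stereo_true (z : Cot) (h : z.1.1 2 ≠ -1) :
    z.1.1 = stereo true (z.1.1 0 / (1 + z.1.1 2), z.1.1 1 / (1 + z.1.1 2)) := by
  have h1 : 1 + z.1.1 2 ≠ 0 := fun h' => h (by linarith)
  have h2 := sq_sum z
  have h3 : 1 + (z.1.1 0 / (1 + z.1.1 2)) ^ 2 + (z.1.1 1 / (1 + z.1.1 2)) ^ 2 =
      2 / (1 + z.1.1 2) := by
    field_simp
    linear_combination h2
  refine E3_ext ?_ ?_ ?_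
  · rw [stereo_zero, h3]; field_simp
  · rw [stereo_one, h3]; field_simp
  · rw [stereo_two', h3]
    simp only [if_true]
    field_simp
    linear_combination h2

private lemma eq_stereo_false (z : Cot) (h : z.1.1 2 = -1) : z.1.1 = stereo false 0 := by
  have h2 := sq_sum z
  rw [h] at h2
  refine E3_ext ?_ ?_ ?_
  · rw [stereo_zero]; simp; nlinarith [sq_nonneg (z.1.1 0), sq_nonneg (z.1.1 1)]
  · rw [stereo_one]; simp; nlinarith [sq_nonneg (z.1.1 0), sq_nonneg (z.1.1 1)]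
  · rw [stereo_two', h]; simp

/-- The two charts cover the cotangent bundle. -/
theorem exists_chart (z : Cot) : ∃ (b : Bool) (w : Ph), (b = false → w.1 = 0) ∧
    ∀ {F : Cot → ℝ} {f : Ph → ℝ}, Coord b F f → F z = f w := by
  by_cases h : z.1.1 2 = -1
  · exact ⟨false, (0, _), fun _ => rfl, fun hF => hF z 0 (eq_stereo_false z h)⟩
  · exact ⟨true, (_, _), fun h => absurd h (by simp), fun hF => hF z _ (eq_stereo_true z h)⟩

private lemma RR_ne {y : ℝ × ℝ} (hy : y ≠ 0) : y.1 ^ 2 + y.2 ^ 2 ≠ 0 := by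
  intro h
  refine hy (Prod.ext ?_ ?_)
  · exact pow_eq_zero_iff two_ne_zero |>.1 (by nlinarith [sq_nonneg y.1, sq_nonneg y.2])
  · exact pow_eq_zero_iff two_ne_zero |>.1 (by nlinarith [sq_nonneg y.1, sq_nonneg y.2])

private lemma den_inv {y : ℝ × ℝ} (hy : y ≠ 0) :
    1 + (y.1 / RR y) ^ 2 + (y.2 / RR y) ^ 2 = (1 + y.1 ^ 2 + y.2 ^ 2) / (y.1 ^ 2 + y.2 ^ 2) := by
  have := RR_ne hy
  rw [RR]
  field_simp
  ring

private lemma stereo_false_eq {y : ℝ × ℝ} (hy : y ≠ 0) :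
    stereo false y = stereo true (y.1 / RR y, y.2 / RR y) := by
  have h1 := RR_ne hy
  have h2 := (den_pos y).ne'
  refine E3_ext ?_ ?_ ?_
  · rw [stereo_zero, stereo_zero, den_inv hy, RR]; field_simp
  · rw [stereo_one, stereo_one, den_inv hy, RR]; field_simp
  · rw [stereo_two', stereo_two', den_inv hy, RR]
    simp only [if_true, Bool.false_eq_true, if_false]
    field_simp
    ring

private lemma tr_mom {y : ℝ × ℝ} (hy : y ≠ 0) (ξ : E3) :
    tr (y, mom false y ξ) =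
      ((y.1 / RR y, y.2 / RR y), mom true (y.1 / RR y, y.2 / RR y) ξ) := by
  have h1 := RR_ne hy
  have h2 := (den_pos y).ne'
  refine Prod.ext rfl (Prod.ext ?_ ?_) <;>
  · simp only [tr, mom, inner_fderiv, den_inv hy]
    simp only [RR, if_true, Bool.false_eq_true, if_false]
    field_simp
    ring

/-- The transition between the charts. -/
theorem Coord.trans {F : Cot → ℝ} {f g : Ph → ℝ} (hf : Coord true F f) (hg : Coord false F g)
    {w : Ph} (hw : w.1 ≠ 0) : g w = f (tr w) := by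
  obtain ⟨z, h1, h2⟩ := exists_lift' false w
  have h3 : w = (w.1, mom false w.1 z.1.2) := Prod.ext rfl h2.symm
  rw [h3, tr_mom hw]
  exact (hg z _ h1).symm.trans (hf z _ (h1.trans (stereo_false_eq hw)))

/-- Gluing. -/
theorem exists_glue {f g : Ph → ℝ} (h : ∀ w : Ph, w.1 ≠ 0 → g w = f (tr w)) :
    ∃ F : Cot → ℝ, Coord true F f ∧ Coord false F g := by
  set F : Cot → ℝ := fun z => if z.1.1 2 = -1 then g (0, mom false 0 z.1.2) else
    f ((z.1.1 0 / (1 + z.1.1 2), z.1.1 1 / (1 + z.1.1 2)),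
      mom true (z.1.1 0 / (1 + z.1.1 2), z.1.1 1 / (1 + z.1.1 2)) z.1.2) with hF
  have h1 : Coord true F f := by
    intro z y hz
    have hd := (den_pos y).ne'
    have h2 : 1 + z.1.1 2 = 2 / (1 + y.1 ^ 2 + y.2 ^ 2) := by
      rw [hz, stereo_two']
      simp only [if_true]
      field_simp
      ring
    have h3 : z.1.1 2 ≠ -1 := by
      intro h3
      have := div_pos two_pos (den_pos y)
      linarith
    have h4 : (z.1.1 0 / (1 + z.1.1 2), z.1.1 1 / (1 + z.1.1 2)) = y := by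
      rw [h2, hz, stereo_zero, stereo_one]
      refine Prod.ext ?_ ?_ <;> simp only <;> field_simp
    simp only [hF, if_neg h3, h4]
    rfl
  refine ⟨F, h1, fun z y hz => ?_⟩
  by_cases hy : y = 0
  · subst hy
    have h2 : z.1.1 2 = -1 := by rw [hz, stereo_two']; simp
    simp only [hF, if_pos h2]
    rfl
  · rw [h1 z _ (hz.trans (stereo_false_eq hy))]
    have := h (y, mom false y z.1.2) hy
    rw [tr_mom hy] at this
    exact this.symm

/-- A smooth positive definite cometric is the inverse of a smooth metric. -/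
theorem exists_metric {k11 k12 k22 : ℝ × ℝ → ℝ} (h11 : ContDiff ℝ ∞ k11) (h12 : ContDiff ℝ ∞ k12)
    (h22 : ContDiff ℝ ∞ k22) (hp : ∀ y, 0 < k11 y ∧ 0 < k11 y * k22 y - k12 y ^ 2) :
    ∃ g : ℝ × ℝ → Matrix (Fin 2) (Fin 2) ℝ, (∀ i j, ContDiff ℝ ∞ fun y => g y i j) ∧
      (∀ y, (g y).PosDef) ∧ ∀ y (p : ℝ × ℝ), ![p.1, p.2] ⬝ᵥ (g y)⁻¹ *ᵥ ![p.1, p.2] =
        k11 y * p.1 ^ 2 + 2 * k12 y * p.1 * p.2 + k22 y * p.2 ^ 2 := by
  have hd : ∀ y, k11 y * k22 y - k12 y ^ 2 ≠ 0 := fun y => (hp y).2.ne'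
  have hD : ContDiff ℝ ∞ (fun y => k11 y * k22 y - k12 y ^ 2) := (h11.mul h22).sub (h12.pow 2)
  have hk : ∀ y, (!![k11 y, k12 y; k12 y, k22 y] : Matrix (Fin 2) (Fin 2) ℝ).PosDef := by
    intro y
    rw [Matrix.posDef_iff_dotProduct_mulVec]
    refine ⟨?_, fun x hx => ?_⟩
    · ext i j
      fin_cases i <;> fin_cases j <;> simp
    · simp only [Matrix.mulVec, dotProduct, Fin.sum_univ_two, star_trivial, Matrix.of_apply,
        Matrix.cons_val', Matrix.cons_val_zero, Matrix.cons_val_one, Matrix.cons_val_fin_one]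
      obtain ⟨a, b⟩ := hp y
      by_cases h1 : x 1 = 0
      · have h0 : x 0 ≠ 0 := fun h0 => hx (by ext i; fin_cases i <;> simp [h0, h1])
        rw [h1]
        have := mul_pos a (sq_pos_of_ne_zero h0)
        nlinarith
      · have := mul_pos b (sq_pos_of_ne_zero h1)
        refine pos_of_mul_pos_left (b := k11 y) ?_ a.le
        nlinarith [sq_nonneg (k11 y * x 0 + k12 y * x 1)]
  have hinv : ∀ y, (!![k11 y, k12 y; k12 y, k22 y] : Matrix (Fin 2) (Fin 2) ℝ)⁻¹ =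
      !![k22 y / (k11 y * k22 y - k12 y ^ 2), -k12 y / (k11 y * k22 y - k12 y ^ 2);
        -k12 y / (k11 y * k22 y - k12 y ^ 2), k11 y / (k11 y * k22 y - k12 y ^ 2)] := by
    intro y
    have := hd y
    have h' : k22 y * k11 y - k12 y ^ 2 ≠ 0 := by rwa [mul_comm]
    refine Matrix.inv_eq_left_inv ?_
    ext i j
    fin_cases i <;> fin_cases j <;> simp [Matrix.mul_apply, Fin.sum_univ_two] <;> field_simp <;> ring
  refine ⟨fun y => (!![k11 y, k12 y; k12 y, k22 y])⁻¹, fun i j => ?_, fun y => (hk y).inv,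
    fun y p => ?_⟩
  · simp only [hinv]
    fin_cases i <;> fin_cases j
    · exact h22.div hD hd
    · exact h12.neg.div hD hd
    · exact h12.neg.div hD hd
    · exact h11.div hD hd
  · rw [Matrix.nonsing_inv_nonsing_inv _ (Matrix.isUnit_iff_isUnit_det _ |>.1 (hk y).isUnit)]
    simp [Matrix.mulVec, dotProduct, Fin.sum_univ_two]
    ring

end Pool.Agent.Lib.MP_e941ef_an
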