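import Mathlib

/-!
The definitions used in the statement of the answer to MP_e941ef_an.

The sphere is the unit sphere of Euclidean 3-space, covered by the two stereographic charts.
A covector at `x` is represented by the tangent vector `ξ` through `w ↦ ⟪ξ, w⟫`.
-/

namespace Pool.Agent.Lib.MP_e941ef_an

open scoped ContDiff RealInnerProductSpace Matrix

noncomputable section

/-- Euclidean 3-space. -/
abbrev E3 : Type := EuclideanSpace ℝ (Fin 3)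

/-- The cotangent bundle of the unit sphere: pairs `(x, ξ)` with `‖x‖ = 1` and `ξ ⊥ x`. -/
def Cot : Type := {z : E3 × E3 // ‖z.1‖ = 1 ∧ ⟪z.1, z.2⟫ = 0}

/-- Phase space of a chart: coordinates `w.1 = (x₁, x₂)` and momenta `w.2 = (p₁, p₂)`. -/
abbrev Ph : Type := (ℝ × ℝ) × (ℝ × ℝ)

/-- The two stereographic parametrisations of the sphere (centred at the poles `(0, 0, 1)` and
`(0, 0, -1)`); together they cover it. -/
def stereo (b : Bool) (y : ℝ × ℝ) : E3 :=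
  (1 + y.1 ^ 2 + y.2 ^ 2)⁻¹ •
    !₂[2 * y.1, 2 * y.2, (if b then 1 else -1) * (1 - y.1 ^ 2 - y.2 ^ 2)]

/-- `f` is the expression of `F` in the chart `b`, with the momenta `pᵢ = ξ (∂ / ∂xᵢ)`. -/
def Coord (b : Bool) (F : Cot → ℝ) (f : Ph → ℝ) : Prop :=
  ∀ (z : Cot) (y : ℝ × ℝ), z.1.1 = stereo b y →
    F z = f (y, (⟪z.1.2, fderiv ℝ (stereo b) y (1, 0)⟫, ⟪z.1.2, fderiv ℝ (stereo b) y (0, 1)⟫))

/-- The canonical Poisson bracket `∑ ∂f/∂pᵢ ∂g/∂xᵢ - ∂f/∂xᵢ ∂g/∂pᵢ` in a chart. -/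
def bracket (f g : Ph → ℝ) (w : Ph) : ℝ :=
  fderiv ℝ f w (0, (1, 0)) * fderiv ℝ g w ((1, 0), 0)
    - fderiv ℝ f w ((1, 0), 0) * fderiv ℝ g w (0, (1, 0))
    + (fderiv ℝ f w (0, (0, 1)) * fderiv ℝ g w ((0, 1), 0)
    - fderiv ℝ f w ((0, 1), 0) * fderiv ℝ g w (0, (0, 1)))

/-- The polynomial `∑_{i + j ≤ d} c i j (x) p₁ ^ i p₂ ^ j`. -/
def poly (d : ℕ) (c : ℕ → ℕ → ℝ × ℝ → ℝ) (w : Ph) : ℝ :=
  ∑ i ∈ Finset.range (d + 1), ∑ j ∈ Finset.range (d + 1 - i), c i j w.1 * w.2.1 ^ i * w.2.2 ^ j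

/-- `H = (1/2) gⁱʲ pᵢ pⱼ + U` for a smooth Riemannian metric `g` and a smooth function `U`. -/
def IsNatural (H : Cot → ℝ) (U : E3 → ℝ) : Prop :=
  ∀ b, ∃ g : ℝ × ℝ → Matrix (Fin 2) (Fin 2) ℝ, (∀ i j, ContDiff ℝ ∞ fun y => g y i j) ∧
    (∀ y, (g y).PosDef) ∧ ContDiff ℝ ∞ (fun y => U (stereo b y)) ∧
    Coord b H fun w =>
      1 / 2 * (![w.2.1, w.2.2] ⬝ᵥ (g w.1)⁻¹ *ᵥ ![w.2.1, w.2.2]) + U (stereo b w.1)

/-- `F` is a polynomial in the momenta of degree exactly `d` with smooth coefficients. -/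
def IsPolyDeg (F : Cot → ℝ) (d : ℕ) : Prop :=
  ∃ c : Bool → ℕ → ℕ → ℝ × ℝ → ℝ, (∀ b i j, ContDiff ℝ ∞ (c b i j)) ∧
    (∀ b, Coord b F (poly d (c b))) ∧ ∃ b y i, i ≤ d ∧ c b i (d - i) y ≠ 0

/-- `{H, F} = 0`. -/
def IsIntegral (H F : Cot → ℝ) : Prop :=
  ∀ b h f, Coord b H h → Coord b F f → ∀ w, bracket h f w = 0

/-- `F` is a function of `H`. -/
def IsTrivial (H F : Cot → ℝ) : Prop := ∃ φ : ℝ → ℝ, ∀ z, F z = φ (H z)

end

end Pool.Agent.Lib.MP_e941ef_an
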